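import Mathlib

set_option autoImplicit false

/-!
Connected spanning subgraphs of degree two are Hamilton cycles.
-/

namespace Pool.Agent.Helper37Ham

open SimpleGraph

theorem one_cycle {V : Type} [Finite V] [DecidableEq V] {G G' : SimpleGraph V}
    (hle : G' ≤ G) (h2 : ∀ v, (G'.neighborSet v).ncard = 2) (hc : G'.Connected) :
    ∃ p : Σ v : V, G.Walk v v, p.2.IsHamiltonianCycle ∧ ∀ e ∈ p.2.edges, e ∈ G'.edgeSet := by
  classical
  have := Fintype.ofFinite V
  obtain ⟨a⟩ := hc.nonempty
  have hcyc : G'.IsCycles := fun v _ => h2 v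
  have hn : (G'.neighborSet a).Nonempty := Set.nonempty_of_ncard_ne_zero (by rw [h2]; decide)
  obtain ⟨p, hp, hs⟩ := hcyc.exists_cycle_toSubgraph_verts_eq_connectedComponentSupp
    (c := G'.connectedComponentMk a) rfl hn
  have hall : ∀ v, v ∈ p.support := by
    intro v
    rw [← SimpleGraph.Walk.mem_verts_toSubgraph, hs,
      SimpleGraph.ConnectedComponent.mem_supp_iff, SimpleGraph.ConnectedComponent.eq]
    exact hc.preconnected v a
  have hpH : p.IsHamiltonianCycle := by
    refine ⟨hp, ?_⟩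
    refine hp.isPath_tail.isHamiltonian_of_mem fun v => ?_
    have h1 := hall v
    have h3 := SimpleGraph.Walk.support_tail_of_not_nil p hp.not_nil
    rw [h3]
    rw [← SimpleGraph.Walk.cons_tail_support] at h1
    rcases List.mem_cons.1 h1 with h | h
    · subst h
      exact SimpleGraph.Walk.end_mem_tail_support hp.not_nil
    · exact h
  refine ⟨⟨a, p.map (SimpleGraph.Hom.ofLE hle)⟩, hpH.map Function.bijective_id, ?_⟩
  intro e he
  rw [SimpleGraph.Walk.edges_map, List.mem_map] at he
  obtain ⟨e', he', rfl⟩ := he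
  have h1 : Sym2.map (SimpleGraph.Hom.ofLE hle) e' = e' := by
    have h2 : ((SimpleGraph.Hom.ofLE hle : G' →g G) : V → V) = id := rfl
    rw [h2, Sym2.map_id]
    rfl
  rw [h1]
  exact SimpleGraph.Walk.edges_subset_edgeSet p he'

/-- the passage from subgraphs to closed walks -/
theorem cycles_of {V : Type} [Finite V] [DecidableEq V] {k : ℕ} (G : SimpleGraph V)
    (C : Fin k → SimpleGraph V) (h1 : ∀ i, C i ≤ G)
    (h2 : ∀ i j a b, (C i).Adj a b → (C j).Adj a b → i = j)
    (h3 : ∀ i v, ((C i).neighborSet v).ncard = 2) (h4 : ∀ i, (C i).Connected) :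
    ∃ p : Fin k → Σ v : V, G.Walk v v, (∀ i, (p i).2.IsHamiltonianCycle) ∧
      ∀ i j, i ≠ j → ∀ e ∈ (p i).2.edges, e ∉ (p j).2.edges := by
  choose p hp1 hp2 using fun i => one_cycle (h1 i) (h3 i) (h4 i)
  refine ⟨p, hp1, ?_⟩
  intro i j hij e he he'
  have h5 := hp2 i e he
  have h6 := hp2 j e he'
  induction e with
  | _ a b =>
    rw [SimpleGraph.mem_edgeSet] at h5 h6
    exact hij (h2 i j a b h5 h6)

end Pool.Agent.Helper37Ham
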