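import Pool.Agent.X76.Det2

set_option autoImplicit false

/-!
Selection of edges at a vertex, when not all edges are coloured.
-/

namespace Pool.Agent.Helper37Ham

open Finset Pool.Agent.H160R2.HF Pool.Agent.X76.Det

/-- selection of edges at a vertex, with rounded column sums -/
theorem select_le {C X : Type} [Fintype C] [Fintype X] [DecidableEq C] [DecidableEq X]
    (M cap : C → X → ℕ) (κ : C → X → X) (p : ℕ) (hp : 0 < p) (hi : C → X → ℕ)
    (h0 : ∀ c y, M c y ≤ p * cap c y) (h1 : ∀ c, ∑ y, M c y = p * 2)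
    (h3 : ∀ c k, (∑ y, if κ c y = k then M c y else 0) ≤ p * hi c k) :
    ∃ T : C → X → ℕ, (∀ c y, T c y ≤ cap c y) ∧ (∀ c, ∑ y, T c y = 2) ∧
      (∀ y, (∑ c, M c y) / p ≤ ∑ c, T c y ∧ ∑ c, T c y ≤ (∑ c, M c y + (p - 1)) / p) ∧
      ∀ c k, (∑ y, if κ c y = k then T c y else 0) ≤ hi c k := by
  let t : (C × X) ⊕ ((C × X) ⊕ X) → C ⊕ ((C × X) ⊕ Option X) := fun e => match e with
    | Sum.inl q => Sum.inl q.1
    | Sum.inr (Sum.inl q) => Sum.inr (Sum.inl (q.1, κ q.1 q.2))
    | Sum.inr (Sum.inr y) => Sum.inr (Sum.inr (some y))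
  let h : (C × X) ⊕ ((C × X) ⊕ X) → C ⊕ ((C × X) ⊕ Option X) := fun e => match e with
    | Sum.inl q => Sum.inr (Sum.inl q)
    | Sum.inr (Sum.inl q) => Sum.inr (Sum.inr (some q.2))
    | Sum.inr (Sum.inr _) => Sum.inr (Sum.inr none)
  let lo : (C × X) ⊕ ((C × X) ⊕ X) → ℤ := fun e => match e with
    | Sum.inl _ => 0
    | Sum.inr (Sum.inl _) => 0
    | Sum.inr (Sum.inr y) => (((∑ c, M c y) / p : ℕ) : ℤ)
  let up : (C × X) ⊕ ((C × X) ⊕ X) → ℤ := fun e => match e with
    | Sum.inl q => (hi q.1 q.2 : ℤ)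
    | Sum.inr (Sum.inl q) => (cap q.1 q.2 : ℤ)
    | Sum.inr (Sum.inr y) => (((∑ c, M c y + (p - 1)) / p : ℕ) : ℤ)
  let G : (C × X) ⊕ ((C × X) ⊕ X) → ℤ := fun e => match e with
    | Sum.inl q => ∑ y, if κ q.1 y = q.2 then (M q.1 y : ℤ) else 0
    | Sum.inr (Sum.inl q) => (M q.1 q.2 : ℤ)
    | Sum.inr (Sum.inr y) => ∑ c, (M c y : ℤ)
  let d : C ⊕ ((C × X) ⊕ Option X) → ℤ := fun v => match v with
    | Sum.inl _ => 2
    | Sum.inr (Sum.inl _) => 0
    | Sum.inr (Sum.inr (some _)) => 0
    | Sum.inr (Sum.inr none) => - (2 * (Fintype.card C : ℤ))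
  have hn1 : ∀ (g : (C × X) ⊕ ((C × X) ⊕ X) → ℤ) (c : C),
      net t h g (Sum.inl c) = ∑ k, g (Sum.inl (c, k)) := by
    intro g c
    rw [net_eq, Fintype.sum_sum_type, Fintype.sum_sum_type, Fintype.sum_sum_type,
      Fintype.sum_sum_type, Fintype.sum_prod_type]
    simp only [t, h, Sum.inl.injEq, reduceCtorEq, if_false, Finset.sum_const_zero, add_zero,
      sub_zero]
    rw [Finset.sum_eq_single c]
    · simp
    · intro c' _ hne
      simp [hne]
    · simp
  have hn2 : ∀ (g : (C × X) ⊕ ((C × X) ⊕ X) → ℤ) (c : C) (k : X),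
      net t h g (Sum.inr (Sum.inl (c, k))) =
        (∑ y, if κ c y = k then g (Sum.inr (Sum.inl (c, y))) else 0) - g (Sum.inl (c, k)) := by
    intro g c k
    rw [net_eq, Fintype.sum_sum_type, Fintype.sum_sum_type, Fintype.sum_sum_type,
      Fintype.sum_sum_type]
    simp only [t, h, Sum.inr.injEq, Sum.inl.injEq, reduceCtorEq, if_false, Finset.sum_const_zero,
      add_zero, zero_add, Prod.mk.injEq]
    congr 1
    · rw [Fintype.sum_prod_type, Finset.sum_eq_single c]
      · simp
      · intro c' _ hne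
        simp [hne]
      · simp
    · simp
  have hn3 : ∀ (g : (C × X) ⊕ ((C × X) ⊕ X) → ℤ) (y : X),
      net t h g (Sum.inr (Sum.inr (some y))) =
        g (Sum.inr (Sum.inr y)) - ∑ c, g (Sum.inr (Sum.inl (c, y))) := by
    intro g y
    rw [net_eq, Fintype.sum_sum_type, Fintype.sum_sum_type, Fintype.sum_sum_type,
      Fintype.sum_sum_type]
    simp only [t, h, Sum.inr.injEq, Option.some.injEq, reduceCtorEq, if_false,
      Finset.sum_const_zero, add_zero, zero_add, Fintype.sum_prod_type]
    simp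
  have hn4 : ∀ (g : (C × X) ⊕ ((C × X) ⊕ X) → ℤ),
      net t h g (Sum.inr (Sum.inr none)) = - ∑ y, g (Sum.inr (Sum.inr y)) := by
    intro g
    rw [net_eq, Fintype.sum_sum_type, Fintype.sum_sum_type, Fintype.sum_sum_type,
      Fintype.sum_sum_type]
    simp only [t, h, Sum.inr.injEq, reduceCtorEq, if_false,
      Finset.sum_const_zero, add_zero, zero_add, zero_sub, if_true]
  have htot : ∑ y, ∑ c, (M c y : ℤ) = (p : ℤ) * (2 * (Fintype.card C : ℤ)) := by
    rw [Finset.sum_comm]
    have h4 : ∀ c, ∑ y, (M c y : ℤ) = p * 2 := fun c => by exact_mod_cast h1 c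
    simp only [h4, Finset.sum_const, Finset.card_univ, nsmul_eq_mul]
    ring
  obtain ⟨g, hg1, hg2⟩ := scaled t h lo up d (p : ℤ) (by exact_mod_cast hp) G
    (by
      rintro (⟨c, k⟩ | ⟨c, y⟩ | y)
      · simp only [lo, up, G, mul_zero]
        refine ⟨Finset.sum_nonneg fun y _ => by split_ifs <;> positivity, ?_⟩
        have := h3 c k
        have h4 : ((∑ y, if κ c y = k then M c y else 0 : ℕ) : ℤ) ≤ ((p * hi c k : ℕ) : ℤ) := by
          exact_mod_cast this
        push_cast at h4
        exact h4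
      · simp only [lo, up, G, mul_zero]
        refine ⟨by positivity, ?_⟩
        exact_mod_cast h0 c y
      · simp only [lo, up, G]
        constructor
        · have h4 : p * ((∑ c, M c y) / p) ≤ ∑ c, M c y := Nat.mul_div_le _ _
          exact_mod_cast h4
        · have h4 : ∑ c, M c y ≤ p * ((∑ c, M c y + (p - 1)) / p) := by
            have h5 := Nat.div_add_mod (∑ c, M c y + (p - 1)) p
            have h6 := Nat.mod_lt (∑ c, M c y + (p - 1)) hp
            omega
          exact_mod_cast h4)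
    (by
      rintro (c | ⟨c, k⟩ | _ | y)
      · rw [hn1]
        simp only [G, d]
        rw [Finset.sum_comm]
        have h4 : ∀ y, (∑ k, if κ c y = k then (M c y : ℤ) else 0) = (M c y : ℤ) := by
          intro y; simp
        simp only [h4]
        exact_mod_cast h1 c
      · rw [hn2]
        simp only [G, d, mul_zero, sub_self]
      · rw [hn4]
        simp only [G, d]
        rw [htot]
        ring
      · rw [hn3]
        simp only [G, d, mul_zero, sub_self])
  have hT : ∀ c y, ((g (Sum.inr (Sum.inl (c, y)))).toNat : ℤ) = g (Sum.inr (Sum.inl (c, y))) := by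
    intro c y
    exact Int.toNat_of_nonneg (hg1 (Sum.inr (Sum.inl (c, y)))).1
  have hk : ∀ c k, (∑ y, if κ c y = k then g (Sum.inr (Sum.inl (c, y))) else 0) =
      g (Sum.inl (c, k)) := by
    intro c k
    have h4 := hg2 (Sum.inr (Sum.inl (c, k)))
    rw [hn2] at h4
    simp only [d] at h4
    linarith
  have hcol : ∀ y, ((∑ c, (g (Sum.inr (Sum.inl (c, y)))).toNat : ℕ) : ℤ) =
      g (Sum.inr (Sum.inr y)) := by
    intro y
    have h4 := hg2 (Sum.inr (Sum.inr (some y)))
    rw [hn3] at h4
    simp only [d] at h4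
    push_cast
    have h7 : ∑ c, g (Sum.inr (Sum.inl (c, y))) = g (Sum.inr (Sum.inr y)) := by linarith
    rw [← h7]
    apply Finset.sum_congr rfl
    intro c _
    exact_mod_cast hT c y
  refine ⟨fun c y => (g (Sum.inr (Sum.inl (c, y)))).toNat, ?_, ?_, ?_, ?_⟩
  · intro c y
    have h4 := (hg1 (Sum.inr (Sum.inl (c, y)))).2
    simp only [up] at h4
    rw [← hT] at h4
    exact_mod_cast h4
  · intro c
    have h4 := hg2 (Sum.inl c)
    rw [hn1] at h4
    simp only [d] at h4
    rw [← Finset.sum_congr rfl (fun k _ => hk c k), Finset.sum_comm] at h4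
    have h5 : ∀ y, (∑ k, if κ c y = k then g (Sum.inr (Sum.inl (c, y))) else 0) =
        g (Sum.inr (Sum.inl (c, y))) := by
      intro y; simp
    simp only [h5] at h4
    have h6 : ((∑ y, (g (Sum.inr (Sum.inl (c, y)))).toNat : ℕ) : ℤ) = 2 := by
      push_cast
      rw [← h4]
      apply Finset.sum_congr rfl
      intro y _
      exact_mod_cast hT c y
    exact_mod_cast h6
  · intro y
    have h4 := hg1 (Sum.inr (Sum.inr y))
    simp only [lo, up] at h4
    rw [← hcol] at h4
    exact ⟨by exact_mod_cast h4.1, by exact_mod_cast h4.2⟩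
  · intro c k
    have h4 := (hg1 (Sum.inl (c, k))).2
    simp only [up] at h4
    rw [← hk] at h4
    have h6 : ((∑ y, if κ c y = k then (g (Sum.inr (Sum.inl (c, y)))).toNat else 0 : ℕ) : ℤ) ≤
        hi c k := by
      push_cast
      refine le_trans (le_of_eq ?_) h4
      apply Finset.sum_congr rfl
      intro y _
      split_ifs
      · exact_mod_cast hT c y
      · rfl
    exact_mod_cast h6

/-- rounding, upper bound -/
theorem up_le {g N b : ℕ} (hg : 0 < g) (h : N ≤ g * b) : (N + (g - 1)) / g ≤ b := by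
  rw [Nat.div_le_iff_le_mul_add_pred hg]
  omega

/-- rounding, lower bound -/
theorem down_ge {g N b t : ℕ} (hg : 0 < g) (h : N ≤ g * b) (ht : N / g ≤ t) :
    N - t ≤ (g - 1) * b := by
  obtain ⟨e, rfl⟩ : ∃ e, g = e + 1 := ⟨g - 1, by omega⟩
  rw [Nat.add_sub_cancel]
  have h1 := Nat.div_add_mod N (e + 1)
  have h2 := Nat.mod_lt N hg
  have h3 : N / (e + 1) ≤ b := by
    rw [Nat.div_le_iff_le_mul_add_pred hg]
    omega
  obtain ⟨j, hj⟩ : ∃ j, b = N / (e + 1) + j := ⟨b - N / (e + 1), by omega⟩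
  rcases Nat.eq_zero_or_pos j with h4 | h4
  · subst h4
    rw [Nat.add_zero] at hj
    rw [← hj] at h1 ht
    have h5 : (e + 1) * b = e * b + b := by ring
    omega
  · have h5 : (e + 1) * (N / (e + 1)) = e * (N / (e + 1)) + N / (e + 1) := by ring
    have h6 : e * b = e * (N / (e + 1)) + e * j := by rw [hj]; ring
    have h7 : e ≤ e * j := Nat.le_mul_of_pos_right e h4
    omega

/-- rounding for loops -/
theorem loop_ge {g N a t : ℕ} (hg : 2 ≤ g) (h : N ≤ g * ((g - 1) * a)) (hN : Even N)
    (ht : N / g ≤ t) : N - 2 * t ≤ (g - 1) * ((g - 1 - 1) * a) := by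
  obtain ⟨e, rfl⟩ : ∃ e, g = e + 2 := ⟨g - 2, by omega⟩
  rw [show e + 2 - 1 = e + 1 by omega] at h ⊢
  rw [show e + 1 - 1 = e by omega]
  have h0 : 0 < e + 2 := by omega
  have h1 := Nat.div_add_mod N (e + 2)
  have h2 := Nat.mod_lt N h0
  set q := N / (e + 2) with hq
  set r := N % (e + 2) with hr
  have h3 : q ≤ (e + 1) * a := by
    rw [hq, Nat.div_le_iff_le_mul_add_pred h0]
    omega
  obtain ⟨j, hj⟩ : ∃ j, (e + 1) * a = q + j := ⟨(e + 1) * a - q, by omega⟩
  have h5 : (e + 1) * (e * a) = e * q + e * j := by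
    rw [← Nat.mul_add, ← hj]; ring
  have h6 : (e + 2) * q = e * q + 2 * q := by ring
  rw [h5]
  rcases Nat.eq_zero_or_pos j with h4 | h4
  · have h8 : N ≤ (e + 2) * q := by
      rw [hj, h4, Nat.add_zero] at h
      exact h
    rw [h6] at h8 h1
    omega
  · have h7 : e ≤ e * j := Nat.le_mul_of_pos_right e h4
    -- the remainder is at most `e + 1`; parity excludes the critical case
    rcases Nat.lt_or_ge r (e + 1) with h8 | h8
    · omega
    · have h9 : r = e + 1 := by omega
      rcases Nat.lt_or_ge 1 j with h10 | h10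
      · rcases Nat.eq_zero_or_pos e with h11 | h11
        · subst h11
          -- g = 2
          have h12 : Even (2 * q + 1) := by
            have : N = 2 * q + 1 := by omega
            rw [← this]; exact hN
          rw [Nat.even_add_one] at h12
          exact absurd (even_two_mul q) h12
        · have h12 : e * 2 ≤ e * j := Nat.mul_le_mul_left e h10
          omega
      · have h11 : j = 1 := by omega
        subst h11
        -- `N = (e + 2) * ((e + 1) * a) - 1` is odd
        exfalso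
        have h12 : N + 1 = (e + 2) * ((e + 1) * a) := by
          rw [hj, ← h1, h9]; ring
        have h13 : Even ((e + 2) * ((e + 1) * a)) := by
          rw [← mul_assoc]
          apply Even.mul_right
          rw [mul_comm]
          exact Nat.even_mul_succ_self (e + 1)
        rw [← h12, Nat.even_add_one] at h13
        exact h13 hN

end Pool.Agent.Helper37Ham
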