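import Pool.Agent.Helper37Ham.Dt2

set_option autoImplicit false

/-!
Detachments of edge-coloured multigraphs when not all edges are coloured: the final graph.
-/

namespace Pool.Agent.Helper37Ham

open Finset SimpleGraph Pool.Agent.X76.Det

theorem detach_le {C : Type} [Fintype C] (n : ℕ) :
    ∀ (X : Type) [Fintype X] (g : X → ℕ) (a : X → X → ℕ) (m : C → X → X → ℕ),
      (∀ x y, a x y = a y x) → StL g a m → ∑ x, (g x - 1) = n →
      ∃ (Y : Type) (_ : Fintype Y) (π : Y → X) (M : C → Y → Y → ℕ),
        (∀ x, {y | π y = x}.ncard = g x) ∧ StL (fun _ => 1) (fun y z => a (π y) (π z)) M := by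
  classical
  induction n with
  | zero =>
    intro X _ g a m ha h hn
    have hg : g = fun _ => 1 := by
      funext x
      have h1 := (Finset.sum_eq_zero_iff.1 hn) x (mem_univ x)
      have h2 := h.pos x
      omega
    subst hg
    refine ⟨X, inferInstance, id, m, ?_, h⟩
    intro x
    have h1 : {y : X | id y = x} = {x} := by ext; simp
    rw [h1, Set.ncard_singleton]
  | succ n ih =>
    intro X _ g a m ha h hn
    obtain ⟨v, hv⟩ : ∃ v, 2 ≤ g v := by
      by_contra hno
      push Not at hno
      have h1 : ∑ x, (g x - 1) = 0 := Finset.sum_eq_zero fun x _ => by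
        have := hno x; omega
      omega
    obtain ⟨m', hm'⟩ := step_le g a ha m h v hv
    have hsum : ∑ o, (gs g v o - 1) = n := by
      rw [Fintype.sum_option]
      simp only [gs]
      rw [← Finset.add_sum_erase _ _ (mem_univ v)] at hn ⊢
      simp only [if_true]
      have h2 : ∑ x ∈ univ.erase v, ((if x = v then g v - 1 else g x) - 1) =
          ∑ x ∈ univ.erase v, (g x - 1) := by
        apply Finset.sum_congr rfl
        intro x hx
        rw [if_neg (Finset.ne_of_mem_erase hx)]
      rw [h2]
      omega
    obtain ⟨Y, hY, π, M, h1, h2⟩ := ih (Option X) (gs g v) _ m' (fun x y => ha _ _) hm' hsum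
    refine ⟨Y, hY, fun y => (π y).getD v, M, ?_, h2⟩
    intro x
    by_cases hx : x = v
    · subst hx
      have h3 : {y | (π y).getD x = x} = {y | π y = none} ∪ {y | π y = some x} := by
        ext y
        simp only [Set.mem_ofPred_eq, Set.mem_union]
        rcases hπ : π y with _ | z
        · simp
        · simp
      rw [h3, Set.ncard_union_eq _ (Set.toFinite _) (Set.toFinite _), h1, h1]
      · simp only [gs, if_true]
        omega
      · rw [Set.disjoint_left]
        intro y hy hy'
        simp only [Set.mem_ofPred_eq] at hy hy'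
        rw [hy] at hy'
        simp at hy'
    · have h3 : {y | (π y).getD v = x} = {y | π y = some x} := by
        ext y
        simp only [Set.mem_ofPred_eq]
        rcases hπ : π y with _ | z
        · simp [Ne.symm hx]
        · simp
      rw [h3, h1]
      simp only [gs, if_neg hx]

/-- a bijection compatible with the projections -/
theorem fib_equiv {V Y W : Type} [Finite Y] [Finite W] (π : Y → V) (f : W → V)
    (hc : ∀ v, {y | π y = v}.ncard = {w | f w = v}.ncard) : ∃ e : Y ≃ W, ∀ y, f (e y) = π y := by
  have hne : ∀ v, Nonempty ({y // π y = v} ≃ {w // f w = v}) := by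
    intro v
    apply Finite.card_eq.1
    exact hc v
  let ev := fun v => (hne v).some
  let e : Y ≃ W := (Equiv.sigmaFiberEquiv π).symm.trans
    ((Equiv.sigmaCongrRight ev).trans (Equiv.sigmaFiberEquiv f))
  exact ⟨e, fun y => (ev (π y) ⟨y, rfl⟩).2⟩

/-- **Hamilton cycles from edge-coloured multigraphs**, in graphs with homogeneous classes -/
theorem of_StL {k : ℕ} {W X : Type} [Fintype W] [DecidableEq W] [Fintype X]
    (G : SimpleGraph W) (f : W → X) (a : X → X → ℕ) (ha : ∀ x y, a x y = a y x)
    (ha1 : ∀ x y, a x y ≤ 1)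
    (hG : ∀ u v, u ≠ v → 0 < a (f u) (f v) → G.Adj u v)
    (g : X → ℕ) (hg : ∀ x, {w | f w = x}.ncard = g x)
    (m : Fin k → X → X → ℕ) (h : StL g a m) :
    ∃ C : Fin k → SimpleGraph W, (∀ i, C i ≤ G) ∧
      (∀ i j u v, (C i).Adj u v → (C j).Adj u v → i = j) ∧
      (∀ i v, ((C i).neighborSet v).ncard = 2) ∧ ∀ i, (C i).Connected := by
  classical
  obtain ⟨Y, hY, π, M, h1, h2⟩ := detach_le _ X g a m ha h rfl
  obtain ⟨e, he⟩ := fib_equiv π f (fun v => by rw [h1, hg])
  have hdiag : ∀ c y, M c y y = 0 := by
    intro c y
    have h3 := h2.loop y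
    rw [Nat.sub_self, Nat.zero_mul, Nat.mul_zero, Nat.le_zero] at h3
    exact (Finset.sum_eq_zero_iff.1 h3) c (mem_univ c)
  have hle1 : ∀ y z, ∑ c, M c y z ≤ 1 := by
    intro y z
    by_cases hyz : y = z
    · rw [hyz, Finset.sum_eq_zero fun c _ => hdiag c z]
      exact Nat.zero_le _
    · refine (h2.mult y z hyz).trans ?_
      rw [one_mul, one_mul]
      exact ha1 _ _
  have hle : ∀ c y z, M c y z ≤ 1 := by
    intro c y z
    refine le_trans ?_ (hle1 y z)
    exact Finset.single_le_sum (f := fun c => M c y z) (fun i _ => Nat.zero_le _) (mem_univ c)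
  have hadj : ∀ c y z, (supp (M c)).Adj y z ↔ M c y z = 1 := by
    intro c y z
    constructor
    · rintro ⟨-, h3, -⟩
      have h4 := hle c y z
      omega
    · intro h3
      refine ⟨?_, by omega, by rw [h2.symm]; omega⟩
      rintro rfl
      rw [hdiag] at h3
      omega
  refine ⟨fun i => (supp (M i)).comap e.symm, ?_, ?_, ?_, ?_⟩
  · intro i u v huv
    rw [SimpleGraph.comap_adj] at huv
    refine hG _ _ ?_ ?_
    · rintro rfl
      exact huv.ne rfl
    · have h3 := (hadj i _ _).1 huv
      have h4 : M i (e.symm u) (e.symm v) ≤ ∑ c, M c (e.symm u) (e.symm v) :=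
        Finset.single_le_sum (f := fun c => M c (e.symm u) (e.symm v))
          (fun i _ => Nat.zero_le _) (mem_univ i)
      have h5 := h2.mult _ _ huv.ne
      rw [one_mul, one_mul] at h5
      have h6 := he (e.symm u)
      have h7 := he (e.symm v)
      rw [e.apply_symm_apply] at h6 h7
      rw [h6, h7]
      omega
  · intro i j u v huv huv'
    rw [SimpleGraph.comap_adj, hadj] at huv huv'
    by_contra hij
    have h5 : M i (e.symm u) (e.symm v) + M j (e.symm u) (e.symm v) ≤
        ∑ c, M c (e.symm u) (e.symm v) := by
      rw [← Finset.add_sum_erase _ _ (mem_univ i)]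
      apply Nat.add_le_add_left
      exact Finset.single_le_sum (f := fun c => M c (e.symm u) (e.symm v))
        (fun i _ => Nat.zero_le _) (Finset.mem_erase.2 ⟨Ne.symm hij, mem_univ j⟩)
    have h6 := hle1 (e.symm u) (e.symm v)
    omega
  · intro i v
    obtain ⟨y, rfl⟩ := e.surjective v
    have h3 : ((supp (M i)).comap e.symm).neighborSet (e y) = e '' {z | M i y z = 1} := by
      ext w
      simp only [SimpleGraph.mem_neighborSet, Set.mem_image, Set.mem_ofPred_eq,
        SimpleGraph.comap_adj, e.symm_apply_apply, hadj]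
      constructor
      · intro h4
        exact ⟨e.symm w, h4, e.apply_symm_apply w⟩
      · rintro ⟨z, hz, rfl⟩
        rw [e.symm_apply_apply]
        exact hz
    rw [h3, Set.ncard_image_of_injective _ e.injective]
    have h4 := h2.deg i y
    rw [mul_one] at h4
    have h5 : {z | M i y z = 1}.ncard = ∑ z, M i y z := by
      rw [Set.ncard_eq_toFinset_card']
      rw [Finset.card_eq_sum_ones, ← Finset.sum_filter_add_sum_filter_not univ
        (fun z => M i y z = 1) (fun z => M i y z)]
      have h6 : ∑ z with ¬ M i y z = 1, M i y z = 0 := by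
        apply Finset.sum_eq_zero
        intro z hz
        rw [mem_filter] at hz
        have h7 := hle i y z
        have h8 := hz.2
        omega
      rw [h6, add_zero]
      have h9 : ({z | M i y z = 1} : Set Y).toFinset = univ.filter (fun z => M i y z = 1) := by
        ext z
        simp
      rw [h9]
      apply Finset.sum_congr rfl
      intro z hz
      rw [mem_filter] at hz
      exact hz.2.symm
    rw [h5, h4]
  · intro i
    have h3 := h2.conn i
    exact (SimpleGraph.Iso.connected_iff (SimpleGraph.Iso.comap e.symm (supp (M i)))).2 h3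

end Pool.Agent.Helper37Ham
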