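import Pool.Agent.Helper37Ham.Sel

set_option autoImplicit false

/-!
Systems of paths, extended by the vertices of a set one after the other.
-/

namespace Pool.Agent.Helper37Ham

open Finset

variable {V : Type} [Fintype V] [DecidableEq V]

/-- the graph `P` with the new edges `s x` and `s y` -/
def add (P : SimpleGraph V) (s x y : V) : SimpleGraph V where
  Adj a b := P.Adj a b ∨ (a ≠ b ∧ ((a = s ∧ (b = x ∨ b = y)) ∨ (b = s ∧ (a = x ∨ a = y))))
  symm := ⟨fun a b h => h.elim (fun h => Or.inl h.symm)
    (fun h => Or.inr ⟨h.1.symm, h.2.elim Or.inr Or.inl⟩)⟩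
  loopless := ⟨fun a h => h.elim (fun h => P.loopless.irrefl a h) (fun h => h.1 rfl)⟩

theorem le_add (P : SimpleGraph V) (s x y : V) : P ≤ add P s x y := fun _ _ h => Or.inl h

theorem add_adj_left (P : SimpleGraph V) {s x y : V} (hx : s ≠ x) : (add P s x y).Adj s x :=
  Or.inr ⟨hx, Or.inl ⟨rfl, Or.inl rfl⟩⟩

theorem add_adj_right (P : SimpleGraph V) {s x y : V} (hy : s ≠ y) : (add P s x y).Adj s y :=
  Or.inr ⟨hy, Or.inl ⟨rfl, Or.inr rfl⟩⟩

/-- number of ends at `v` of the paths of one class -/
def sl {g : ℕ} (e : Fin g → Bool → V) (v : V) : ℕ :=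
  ∑ j, ((if e j false = v then 1 else 0) + (if e j true = v then 1 else 0))

theorem ends_eq {k g : ℕ} (e : Fin k → Fin g → Bool → V) (v : V) :
    ends e v = ∑ i, sl (e i) v := by
  unfold ends sl
  rw [Finset.card_filter, Fintype.sum_prod_type]
  apply Finset.sum_congr rfl
  intro i _
  rw [Fintype.sum_prod_type]
  apply Finset.sum_congr rfl
  intro j _
  rw [Fintype.sum_bool, add_comm]

/-- the state of one class: `g` paths that cover the complement of `W`; `K` are their vertex sets
and `e` their ends -/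
structure Cl (P : SimpleGraph V) (W : Finset V) (g : ℕ) (K : Fin g → Set V)
    (e : Fin g → Bool → V) : Prop where
  iso : ∀ w ∈ W, ∀ x, ¬ P.Adj w x
  deg : ∀ v, v ∉ W → (P.neighborSet v).ncard + sl e v = 2
  mem : ∀ j b, e j b ∈ K j
  eW : ∀ j b, e j b ∉ W
  cover : ∀ v, v ∉ W → ∃ j, v ∈ K j
  conn : ∀ j x y, x ∈ K j → y ∈ K j → P.Reachable x y

theorem nbr_self {P : SimpleGraph V} {s x y : V} (hiso : ∀ z, ¬ P.Adj s z) (hx : s ≠ x)
    (hy : s ≠ y) : (add P s x y).neighborSet s = {x, y} := by
  ext z
  simp only [SimpleGraph.mem_neighborSet, Set.mem_insert_iff, Set.mem_singleton_iff]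
  constructor
  · rintro (h | ⟨h1, ⟨-, h2⟩ | ⟨h2, h3⟩⟩)
    · exact absurd h (hiso z)
    · exact h2
    · exact absurd h2.symm h1
  · rintro (rfl | rfl)
    · exact add_adj_left P hx
    · exact add_adj_right P hy

theorem nbr_other {P : SimpleGraph V} {s x y v : V} (hiso : ∀ z, ¬ P.Adj s z) (hxy : x ≠ y)
    (hx : s ≠ x) (hy : s ≠ y) (hv : v ≠ s) :
    ((add P s x y).neighborSet v).ncard =
      (P.neighborSet v).ncard + ((if x = v then 1 else 0) + (if y = v then 1 else 0)) := by
  have hs : s ∉ P.neighborSet v := fun h => hiso v h.symm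
  by_cases h : x = v ∨ y = v
  · have h1 : (add P s x y).neighborSet v = insert s (P.neighborSet v) := by
      ext z
      simp only [SimpleGraph.mem_neighborSet, Set.mem_insert_iff]
      constructor
      · rintro (h2 | ⟨h2, ⟨h3, -⟩ | ⟨h3, h4⟩⟩)
        · exact Or.inr h2
        · exact absurd h3 hv
        · exact Or.inl h3
      · rintro (rfl | h2)
        · exact Or.inr ⟨hv, Or.inr ⟨rfl, h.imp Eq.symm Eq.symm⟩⟩
        · exact Or.inl h2
    rw [h1, Set.ncard_insert_of_notMem hs (Set.toFinite _)]
    congr 1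
    rcases h with h | h
    · subst h
      rw [if_pos rfl, if_neg hxy.symm]
    · subst h
      rw [if_pos rfl, if_neg hxy]
  · push Not at h
    have h1 : (add P s x y).neighborSet v = P.neighborSet v := by
      ext z
      simp only [SimpleGraph.mem_neighborSet]
      constructor
      · rintro (h2 | ⟨h2, ⟨h3, -⟩ | ⟨h3, h4 | h4⟩⟩)
        · exact h2
        · exact absurd h3 hv
        · exact absurd h4.symm h.1
        · exact absurd h4.symm h.2
      · exact fun h2 => Or.inl h2
    rw [h1, if_neg h.1, if_neg h.2]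
    rfl

/-- the new ends -/
def ne {g : ℕ} (e : Fin (g + 1) → Bool → V) (j1 j2 : Fin (g + 1)) (b1 b2 : Bool) :
    Fin g → Bool → V := fun j b =>
  if j2.succAbove j = j1 then (if b then e j2 (!b2) else e j1 (!b1)) else e (j2.succAbove j) b

/-- the new vertex sets -/
def nK {g : ℕ} (K : Fin (g + 1) → Set V) (j1 j2 : Fin (g + 1)) (s : V) : Fin g → Set V := fun j =>
  if j2.succAbove j = j1 then insert s (K j1 ∪ K j2) else K (j2.succAbove j)

theorem sl_ne {g : ℕ} (e : Fin (g + 1) → Bool → V) (j1 j2 : Fin (g + 1)) (h12 : j1 ≠ j2)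
    (b1 b2 : Bool) (v : V) :
    sl (ne e j1 j2 b1 b2) v + ((if e j1 b1 = v then 1 else 0) + (if e j2 b2 = v then 1 else 0)) =
      sl e v := by
  obtain ⟨j0, hj0⟩ := Fin.exists_succAbove_eq h12
  unfold sl
  rw [Fin.sum_univ_succAbove _ j2]
  rw [← Finset.add_sum_erase _ _ (mem_univ j0), ← Finset.add_sum_erase (univ : Finset (Fin g))
    (fun j => (if e (j2.succAbove j) false = v then 1 else 0) +
      (if e (j2.succAbove j) true = v then 1 else 0)) (mem_univ j0)]
  have h1 : ∑ j ∈ univ.erase j0, ((if ne e j1 j2 b1 b2 j false = v then 1 else 0) +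
      (if ne e j1 j2 b1 b2 j true = v then 1 else 0)) =
      ∑ j ∈ univ.erase j0, ((if e (j2.succAbove j) false = v then 1 else 0) +
      (if e (j2.succAbove j) true = v then 1 else 0)) := by
    apply Finset.sum_congr rfl
    intro j hj
    have h2 : j2.succAbove j ≠ j1 := by
      rw [← hj0]
      intro h
      exact (Finset.ne_of_mem_erase hj) (Fin.succAbove_right_injective h)
    simp only [ne, if_neg h2]
  rw [h1]
  have h3 : ne e j1 j2 b1 b2 j0 false = e j1 (!b1) := by simp [ne, hj0]
  have h4 : ne e j1 j2 b1 b2 j0 true = e j2 (!b2) := by simp [ne, hj0]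
  rw [h3, h4, hj0]
  generalize ∑ j ∈ univ.erase j0, ((if e (j2.succAbove j) false = v then 1 else 0) +
      (if e (j2.succAbove j) true = v then 1 else 0)) = Z
  cases b1 <;> cases b2 <;> simp only [Bool.not_false, Bool.not_true] <;> omega

theorem class_step {g : ℕ} {P : SimpleGraph V} {W : Finset V} {K : Fin (g + 1) → Set V}
    {e : Fin (g + 1) → Bool → V} (h : Cl P W (g + 1) K e) {s : V} (hs : s ∈ W)
    (j1 j2 : Fin (g + 1)) (h12 : j1 ≠ j2) (b1 b2 : Bool) (hne : e j1 b1 ≠ e j2 b2) :
    Cl (add P s (e j1 b1) (e j2 b2)) (W.erase s) g (nK K j1 j2 s) (ne e j1 j2 b1 b2) := by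
  have hs1 : ∀ j b, s ≠ e j b := by
    rintro j b rfl
    exact h.eW j b hs
  obtain ⟨j0, hj0⟩ := Fin.exists_succAbove_eq h12
  refine ⟨?_, ?_, ?_, ?_, ?_, ?_⟩
  · rintro w hw x (h1 | ⟨h1, ⟨h2, -⟩ | ⟨h2, h3 | h3⟩⟩)
    · exact h.iso w (mem_of_mem_erase hw) x h1
    · exact ne_of_mem_erase hw h2
    · exact h.eW _ _ (h3 ▸ mem_of_mem_erase hw)
    · exact h.eW _ _ (h3 ▸ mem_of_mem_erase hw)
  · intro v hv
    have h5 := sl_ne e j1 j2 h12 b1 b2 v
    by_cases hvs : v = s
    · subst hvs
      rw [nbr_self (h.iso v hs) (hs1 _ _) (hs1 _ _), Set.ncard_pair hne]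
      have h6 : sl e v = 0 := by
        unfold sl
        apply Finset.sum_eq_zero
        intro j _
        rw [if_neg (hs1 j false).symm, if_neg (hs1 j true).symm]
        rfl
      omega
    · rw [nbr_other (h.iso s hs) hne (hs1 _ _) (hs1 _ _) hvs]
      have h6 := h.deg v (fun hv' => hv (mem_erase.2 ⟨hvs, hv'⟩))
      omega
  · intro j b
    unfold ne nK
    by_cases hj : j2.succAbove j = j1
    · rw [if_pos hj, if_pos hj]
      cases b
      · exact Or.inr (Or.inl (h.mem _ _))
      · exact Or.inr (Or.inr (h.mem _ _))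
    · rw [if_neg hj, if_neg hj]
      exact h.mem _ _
  · intro j b hm
    have h5 := mem_of_mem_erase hm
    unfold ne at h5
    split_ifs at h5
    · exact h.eW _ _ h5
    · exact h.eW _ _ h5
    · exact h.eW _ _ h5
  · intro v hv
    by_cases hvs : v = s
    · refine ⟨j0, ?_⟩
      unfold nK
      rw [if_pos hj0, hvs]
      exact Set.mem_insert _ _
    · obtain ⟨j, hj⟩ := h.cover v (fun hv' => hv (mem_erase.2 ⟨hvs, hv'⟩))
      by_cases hj2 : j = j2
      · refine ⟨j0, ?_⟩
        unfold nK
        rw [if_pos hj0]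
        exact Or.inr (Or.inr (hj2 ▸ hj))
      · obtain ⟨j', hj'⟩ := Fin.exists_succAbove_eq hj2
        refine ⟨j', ?_⟩
        unfold nK
        split_ifs with h6
        · exact Or.inr (Or.inl (by rw [← h6, hj']; exact hj))
        · rw [hj']; exact hj
  · intro j x y hx hy
    unfold nK at hx hy
    split_ifs at hx hy with h6
    · have hc : ∀ z ∈ insert s (K j1 ∪ K j2), (add P s (e j1 b1) (e j2 b2)).Reachable z s := by
        rintro z (rfl | hz | hz)
        · exact SimpleGraph.Reachable.refl _
        · exact ((h.conn j1 z _ hz (h.mem j1 b1)).mono (le_add P _ _ _)).trans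
            (add_adj_left P (hs1 _ _)).symm.reachable
        · exact ((h.conn j2 z _ hz (h.mem j2 b2)).mono (le_add P _ _ _)).trans
            (add_adj_right P (hs1 _ _)).symm.reachable
      exact (hc x hx).trans (hc y hy).symm
    · exact (h.conn _ x y hx hy).mono (le_add P _ _ _)

theorem class_final {P : SimpleGraph V} {w : V} {K : Fin 1 → Set V}
    {e : Fin 1 → Bool → V} (h : Cl P {w} 1 K e) (hne : e 0 false ≠ e 0 true) :
    (∀ v, ((add P w (e 0 false) (e 0 true)).neighborSet v).ncard = 2) ∧
      (add P w (e 0 false) (e 0 true)).Connected := by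
  have hs1 : ∀ j b, w ≠ e j b := by
    intro j b hw
    exact h.eW j b (mem_singleton.2 hw.symm)
  have hiso : ∀ z, ¬ P.Adj w z := h.iso w (mem_singleton_self w)
  constructor
  · intro v
    by_cases hvs : v = w
    · subst hvs
      rw [nbr_self hiso (hs1 _ _) (hs1 _ _), Set.ncard_pair hne]
    · rw [nbr_other hiso hne (hs1 _ _) (hs1 _ _) hvs]
      have h6 := h.deg v (fun hv' => hvs (mem_singleton.1 hv'))
      unfold sl at h6
      rw [Fin.sum_univ_one] at h6
      exact h6
  · rw [SimpleGraph.connected_iff_exists_forall_reachable]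
    refine ⟨w, fun z => ?_⟩
    by_cases hz : z = w
    · rw [hz]
    · obtain ⟨j, hj⟩ := h.cover z (fun hv' => hz (mem_singleton.1 hv'))
      have hj0 : j = 0 := Subsingleton.elim _ _
      subst hj0
      exact (add_adj_left P (hs1 _ _)).reachable.trans
        ((h.conn 0 _ z (h.mem 0 false) hj).mono (le_add P _ _ _))

open Classical in
/-- the state of all classes -/
structure St {k : ℕ} (G : SimpleGraph V) (S : Finset V) (L : Fin k → SimpleGraph V)
    (W : Finset V) (g : ℕ) (P : Fin k → SimpleGraph V) (K : Fin k → Fin g → Set V)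
    (e : Fin k → Fin g → Bool → V) : Prop where
  sub : ∀ i, P i ≤ G
  ext : ∀ i, L i ≤ P i
  disj : ∀ i j a b, (P i).Adj a b → (P j).Adj a b → i = j
  cl : ∀ i, Cl (P i) W g (K i) (e i)
  cap : ∀ v, ends e v ≤ {w ∈ W | v ∉ S ∧ G.Adj w v}.card

open Classical in
theorem run {k : ℕ} (G : SimpleGraph V) (S : Finset V) (L : Fin k → SimpleGraph V)
    (hmiss : ∀ w ∈ S, {v | v ∉ S ∧ ¬ G.Adj w v}.ncard ≤ 1) (g : ℕ) :
    ∀ (W : Finset V), W.card = g + 1 → W ⊆ S →
    ∀ (P : Fin k → SimpleGraph V) (K : Fin k → Fin (g + 1) → Set V)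
      (e : Fin k → Fin (g + 1) → Bool → V), St G S L W (g + 1) P K e →
    ∃ C : Fin k → SimpleGraph V, (∀ i, C i ≤ G) ∧ (∀ i, L i ≤ C i) ∧
      (∀ i j a b, (C i).Adj a b → (C j).Adj a b → i = j) ∧
      (∀ i v, ((C i).neighborSet v).ncard = 2) ∧ ∀ i, (C i).Connected := by
  induction g with
  | zero =>
    intro W hW hWS P K e h
    obtain ⟨w, rfl⟩ := Finset.card_eq_one.1 hW
    have hcap : ∀ v, ends e v ≤ 1 := by
      intro v
      refine (h.cap v).trans ((Finset.card_le_card (Finset.filter_subset _ _)).trans ?_)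
      simp
    have hinj : ∀ i b i' b', e i 0 b = e i' 0 b' → i = i' ∧ b = b' := by
      intro i b i' b' heq
      have h1 := hcap (e i 0 b)
      unfold ends at h1
      rw [Finset.card_le_one] at h1
      have h2 := h1 (i, 0, b) (by simp) (i', 0, b') (by simp [heq])
      simpa using h2
    have hadj : ∀ i b, G.Adj w (e i 0 b) := by
      intro i b
      by_contra hno
      have h1 := h.cap (e i 0 b)
      have h2 : {w' ∈ ({w} : Finset V) | e i 0 b ∉ S ∧ G.Adj w' (e i 0 b)} = ∅ := by
        rw [Finset.filter_eq_empty_iff]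
        intro w' hw' h3
        rw [mem_singleton] at hw'
        rw [hw'] at h3
        exact hno h3.2
      rw [h2, Finset.card_empty] at h1
      unfold ends at h1
      rw [Nat.le_zero, Finset.card_eq_zero, Finset.filter_eq_empty_iff] at h1
      exact h1 (mem_univ (i, 0, b)) rfl
    have hne : ∀ i, e i 0 false ≠ e i 0 true := by
      intro i heq
      have := (hinj i false i true heq).2
      cases this
    refine ⟨fun i => add (P i) w (e i 0 false) (e i 0 true), ?_, ?_, ?_, ?_, ?_⟩
    · rintro i a b (h1 | ⟨h1, ⟨h2, h3 | h3⟩ | ⟨h2, h3 | h3⟩⟩)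
      · exact h.sub i h1
      · rw [h2, h3]; exact hadj i false
      · rw [h2, h3]; exact hadj i true
      · rw [h2, h3]; exact (hadj i false).symm
      · rw [h2, h3]; exact (hadj i true).symm
    · intro i
      exact (h.ext i).trans (le_add _ _ _ _)
    · have key : ∀ i a b, (add (P i) w (e i 0 false) (e i 0 true)).Adj a b →
          ((P i).Adj a b ∧ a ≠ w ∧ b ≠ w) ∨ (a = w ∧ ∃ c, b = e i 0 c) ∨
            (b = w ∧ ∃ c, a = e i 0 c) := by
        rintro i a b (h1 | ⟨h1, ⟨h2, h3 | h3⟩ | ⟨h2, h3 | h3⟩⟩)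
        · left
          refine ⟨h1, ?_, ?_⟩
          · rintro rfl
            exact (h.cl i).iso a (mem_singleton_self a) b h1
          · rintro rfl
            exact (h.cl i).iso b (mem_singleton_self b) a h1.symm
        · exact Or.inr (Or.inl ⟨h2, false, h3⟩)
        · exact Or.inr (Or.inl ⟨h2, true, h3⟩)
        · exact Or.inr (Or.inr ⟨h2, false, h3⟩)
        · exact Or.inr (Or.inr ⟨h2, true, h3⟩)
      have hew : ∀ i c, e i 0 c ≠ w := by
        intro i c hc
        exact (h.cl i).eW 0 c (mem_singleton.2 hc)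
      intro i j a b hi hj
      rcases key i a b hi with ⟨h1, h2, h3⟩ | ⟨h1, c, h2⟩ | ⟨h1, c, h2⟩
      · rcases key j a b hj with ⟨h4, -, -⟩ | ⟨h4, -⟩ | ⟨h4, -⟩
        · exact h.disj i j a b h1 h4
        · exact absurd h4 h2
        · exact absurd h4 h3
      · rcases key j a b hj with ⟨-, h4, -⟩ | ⟨-, c', h4⟩ | ⟨-, c', h4⟩
        · exact absurd h1 h4
        · exact (hinj i c j c' (h2.symm.trans h4)).1
        · exact absurd (h4.symm.trans h1) (hew j c')
      · rcases key j a b hj with ⟨-, -, h4⟩ | ⟨-, c', h4⟩ | ⟨-, c', h4⟩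
        · exact absurd h1 h4
        · exact absurd (h4.symm.trans h1) (hew j c')
        · exact (hinj i c j c' (h2.symm.trans h4)).1
    · intro i v
      exact (class_final (h.cl i) (hne i)).1 v
    · intro i
      exact (class_final (h.cl i) (hne i)).2
  | succ g ih =>
    intro W hW hWS P K e h
    obtain ⟨s, hs⟩ : W.Nonempty := by
      rw [← Finset.card_pos, hW]; omega
    let N : Finset V := univ.filter fun v => v ∉ S ∧ G.Adj s v
    let a : V → ℕ := fun v => {w ∈ W | v ∉ S ∧ G.Adj w v}.card
    have hag : ∀ v, a v ≤ g + 1 + 1 := by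
      intro v
      rw [← hW]
      exact Finset.card_le_card (Finset.filter_subset _ _)
    have h3 : ∑ v ∈ Nᶜ, ends e v ≤ g + 1 + 1 - 1 := by
      have h5 : ∑ v ∈ Nᶜ, ends e v = ∑ v ∈ Nᶜ.filter (fun v => v ∉ S ∧ ¬ G.Adj s v), ends e v := by
        symm
        apply Finset.sum_subset (Finset.filter_subset _ _)
        intro v hv hv'
        have h6 : v ∈ S := by
          by_contra hvS
          apply hv'
          rw [mem_filter]
          refine ⟨hv, hvS, fun hadj => ?_⟩
          rw [mem_compl] at hv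
          exact hv (by simp only [N, mem_filter, mem_univ, true_and]; exact ⟨hvS, hadj⟩)
        have h7 := h.cap v
        have h8 : {w ∈ W | v ∉ S ∧ G.Adj w v} = ∅ := by
          rw [Finset.filter_eq_empty_iff]
          intro w _ h9
          exact h9.1 h6
        rw [h8, Finset.card_empty] at h7
        omega
      rw [h5]
      have h6 : (Nᶜ.filter (fun v => v ∉ S ∧ ¬ G.Adj s v)).card ≤ 1 := by
        have h7 := hmiss s (hWS hs)
        rw [Set.ncard_eq_toFinset_card'] at h7
        refine le_trans (Finset.card_le_card ?_) h7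
        intro v hv
        rw [mem_filter] at hv
        rw [Set.mem_toFinset]
        exact hv.2
      have h8 : ∀ v ∈ Nᶜ.filter (fun v => v ∉ S ∧ ¬ G.Adj s v), ends e v ≤ g + 1 := by
        intro v hv
        rw [mem_filter] at hv
        refine (h.cap v).trans ?_
        have h9 : {w ∈ W | v ∉ S ∧ G.Adj w v} ⊆ W.erase s := by
          intro w hw
          rw [mem_filter] at hw
          rw [mem_erase]
          refine ⟨?_, hw.1⟩
          rintro rfl
          exact hv.2.2 hw.2.2
        have h10 := Finset.card_le_card h9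
        rw [Finset.card_erase_of_mem hs, hW] at h10
        exact h10
      calc ∑ v ∈ Nᶜ.filter (fun v => v ∉ S ∧ ¬ G.Adj s v), ends e v
          ≤ (Nᶜ.filter (fun v => v ∉ S ∧ ¬ G.Adj s v)).card • (g + 1) :=
            Finset.sum_le_card_nsmul _ _ _ h8
        _ ≤ 1 * (g + 1) := by rw [smul_eq_mul]; exact Nat.mul_le_mul_right _ h6
        _ = g + 1 + 1 - 1 := by omega
    have h4 : ∑ v ∈ N, (g + 1 + 1 - a v) ≤ g + 1 + 1 - 1 := by
      have h5 : ∀ v ∈ N, g + 1 + 1 - a v = {w ∈ W | ¬ G.Adj w v}.card := by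
        intro v hv
        simp only [N, mem_filter, mem_univ, true_and] at hv
        have h6 := Finset.card_filter_add_card_filter_not (s := W) (fun w => v ∉ S ∧ G.Adj w v)
        have h7 : W.filter (fun w => ¬ (v ∉ S ∧ G.Adj w v)) = {w ∈ W | ¬ G.Adj w v} := by
          apply Finset.filter_congr
          intro w _
          constructor
          · intro h8 h9; exact h8 ⟨hv.1, h9⟩
          · intro h8 h9; exact h8 h9.2
        rw [h7] at h6
        simp only [a]
        omega
      rw [Finset.sum_congr rfl h5]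
      have h6 : ∑ v ∈ N, {w ∈ W | ¬ G.Adj w v}.card = ∑ w ∈ W, {v ∈ N | ¬ G.Adj w v}.card := by
        simp only [Finset.card_filter]
        rw [Finset.sum_comm]
      rw [h6, ← Finset.add_sum_erase W _ hs]
      have h7 : {v ∈ N | ¬ G.Adj s v} = ∅ := by
        rw [Finset.filter_eq_empty_iff]
        intro v hv
        simp only [N, mem_filter, mem_univ, true_and] at hv
        exact not_not.2 hv.2
      rw [h7, Finset.card_empty, zero_add]
      have h8 : ∀ w ∈ W.erase s, {v ∈ N | ¬ G.Adj w v}.card ≤ 1 := by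
        intro w hw
        have h9 := hmiss w (hWS (mem_of_mem_erase hw))
        rw [Set.ncard_eq_toFinset_card'] at h9
        refine le_trans (Finset.card_le_card ?_) h9
        intro v hv
        simp only [N, mem_filter, mem_univ, true_and] at hv
        rw [Set.mem_toFinset]
        exact ⟨hv.1.1, hv.2⟩
      refine (Finset.sum_le_card_nsmul _ _ 1 h8).trans ?_
      rw [Finset.card_erase_of_mem hs, hW, smul_eq_mul]
      omega
    obtain ⟨x, hx1, hx2, hx3, hx4⟩ := sel (by omega) e a N h.cap hag h3 h4
    let u : Fin k → Bool → V := fun i c => e i (x i c).1 (x i c).2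
    have hu : ∀ i, u i false ≠ u i true := by
      intro i heq
      have := (hx2 i false i true heq).2
      cases this
    have hadj : ∀ i c, u i c ∉ S ∧ G.Adj s (u i c) := by
      intro i c
      have h5 := hx3 i c
      simp only [N, mem_filter, mem_univ, true_and] at h5
      exact h5
    have hW' : (W.erase s).card = g + 1 := by
      rw [Finset.card_erase_of_mem hs, hW]; omega
    refine ih (W.erase s) hW' ((Finset.erase_subset _ _).trans hWS)
      (fun i => add (P i) s (u i false) (u i true))
      (fun i => nK (K i) (x i false).1 (x i true).1 s)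
      (fun i => ne (e i) (x i false).1 (x i true).1 (x i false).2 (x i true).2) ?_
    refine ⟨?_, ?_, ?_, ?_, ?_⟩
    · rintro i a b (h1 | ⟨h1, ⟨h2, h3 | h3⟩ | ⟨h2, h3 | h3⟩⟩)
      · exact h.sub i h1
      · rw [h2, h3]; exact (hadj i false).2
      · rw [h2, h3]; exact (hadj i true).2
      · rw [h2, h3]; exact (hadj i false).2.symm
      · rw [h2, h3]; exact (hadj i true).2.symm
    · intro i
      exact (h.ext i).trans (le_add _ _ _ _)
    · have key : ∀ i a b, (add (P i) s (u i false) (u i true)).Adj a b →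
          ((P i).Adj a b ∧ a ≠ s ∧ b ≠ s) ∨ (a = s ∧ ∃ c, b = u i c) ∨
            (b = s ∧ ∃ c, a = u i c) := by
        rintro i a b (h1 | ⟨h1, ⟨h2, h3 | h3⟩ | ⟨h2, h3 | h3⟩⟩)
        · left
          refine ⟨h1, ?_, ?_⟩
          · rintro rfl
            exact (h.cl i).iso a hs b h1
          · rintro rfl
            exact (h.cl i).iso b hs a h1.symm
        · exact Or.inr (Or.inl ⟨h2, false, h3⟩)
        · exact Or.inr (Or.inl ⟨h2, true, h3⟩)
        · exact Or.inr (Or.inr ⟨h2, false, h3⟩)
        · exact Or.inr (Or.inr ⟨h2, true, h3⟩)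
      have hew : ∀ i c, u i c ≠ s := by
        intro i c hc
        exact (h.cl i).eW _ _ (by rw [show e i (x i c).1 (x i c).2 = s from hc]; exact hs)
      intro i j a b hi hj
      rcases key i a b hi with ⟨h1, h2, h3⟩ | ⟨h1, c, h2⟩ | ⟨h1, c, h2⟩
      · rcases key j a b hj with ⟨h4, -, -⟩ | ⟨h4, -⟩ | ⟨h4, -⟩
        · exact h.disj i j a b h1 h4
        · exact absurd h4 h2
        · exact absurd h4 h3
      · rcases key j a b hj with ⟨-, h4, -⟩ | ⟨-, c', h4⟩ | ⟨-, c', h4⟩
        · exact absurd h1 h4
        · exact (hx2 i c j c' (h2.symm.trans h4)).1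
        · exact absurd (h4.symm.trans h1) (hew j c')
      · rcases key j a b hj with ⟨-, -, h4⟩ | ⟨-, c', h4⟩ | ⟨-, c', h4⟩
        · exact absurd h1 h4
        · exact absurd (h4.symm.trans h1) (hew j c')
        · exact (hx2 i c j c' (h2.symm.trans h4)).1
    · intro i
      exact class_step (h.cl i) hs _ _ (hx1 i) _ _ (hu i)
    · intro v
      have h5 : ends (fun i => ne (e i) (x i false).1 (x i true).1 (x i false).2 (x i true).2) v +
          ∑ i, ((if u i false = v then 1 else 0) + (if u i true = v then 1 else 0)) =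
          ends e v := by
        rw [ends_eq, ends_eq, ← Finset.sum_add_distrib]
        apply Finset.sum_congr rfl
        intro i _
        exact sl_ne (e i) _ _ (hx1 i) _ _ v
      have h6 := h.cap v
      by_cases hvN : v ∈ N
      · have hvN' := hvN
        simp only [N, mem_filter, mem_univ, true_and] at hvN'
        have h7 : {w ∈ W.erase s | v ∉ S ∧ G.Adj w v}.card + 1 =
            {w ∈ W | v ∉ S ∧ G.Adj w v}.card := by
          rw [Finset.filter_erase, Finset.card_erase_add_one]
          rw [mem_filter]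
          exact ⟨hs, hvN'⟩
        by_cases hva : ends e v = a v
        · obtain ⟨i, c, hic⟩ := hx4 v hvN hva
          have h8 : 1 ≤ ∑ i, ((if u i false = v then 1 else 0) + (if u i true = v then 1 else 0)) := by
            refine le_trans ?_ (Finset.single_le_sum (f := fun i =>
              ((if u i false = v then 1 else 0) + (if u i true = v then 1 else 0)))
              (fun _ _ => Nat.zero_le _) (mem_univ i))
            have h9 : u i c = v := hic
            cases c
            · simp only [if_pos h9]; omega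
            · simp only [if_pos h9]; omega
          omega
        · have h8 : ends e v < a v := lt_of_le_of_ne h6 hva
          simp only [a] at h8
          omega
      · have h7 : {w ∈ W.erase s | v ∉ S ∧ G.Adj w v} = {w ∈ W | v ∉ S ∧ G.Adj w v} := by
          rw [Finset.filter_erase, Finset.erase_eq_of_notMem]
          intro h8
          rw [mem_filter] at h8
          exact hvN (by simp only [N, mem_filter, mem_univ, true_and]; exact h8.2)
        rw [h7]
        omega

end Pool.Agent.Helper37Ham
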