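import Mathlib

set_option autoImplicit false

/-!
Degrees as sums, and orderings of the vertices of a graph with balanced neighbourhoods.
-/

namespace Pool.Agent.Helper37Ham

open Finset SimpleGraph

variable {V : Type}

open Classical in
/-- the adjacency matrix -/
noncomputable def ad (F : SimpleGraph V) (v w : V) : ℕ := if F.Adj v w then 1 else 0

/-- the degree -/
noncomputable def dg [Fintype V] (F : SimpleGraph V) (v : V) : ℕ := ∑ w, ad F v w

theorem ad_le_one (F : SimpleGraph V) (v w : V) : ad F v w ≤ 1 := by
  unfold ad; split_ifs <;> omega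

theorem ad_symm (F : SimpleGraph V) (v w : V) : ad F v w = ad F w v := by
  unfold ad
  by_cases h : F.Adj v w
  · rw [if_pos h, if_pos h.symm]
  · rw [if_neg h, if_neg fun h' => h h'.symm]

theorem ad_pos {F : SimpleGraph V} {v w : V} : 0 < ad F v w ↔ F.Adj v w := by
  unfold ad
  split_ifs with h
  · simp [h]
  · simp [h]

theorem ad_eq_one {F : SimpleGraph V} {v w : V} : ad F v w = 1 ↔ F.Adj v w := by
  unfold ad
  split_ifs with h
  · simp [h]
  · simp [h]

theorem ad_eq_zero {F : SimpleGraph V} {v w : V} : ad F v w = 0 ↔ ¬ F.Adj v w := by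
  unfold ad
  split_ifs with h
  · simp [h]
  · simp [h]

theorem ad_self (F : SimpleGraph V) (v : V) : ad F v v = 0 := ad_eq_zero.2 (F.loopless.irrefl v)

theorem ad_mono {F H : SimpleGraph V} (h : F ≤ H) (v w : V) : ad F v w ≤ ad H v w := by
  rcases Nat.eq_zero_or_pos (ad F v w) with h1 | h1
  · omega
  · have h2 : 0 < ad H v w := ad_pos.2 (h (ad_pos.1 h1))
    have := ad_le_one F v w
    omega

variable [Fintype V]

theorem dg_mono {F H : SimpleGraph V} (h : F ≤ H) (v : V) : dg F v ≤ dg H v :=
  Finset.sum_le_sum fun w _ => ad_mono h v w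

theorem dg_eq_degree (F : SimpleGraph V) (v : V) [Fintype (F.neighborSet v)] :
    F.degree v = dg F v := by
  classical
  unfold dg ad
  rw [← Finset.card_filter, ← F.card_neighborFinset_eq_degree]
  congr 1
  ext w
  simp

/-- a discrete intermediate value theorem -/
theorem ivt (f : ℕ → ℕ) (h0 : f 0 = 0) (h1 : ∀ t, f (t + 1) ≤ f t + 1) (N c : ℕ)
    (hN : c ≤ f N) : ∃ t, f t = c := by
  induction N with
  | zero => exact ⟨0, by omega⟩
  | succ N ih =>
    by_cases h : c ≤ f N
    · exact ih h
    · have := h1 N
      exact ⟨N + 1, by omega⟩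

/-- **Orderings with balanced neighbourhoods.** -/
theorem rank_of (F : SimpleGraph V) (k : ℕ) (hdeg : ∀ v, dg F v ≤ 2 * k)
    (hind : ∀ v w, F.Adj v w → dg F v ≤ k ∨ dg F w ≤ k) :
    ∃ ρ : V → ℕ, (∀ v w, F.Adj v w → ρ v ≠ ρ w) ∧
      (∀ v, (∑ w, if ρ v < ρ w then ad F v w else 0) ≤ k) ∧
      (∀ v, (∑ w, if ρ w < ρ v then ad F v w else 0) ≤ k) := by
  classical
  let ι : V ≃ Fin (Fintype.card V) := Fintype.equivFin V
  have hτ : ∀ v, ∃ t : ℕ, (∑ w, if (ι w).1 < t then ad F v w else 0) ≤ k ∧
      (∑ w, if t ≤ (ι w).1 then ad F v w else 0) ≤ k := by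
    intro v
    obtain ⟨t, ht⟩ := ivt (fun t => ∑ w, if (ι w).1 < t then ad F v w else 0) (by simp)
      (by
        intro t
        have h1 : ∀ w, (if (ι w).1 < t + 1 then ad F v w else 0) ≤
            (if (ι w).1 < t then ad F v w else 0) + (if (ι w).1 = t then 1 else 0) := by
          intro w
          have := ad_le_one F v w
          split_ifs <;> omega
        refine (Finset.sum_le_sum fun w _ => h1 w).trans ?_
        rw [Finset.sum_add_distrib]
        apply Nat.add_le_add_left
        by_cases h2 : t < Fintype.card V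
        · rw [Finset.sum_eq_single (ι.symm ⟨t, h2⟩)]
          · simp
          · intro w _ hw
            rw [if_neg]
            intro h3
            apply hw
            rw [Equiv.eq_symm_apply]
            exact Fin.ext h3
          · simp
        · rw [Finset.sum_eq_zero]
          · exact Nat.zero_le _
          · intro w _
            rw [if_neg]
            have := (ι w).2
            omega)
      (Fintype.card V) (min (dg F v) k)
      (by
        refine (min_le_left _ _).trans ?_
        unfold dg
        apply Finset.sum_le_sum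
        intro w _
        rw [if_pos (ι w).2])
    have h2 : (∑ w, if (ι w).1 < t then ad F v w else 0) +
        (∑ w, if t ≤ (ι w).1 then ad F v w else 0) = dg F v := by
      rw [← Finset.sum_add_distrib]
      unfold dg
      apply Finset.sum_congr rfl
      intro w _
      by_cases h3 : (ι w).1 < t
      · rw [if_pos h3, if_neg (by omega), add_zero]
      · rw [if_neg h3, if_pos (by omega), zero_add]
    beta_reduce at ht
    refine ⟨t, ?_, ?_⟩
    · rw [ht]; exact min_le_right _ _
    · have h3 := hdeg v
      rcases le_total (dg F v) k with h4 | h4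
      · rw [min_eq_left h4] at ht
        omega
      · rw [min_eq_right h4] at ht
        omega
  choose τ hτ1 hτ2 using hτ
  let ρ : V → ℕ := fun v => if dg F v ≤ k then 2 * (ι v).1 + 1 else 2 * τ v
  have hsmall : ∀ (v : V) (P : V → Prop) [DecidablePred P], dg F v ≤ k →
      (∑ w, if P w then ad F v w else 0) ≤ k := by
    intro v P _ hv
    refine le_trans (Finset.sum_le_sum fun w _ => ?_) hv
    split_ifs <;> omega
  refine ⟨ρ, ?_, ?_, ?_⟩
  · intro v w hvw
    have hne : (ι v).1 ≠ (ι w).1 := by
      intro h1
      exact hvw.ne (ι.injective (Fin.ext h1))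
    simp only [ρ]
    rcases hind v w hvw with h1 | h1
    · rw [if_pos h1]
      split_ifs <;> omega
    · rw [if_pos h1]
      split_ifs <;> omega
  · intro v
    by_cases hv : dg F v ≤ k
    · exact hsmall v _ hv
    · refine le_trans (Finset.sum_le_sum fun w _ => ?_) (hτ2 v)
      by_cases hvw : F.Adj v w
      · have hw : dg F w ≤ k := (hind v w hvw).resolve_left hv
        simp only [ρ, if_neg hv, if_pos hw]
        split_ifs <;> omega
      · rw [ad_eq_zero.2 hvw]
        simp
  · intro v
    by_cases hv : dg F v ≤ k
    · exact hsmall v _ hv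
    · refine le_trans (Finset.sum_le_sum fun w _ => ?_) (hτ1 v)
      by_cases hvw : F.Adj v w
      · have hw : dg F w ≤ k := (hind v w hvw).resolve_left hv
        simp only [ρ, if_neg hv, if_pos hw]
        split_ifs <;> omega
      · rw [ad_eq_zero.2 hvw]
        simp

end Pool.Agent.Helper37Ham
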