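import Pool.Agent.Helper37Ham.Ext
import Pool.Agent.Helper37Ham.Rank
import Pool.Agent.Helper37Ham.Cyc

set_option autoImplicit false

/-!
Linear forests as systems of paths, and the extension theorem.
-/

namespace Pool.Agent.Helper37Ham

open Finset SimpleGraph

variable {V : Type} [Fintype V] [DecidableEq V]

theorem ncard_nbr (F : SimpleGraph V) (v : V) : (F.neighborSet v).ncard = dg F v := by
  classical
  rw [← dg_eq_degree F v, Set.ncard_eq_toFinset_card']
  rfl

/-- adding an edge between the ends of two different paths -/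
theorem class_join {g : ℕ} {P P' : SimpleGraph V} {W : Finset V} {K : Fin (g + 1) → Set V}
    {e : Fin (g + 1) → Bool → V} (h : Cl P W (g + 1) K e)
    (j1 j2 : Fin (g + 1)) (h12 : j1 ≠ j2) (b1 b2 : Bool) (hne : e j1 b1 ≠ e j2 b2)
    (hnadj : ¬ P.Adj (e j1 b1) (e j2 b2))
    (hP : ∀ a b, P'.Adj a b ↔ P.Adj a b ∨ (a = e j1 b1 ∧ b = e j2 b2) ∨
      (a = e j2 b2 ∧ b = e j1 b1)) :
    ∃ K' : Fin g → Set V, Cl P' W g K' (ne e j1 j2 b1 b2) := by
  have hle : P ≤ P' := fun a b hab => (hP a b).2 (Or.inl hab)
  obtain ⟨j0, hj0⟩ := Fin.exists_succAbove_eq h12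
  have hxy : P'.Adj (e j1 b1) (e j2 b2) := (hP _ _).2 (Or.inr (Or.inl ⟨rfl, rfl⟩))
  refine ⟨fun j => if j2.succAbove j = j1 then K j1 ∪ K j2 else K (j2.succAbove j),
    ?_, ?_, ?_, ?_, ?_, ?_⟩
  · intro w hw x hx
    rcases (hP _ _).1 hx with h1 | ⟨h1, -⟩ | ⟨h1, -⟩
    · exact h.iso w hw x h1
    · exact h.eW _ _ (h1 ▸ hw)
    · exact h.eW _ _ (h1 ▸ hw)
  · intro v hv
    have h5 := sl_ne e j1 j2 h12 b1 b2 v
    have h6 := h.deg v hv
    have h7 : (P'.neighborSet v).ncard = (P.neighborSet v).ncard +
        ((if e j1 b1 = v then 1 else 0) + (if e j2 b2 = v then 1 else 0)) := by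
      by_cases h8 : e j1 b1 = v
      · have h9 : e j2 b2 ≠ v := fun h9 => hne (h8.trans h9.symm)
        rw [if_pos h8, if_neg h9]
        have h10 : P'.neighborSet v = insert (e j2 b2) (P.neighborSet v) := by
          ext z
          simp only [mem_neighborSet, Set.mem_insert_iff]
          rw [hP]
          constructor
          · rintro (h11 | ⟨-, h11⟩ | ⟨h11, -⟩)
            · exact Or.inr h11
            · exact Or.inl h11
            · exact absurd h11.symm h9
          · rintro (h11 | h11)
            · exact Or.inr (Or.inl ⟨h8.symm, h11⟩)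
            · exact Or.inl h11
        rw [h10, Set.ncard_insert_of_notMem _ (Set.toFinite _)]
        rw [mem_neighborSet, ← h8]
        exact hnadj
      · by_cases h9 : e j2 b2 = v
        · rw [if_neg h8, if_pos h9]
          have h10 : P'.neighborSet v = insert (e j1 b1) (P.neighborSet v) := by
            ext z
            simp only [mem_neighborSet, Set.mem_insert_iff]
            rw [hP]
            constructor
            · rintro (h11 | ⟨h11, -⟩ | ⟨-, h11⟩)
              · exact Or.inr h11
              · exact absurd h11.symm h8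
              · exact Or.inl h11
            · rintro (h11 | h11)
              · exact Or.inr (Or.inr ⟨h9.symm, h11⟩)
              · exact Or.inl h11
          rw [h10, Set.ncard_insert_of_notMem _ (Set.toFinite _)]
          rw [mem_neighborSet, ← h9]
          exact fun h11 => hnadj h11.symm
        · rw [if_neg h8, if_neg h9]
          have h10 : P'.neighborSet v = P.neighborSet v := by
            ext z
            simp only [mem_neighborSet]
            rw [hP]
            constructor
            · rintro (h11 | ⟨h11, -⟩ | ⟨h11, -⟩)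
              · exact h11
              · exact absurd h11.symm h8
              · exact absurd h11.symm h9
            · exact fun h11 => Or.inl h11
          rw [h10]
          rfl
    omega
  · intro j b
    unfold ne
    beta_reduce
    by_cases hj : j2.succAbove j = j1
    · rw [if_pos hj, if_pos hj]
      cases b
      · exact Or.inl (h.mem _ _)
      · exact Or.inr (h.mem _ _)
    · rw [if_neg hj, if_neg hj]
      exact h.mem _ _
  · intro j b hm
    unfold ne at hm
    split_ifs at hm
    · exact h.eW _ _ hm
    · exact h.eW _ _ hm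
    · exact h.eW _ _ hm
  · intro v hv
    obtain ⟨j, hj⟩ := h.cover v hv
    beta_reduce
    by_cases hj2 : j = j2
    · refine ⟨j0, ?_⟩
      rw [if_pos hj0]
      exact Or.inr (hj2 ▸ hj)
    · obtain ⟨j', hj'⟩ := Fin.exists_succAbove_eq hj2
      refine ⟨j', ?_⟩
      split_ifs with h6
      · exact Or.inl (by rw [← h6, hj']; exact hj)
      · rw [hj']; exact hj
  · intro j x y hx hy
    beta_reduce at hx hy
    split_ifs at hx hy with h6
    · have hc : ∀ z ∈ K j1 ∪ K j2, P'.Reachable z (e j1 b1) := by
        rintro z (hz | hz)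
        · exact (h.conn j1 z _ hz (h.mem j1 b1)).mono hle
        · exact ((h.conn j2 z _ hz (h.mem j2 b2)).mono hle).trans hxy.symm.reachable
      exact (hc x hx).trans (hc y hy).symm
    · exact (h.conn _ x y hx hy).mono hle

/-- the number of edges -/
noncomputable def ecard (L : SimpleGraph V) : ℕ := L.edgeSet.ncard

/-- systems of paths from acyclic graphs -/
theorem cl_of_acyclic (W : Finset V) (m : ℕ) : ∀ (L : SimpleGraph V), ecard L = m →
    L.IsAcyclic → (∀ v, dg L v ≤ 2) → (∀ w ∈ W, ∀ x, ¬ L.Adj w x) →
    ∃ (g : ℕ) (K : Fin g → Set V) (e : Fin g → Bool → V), g + m = Wᶜ.card ∧ Cl L W g K e := by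
  classical
  induction m with
  | zero =>
    intro L hL _ _ _
    have hno : ∀ a b, ¬ L.Adj a b := by
      intro a b hab
      unfold ecard at hL
      rw [Set.ncard_eq_zero (Set.toFinite _)] at hL
      have h1 : s(a, b) ∈ L.edgeSet := hab
      rw [hL] at h1
      exact h1
    let eqv : {v // v ∈ Wᶜ} ≃ Fin Wᶜ.card := Wᶜ.equivFin
    refine ⟨Wᶜ.card, fun j => {(eqv.symm j).1}, fun j _ => (eqv.symm j).1, rfl,
      fun w _ x => hno w x, ?_, fun j b => rfl, ?_, ?_, ?_⟩
    · intro v hv
      have h1 : L.neighborSet v = ∅ := by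
        ext z
        simp only [mem_neighborSet, Set.mem_empty_iff_false, iff_false]
        exact hno v z
      rw [h1, Set.ncard_empty, zero_add]
      unfold sl
      have hv' : v ∈ Wᶜ := mem_compl.2 hv
      rw [Finset.sum_eq_single (eqv ⟨v, hv'⟩)]
      · simp
      · intro j _ hj
        have h2 : (eqv.symm j).1 ≠ v := by
          intro h3
          apply hj
          rw [← eqv.symm_apply_eq]
          exact Subtype.ext h3
        rw [if_neg h2]
        rfl
      · intro h2
        exact absurd (mem_univ _) h2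
    · intro j b
      exact mem_compl.1 (eqv.symm j).2
    · intro v hv
      refine ⟨eqv ⟨v, mem_compl.2 hv⟩, ?_⟩
      simp
    · intro j x y hx hy
      rw [Set.mem_singleton_iff] at hx hy
      rw [hx, hy]
  | succ m ih =>
    intro L hL hac hdeg hW
    obtain ⟨e0, he0⟩ : ∃ e0, e0 ∈ L.edgeSet := by
      by_contra hno
      push Not at hno
      have h1 : L.edgeSet = ∅ := Set.eq_empty_iff_forall_notMem.2 hno
      unfold ecard at hL
      rw [h1, Set.ncard_empty] at hL
      omega
    induction e0 with
    | _ x y =>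
      have hxy : L.Adj x y := he0
      let L' := L.deleteEdges {s(x, y)}
      have hL'L : L' ≤ L := deleteEdges_le _
      have hL'adj : ∀ a b, L'.Adj a b ↔ L.Adj a b ∧ s(a, b) ≠ s(x, y) := by
        intro a b
        simp only [L', deleteEdges_adj, Set.mem_singleton_iff]
      have hcard : ecard L' = m := by
        unfold ecard at hL ⊢
        have h1 : L'.edgeSet = L.edgeSet \ {s(x, y)} := by
          simp only [L', edgeSet_deleteEdges]
        rw [h1, Set.ncard_sdiff_singleton_of_mem he0, hL]
        rfl
      have hbr : ¬ L'.Reachable x y := by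
        have h1 := isAcyclic_iff_forall_adj_isBridge.1 hac hxy
        rw [isBridge_iff] at h1
        exact h1
      obtain ⟨g, K, e, hg, hcl⟩ := ih L' hcard (hac.anti hL'L)
        (fun v => (dg_mono hL'L v).trans (hdeg v)) (fun w hw z hz => hW w hw z (hL'L hz))
      have hxW : x ∉ W := fun h => hW x h y hxy
      have hyW : y ∉ W := fun h => hW y h x hxy.symm
      have hdg : ∀ a b, L.Adj a b → s(a, b) = s(x, y) → dg L' a + 1 ≤ dg L a := by
        intro a b hab habxy
        unfold dg
        rw [← Finset.add_sum_erase univ (fun w => ad L' a w) (mem_univ b),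
          ← Finset.add_sum_erase univ (fun w => ad L a w) (mem_univ b)]
        have h1 : ad L' a b = 0 := by
          rw [ad_eq_zero, hL'adj]
          exact fun h => h.2 habxy
        have h2 : ad L a b = 1 := ad_eq_one.2 hab
        rw [h1, h2]
        have h3 : ∑ w ∈ univ.erase b, ad L' a w ≤ ∑ w ∈ univ.erase b, ad L a w :=
          Finset.sum_le_sum fun w _ => ad_mono hL'L a w
        omega
      have hend : ∀ a b, a ∉ W → L.Adj a b → s(a, b) = s(x, y) → ∃ j c, e j c = a := by
        intro a b ha hab habxy
        have h1 := hcl.deg a ha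
        rw [ncard_nbr] at h1
        have h2 := hdg a b hab habxy
        have h3 := hdeg a
        have h4 : 0 < sl e a := by omega
        unfold sl at h4
        obtain ⟨j, -, hj⟩ := Finset.exists_ne_zero_of_sum_ne_zero h4.ne'
        by_cases h5 : e j false = a
        · exact ⟨j, false, h5⟩
        · by_cases h6 : e j true = a
          · exact ⟨j, true, h6⟩
          · rw [if_neg h5, if_neg h6] at hj
            exact absurd rfl hj
      obtain ⟨j1, c1, hx⟩ := hend x y hxW hxy rfl
      obtain ⟨j2, c2, hy⟩ := hend y x hyW hxy.symm Sym2.eq_swap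
      have h12 : j1 ≠ j2 := by
        rintro rfl
        apply hbr
        exact hcl.conn j1 x y (hx ▸ hcl.mem j1 c1) (hy ▸ hcl.mem j1 c2)
      obtain ⟨g', rfl⟩ : ∃ g', g = g' + 1 := by
        rcases g with _ | g'
        · exact j1.elim0
        · exact ⟨g', rfl⟩
      obtain ⟨K', hK'⟩ := class_join (P' := L) hcl j1 j2 h12 c1 c2
        (by rw [hx, hy]; exact hxy.ne)
        (by
          rw [hx, hy]
          intro h1
          exact hbr h1.reachable)
        (by
          intro a b
          rw [hx, hy, hL'adj]
          constructor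
          · intro h1
            by_cases h2 : s(a, b) = s(x, y)
            · rw [Sym2.eq_iff] at h2
              exact Or.inr h2
            · exact Or.inl ⟨h1, h2⟩
          · rintro (h1 | ⟨h1, h2⟩ | ⟨h1, h2⟩)
            · exact h1.1
            · rw [h1, h2]; exact hxy
            · rw [h1, h2]; exact hxy.symm)
      exact ⟨g', K', _, by omega, hK'⟩

/-- **The extension theorem.** -/
theorem extension {k : ℕ} (G : SimpleGraph V) (S : Finset V) (hS : S.Nonempty)
    (hmiss : ∀ w ∈ S, {v | v ∉ S ∧ ¬ G.Adj w v}.ncard ≤ 1)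
    (L : Fin k → SimpleGraph V) (hLG : ∀ i, L i ≤ G)
    (hdis : ∀ i j a b, (L i).Adj a b → (L j).Adj a b → i = j)
    (hac : ∀ i, (L i).IsAcyclic) (hdeg : ∀ i v, dg (L i) v ≤ 2)
    (hLS : ∀ i, ∀ w ∈ S, ∀ x, ¬ (L i).Adj w x)
    (hcard : ∀ i, ecard (L i) + S.card = Sᶜ.card)
    (hcap : ∀ v, v ∉ S → 2 * k ≤ ∑ w ∈ S, ad G v w + ∑ i, dg (L i) v) :
    ∃ C : Fin k → SimpleGraph V, (∀ i, C i ≤ G) ∧ (∀ i, L i ≤ C i) ∧
      (∀ i j a b, (C i).Adj a b → (C j).Adj a b → i = j) ∧
      (∀ i v, ((C i).neighborSet v).ncard = 2) ∧ ∀ i, (C i).Connected := by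
  classical
  obtain ⟨g, hg⟩ : ∃ g, S.card = g + 1 := ⟨S.card - 1, by
    have := Finset.card_pos.2 hS; omega⟩
  have hcl : ∀ i, ∃ (K : Fin (g + 1) → Set V) (e : Fin (g + 1) → Bool → V),
      Cl (L i) S (g + 1) K e := by
    intro i
    obtain ⟨g', K, e, h1, h2⟩ := cl_of_acyclic S _ (L i) rfl (hac i) (hdeg i) (hLS i)
    have h3 : g' = g + 1 := by
      have := hcard i
      omega
    subst h3
    exact ⟨K, e, h2⟩
  choose K e hcl using hcl
  refine run G S L hmiss g S hg (Finset.Subset.refl S) L K e ⟨hLG, fun i => le_rfl, hdis, hcl, ?_⟩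
  intro v
  by_cases hv : v ∈ S
  · have h1 : ends e v = 0 := by
      rw [ends_eq]
      apply Finset.sum_eq_zero
      intro i _
      unfold sl
      apply Finset.sum_eq_zero
      intro j _
      have h2 : ∀ b, e i j b ≠ v := by
        intro b h3
        exact (hcl i).eW j b (by rw [h3]; exact hv)
      rw [if_neg (h2 false), if_neg (h2 true)]
      rfl
    rw [h1]
    exact Nat.zero_le _
  · have h1 : ends e v + ∑ i, dg (L i) v = 2 * k := by
      rw [ends_eq, ← Finset.sum_add_distrib]
      have h2 : ∀ i, sl (e i) v + dg (L i) v = 2 := by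
        intro i
        rw [add_comm, ← ncard_nbr]
        exact (hcl i).deg v hv
      rw [Finset.sum_congr rfl fun i _ => h2 i]
      simp [mul_comm]
    have h3 : {w ∈ S | v ∉ S ∧ G.Adj w v}.card = ∑ w ∈ S, ad G v w := by
      rw [Finset.card_filter]
      apply Finset.sum_congr rfl
      intro w _
      unfold ad
      by_cases h4 : G.Adj w v
      · rw [if_pos ⟨hv, h4⟩, if_pos h4.symm]
      · rw [if_neg fun h => h4 h.2, if_neg fun h => h4 h.symm]
    rw [h3]
    have := hcap v hv
    omega

end Pool.Agent.Helper37Ham
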