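import Pool.Agent.Helper37Ham.Dt1

set_option autoImplicit false

/-!
Decompositions of matrices into classes with prescribed bounds for all row sums, all column sums,
all entries and the total.
-/

namespace Pool.Agent.Helper37Ham

open Finset Pool.Agent.H160R2.HF Pool.Agent.X76.Det

theorem le_ceil {N D : ℕ} (hD : 0 < D) : N ≤ D * ((N + (D - 1)) / D) := by
  have h4 := Nat.div_add_mod (N + (D - 1)) D
  have h5 := Nat.mod_lt (N + (D - 1)) hD
  omega

/-- one balanced class -/
theorem eq_class {X Y : Type} [Fintype X] [DecidableEq X] [Fintype Y] [DecidableEq Y]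
    (o : X → Y → ℕ) (D : ℕ) (hD : 0 < D) :
    ∃ T : X → Y → ℕ,
      (∀ x, (∑ y, o x y) / D ≤ ∑ y, T x y ∧ ∑ y, T x y ≤ (∑ y, o x y + (D - 1)) / D) ∧
      (∀ y, (∑ x, o x y) / D ≤ ∑ x, T x y ∧ ∑ x, T x y ≤ (∑ x, o x y + (D - 1)) / D) ∧
      (∀ x y, o x y / D ≤ T x y ∧ T x y ≤ (o x y + (D - 1)) / D) ∧
      ((∑ x, ∑ y, o x y) / D ≤ ∑ x, ∑ y, T x y ∧
        ∑ x, ∑ y, T x y ≤ (∑ x, ∑ y, o x y + (D - 1)) / D) := by
  let t : X ⊕ ((X × Y) ⊕ (Y ⊕ Unit)) → Option X ⊕ Option Y := fun e => match e with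
    | Sum.inl _ => Sum.inl none
    | Sum.inr (Sum.inl q) => Sum.inl (some q.1)
    | Sum.inr (Sum.inr (Sum.inl y)) => Sum.inr (some y)
    | Sum.inr (Sum.inr (Sum.inr _)) => Sum.inr none
  let h : X ⊕ ((X × Y) ⊕ (Y ⊕ Unit)) → Option X ⊕ Option Y := fun e => match e with
    | Sum.inl x => Sum.inl (some x)
    | Sum.inr (Sum.inl q) => Sum.inr (some q.2)
    | Sum.inr (Sum.inr (Sum.inl _)) => Sum.inr none
    | Sum.inr (Sum.inr (Sum.inr _)) => Sum.inl none
  let G : X ⊕ ((X × Y) ⊕ (Y ⊕ Unit)) → ℕ := fun e => match e with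
    | Sum.inl x => ∑ y, o x y
    | Sum.inr (Sum.inl q) => o q.1 q.2
    | Sum.inr (Sum.inr (Sum.inl y)) => ∑ x, o x y
    | Sum.inr (Sum.inr (Sum.inr _)) => ∑ x, ∑ y, o x y
  let lo : X ⊕ ((X × Y) ⊕ (Y ⊕ Unit)) → ℤ := fun e => ((G e / D : ℕ) : ℤ)
  let up : X ⊕ ((X × Y) ⊕ (Y ⊕ Unit)) → ℤ := fun e => (((G e + (D - 1)) / D : ℕ) : ℤ)
  have hn1 : ∀ (g : X ⊕ ((X × Y) ⊕ (Y ⊕ Unit)) → ℤ) (x : X),
      net t h g (Sum.inl (some x)) = ∑ y, g (Sum.inr (Sum.inl (x, y))) - g (Sum.inl x) := by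
    intro g x
    rw [net_eq]
    simp only [Fintype.sum_sum_type, t, h, Sum.inl.injEq, reduceCtorEq, if_false,
      Finset.sum_const_zero, add_zero, zero_add, Option.some.injEq]
    congr 1
    · rw [Fintype.sum_prod_type, Finset.sum_eq_single x]
      · simp
      · intro x' _ hne
        simp [hne]
      · simp
    · simp
  have hn2 : ∀ (g : X ⊕ ((X × Y) ⊕ (Y ⊕ Unit)) → ℤ),
      net t h g (Sum.inl none) = ∑ x, g (Sum.inl x) - g (Sum.inr (Sum.inr (Sum.inr ()))) := by
    intro g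
    rw [net_eq]
    simp only [Fintype.sum_sum_type, t, h, Sum.inl.injEq, reduceCtorEq, if_false, if_true,
      Finset.sum_const_zero, add_zero, zero_add]
    simp
  have hn3 : ∀ (g : X ⊕ ((X × Y) ⊕ (Y ⊕ Unit)) → ℤ) (y : Y),
      net t h g (Sum.inr (some y)) =
        g (Sum.inr (Sum.inr (Sum.inl y))) - ∑ x, g (Sum.inr (Sum.inl (x, y))) := by
    intro g y
    rw [net_eq]
    simp only [Fintype.sum_sum_type, t, h, Sum.inr.injEq, reduceCtorEq, if_false,
      Finset.sum_const_zero, add_zero, zero_add, Option.some.injEq]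
    congr 1
    · simp
    · rw [Fintype.sum_prod_type]
      apply Finset.sum_congr rfl
      intro x _
      simp
  have hn4 : ∀ (g : X ⊕ ((X × Y) ⊕ (Y ⊕ Unit)) → ℤ),
      net t h g (Sum.inr none) =
        g (Sum.inr (Sum.inr (Sum.inr ()))) - ∑ y, g (Sum.inr (Sum.inr (Sum.inl y))) := by
    intro g
    rw [net_eq]
    simp only [Fintype.sum_sum_type, t, h, Sum.inr.injEq, reduceCtorEq, if_false, if_true,
      Finset.sum_const_zero, add_zero, zero_add]
    simp
  obtain ⟨g, hg1, hg2⟩ := scaled t h lo up (fun _ => 0) (D : ℤ) (by exact_mod_cast hD)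
    (fun e => (G e : ℤ))
    (by
      intro e
      simp only [lo, up]
      constructor
      · exact_mod_cast Nat.mul_div_le (G e) D
      · exact_mod_cast le_ceil hD)
    (by
      rintro ((_ | x) | (_ | y))
      · rw [hn2]
        simp only [G]
        push_cast
        ring
      · rw [hn1]
        simp only [G]
        push_cast
        ring
      · rw [hn4]
        simp only [G]
        push_cast
        rw [Finset.sum_comm]
        ring
      · rw [hn3]
        simp only [G]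
        push_cast
        ring)
  have hpos : ∀ e, 0 ≤ g e := by
    intro e
    have h1 := (hg1 e).1
    simp only [lo] at h1
    exact (by positivity : (0 : ℤ) ≤ ((G e / D : ℕ) : ℤ)).trans h1
  have hT : ∀ e, ((g e).toNat : ℤ) = g e := fun e => Int.toNat_of_nonneg (hpos e)
  have hb : ∀ e, G e / D ≤ (g e).toNat ∧ (g e).toNat ≤ (G e + (D - 1)) / D := by
    intro e
    have h1 := hg1 e
    simp only [lo, up] at h1
    rw [← hT] at h1
    exact ⟨by exact_mod_cast h1.1, by exact_mod_cast h1.2⟩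
  have hrow : ∀ x, ∑ y, (g (Sum.inr (Sum.inl (x, y)))).toNat = (g (Sum.inl x)).toNat := by
    intro x
    have h1 := hg2 (Sum.inl (some x))
    rw [hn1] at h1
    have h2 : ((∑ y, (g (Sum.inr (Sum.inl (x, y)))).toNat : ℕ) : ℤ) =
        ((g (Sum.inl x)).toNat : ℤ) := by
      rw [hT]
      push_cast
      have h3 : ∑ y, g (Sum.inr (Sum.inl (x, y))) = g (Sum.inl x) := by linarith
      rw [← h3]
      apply Finset.sum_congr rfl
      intro y _
      exact_mod_cast hT _
    exact_mod_cast h2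
  have hcol : ∀ y, ∑ x, (g (Sum.inr (Sum.inl (x, y)))).toNat =
      (g (Sum.inr (Sum.inr (Sum.inl y)))).toNat := by
    intro y
    have h1 := hg2 (Sum.inr (some y))
    rw [hn3] at h1
    have h2 : ((∑ x, (g (Sum.inr (Sum.inl (x, y)))).toNat : ℕ) : ℤ) =
        ((g (Sum.inr (Sum.inr (Sum.inl y)))).toNat : ℤ) := by
      rw [hT]
      push_cast
      have h3 : ∑ x, g (Sum.inr (Sum.inl (x, y))) = g (Sum.inr (Sum.inr (Sum.inl y))) := by
        linarith
      rw [← h3]
      apply Finset.sum_congr rfl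
      intro x _
      exact_mod_cast hT _
    exact_mod_cast h2
  have htot : ∑ x, (g (Sum.inl x)).toNat = (g (Sum.inr (Sum.inr (Sum.inr ())))).toNat := by
    have h1 := hg2 (Sum.inl none)
    rw [hn2] at h1
    have h2 : ((∑ x, (g (Sum.inl x)).toNat : ℕ) : ℤ) =
        ((g (Sum.inr (Sum.inr (Sum.inr ())))).toNat : ℤ) := by
      rw [hT]
      push_cast
      have h3 : ∑ x, g (Sum.inl x) = g (Sum.inr (Sum.inr (Sum.inr ()))) := by linarith
      rw [← h3]
      apply Finset.sum_congr rfl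
      intro x _
      exact_mod_cast hT _
    exact_mod_cast h2
  refine ⟨fun x y => (g (Sum.inr (Sum.inl (x, y)))).toNat, ?_, ?_, ?_, ?_⟩
  · intro x
    rw [hrow]
    exact hb (Sum.inl x)
  · intro y
    rw [hcol]
    exact hb (Sum.inr (Sum.inr (Sum.inl y)))
  · intro x y
    exact hb (Sum.inr (Sum.inl (x, y)))
  · rw [Finset.sum_congr rfl (fun x _ => hrow x), htot]
    exact hb (Sum.inr (Sum.inr (Sum.inr ())))

/-- rounding, both bounds of the rest -/
theorem rest {D N lo hi t : ℕ} (h1 : (D + 1) * lo ≤ N) (h2 : N ≤ (D + 1) * hi)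
    (h3 : N / (D + 1) ≤ t) (h4 : t ≤ (N + D) / (D + 1)) :
    lo ≤ t ∧ t ≤ hi ∧ D * lo ≤ N - t ∧ N - t ≤ D * hi := by
  have h5 : lo ≤ N / (D + 1) := by
    rw [Nat.le_div_iff_mul_le (Nat.succ_pos D), mul_comm]; exact h1
  have h6 : (N + D) / (D + 1) ≤ hi := by
    have := up_le (g := D + 1) (Nat.succ_pos D) h2
    rw [Nat.add_sub_cancel] at this
    exact this
  refine ⟨h5.trans h3, h4.trans h6, ?_, ?_⟩
  · -- `N - t ≥ D * lo`
    have h7 := Nat.div_add_mod (N + D) (D + 1)
    have h8 := Nat.mod_lt (N + D) (Nat.succ_pos D)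
    have h9 : (D + 1) * lo = D * lo + lo := by ring
    set c := (N + D) / (D + 1) with hc
    have h10 : (D + 1) * c = D * c + c := by ring
    rcases Nat.lt_or_ge lo c with h11 | h11
    · have h12 : D * (lo + 1) ≤ D * c := Nat.mul_le_mul_left D h11
      have h13 : D * (lo + 1) = D * lo + D := by ring
      omega
    · omega
  · have := down_ge (g := D + 1) (Nat.succ_pos D) h2 h3
    rw [Nat.add_sub_cancel] at this
    exact this

/-- **Decompositions of matrices into classes.** -/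
theorem eq_classes {X Y : Type} [Fintype X] [DecidableEq X] [Fintype Y] [DecidableEq Y]
    (rl rh : X → ℕ) (cl ch : Y → ℕ) (el eh : X → Y → ℕ) (tl th : ℕ) (D : ℕ) :
    ∀ o : X → Y → ℕ,
      (∀ x, D * rl x ≤ ∑ y, o x y ∧ ∑ y, o x y ≤ D * rh x) →
      (∀ y, D * cl y ≤ ∑ x, o x y ∧ ∑ x, o x y ≤ D * ch y) →
      (∀ x y, D * el x y ≤ o x y ∧ o x y ≤ D * eh x y) →
      (D * tl ≤ ∑ x, ∑ y, o x y ∧ ∑ x, ∑ y, o x y ≤ D * th) →
      ∃ T : Fin D → X → Y → ℕ,
        (∀ c x, rl x ≤ ∑ y, T c x y ∧ ∑ y, T c x y ≤ rh x) ∧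
        (∀ c y, cl y ≤ ∑ x, T c x y ∧ ∑ x, T c x y ≤ ch y) ∧
        (∀ c x y, el x y ≤ T c x y ∧ T c x y ≤ eh x y) ∧
        (∀ c, tl ≤ ∑ x, ∑ y, T c x y ∧ ∑ x, ∑ y, T c x y ≤ th) ∧
        ∀ x y, ∑ c, T c x y = o x y := by
  induction D with
  | zero =>
    intro o h1 h2 h3 h4
    refine ⟨fun c => c.elim0, fun c => c.elim0, fun c => c.elim0, fun c => c.elim0,
      fun c => c.elim0, ?_⟩
    intro x y
    have h5 := (h3 x y).2
    rw [Nat.zero_mul, Nat.le_zero] at h5
    rw [h5]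
    simp
  | succ D ih =>
    intro o h1 h2 h3 h4
    obtain ⟨T0, hr, hc, he, ht⟩ := eq_class o (D + 1) (Nat.succ_pos D)
    simp only [Nat.add_sub_cancel] at hr hc he ht
    have hle : ∀ x y, T0 x y ≤ o x y := by
      intro x y
      have h5 := he x y
      have h6 := (rest (lo := 0) (hi := o x y) (by rw [Nat.mul_zero]; exact Nat.zero_le _)
        (Nat.le_mul_of_pos_left _ (Nat.succ_pos D)) h5.1 h5.2)
      exact h6.2.1
    have hsubr : ∀ x, ∑ y, (o x y - T0 x y) = ∑ y, o x y - ∑ y, T0 x y :=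
      fun x => Finset.sum_tsub_distrib _ (fun y _ => hle x y)
    have hsubc : ∀ y, ∑ x, (o x y - T0 x y) = ∑ x, o x y - ∑ x, T0 x y :=
      fun y => Finset.sum_tsub_distrib _ (fun x _ => hle x y)
    have hsubt : ∑ x, ∑ y, (o x y - T0 x y) = ∑ x, ∑ y, o x y - ∑ x, ∑ y, T0 x y := by
      rw [Finset.sum_congr rfl (fun x _ => hsubr x)]
      exact Finset.sum_tsub_distrib _ (fun x _ => Finset.sum_le_sum fun y _ => hle x y)
    obtain ⟨T, hr', hc', he', ht', hs'⟩ := ih (fun x y => o x y - T0 x y)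
      (by
        intro x
        rw [hsubr]
        have := rest (h1 x).1 (h1 x).2 (hr x).1 (hr x).2
        exact ⟨this.2.2.1, this.2.2.2⟩)
      (by
        intro y
        rw [hsubc]
        have := rest (h2 y).1 (h2 y).2 (hc y).1 (hc y).2
        exact ⟨this.2.2.1, this.2.2.2⟩)
      (by
        intro x y
        have := rest (h3 x y).1 (h3 x y).2 (he x y).1 (he x y).2
        exact ⟨this.2.2.1, this.2.2.2⟩)
      (by
        rw [hsubt]
        have := rest h4.1 h4.2 ht.1 ht.2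
        exact ⟨this.2.2.1, this.2.2.2⟩)
    refine ⟨Fin.cons T0 T, ?_, ?_, ?_, ?_, ?_⟩
    · intro c x
      refine Fin.cases ?_ (fun c => ?_) c
      · simp only [Fin.cons_zero]
        have := rest (h1 x).1 (h1 x).2 (hr x).1 (hr x).2
        exact ⟨this.1, this.2.1⟩
      · simpa only [Fin.cons_succ] using hr' c x
    · intro c y
      refine Fin.cases ?_ (fun c => ?_) c
      · simp only [Fin.cons_zero]
        have := rest (h2 y).1 (h2 y).2 (hc y).1 (hc y).2
        exact ⟨this.1, this.2.1⟩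
      · simpa only [Fin.cons_succ] using hc' c y
    · intro c x y
      refine Fin.cases ?_ (fun c => ?_) c
      · simp only [Fin.cons_zero]
        have := rest (h3 x y).1 (h3 x y).2 (he x y).1 (he x y).2
        exact ⟨this.1, this.2.1⟩
      · simpa only [Fin.cons_succ] using he' c x y
    · intro c
      refine Fin.cases ?_ (fun c => ?_) c
      · simp only [Fin.cons_zero]
        have := rest h4.1 h4.2 ht.1 ht.2
        exact ⟨this.1, this.2.1⟩
      · simpa only [Fin.cons_succ] using ht' c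
    · intro x y
      rw [Fin.sum_univ_succ]
      simp only [Fin.cons_zero, Fin.cons_succ, hs']
      have := hle x y
      omega

end Pool.Agent.Helper37Ham
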