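import Pool.Agent.X76.Det1

set_option autoImplicit false

/-!
Matrices with given row and column sums, and a pair of sets from a digraph.
-/

namespace Pool.Agent.Helper37Ham

open Finset Pool.Agent.H160R2.HF Pool.Agent.X76.Det

/-- integral matrices with given margins, upper bounds, and one lower bound -/
theorem transport {X : Type} [Fintype X] [DecidableEq X] (R : X → ℤ) (U : X → X → ℤ)
    (hU : ∀ x y, 0 ≤ U x y) (a b : X) (K : ℤ) (hK0 : 0 ≤ K)
    (hK : K ≤ U a b)
    (hcut : ∀ P Z : Finset X, 0 ≤ (∑ x ∈ Z, R x) - (∑ x ∈ P, R x) +
      (∑ x ∈ P, ∑ y ∈ Zᶜ, U x y) - (if a ∉ P ∧ b ∈ Z then K else 0)) :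
    ∃ o : X → X → ℤ, (∀ x y, 0 ≤ o x y ∧ o x y ≤ U x y) ∧ (∀ x, ∑ y, o x y = R x) ∧
      (∀ y, ∑ x, o x y = R y) ∧ K ≤ o a b := by
  let t : X × X → X ⊕ X := fun q => Sum.inl q.1
  let h : X × X → X ⊕ X := fun q => Sum.inr q.2
  let lo : X × X → ℤ := fun q => if q = (a, b) then max K 0 else 0
  let up : X × X → ℤ := fun q => U q.1 q.2
  let d : X ⊕ X → ℤ := fun v => match v with
    | Sum.inl x => R x
    | Sum.inr y => - R y
  have hn1 : ∀ (g : X × X → ℤ) (x : X), net t h g (Sum.inl x) = ∑ y, g (x, y) := by
    intro g x
    rw [net_eq, Fintype.sum_prod_type, Fintype.sum_prod_type]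
    simp only [t, h, Sum.inl.injEq, reduceCtorEq, if_false, Finset.sum_const_zero, sub_zero]
    rw [Finset.sum_eq_single x]
    · simp
    · intro x' _ hne
      simp [hne]
    · simp
  have hn2 : ∀ (g : X × X → ℤ) (y : X), net t h g (Sum.inr y) = - ∑ x, g (x, y) := by
    intro g y
    rw [net_eq, Fintype.sum_prod_type, Fintype.sum_prod_type]
    simp only [t, h, Sum.inr.injEq, reduceCtorEq, if_false, Finset.sum_const_zero, zero_sub]
    simp
  obtain ⟨g, hg1, hg2⟩ := hoffman t h lo up d
    (by
      rintro ⟨x, y⟩
      simp only [lo, up]
      split_ifs with h1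
      · rw [Prod.mk.injEq] at h1
        rw [h1.1, h1.2]
        exact max_le hK (hU a b)
      · exact hU x y)
    (by
      rw [Fintype.sum_sum_type]
      simp only [d, Finset.sum_neg_distrib, add_neg_cancel])
    (by
      intro S
      let P : Finset X := univ.filter fun x => Sum.inl x ∉ S
      let Z : Finset X := univ.filter fun y => Sum.inr y ∉ S
      have h1 := hcut P Z
      have h2 : ∑ v ∈ S, d v = (∑ x ∈ Pᶜ, R x) - ∑ y ∈ Zᶜ, R y := by
        have h3 : ∑ v ∈ S, d v = ∑ v, if v ∈ S then d v else 0 := by
          rw [Finset.sum_ite_mem, Finset.univ_inter]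
        rw [h3, Fintype.sum_sum_type, sub_eq_add_neg, ← Finset.sum_neg_distrib]
        congr 1
        · rw [← Finset.sum_filter]
          apply Finset.sum_congr _ fun _ _ => rfl
          ext x
          simp [P]
        · rw [← Finset.sum_filter]
          apply Finset.sum_congr _ fun _ _ => rfl
          ext x
          simp [Z]
      have h4 : ∑ e, ce t h lo up S e = (∑ x ∈ P, ∑ y ∈ Zᶜ, U x y) -
          (if a ∉ P ∧ b ∈ Z then max K 0 else 0) := by
        have h5 : ∀ e : X × X, ce t h lo up S e =
            (if e.1 ∈ P then (if e.2 ∈ Zᶜ then U e.1 e.2 else 0) else 0) -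
            (if e = (a, b) then (if a ∉ P ∧ b ∈ Z then max K 0 else 0) else 0) := by
          rintro ⟨x, y⟩
          unfold ce
          simp only [t, h, lo, up, P, Z, mem_filter, mem_univ, true_and, mem_compl, not_not]
          by_cases hx : Sum.inl x ∈ S
          · by_cases hy : Sum.inr y ∈ S
            · simp only [hx, hy, not_true_eq_false, and_false, if_false]
              split_ifs with h6 h7
              · rw [Prod.mk.injEq] at h6
                rw [← h6.2] at h7
                exact absurd hy h7.2
              · simp
              · simp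
            · simp only [hx, hy, not_true_eq_false, not_false_eq_true, and_true, if_false,
                if_true, zero_sub, false_and]
              split_ifs with h6 h7 h7
              · rfl
              · rw [Prod.mk.injEq] at h6
                rw [← h6.1, ← h6.2] at h7
                exact absurd ⟨hx, hy⟩ h7
              · simp
          · by_cases hy : Sum.inr y ∈ S
            · simp only [hx, hy, not_true_eq_false, not_false_eq_true, and_true, if_true,
                true_and]
              split_ifs with h6 h7
              · rw [Prod.mk.injEq] at h6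
                rw [← h6.1] at h7
                exact absurd h7.1 hx
              · simp
              · simp
            · simp only [hx, hy, not_true_eq_false, not_false_eq_true, if_false,
                if_true, false_and]
              split_ifs with h6 h7
              · rw [Prod.mk.injEq] at h6
                rw [← h6.1] at h7
                exact absurd h7.1 hx
              · simp
              · simp
        rw [Finset.sum_congr rfl fun e _ => h5 e, Finset.sum_sub_distrib]
        congr 1
        · rw [Fintype.sum_prod_type]
          simp only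
          have h6 : ∀ x, (∑ y, if x ∈ P then (if y ∈ Zᶜ then U x y else 0) else 0) =
              if x ∈ P then ∑ y ∈ Zᶜ, U x y else 0 := by
            intro x
            split_ifs
            · rw [Finset.sum_ite_mem, Finset.univ_inter]
            · simp
          rw [Finset.sum_congr rfl fun x _ => h6 x, Finset.sum_ite_mem, Finset.univ_inter]
        · simp
      have h7 : ∑ x ∈ Pᶜ, R x = ∑ x, R x - ∑ x ∈ P, R x := by
        rw [← Finset.sum_add_sum_compl P]; ring
      have h8 : ∑ x ∈ Zᶜ, R x = ∑ x, R x - ∑ x ∈ Z, R x := by
        rw [← Finset.sum_add_sum_compl Z]; ring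
      unfold ff
      rw [h2, h4, h7, h8]
      rw [max_eq_left hK0]
      linarith)
  refine ⟨fun x y => g (x, y), ?_, ?_, ?_, ?_⟩
  · intro x y
    refine ⟨?_, (hg1 (x, y)).2⟩
    refine le_trans ?_ (hg1 (x, y)).1
    simp only [lo]
    split_ifs
    · exact le_max_right _ _
    · exact le_rfl
  · intro x
    have h1 := hg2 (Sum.inl x)
    rw [hn1] at h1
    exact h1
  · intro y
    have h1 := hg2 (Sum.inr y)
    rw [hn2] at h1
    simp only [d] at h1
    linarith
  · have h1 := (hg1 (a, b)).1
    simp only [lo, if_true] at h1
    exact (le_max_left _ _).trans h1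

end Pool.Agent.Helper37Ham
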