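import Mathlib

set_option autoImplicit false

/-!
A pair of disjoint sets, closed under the arcs of a skew-symmetric digraph.
-/

namespace Pool.Agent.Helper37Ham

open Finset

/-- arcs on two copies of a set -/
def Arc {X : Type} (inc dec : X → X → Prop) (u v : X × Bool) : Prop :=
  (u.2 = true ∧ v.2 = false ∧ inc u.1 v.1) ∨ (u.2 = false ∧ v.2 = true ∧ dec u.1 v.1)

/-- reachability -/
def Rch {X : Type} (inc dec : X → X → Prop) (u v : X × Bool) : Prop :=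
  Relation.ReflTransGen (Arc inc dec) u v

theorem arc_swap {X : Type} {inc dec : X → X → Prop} (hi : ∀ x y, inc x y → inc y x)
    (hd : ∀ x y, dec x y → dec y x) {u v : X × Bool} (h : Arc inc dec u v) :
    Arc inc dec (v.1, !v.2) (u.1, !u.2) := by
  rcases h with ⟨h1, h2, h3⟩ | ⟨h1, h2, h3⟩
  · left
    refine ⟨?_, ?_, hi _ _ h3⟩
    · simp [h2]
    · simp [h1]
  · right
    refine ⟨?_, ?_, hd _ _ h3⟩
    · simp [h2]
    · simp [h1]

theorem rch_swap {X : Type} {inc dec : X → X → Prop} (hi : ∀ x y, inc x y → inc y x)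
    (hd : ∀ x y, dec x y → dec y x) {u v : X × Bool} (h : Rch inc dec u v) :
    Rch inc dec (v.1, !v.2) (u.1, !u.2) := by
  induction h with
  | refl => exact Relation.ReflTransGen.refl
  | tail _ h2 ih => exact Relation.ReflTransGen.head (arc_swap hi hd h2) ih

theorem closed_pair {X : Type} [Fintype X] (inc dec adj : X → X → Prop)
    (hi : ∀ x y, inc x y → inc y x) (hd : ∀ x y, dec x y → dec y x)
    (B : Set X) (hB : B.Nonempty)
    (h1 : ∀ b ∈ B, ∃ a, a ∉ B ∧ adj a b)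
    (h2 : ∀ a b, a ∉ B → b ∈ B → adj a b → inc a b)
    (h3 : ∀ b ∈ B, ∃ y, dec b y)
    (h4 : ∀ a b, a ∉ B → b ∈ B → ¬ dec a b)
    (h5 : ∀ a b, a ∉ B → b ∈ B → adj a b → ¬ Rch inc dec (a, false) (b, true)) :
    ∃ b0 ∈ B, ∃ P Z : Finset X, (∀ a, a ∉ B → adj a b0 → a ∈ Z) ∧ (∀ x ∈ P, x ∉ B) ∧
      (∀ x ∈ Z, x ∉ B) ∧ Disjoint P Z ∧ (∀ x ∈ P, ∀ y, y ∉ Z → ¬ inc x y) ∧
      (∀ z ∈ Z, ∀ x, x ∉ P → ¬ dec z x) := by
  classical
  let R : X → Set (X × Bool) := fun b => {v | ∃ a, a ∉ B ∧ adj a b ∧ Rch inc dec (a, false) v}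
  obtain ⟨b0, hb0, hmin⟩ : ∃ b0 ∈ B, ∀ b ∈ B, (R b0).ncard ≤ (R b).ncard := by
    obtain ⟨b0, hb0, h⟩ := Set.exists_min_image B (fun b => (R b).ncard) (Set.toFinite B) hB
    exact ⟨b0, hb0, h⟩
  have hclosed : ∀ u v, u ∈ R b0 → Arc inc dec u v → v ∈ R b0 := by
    rintro u v ⟨a, ha, haj, hr⟩ huv
    exact ⟨a, ha, haj, hr.tail huv⟩
  have c1 : ∀ b ∈ B, (b, true) ∉ R b0 := by
    rintro b hb ⟨a, ha, haj, hr⟩
    have hsub : R b ⊆ R b0 := by
      rintro v ⟨a', ha', haj', hr'⟩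
      refine ⟨a, ha, haj, ?_⟩
      exact Relation.ReflTransGen.trans (hr.tail
        (Or.inl ⟨rfl, rfl, hi _ _ (h2 a' b ha' hb haj')⟩)) hr'
    have heq : R b = R b0 := Set.eq_of_subset_of_ncard_le hsub (hmin b hb) (Set.toFinite _)
    have hmem : (b, true) ∈ R b := by
      rw [heq]; exact ⟨a, ha, haj, hr⟩
    obtain ⟨a', ha', haj', hr'⟩ := hmem
    exact h5 a' b ha' hb haj' hr'
  have c2 : ∀ b ∈ B, (b, false) ∉ R b0 := by
    intro b hb hm
    obtain ⟨y, hy⟩ := h3 b hb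
    have hyB : y ∈ B := by
      by_contra hno
      exact h4 y b hno hb (hd _ _ hy)
    exact c1 y hyB (hclosed _ _ hm (Or.inr ⟨rfl, rfl, hy⟩))
  refine ⟨b0, hb0, univ.filter (fun x => (x, true) ∈ R b0),
    univ.filter (fun x => (x, false) ∈ R b0), ?_, ?_, ?_, ?_, ?_, ?_⟩
  · intro a ha haj
    rw [mem_filter]
    exact ⟨mem_univ _, a, ha, haj, Relation.ReflTransGen.refl⟩
  · intro x hx hxB
    rw [mem_filter] at hx
    exact c1 x hxB hx.2
  · intro x hx hxB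
    rw [mem_filter] at hx
    exact c2 x hxB hx.2
  · rw [Finset.disjoint_left]
    intro v hv hv'
    rw [mem_filter] at hv hv'
    obtain ⟨a1, ha1, haj1, hr1⟩ := hv.2
    obtain ⟨a2, ha2, haj2, hr2⟩ := hv'.2
    have h6 : Rch inc dec (v, false) (a1, true) := rch_swap hi hd hr1
    exact c2 b0 hb0 ⟨a2, ha2, haj2, (Relation.ReflTransGen.trans hr2 h6).tail
      (Or.inl ⟨rfl, rfl, h2 a1 b0 ha1 hb0 haj1⟩)⟩
  · intro x hx y hy hinc
    rw [mem_filter] at hx hy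
    exact hy ⟨mem_univ _, hclosed _ _ hx.2 (Or.inl ⟨rfl, rfl, hinc⟩)⟩
  · intro z hz x hx hdec
    rw [mem_filter] at hz hx
    exact hx ⟨mem_univ _, hclosed _ _ hz.2 (Or.inr ⟨rfl, rfl, hdec⟩)⟩

end Pool.Agent.Helper37Ham
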