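import Mathlib

set_option autoImplicit false

/-!
The numerical part of the connectivity argument.
-/

namespace Pool.Agent.Helper37Ham

theorem arith (h k Θ M t s β : ℝ) (hk : 0 < k) (hM : 0 < M) (hΘ : 0 ≤ Θ)
    (A : t * (h - s) ≤ 2 * k * (t - s) + 2 * Θ) (A0 : 0 ≤ k * (t - s) + Θ)
    (B : 2 * k * s ≤ s * t + Θ) (C : 2 * k * β ≤ β * (β - 1) + Θ) (D : h ≤ β - 1 + s)
    (E : t + s + β ≤ 2 * h) (ht : M ≤ t) (hs : M ≤ s) (hβ : M ≤ β) (hM2 : 8 * Θ ≤ M ^ 2)
    (hG : 9 * Θ ≤ 4 * k * M) : False := by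
  rcases lt_or_ge t s with hts | hts
  · -- `t < s`
    have h1 : s - t ≤ 4 * M / 9 := by
      have h2 : k * (s - t) ≤ k * (4 * M / 9) := by nlinarith
      exact le_of_mul_le_mul_left h2 hk
    have h3 : h - s ≤ M / 4 := by
      rcases le_or_gt (h - s) 0 with h4 | h4
      · linarith
      · have h5 : t * (h - s) ≤ 2 * Θ := by nlinarith
        have h6 : M * (h - s) ≤ M * (M / 4) := by nlinarith
        exact le_of_mul_le_mul_left h6 hM
    linarith
  · -- `s ≤ t`
    have hs0 : 0 < s := hM.trans_le hs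
    have ht0 : 0 < t := hM.trans_le ht
    have hβ0 : 0 < β := hM.trans_le hβ
    have hts' : 0 ≤ t - s := sub_nonneg.2 hts
    -- first bound
    have h1 : s * t * (h - t) ≤ Θ * (t + s) := by
      have h2 := mul_le_mul_of_nonneg_left A hs0.le
      have h3 := mul_le_mul_of_nonneg_right B hts'
      nlinarith
    have h4 : M * (h - t) ≤ 2 * Θ := by
      have h5 : 1 ≤ h - t := by linarith
      have h6 : t * (s * (h - t)) ≤ t * (2 * Θ) := by nlinarith
      have h7 := le_of_mul_le_mul_left h6 ht0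
      nlinarith
    have h8 : h - t ≤ M / 4 := by
      have h9 : M * (h - t) ≤ M * (M / 4) := by nlinarith
      exact le_of_mul_le_mul_left h9 hM
    -- second bound
    have h10 : (β - 1) * (t - s) + 3 * Θ ≥ t * (h - s) := by
      have h11 := mul_le_mul_of_nonneg_left A hβ0.le
      have h12 := mul_le_mul_of_nonneg_right C hts'
      have h13 : t - s ≤ β := by linarith
      have h14 : Θ * (t - s) ≤ Θ * β := mul_le_mul_of_nonneg_left h13 hΘ
      have h15 : β * (t * (h - s)) ≤ β * ((β - 1) * (t - s) + 3 * Θ) := by nlinarith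
      exact le_of_mul_le_mul_left h15 hβ0
    have h16 : β - 1 ≤ (h - s) + (h - t) - 1 := by linarith
    have h17 := mul_le_mul_of_nonneg_right h16 hts'
    have h18 : (s - (h - t)) * (h - s) ≤ 3 * Θ := by nlinarith
    have h19 : 3 * M / 4 ≤ s - (h - t) := by linarith
    have h20 : 0 ≤ h - s := by linarith
    have h21 : (3 * M / 4) * (h - s) ≤ (3 * M / 4) * (M / 2) := by
      have h22 := mul_le_mul_of_nonneg_right h19 h20
      nlinarith
    have h23 : h - s ≤ M / 2 := le_of_mul_le_mul_left h21 (by positivity)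
    linarith

end Pool.Agent.Helper37Ham
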