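import Pool.Agent.Helper37Ham.Rank
import Pool.Agent.X76.Det2

set_option autoImplicit false

/-!
Counting edges between the classes of a partition of the vertex set.
-/

namespace Pool.Agent.Helper37Ham

open Finset SimpleGraph

variable {V X : Type} [Fintype V] [DecidableEq V] [Fintype X] [DecidableEq X]

/-- the vertices of the classes in `P` -/
def pre (f : V → X) (P : Finset X) : Finset V := univ.filter fun v => f v ∈ P

/-- the size of a class -/
def sz (f : V → X) (i : X) : ℕ := (univ.filter fun v => f v = i).card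

/-- number of pairs of adjacent vertices, one in the class `i` and one in the class `j` -/
noncomputable def cnt (f : V → X) (F : SimpleGraph V) (i j : X) : ℕ :=
  ∑ v with f v = i, ∑ w with f w = j, ad F v w

theorem sum_pre (f : V → X) (P : Finset X) (φ : V → ℕ) :
    ∑ i ∈ P, ∑ v with f v = i, φ v = ∑ v ∈ pre f P, φ v := by
  unfold pre
  simp only [Finset.sum_filter]
  rw [Finset.sum_comm]
  apply Finset.sum_congr rfl
  intro v _
  rw [Finset.sum_ite_eq]

theorem card_pre (f : V → X) (P : Finset X) : (pre f P).card = ∑ i ∈ P, sz f i := by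
  rw [Finset.card_eq_sum_ones, ← sum_pre]
  simp only [sz, Finset.card_eq_sum_ones]

theorem cnt_sum (f : V → X) (F : SimpleGraph V) (P Z : Finset X) :
    ∑ i ∈ P, ∑ j ∈ Z, cnt f F i j = ∑ v ∈ pre f P, ∑ w ∈ pre f Z, ad F v w := by
  rw [← sum_pre]
  apply Finset.sum_congr rfl
  intro i _
  unfold cnt
  rw [Finset.sum_comm]
  apply Finset.sum_congr rfl
  intro v _
  exact sum_pre f Z (fun w => ad F v w)

theorem cnt_symm (f : V → X) (F : SimpleGraph V) (i j : X) : cnt f F i j = cnt f F j i := by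
  unfold cnt
  rw [Finset.sum_comm]
  apply Finset.sum_congr rfl
  intro v _
  apply Finset.sum_congr rfl
  intro w _
  exact ad_symm F w v

theorem cnt_even (f : V → X) (F : SimpleGraph V) (i : X) : Even (cnt f F i i) :=
  Pool.Agent.X76.Det.even_sum_symm (ad F) (ad_symm F) (fun x => by rw [ad_self]; simp) _

theorem cnt_mono (f : V → X) {F H : SimpleGraph V} (h : F ≤ H) (i j : X) :
    cnt f F i j ≤ cnt f H i j :=
  Finset.sum_le_sum fun v _ => Finset.sum_le_sum fun w _ => ad_mono h v w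

theorem pre_univ (f : V → X) : pre f univ = univ := by
  unfold pre; simp

theorem cnt_row (f : V → X) (F : SimpleGraph V) (i : X) (D : ℕ) (h : ∀ v, dg F v = D) :
    ∑ j, cnt f F i j = D * sz f i := by
  have h1 := cnt_sum f F {i} univ
  rw [Finset.sum_singleton, pre_univ] at h1
  rw [h1]
  have h2 : ∑ v ∈ pre f {i}, ∑ w, ad F v w = ∑ v ∈ pre f {i}, D :=
    Finset.sum_congr rfl fun v _ => h v
  rw [h2, Finset.sum_const, smul_eq_mul, card_pre, Finset.sum_singleton, mul_comm]

/-- edges inside a set -/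
theorem inner_le (F : SimpleGraph V) (S : Finset V) :
    ∑ v ∈ S, ∑ w ∈ S, ad F v w ≤ S.card * (S.card - 1) := by
  rw [← smul_eq_mul]
  apply Finset.sum_le_card_nsmul
  intro v hv
  rw [← Finset.add_sum_erase _ _ hv, ad_self, zero_add]
  refine (Finset.sum_le_card_nsmul _ _ 1 fun w _ => ad_le_one F v w).trans ?_
  rw [Finset.card_erase_of_mem hv, smul_eq_mul, Nat.mul_one]

theorem outer_le (F : SimpleGraph V) (S T : Finset V) :
    ∑ v ∈ S, ∑ w ∈ T, ad F v w ≤ S.card * T.card := by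
  rw [← smul_eq_mul]
  apply Finset.sum_le_card_nsmul
  intro v _
  refine (Finset.sum_le_card_nsmul _ _ 1 fun w _ => ad_le_one F v w).trans ?_
  rw [smul_eq_mul, Nat.mul_one]

theorem dirac_out (F : SimpleGraph V) (n : ℕ) (hd : ∀ v, n ≤ 2 * dg F v) (S T : Finset V) :
    n * S.card ≤ 2 * ∑ v ∈ S, ∑ w ∈ Tᶜ, ad F v w + 2 * T.card * S.card := by
  have h1 : ∀ v ∈ S, n ≤ 2 * ∑ w ∈ Tᶜ, ad F v w + 2 * T.card := by
    intro v _
    have h2 : dg F v = ∑ w ∈ T, ad F v w + ∑ w ∈ Tᶜ, ad F v w := by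
      unfold dg
      rw [Finset.sum_add_sum_compl]
    have h3 : ∑ w ∈ T, ad F v w ≤ T.card := by
      refine (Finset.sum_le_card_nsmul _ _ 1 fun w _ => ad_le_one F v w).trans ?_
      rw [smul_eq_mul, Nat.mul_one]
    have h4 := hd v
    omega
  have h2 := Finset.sum_le_sum h1
  rw [Finset.sum_add_distrib, Finset.sum_const, Finset.sum_const, ← Finset.mul_sum, smul_eq_mul,
    smul_eq_mul] at h2
  calc n * S.card = S.card * n := mul_comm _ _
    _ ≤ _ := h2
    _ = _ := by ring

theorem compl_pre (f : V → X) (P : Finset X) : pre f Pᶜ = (pre f P)ᶜ := by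
  unfold pre
  ext v
  simp

/-- sums over products with a uniform lower bound for one term -/
theorem one_le_sum2 {Y : Type} (P Z : Finset Y) (φ : Y → Y → ℕ) {x y : Y} (hx : x ∈ P)
    (hy : y ∈ Z) : φ x y ≤ ∑ i ∈ P, ∑ j ∈ Z, φ i j := by
  refine le_trans ?_ (Finset.single_le_sum (f := fun i => ∑ j ∈ Z, φ i j)
    (fun i _ => Nat.zero_le _) hx)
  exact Finset.single_le_sum (f := fun j => φ x j) (fun i _ => Nat.zero_le _) hy

theorem sum2_le {Y : Type} [Fintype Y] (P Z : Finset Y) (φ ψ : Y → Y → ℕ) (Θ : ℕ)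
    (h : ∀ x ∈ P, ∀ y ∈ Z, φ x y ≤ ψ x y + Θ) :
    ∑ i ∈ P, ∑ j ∈ Z, φ i j ≤ ∑ i ∈ P, ∑ j ∈ Z, ψ i j +
      Fintype.card Y * Fintype.card Y * Θ := by
  have h1 : ∑ i ∈ P, ∑ j ∈ Z, φ i j ≤ ∑ i ∈ P, ∑ j ∈ Z, (ψ i j + Θ) :=
    Finset.sum_le_sum fun x hx => Finset.sum_le_sum fun y hy => h x hx y hy
  refine h1.trans ?_
  simp only [Finset.sum_add_distrib, Finset.sum_const, smul_eq_mul]
  apply Nat.add_le_add_left
  rw [← mul_assoc]
  apply Nat.mul_le_mul_right
  exact Nat.mul_le_mul (Finset.card_le_univ P) (Finset.card_le_univ Z)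

end Pool.Agent.Helper37Ham
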