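import Pool.Agent.Helper37Ham.Mod1
import Pool.Agent.Helper37Ham.Mod2
import Pool.Agent.Helper37Ham.Mod3
import Pool.Agent.Helper37Ham.Mod4

set_option autoImplicit false

/-!
No set of classes is separated from the other classes.
-/

namespace Pool.Agent.Helper37Ham

open Finset SimpleGraph

variable {V X : Type} [Fintype V] [DecidableEq V] [Fintype X] [DecidableEq X]

/-- the threshold -/
def thr (p k : ℕ) : ℕ := 2 * (p * p) * (p * p * k + p * p)

theorem thr_eq (p k : ℕ) : thr p k = 2 * p ^ 4 * (k + 1) := by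
  unfold thr; ring

theorem num1 {p k M : ℕ} (hp : 1 ≤ p) (h2 : 16 * p ^ 4 * (k + 1) ≤ M ^ 2) :
    4 * (p * p * k) + 2 * (p * p) ≤ M * M := by
  have h3 : p * p ≤ p ^ 4 := by nlinarith [Nat.mul_le_mul hp hp, sq_nonneg (p * p : ℕ)]
  have h4 : p * p * k ≤ p ^ 4 * k := Nat.mul_le_mul_right k h3
  have h5 : 16 * p ^ 4 * (k + 1) = 16 * (p ^ 4 * k) + 16 * p ^ 4 := by ring
  have h6 : M ^ 2 = M * M := by ring
  omega

theorem num2 {p k M : ℕ} (hp : 1 ≤ p) (hk : 1 ≤ k) (h1 : 9 * p ^ 4 ≤ M) :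
    p * thr p k ≤ 2 * (p * p) * k * M := by
  rw [thr_eq]
  have h2 : 2 * (p * p) * k * (9 * p ^ 4) ≤ 2 * (p * p) * k * M := Nat.mul_le_mul_left _ h1
  refine le_trans ?_ h2
  have h3 : p * (2 * p ^ 4 * (k + 1)) ≤ p * (2 * p ^ 4 * (2 * k)) := by
    apply Nat.mul_le_mul_left
    apply Nat.mul_le_mul_left
    omega
  refine h3.trans ?_
  have h4 : p * (2 * p ^ 4 * (2 * k)) = (4 * p ^ 5 * k) * 1 := by ring
  have h5 : 2 * (p * p) * k * (9 * p ^ 4) = (4 * p ^ 5 * k) * p + 14 * p ^ 6 * k := by ring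
  rw [h4, h5]
  exact (Nat.mul_le_mul_left _ hp).trans (Nat.le_add_right _ _)

theorem fin_arith (n p k M t s β c a1 a2 a3 a4 a5 : ℕ) (hp1 : 1 ≤ p) (hk : 1 ≤ k) (hM1 : 1 ≤ M)
    (hc1 : 9 * p ^ 4 ≤ M) (hc2 : 16 * p ^ 4 * (k + 1) ≤ M ^ 2)
    (htM : M ≤ t) (hsM : M ≤ s) (hβM : M ≤ β) (hD : n + 2 ≤ 2 * (β + s)) (hE : t + s + β ≤ n)
    (e1 : a1 + a2 = 2 * (p * p) * k * t) (e2 : a1 + a3 = 2 * (p * p) * k * s)
    (e3 : a4 + a5 = 2 * (p * p) * k * β) (e4 : p * p * c ≤ a2 + p * p * thr p k)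
    (e5 : a3 ≤ p * p * thr p k) (e6 : a5 ≤ p * p * thr p k) (e7 : a1 ≤ p * p * (s * t))
    (e8 : a4 ≤ p * p * (β * (β - 1))) (e9 : n * t ≤ 2 * c + 2 * s * t) : False := by
  have hpp : (0 : ℝ) < (p : ℝ) * p := by
    have : (1 : ℝ) ≤ p := by exact_mod_cast hp1
    positivity
  have hβ1 : 1 ≤ β := hM1.trans hβM
  obtain ⟨Θ, hΘ⟩ : ∃ Θ, Θ = thr p k := ⟨_, rfl⟩
  rw [← hΘ] at e4 e5 e6
  have e1' : (a1 : ℝ) + a2 = 2 * (p * p) * k * t := by exact_mod_cast e1
  have e2' : (a1 : ℝ) + a3 = 2 * (p * p) * k * s := by exact_mod_cast e2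
  have e3' : (a4 : ℝ) + a5 = 2 * (p * p) * k * β := by exact_mod_cast e3
  have e4' : (p : ℝ) * p * c ≤ a2 + p * p * Θ := by exact_mod_cast e4
  have e5' : (a3 : ℝ) ≤ p * p * Θ := by exact_mod_cast e5
  have e6' : (a5 : ℝ) ≤ p * p * Θ := by exact_mod_cast e6
  have e7' : (a1 : ℝ) ≤ p * p * (s * t) := by exact_mod_cast e7
  have e8' : (a4 : ℝ) ≤ p * p * (β * (β - 1)) := by
    have : ((β - 1 : ℕ) : ℝ) = (β : ℝ) - 1 := by
      rw [Nat.cast_sub hβ1, Nat.cast_one]
    rw [← this]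
    exact_mod_cast e8
  have e9' : (n : ℝ) * t ≤ 2 * c + 2 * s * t := by exact_mod_cast e9
  have hD' : (n : ℝ) + 2 ≤ 2 * (β + s) := by exact_mod_cast hD
  have hE' : (t : ℝ) + s + β ≤ n := by exact_mod_cast hE
  have hΘ' : (Θ : ℝ) = 2 * p ^ 4 * (k + 1) := by
    rw [hΘ, thr_eq]; push_cast; ring
  have hk' : (1 : ℝ) ≤ k := by exact_mod_cast hk
  have key : (c : ℝ) ≤ 2 * k * (t - s) + 2 * Θ := by
    have h1 : (p : ℝ) * p * c ≤ p * p * (2 * k * (t - s) + 2 * Θ) := by
      have h2 : (p : ℝ) * p * (2 * k * (t - s) + 2 * Θ) =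
        2 * (p * p) * k * t - 2 * (p * p) * k * s + 2 * (p * p * Θ) := by ring
      rw [h2]
      linarith
    exact le_of_mul_le_mul_left h1 hpp
  refine arith ((n : ℝ) / 2) k Θ M t s β (by linarith) (by exact_mod_cast hM1)
    (by rw [hΘ']; positivity) ?_ ?_ ?_ ?_ (by linarith) (by linarith) (by exact_mod_cast htM)
    (by exact_mod_cast hsM) (by exact_mod_cast hβM) ?_ ?_
  · have h1 : (t : ℝ) * ((n : ℝ) / 2 - s) = (n * t - 2 * s * t) / 2 := by ring
    rw [h1]
    linarith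
  · have h1 : (0 : ℝ) ≤ c := by positivity
    linarith
  · have h1 : (p : ℝ) * p * (2 * k * s) ≤ p * p * (s * t + Θ) := by
      have h2 : (p : ℝ) * p * (2 * k * s) = 2 * (p * p) * k * s := by ring
      have h3 : (p : ℝ) * p * (s * t + Θ) = p * p * (s * t) + p * p * Θ := by ring
      rw [h2, h3]
      linarith
    exact le_of_mul_le_mul_left h1 hpp
  · have h1 : (p : ℝ) * p * (2 * k * β) ≤ p * p * (β * (β - 1) + Θ) := by
      have h2 : (p : ℝ) * p * (2 * k * β) = 2 * (p * p) * k * β := by ring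
      have h3 : (p : ℝ) * p * (β * (β - 1) + Θ) = p * p * (β * (β - 1)) + p * p * Θ := by ring
      rw [h2, h3]
      linarith
    exact le_of_mul_le_mul_left h1 hpp
  · rw [hΘ']
    have h1 : (16 : ℝ) * p ^ 4 * (k + 1) ≤ M ^ 2 := by exact_mod_cast hc2
    linarith
  · rw [hΘ']
    have h1 : (9 : ℝ) * p ^ 4 ≤ M := by exact_mod_cast hc1
    have h2 : (4 : ℝ) * k * (9 * p ^ 4) ≤ 4 * k * M := by
      apply mul_le_mul_of_nonneg_left h1; positivity
    have h3 : (0 : ℝ) ≤ p ^ 4 := by positivity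
    have h4 : (p : ℝ) ^ 4 * 1 ≤ p ^ 4 * k := mul_le_mul_of_nonneg_left hk' h3
    linarith

theorem no_sep (G : SimpleGraph V) (f : V → X) (k M : ℕ) (hk : 1 ≤ k)
    (hdir : ∀ v, Fintype.card V ≤ 2 * dg G v) (hM : ∀ i, M ≤ sz f i)
    (hc1 : 9 * Fintype.card X ^ 4 ≤ M) (hc2 : 16 * Fintype.card X ^ 4 * (k + 1) ≤ M ^ 2)
    (hadj : ∀ i j, i ≠ j → cnt f G i j = 0 ∨ cnt f G i j = sz f i * sz f j)
    (W : X → X → ℕ) (hWs : ∀ i j, W i j = W j i)
    (hWr : ∀ i, ∑ j, W i j = 2 * (Fintype.card X * Fintype.card X) * k * sz f i)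
    (hWc : ∀ i j, W i j ≤ Fintype.card X * Fintype.card X * cnt f G i j)
    (B : Finset X) (hB : B.Nonempty) (hBn : 2 * ∑ i ∈ B, sz f i ≤ Fintype.card V)
    (hcross : ∀ a, a ∉ B → ∀ b ∈ B, W a b + 2 * (Fintype.card X * Fintype.card X) ≤
      2 * (Fintype.card X * Fintype.card X) * (Fintype.card X * Fintype.card X * k))
    (hpath : ∀ a, a ∉ B → ∀ b ∈ B, cnt f G a b ≠ 0 →
      ¬ Rch (fun x y => W x y + thr (Fintype.card X) k ≤
        Fintype.card X * Fintype.card X * cnt f G x y) (fun x y => thr (Fintype.card X) k ≤ W x y)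
        (a, false) (b, true)) : False := by
  classical
  set p := Fintype.card X with hp
  have hp1 : 1 ≤ p := by
    obtain ⟨b, hb⟩ := hB
    exact Fintype.card_pos_iff.2 ⟨b⟩
  have hM1 : 1 ≤ M := by
    have : 1 ≤ p ^ 4 := Nat.one_le_pow _ _ hp1
    omega
  have hn1 := num1 hp1 hc2
  have hn2 := num2 hp1 hk hc1
  -- every class has a large entry
  have hdec : ∀ b, ∃ y, thr p k ≤ W b y := by
    intro b
    by_contra hno
    push Not at hno
    have h1 : ∑ j, W b j < ∑ _j : X, thr p k :=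
      Finset.sum_lt_sum_of_nonempty ⟨b, mem_univ b⟩ fun j _ => hno j
    rw [hWr, Finset.sum_const, Finset.card_univ, smul_eq_mul, ← hp] at h1
    have h2 : 2 * (p * p) * k * M ≤ 2 * (p * p) * k * sz f b := Nat.mul_le_mul_left _ (hM b)
    omega
  have hcrossdec : ∀ a b, a ∉ B → b ∈ B → ¬ thr p k ≤ W a b := by
    intro a b ha hb h1
    have h2 := hcross a ha b hb
    have h3 : thr p k = 2 * (p * p) * (p * p * k) + 2 * (p * p) * (p * p) := by
      unfold thr; ring
    have h4 : 1 ≤ p * p := Nat.mul_le_mul hp1 hp1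
    omega
  have hinc : ∀ a b, a ∉ B → b ∈ B → cnt f G a b ≠ 0 → W a b + thr p k ≤ p * p * cnt f G a b := by
    intro a b ha hb h0
    have hne : a ≠ b := by rintro rfl; exact ha hb
    have h1 := (hadj a b hne).resolve_left h0
    have h2 := hcross a ha b hb
    have h3 : thr p k = 2 * (p * p) * (p * p * k) + 2 * (p * p) * (p * p) := by
      unfold thr; ring
    have h4 : M * M ≤ sz f a * sz f b := Nat.mul_le_mul (hM a) (hM b)
    have h5 : p * p * (4 * (p * p * k) + 2 * (p * p)) ≤ p * p * (sz f a * sz f b) :=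
      Nat.mul_le_mul_left _ (hn1.trans h4)
    have h6 : p * p * (4 * (p * p * k) + 2 * (p * p)) =
        2 * (p * p) * (p * p * k) + (2 * (p * p) * (p * p * k) + 2 * (p * p) * (p * p)) := by ring
    rw [h1]
    omega
  have hcB : (pre f B).card = ∑ i ∈ B, sz f i := card_pre f B
  -- vertices of `B` have neighbours outside
  have hout : ∀ b ∈ B, ∃ a, a ∉ B ∧ cnt f G a b ≠ 0 := by
    intro b hb
    by_contra hno
    push Not at hno
    obtain ⟨x, hx⟩ : ∃ x, f x = b := by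
      have h1 : 0 < sz f b := by have := hM b; omega
      obtain ⟨x, hx⟩ := Finset.card_pos.1 h1
      exact ⟨x, (mem_filter.1 hx).2⟩
    have hxB : x ∈ pre f B := by
      unfold pre; rw [mem_filter]; exact ⟨mem_univ _, by rw [hx]; exact hb⟩
    have h1 : dg G x = ∑ y ∈ pre f B, ad G x y := by
      unfold dg
      symm
      apply Finset.sum_subset (Finset.subset_univ _)
      intro y _ hy
      have hyB : f y ∉ B := by
        intro h2
        apply hy
        unfold pre; rw [mem_filter]; exact ⟨mem_univ _, h2⟩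
      have h2 := hno (f y) hyB
      unfold cnt at h2
      have h3 := (Finset.sum_eq_zero_iff.1 h2) y (by rw [mem_filter]; exact ⟨mem_univ _, rfl⟩)
      have h4 := (Finset.sum_eq_zero_iff.1 h3) x (by rw [mem_filter]; exact ⟨mem_univ _, hx⟩)
      rw [ad_symm]
      exact h4
    have h2 : ∑ y ∈ pre f B, ad G x y ≤ (pre f B).card - 1 := by
      rw [← Finset.add_sum_erase _ _ hxB, ad_self, zero_add]
      refine (Finset.sum_le_card_nsmul _ _ 1 fun w _ => ad_le_one G x w).trans ?_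
      rw [Finset.card_erase_of_mem hxB, smul_eq_mul, Nat.mul_one]
    have h3 := hdir x
    have h4 : 1 ≤ (pre f B).card := Finset.card_pos.2 ⟨x, hxB⟩
    omega
  obtain ⟨b0, hb0, P, Z, hZ0, hPB, hZB, hPZ, hPc, hZc⟩ := closed_pair
    (fun x y => W x y + thr p k ≤ p * p * cnt f G x y) (fun x y => thr p k ≤ W x y)
    (fun x y => cnt f G x y ≠ 0)
    (by
      intro x y h
      beta_reduce at h ⊢
      rw [hWs y x, cnt_symm f G y x]; exact h)
    (by
      intro x y h
      beta_reduce at h ⊢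
      rw [hWs y x]; exact h)
    (B : Set X) (by exact_mod_cast hB)
    (by
      intro b hb
      obtain ⟨a, ha, hab⟩ := hout b (by exact_mod_cast hb)
      exact ⟨a, by exact_mod_cast ha, hab⟩)
    (by
      intro a b ha hb hab
      exact hinc a b (by exact_mod_cast ha) (by exact_mod_cast hb) hab)
    (fun b _ => hdec b)
    (by
      intro a b ha hb
      exact hcrossdec a b (by exact_mod_cast ha) (by exact_mod_cast hb))
    (by
      intro a b ha hb hab
      exact hpath a (by exact_mod_cast ha) b (by exact_mod_cast hb) hab)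
  have hb0' : b0 ∈ B := by exact_mod_cast hb0
  have hPB' : ∀ x ∈ P, x ∉ B := fun x hx => by exact_mod_cast hPB x hx
  have hZB' : ∀ x ∈ Z, x ∉ B := fun x hx => by exact_mod_cast hZB x hx
  have hZne : Z.Nonempty := by
    obtain ⟨a, ha, hab⟩ := hout b0 hb0'
    exact ⟨a, hZ0 a (by exact_mod_cast ha) hab⟩
  have hPne : P.Nonempty := by
    obtain ⟨z, hz⟩ := hZne
    obtain ⟨y, hy⟩ := hdec z
    refine ⟨y, ?_⟩
    by_contra hno
    exact hZc z hz y hno hy
  -- sizes
  have hcP := card_pre f P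
  have hcZ := card_pre f Z
  have htM : M ≤ (pre f P).card := by
    obtain ⟨x, hx⟩ := hPne
    rw [hcP]
    exact (hM x).trans (Finset.single_le_sum (f := sz f) (fun _ _ => Nat.zero_le _) hx)
  have hsM : M ≤ (pre f Z).card := by
    obtain ⟨x, hx⟩ := hZne
    rw [hcZ]
    exact (hM x).trans (Finset.single_le_sum (f := sz f) (fun _ _ => Nat.zero_le _) hx)
  have hβM : M ≤ (pre f B).card := by
    rw [hcB]
    exact (hM b0).trans (Finset.single_le_sum (f := sz f) (fun _ _ => Nat.zero_le _) hb0')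
  have hE : (pre f P).card + (pre f Z).card + (pre f B).card ≤ Fintype.card V := by
    rw [← Finset.card_union_of_disjoint, ← Finset.card_union_of_disjoint]
    · exact Finset.card_le_univ _
    · rw [Finset.disjoint_left]
      intro v hv hv'
      rw [mem_union] at hv
      unfold pre at hv hv'
      simp only [mem_filter, mem_univ, true_and] at hv hv'
      rcases hv with hv | hv
      · exact hPB' _ hv hv'
      · exact hZB' _ hv hv'
    · rw [Finset.disjoint_left]
      intro v hv hv'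
      unfold pre at hv hv'
      simp only [mem_filter, mem_univ, true_and] at hv hv'
      exact (Finset.disjoint_left.1 hPZ) hv hv'
  -- Dirac's condition at `b0`
  have hD : Fintype.card V + 2 ≤ 2 * ((pre f B).card + (pre f Z).card) := by
    obtain ⟨x, hx⟩ : ∃ x, f x = b0 := by
      have h1 : 0 < sz f b0 := by have := hM b0; omega
      obtain ⟨x, hx⟩ := Finset.card_pos.1 h1
      exact ⟨x, (mem_filter.1 hx).2⟩
    have hxB : x ∈ pre f B := by
      unfold pre; rw [mem_filter]; exact ⟨mem_univ _, by rw [hx]; exact hb0'⟩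
    have h1 : dg G x ≤ ∑ y ∈ pre f B, ad G x y + ∑ y ∈ pre f Z, ad G x y := by
      unfold dg
      rw [← Finset.sum_add_sum_compl (pre f B)]
      apply Nat.add_le_add_left
      have h2 : ∑ y ∈ (pre f B)ᶜ, ad G x y ≤ ∑ y ∈ (pre f B)ᶜ ∩ pre f Z, ad G x y := by
        apply le_of_eq
        symm
        apply Finset.sum_subset Finset.inter_subset_left
        intro y hy hy'
        by_contra h3
        apply hy'
        rw [mem_inter]
        refine ⟨hy, ?_⟩
        unfold pre at hy ⊢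
        simp only [mem_compl, mem_filter, mem_univ, true_and] at hy ⊢
        apply hZ0 (f y) (by exact_mod_cast hy)
        intro h4
        unfold cnt at h4
        have h5 := (Finset.sum_eq_zero_iff.1 h4) y (by rw [mem_filter]; exact ⟨mem_univ _, rfl⟩)
        have h6 := (Finset.sum_eq_zero_iff.1 h5) x (by rw [mem_filter]; exact ⟨mem_univ _, hx⟩)
        rw [ad_symm] at h6
        exact h3 h6
      refine h2.trans ?_
      exact Finset.sum_le_sum_of_subset Finset.inter_subset_right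
    have h2 : ∑ y ∈ pre f B, ad G x y ≤ (pre f B).card - 1 := by
      rw [← Finset.add_sum_erase _ _ hxB, ad_self, zero_add]
      refine (Finset.sum_le_card_nsmul _ _ 1 fun w _ => ad_le_one G x w).trans ?_
      rw [Finset.card_erase_of_mem hxB, smul_eq_mul, Nat.mul_one]
    have h3 : ∑ y ∈ pre f Z, ad G x y ≤ (pre f Z).card := by
      refine (Finset.sum_le_card_nsmul _ _ 1 fun w _ => ad_le_one G x w).trans ?_
      rw [smul_eq_mul, Nat.mul_one]
    have h4 := hdir x
    omega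
  -- sums of `W`
  have hrows : ∀ S T : Finset X, ∑ i ∈ S, ∑ j ∈ T, W i j + ∑ i ∈ S, ∑ j ∈ Tᶜ, W i j =
      2 * (p * p) * k * (pre f S).card := by
    intro S T
    rw [← Finset.sum_add_distrib, card_pre, Finset.mul_sum]
    apply Finset.sum_congr rfl
    intro i _
    rw [Finset.sum_add_sum_compl, hWr]
  have hsymm : ∀ S T : Finset X, ∑ i ∈ S, ∑ j ∈ T, W i j = ∑ i ∈ T, ∑ j ∈ S, W i j := by
    intro S T
    rw [Finset.sum_comm]
    exact Finset.sum_congr rfl fun i _ => Finset.sum_congr rfl fun j _ => hWs j i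
  have e1 := hrows P Z
  have e2 := hrows Z P
  have e3 := hrows B B
  rw [hsymm Z P] at e2
  have e4 : p * p * ∑ i ∈ P, ∑ j ∈ Zᶜ, cnt f G i j ≤
      ∑ i ∈ P, ∑ j ∈ Zᶜ, W i j + p * p * thr p k := by
    rw [Finset.mul_sum]
    simp only [Finset.mul_sum]
    apply sum2_le P Zᶜ (fun i j => p * p * cnt f G i j) W (thr p k)
    intro x hx y hy
    rw [mem_compl] at hy
    have := hPc x hx y hy
    omega
  have e5 : ∑ i ∈ Z, ∑ j ∈ Pᶜ, W i j ≤ p * p * thr p k := by
    have := sum2_le Z Pᶜ W (fun _ _ => 0) (thr p k) (by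
      intro z hz x hx
      rw [mem_compl] at hx
      have := hZc z hz x hx
      omega)
    simpa using this
  have e6 : ∑ i ∈ B, ∑ j ∈ Bᶜ, W i j ≤ p * p * thr p k := by
    have := sum2_le B Bᶜ W (fun _ _ => 0) (thr p k) (by
      intro z hz x hx
      rw [mem_compl] at hx
      have := hcrossdec x z hx hz
      rw [hWs z x]
      omega)
    simpa using this
  have e7 : ∑ i ∈ Z, ∑ j ∈ P, W i j ≤ p * p * ((pre f Z).card * (pre f P).card) := by
    refine le_trans (Finset.sum_le_sum fun i _ => Finset.sum_le_sum fun j _ => hWc i j) ?_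
    simp only [← Finset.mul_sum]
    apply Nat.mul_le_mul_left
    rw [cnt_sum]
    exact outer_le G _ _
  rw [hsymm Z P] at e7
  have e8 : ∑ i ∈ B, ∑ j ∈ B, W i j ≤ p * p * ((pre f B).card * ((pre f B).card - 1)) := by
    refine le_trans (Finset.sum_le_sum fun i _ => Finset.sum_le_sum fun j _ => hWc i j) ?_
    simp only [← Finset.mul_sum]
    apply Nat.mul_le_mul_left
    rw [cnt_sum]
    exact inner_le G _
  have e9 : Fintype.card V * (pre f P).card ≤ 2 * ∑ i ∈ P, ∑ j ∈ Zᶜ, cnt f G i j +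
      2 * (pre f Z).card * (pre f P).card := by
    rw [cnt_sum, compl_pre]
    exact dirac_out G _ hdir _ _
  exact fin_arith (Fintype.card V) p k M (pre f P).card (pre f Z).card (pre f B).card
    (∑ i ∈ P, ∑ j ∈ Zᶜ, cnt f G i j) (∑ i ∈ P, ∑ j ∈ Z, W i j) (∑ i ∈ P, ∑ j ∈ Zᶜ, W i j)
    (∑ i ∈ Z, ∑ j ∈ Pᶜ, W i j) (∑ i ∈ B, ∑ j ∈ B, W i j) (∑ i ∈ B, ∑ j ∈ Bᶜ, W i j) hp1 hk hM1
    hc1 hc2 htM hsM hβM hD hE e1 e2 e3 e4 e5 e6 e7 e8 e9

end Pool.Agent.Helper37Ham
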