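import Pool.Agent.Helper37Ham.Mod5
import Pool.Agent.Helper37Ham.Dt3

set_option autoImplicit false

/-!
Edge-disjoint Hamilton cycles in graphs with large homogeneous classes.
-/

namespace Pool.Agent.Helper37Ham

open Finset SimpleGraph Pool.Agent.X76.Det

theorem rch_leave {Y : Type} {r : Y → Y → Prop} {u v : Y} (h : Relation.ReflTransGen r u v)
    (S : Set Y) (hu : u ∈ S) (hv : v ∉ S) : ∃ x ∈ S, ∃ y, y ∉ S ∧ r x y := by
  induction h with
  | refl => exact absurd hu hv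
  | @tail b c _ h2 ih =>
    by_cases hb : b ∈ S
    · exact ⟨b, hb, c, hv, h2⟩
    · exact ih hb

variable {V X : Type} [Fintype V] [DecidableEq V] [Fintype X] [DecidableEq X]

/-- feasible matrices -/
def Feas (f : V → X) (k : ℕ) (U : X → X → ℕ) (o : X → X → ℕ) : Prop :=
  (∀ i j, o i j ≤ U i j) ∧ (∀ i, ∑ j, o i j = k * sz f i) ∧ ∀ j, ∑ i, o i j = k * sz f j

/-- a path in the residual digraph gives a feasible matrix with a large entry -/
theorem big_entry (G : SimpleGraph V) (f : V → X) (k M : ℕ)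
    (hM : ∀ i, M ≤ sz f i) (hc2 : 16 * Fintype.card X ^ 4 * (k + 1) ≤ M ^ 2)
    (hadj : ∀ i j, i ≠ j → cnt f G i j = 0 ∨ cnt f G i j = sz f i * sz f j)
    (U : X → X → ℕ) (hUc : ∀ i j, cnt f G i j ≤ 2 * U i j + 2) (o : X → X → ℕ)
    (ho : Feas f k U o)
    (W : X → X → ℕ) (hWs : ∀ i j, W i j = W j i)
    (hWr : ∀ i, ∑ j, W i j = 2 * (Fintype.card X * Fintype.card X) * k * sz f i)
    (hWc : ∀ i j, W i j ≤ Fintype.card X * Fintype.card X * cnt f G i j)
    (a b : X) (hab : a ≠ b) (hc : cnt f G a b ≠ 0)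
    (hr : Rch (fun x y => W x y + thr (Fintype.card X) k ≤
        Fintype.card X * Fintype.card X * cnt f G x y) (fun x y => thr (Fintype.card X) k ≤ W x y)
        (a, false) (b, true)) :
    ∃ o', Feas f k U o' ∧ Fintype.card X * Fintype.card X * k ≤ o' b a := by
  classical
  have hp1 : 1 ≤ Fintype.card X := Fintype.card_pos_iff.2 ⟨a⟩
  set N := Fintype.card X * Fintype.card X with hN
  have hN1 : 1 ≤ N := Nat.mul_le_mul hp1 hp1
  have hthr : thr (Fintype.card X) k = 2 * N * (N * k + N) := by unfold thr; rfl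
  have hn1 := num1 hp1 hc2
  rw [← hN] at hn1
  obtain ⟨ho1, ho2, ho3⟩ := ho
  have hKU : N * k ≤ U b a := by
    have h1 := (hadj a b hab).resolve_left hc
    have h2 : M * M ≤ sz f a * sz f b := Nat.mul_le_mul (hM a) (hM b)
    have h3 := hUc b a
    rw [cnt_symm f G b a] at h3
    omega
  have hrows : ∀ S T : Finset X, ∑ i ∈ S, ∑ j ∈ T, W i j + ∑ i ∈ S, ∑ j ∈ Tᶜ, W i j =
      2 * N * ∑ i ∈ S, k * sz f i := by
    intro S T
    rw [← Finset.sum_add_distrib, Finset.mul_sum]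
    apply Finset.sum_congr rfl
    intro i _
    rw [Finset.sum_add_sum_compl, hWr, hN]
    ring
  have hsymm : ∀ S T : Finset X, ∑ i ∈ S, ∑ j ∈ T, W i j = ∑ i ∈ T, ∑ j ∈ S, W i j := by
    intro S T
    rw [Finset.sum_comm]
    exact Finset.sum_congr rfl fun i _ => Finset.sum_congr rfl fun j _ => hWs j i
  have hWU : ∀ P Z : Finset X, N * ∑ i ∈ P, ∑ j ∈ Zᶜ, cnt f G i j ≤
      2 * N * ∑ i ∈ P, ∑ j ∈ Zᶜ, U i j + N * (2 * N) := by
    intro P Z
    simp only [Finset.mul_sum]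
    apply sum2_le P Zᶜ (fun i j => N * cnt f G i j) (fun i j => 2 * N * U i j) (2 * N)
    intro x _ y _
    have h1 := Nat.mul_le_mul_left N (hUc x y)
    have h2 : N * (2 * U x y + 2) = 2 * N * U x y + 2 * N := by ring
    omega
  have hcut0 : ∀ P Z : Finset X, ∑ i ∈ P, k * sz f i ≤ ∑ i ∈ Z, k * sz f i +
      ∑ i ∈ P, ∑ j ∈ Zᶜ, U i j := by
    intro P Z
    have h1 : ∑ i ∈ P, k * sz f i = ∑ i ∈ P, ∑ j ∈ Z, o i j + ∑ i ∈ P, ∑ j ∈ Zᶜ, o i j := by
      rw [← Finset.sum_add_distrib]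
      apply Finset.sum_congr rfl
      intro i _
      rw [Finset.sum_add_sum_compl, ho2]
    have h2 : ∑ i ∈ P, ∑ j ∈ Z, o i j ≤ ∑ i ∈ Z, k * sz f i := by
      rw [Finset.sum_comm]
      apply Finset.sum_le_sum
      intro j _
      rw [← ho3]
      exact Finset.sum_le_sum_of_subset (Finset.subset_univ _)
    have h3 : ∑ i ∈ P, ∑ j ∈ Zᶜ, o i j ≤ ∑ i ∈ P, ∑ j ∈ Zᶜ, U i j :=
      Finset.sum_le_sum fun i _ => Finset.sum_le_sum fun j _ => ho1 i j
    omega
  have hcut1 : ∀ P Z : Finset X, b ∉ P → a ∈ Z → ∑ i ∈ P, k * sz f i + N * k ≤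
      ∑ i ∈ Z, k * sz f i + ∑ i ∈ P, ∑ j ∈ Zᶜ, U i j := by
    intro P Z hb ha
    have h1 := hrows P Z
    have h2 := hrows Z P
    rw [hsymm Z P] at h2
    have h3 := hWU P Z
    have h4 : ∑ i ∈ P, ∑ j ∈ Zᶜ, W i j ≤ N * ∑ i ∈ P, ∑ j ∈ Zᶜ, cnt f G i j := by
      simp only [Finset.mul_sum]
      exact Finset.sum_le_sum fun i _ => Finset.sum_le_sum fun j _ => hWc i j
    have h5 : ∑ i ∈ P, ∑ j ∈ Zᶜ, W i j + thr (Fintype.card X) k ≤
        N * ∑ i ∈ P, ∑ j ∈ Zᶜ, cnt f G i j + ∑ i ∈ Z, ∑ j ∈ Pᶜ, W i j := by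
      let S : Set (X × Bool) := {q | (q.2 = true ∧ q.1 ∈ P) ∨ (q.2 = false ∧ q.1 ∈ Z)}
      obtain ⟨⟨x, cx⟩, hx, ⟨y, cy⟩, hy, hxy⟩ := rch_leave hr S (Or.inr ⟨rfl, ha⟩)
        (by
          rintro (⟨-, h6⟩ | ⟨h6, -⟩)
          · exact hb h6
          · cases h6)
      rcases hxy with ⟨h6, h7, h8⟩ | ⟨h6, h7, h8⟩
      · simp only at h6 h7 h8
        subst h6 h7
        have hxP : x ∈ P := by
          rcases hx with h9 | h9
          · exact h9.2
          · cases h9.1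
        have hyZ : y ∈ Zᶜ := by
          rw [mem_compl]
          intro h9
          exact hy (Or.inr ⟨rfl, h9⟩)
        have h9 : ∑ i ∈ P, ∑ j ∈ Zᶜ, (N * cnt f G i j - W i j) +
            ∑ i ∈ P, ∑ j ∈ Zᶜ, W i j = N * ∑ i ∈ P, ∑ j ∈ Zᶜ, cnt f G i j := by
          rw [← Finset.sum_add_distrib, Finset.mul_sum]
          apply Finset.sum_congr rfl
          intro i _
          rw [← Finset.sum_add_distrib, Finset.mul_sum]
          apply Finset.sum_congr rfl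
          intro j _
          exact Nat.sub_add_cancel (hWc i j)
        have h10 := one_le_sum2 P Zᶜ (fun i j => N * cnt f G i j - W i j) hxP hyZ
        beta_reduce at h10
        omega
      · simp only at h6 h7 h8
        subst h6 h7
        have hxZ : x ∈ Z := by
          rcases hx with h9 | h9
          · cases h9.1
          · exact h9.2
        have hyP : y ∈ Pᶜ := by
          rw [mem_compl]
          intro h9
          exact hy (Or.inl ⟨rfl, h9⟩)
        have h10 := one_le_sum2 Z Pᶜ W hxZ hyP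
        omega
    have h6 : 2 * N * (∑ i ∈ P, k * sz f i + N * k) ≤
        2 * N * (∑ i ∈ Z, k * sz f i + ∑ i ∈ P, ∑ j ∈ Zᶜ, U i j) := by
      have h7 : 2 * N * (∑ i ∈ P, k * sz f i + N * k) = 2 * N * ∑ i ∈ P, k * sz f i +
        2 * N * (N * k) := by ring
      have h8 : 2 * N * (∑ i ∈ Z, k * sz f i + ∑ i ∈ P, ∑ j ∈ Zᶜ, U i j) =
        2 * N * ∑ i ∈ Z, k * sz f i + 2 * N * ∑ i ∈ P, ∑ j ∈ Zᶜ, U i j := by ring
      have h9 : 2 * N * (N * k + N) = 2 * N * (N * k) + N * (2 * N) := by ring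
      rw [hthr, h9] at h5
      rw [h7, h8, ← h1, ← h2]
      omega
    exact Nat.le_of_mul_le_mul_left h6 (by omega)
  obtain ⟨o', h1, h2, h3, h4⟩ := transport (fun x => ((k * sz f x : ℕ) : ℤ))
    (fun x y => (U x y : ℤ)) (fun x y => by positivity) b a ((N * k : ℕ) : ℤ) (by positivity)
    (by exact_mod_cast hKU)
    (by
      intro P Z
      by_cases h5 : b ∉ P ∧ a ∈ Z
      · rw [if_pos h5]
        have h6 := hcut1 P Z h5.1 h5.2
        have h7 : (((∑ i ∈ P, k * sz f i + N * k : ℕ)) : ℤ) ≤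
          ((∑ i ∈ Z, k * sz f i + ∑ i ∈ P, ∑ j ∈ Zᶜ, U i j : ℕ) : ℤ) := by exact_mod_cast h6
        push_cast at h7 ⊢
        linarith
      · rw [if_neg h5]
        have h6 := hcut0 P Z
        have h7 : (((∑ i ∈ P, k * sz f i : ℕ)) : ℤ) ≤
          ((∑ i ∈ Z, k * sz f i + ∑ i ∈ P, ∑ j ∈ Zᶜ, U i j : ℕ) : ℤ) := by exact_mod_cast h6
        push_cast at h7 ⊢
        linarith)
  have hT : ∀ x y, ((o' x y).toNat : ℤ) = o' x y := fun x y => Int.toNat_of_nonneg (h1 x y).1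
  refine ⟨fun x y => (o' x y).toNat, ⟨?_, ?_, ?_⟩, ?_⟩
  · intro i j
    have h5 := (h1 i j).2
    rw [← hT] at h5
    exact_mod_cast h5
  · intro i
    have h5 : ((∑ j, (o' i j).toNat : ℕ) : ℤ) = ((k * sz f i : ℕ) : ℤ) := by
      rw [← h2 i, Nat.cast_sum]
      exact Finset.sum_congr rfl fun j _ => hT i j
    exact_mod_cast h5
  · intro j
    have h5 : ((∑ i, (o' i j).toNat : ℕ) : ℤ) = ((k * sz f j : ℕ) : ℤ) := by
      rw [← h3 j, Nat.cast_sum]
      exact Finset.sum_congr rfl fun i _ => hT i j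
    exact_mod_cast h5
  · rw [← hT] at h4
    exact_mod_cast h4

end Pool.Agent.Helper37Ham
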