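import Pool.Agent.Helper37Ham.Mod6

set_option autoImplicit false

/-!
Edge-disjoint Hamilton cycles in graphs with large homogeneous classes: the theorem.
-/

namespace Pool.Agent.Helper37Ham

open Finset SimpleGraph Pool.Agent.X76.Det

variable {V X : Type} [Fintype V] [DecidableEq V] [Fintype X] [LinearOrder X]

/-- a balanced base matrix -/
theorem base_matrix (f : V → X) (H : SimpleGraph V) (k : ℕ) (hreg : ∀ v, dg H v = 2 * k) :
    ∃ o : X → X → ℕ, (∀ i j, o i j + o j i = cnt f H i j) ∧ (∀ i, ∑ j, o i j = k * sz f i) ∧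
      (∀ j, ∑ i, o i j = k * sz f j) ∧ ∀ i j, cnt f H i j ≤ 2 * o i j + 1 := by
  classical
  choose l hl using fun i => cnt_even f H i
  have hl' : ∀ i, cnt f H i i = 2 * l i := fun i => by rw [hl i]; ring
  have hrow : ∀ i, ∑ j, (if i = j then 0 else cnt f H i j) + 2 * l i = 2 * k * sz f i := by
    intro i
    rw [← cnt_row f H i (2 * k) hreg, ← hl' i]
    rw [← Finset.add_sum_erase univ (fun j => cnt f H i j) (mem_univ i),
      ← Finset.add_sum_erase univ (fun j => if i = j then 0 else cnt f H i j) (mem_univ i)]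
    have h1 : ∑ j ∈ univ.erase i, (if i = j then 0 else cnt f H i j) =
        ∑ j ∈ univ.erase i, cnt f H i j := by
      apply Finset.sum_congr rfl
      intro j hj
      rw [if_neg (Finset.ne_of_mem_erase hj).symm]
    rw [h1, if_pos rfl]
    ring
  obtain ⟨o, h1, h2, h3, h4⟩ := orient (fun i j => if i = j then 0 else cnt f H i j)
    (by
      intro i j
      by_cases h : i = j
      · rw [if_pos h, if_pos h.symm]
      · rw [if_neg h, if_neg (Ne.symm h), cnt_symm])
    (fun i => if_pos rfl) (fun i => k * sz f i - l i)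
    (by
      intro i
      have := hrow i
      have h5 : 2 * k * sz f i = 2 * (k * sz f i) := by ring
      rw [Nat.mul_sub]
      omega)
  have hle : ∀ i, l i ≤ k * sz f i := by
    intro i
    have := hrow i
    have h5 : 2 * k * sz f i = 2 * (k * sz f i) := by ring
    omega
  have hdiag : ∀ i, o i i = 0 := by
    intro i
    have := h1 i i
    rw [if_pos rfl] at this
    omega
  refine ⟨fun i j => o i j + if i = j then l i else 0, ?_, ?_, ?_, ?_⟩
  · intro i j
    beta_reduce
    by_cases h : i = j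
    · subst h
      rw [if_pos rfl, hdiag, hl']
      ring
    · rw [if_neg h, if_neg (Ne.symm h)]
      have := h1 i j
      rw [if_neg h] at this
      exact this
  · intro i
    rw [Finset.sum_add_distrib, h2]
    have := hle i
    simp only [Finset.sum_ite_eq, mem_univ, if_true]
    omega
  · intro j
    rw [Finset.sum_add_distrib, h3]
    have := hle j
    have h5 : ∑ i, (if i = j then l i else 0) = l j := by simp
    rw [h5]
    omega
  · intro i j
    beta_reduce
    by_cases h : i = j
    · subst h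
      rw [if_pos rfl, hl']
      omega
    · rw [if_neg h]
      have := h4 i j
      rw [if_neg h] at this
      omega

theorem mod_core [Nonempty V] (G H : SimpleGraph V) (hHG : H ≤ G) (k M : ℕ) (hk : 1 ≤ k)
    (hreg : ∀ v, dg H v = 2 * k) (hdir : ∀ v, Fintype.card V ≤ 2 * dg G v) (f : V → X)
    (hhom : ∀ x y x' y', x ≠ y → x' ≠ y' → f x = f x' → f y = f y' → G.Adj x y → G.Adj x' y')
    (hM : ∀ i, M ≤ sz f i) (hc1 : 9 * Fintype.card X ^ 4 ≤ M)
    (hc2 : 16 * Fintype.card X ^ 4 * (k + 1) ≤ M ^ 2) :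
    ∃ C : Fin k → SimpleGraph V, (∀ i, C i ≤ G) ∧
      (∀ i j u v, (C i).Adj u v → (C j).Adj u v → i = j) ∧
      (∀ i v, ((C i).neighborSet v).ncard = 2) ∧ ∀ i, (C i).Connected := by
  classical
  obtain ⟨v0⟩ := ‹Nonempty V›
  have hp1 : 1 ≤ Fintype.card X := Fintype.card_pos_iff.2 ⟨f v0⟩
  have hM1 : 1 ≤ M := by
    have : 1 ≤ Fintype.card X ^ 4 := Nat.one_le_pow _ _ hp1
    omega
  -- the pattern
  let a : X → X → ℕ := fun i j => if ∃ x y, x ≠ y ∧ f x = i ∧ f y = j ∧ G.Adj x y then 1 else 0
  have ha1 : ∀ i j, a i j ≤ 1 := by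
    intro i j
    simp only [a]
    split_ifs <;> omega
  have ha : ∀ i j, a i j = a j i := by
    have h1 : ∀ i j, (∃ x y, x ≠ y ∧ f x = i ∧ f y = j ∧ G.Adj x y) →
        ∃ x y, x ≠ y ∧ f x = j ∧ f y = i ∧ G.Adj x y := by
      rintro i j ⟨x, y, h1, h2, h3, h4⟩
      exact ⟨y, x, h1.symm, h3, h2, h4.symm⟩
    intro i j
    simp only [a]
    by_cases h : ∃ x y, x ≠ y ∧ f x = i ∧ f y = j ∧ G.Adj x y
    · rw [if_pos h, if_pos (h1 i j h)]
    · rw [if_neg h, if_neg fun h' => h (h1 j i h')]
  have hGa : ∀ u v, u ≠ v → 0 < a (f u) (f v) → G.Adj u v := by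
    intro u v huv h
    simp only [a] at h
    split_ifs at h with h1
    · obtain ⟨x, y, h2, h3, h4, h5⟩ := h1
      exact hhom x y u v h2 huv h3 h4 h5
    · exact absurd h (lt_irrefl 0)
  have hadG : ∀ u v, ad G u v ≤ a (f u) (f v) := by
    intro u v
    by_cases h : G.Adj u v
    · have h1 : a (f u) (f v) = 1 := by
        simp only [a]
        rw [if_pos ⟨u, v, h.ne, rfl, rfl, h⟩]
      rw [h1]
      exact ad_le_one G u v
    · rw [ad_eq_zero.2 h]
      exact Nat.zero_le _
  have hc_off : ∀ i j, cnt f G i j ≤ sz f i * sz f j * a i j := by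
    intro i j
    unfold cnt
    calc ∑ v with f v = i, ∑ w with f w = j, ad G v w
        ≤ ∑ v with f v = i, ∑ w with f w = j, a i j := by
          apply Finset.sum_le_sum
          intro v hv
          apply Finset.sum_le_sum
          intro w hw
          rw [mem_filter] at hv hw
          rw [← hv.2, ← hw.2]
          exact hadG v w
      _ = sz f i * sz f j * a i j := by
          simp only [Finset.sum_const, smul_eq_mul, sz]
          ring
  have hc_diag : ∀ i, cnt f G i i ≤ sz f i * ((sz f i - 1) * a i i) := by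
    intro i
    unfold cnt
    rw [← smul_eq_mul (sz f i)]
    apply Finset.sum_le_card_nsmul
    intro v hv
    rw [← Finset.add_sum_erase _ _ hv, ad_self, zero_add]
    have h1 : ∑ w ∈ (univ.filter fun w => f w = i).erase v, ad G v w ≤
        ∑ w ∈ (univ.filter fun w => f w = i).erase v, a i i := by
      apply Finset.sum_le_sum
      intro w hw
      have hw' := Finset.mem_of_mem_erase hw
      rw [mem_filter] at hv hw'
      have h2 := hadG v w
      rw [hv.2, hw'.2] at h2
      exact h2
    refine h1.trans ?_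
    rw [Finset.sum_const, Finset.card_erase_of_mem hv, smul_eq_mul]
    exact le_rfl
  have hadj : ∀ i j, i ≠ j → cnt f G i j = 0 ∨ cnt f G i j = sz f i * sz f j := by
    intro i j hij
    rcases Nat.eq_zero_or_pos (a i j) with h1 | h1
    · left
      have h2 := hc_off i j
      rw [h1, Nat.mul_zero] at h2
      omega
    · right
      unfold cnt
      have h2 : ∀ v, f v = i → ∀ w, f w = j → ad G v w = 1 := by
        intro v hv w hw
        rw [ad_eq_one]
        apply hGa
        · rintro rfl
          exact hij (hv.symm.trans hw)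
        · rw [hv, hw]; exact h1
      rw [Finset.sum_congr rfl fun v hv => Finset.sum_congr rfl fun w hw =>
        h2 v (mem_filter.1 hv).2 w (mem_filter.1 hw).2]
      simp only [Finset.sum_const, smul_eq_mul, sz]
      ring
  -- the base matrix and the upper bounds
  obtain ⟨o0, ho1, ho2, ho3, ho4⟩ := base_matrix f H k hreg
  have hwc : ∀ i j, cnt f H i j ≤ cnt f G i j := cnt_mono f hHG
  let U : X → X → ℕ := fun i j => o0 i j + (cnt f G i j - cnt f H i j) / 2
  have hUa : ∀ i j, U i j + U j i ≤ cnt f G i j := by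
    intro i j
    simp only [U]
    have h1 := ho1 i j
    have h2 := hwc i j
    rw [cnt_symm f G j i, cnt_symm f H j i]
    omega
  have hUb : ∀ i j, cnt f G i j ≤ 2 * U i j + 2 := by
    intro i j
    simp only [U]
    have h1 := ho4 i j
    have h2 := hwc i j
    omega
  have hF0 : Feas f k U o0 := ⟨fun i j => Nat.le_add_right _ _, ho2, ho3⟩
  obtain ⟨N, hN⟩ : ∃ N, N = Fintype.card X * Fintype.card X := ⟨_, rfl⟩
  have hN1 : 1 ≤ N := by rw [hN]; exact Nat.mul_le_mul hp1 hp1
  let Q : X → X → Prop := fun i j => ∃ o, Feas f k U o ∧ N * k ≤ o i j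
  have hO : ∀ q : X × X, ∃ o, Feas f k U o ∧ (Q q.1 q.2 → N * k ≤ o q.1 q.2) := by
    intro q
    by_cases h : Q q.1 q.2
    · obtain ⟨o, h1, h2⟩ := h
      exact ⟨o, h1, fun _ => h2⟩
    · exact ⟨o0, hF0, fun h' => absurd h' h⟩
  choose O hO1 hO2 using hO
  let Ot : X → X → ℕ := fun x y => ∑ q, O q x y
  have hcardN : Fintype.card (X × X) = N := by rw [Fintype.card_prod, hN]
  have hOr : ∀ x, ∑ y, Ot x y = N * (k * sz f x) := by
    intro x
    simp only [Ot]
    rw [Finset.sum_comm, Finset.sum_congr rfl fun q _ => (hO1 q).2.1 x, Finset.sum_const,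
      Finset.card_univ, hcardN, smul_eq_mul]
  have hOc : ∀ y, ∑ x, Ot x y = N * (k * sz f y) := by
    intro y
    simp only [Ot]
    rw [Finset.sum_comm, Finset.sum_congr rfl fun q _ => (hO1 q).2.2 y, Finset.sum_const,
      Finset.card_univ, hcardN, smul_eq_mul]
  have hOU : ∀ x y, Ot x y ≤ N * U x y := by
    intro x y
    simp only [Ot]
    refine (Finset.sum_le_card_nsmul _ _ (U x y) fun q _ => (hO1 q).1 x y).trans ?_
    rw [Finset.card_univ, hcardN, smul_eq_mul]
  have hOQ : ∀ x y, Q x y → N * k ≤ Ot x y := by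
    intro x y h
    exact (hO2 (x, y) h).trans (Finset.single_le_sum (f := fun q => O q x y)
      (fun _ _ => Nat.zero_le _) (mem_univ (x, y)))
  have hOn : ∀ x y, ¬ Q x y → Ot x y + N ≤ N * (N * k) := by
    intro x y h
    have h1 : ∀ q, O q x y + 1 ≤ N * k := by
      intro q
      by_contra h2
      exact h ⟨O q, hO1 q, by omega⟩
    have h2 : ∑ q : X × X, (O q x y + 1) ≤ N * (N * k) := by
      refine (Finset.sum_le_card_nsmul _ _ (N * k) fun q _ => h1 q).trans ?_
      rw [Finset.card_univ, hcardN, smul_eq_mul]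
    rw [Finset.sum_add_distrib, Finset.sum_const, Finset.card_univ, hcardN, smul_eq_mul,
      mul_one] at h2
    exact h2
  let W : X → X → ℕ := fun x y => Ot x y + Ot y x
  have hWs : ∀ x y, W x y = W y x := fun x y => add_comm _ _
  have hWr : ∀ i, ∑ j, W i j = 2 * (Fintype.card X * Fintype.card X) * k * sz f i := by
    intro i
    simp only [W]
    rw [Finset.sum_add_distrib, hOr, hOc, ← hN]
    ring
  have hWc : ∀ i j, W i j ≤ Fintype.card X * Fintype.card X * cnt f G i j := by
    intro i j
    simp only [W]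
    rw [← hN]
    have h1 := hOU i j
    have h2 := hOU j i
    have h3 := Nat.mul_le_mul_left N (hUa i j)
    rw [Nat.mul_add] at h3
    omega
  -- no separated set
  have hclaim : ∀ B : Finset X, B.Nonempty → 2 * ∑ i ∈ B, sz f i ≤ Fintype.card V →
      (∀ x, x ∉ B → ∀ y ∈ B, ¬ Q x y ∧ ¬ Q y x) → False := by
    intro B hB hBn hcr
    refine no_sep G f k M hk hdir hM hc1 hc2 hadj W hWs hWr hWc B hB hBn ?_ ?_
    · intro x hx y hy
      obtain ⟨h1, h2⟩ := hcr x hx y hy
      have h3 := hOn x y h1
      have h4 := hOn y x h2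
      simp only [W]
      rw [← hN]
      have h5 : 2 * N * (N * k) = N * (N * k) + N * (N * k) := by ring
      omega
    · intro x hx y hy hxy hr
      have hne : x ≠ y := by rintro rfl; exact hx hy
      obtain ⟨o', h1, h2⟩ := big_entry G f k M hM hc2 hadj U hUb o0 hF0 W hWs hWr hWc x y hne
        hxy hr
      exact (hcr x hx y hy).2 ⟨o', h1, by rw [hN]; exact h2⟩
  let Γ : SimpleGraph X :=
    { Adj := fun x y => x ≠ y ∧ (Q x y ∨ Q y x)
      symm := ⟨fun _ _ h => ⟨h.1.symm, h.2.symm⟩⟩
      loopless := ⟨fun _ h => h.1 rfl⟩ }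
  have hΓ : Γ.Connected := by
    rw [SimpleGraph.connected_iff_exists_forall_reachable]
    refine ⟨f v0, ?_⟩
    by_contra hno
    push Not at hno
    obtain ⟨y0, hy0⟩ := hno
    let B : Finset X := univ.filter fun x => Γ.Reachable (f v0) x
    have hcr : ∀ x, x ∉ B → ∀ y ∈ B, ¬ Q x y ∧ ¬ Q y x := by
      intro x hx y hy
      simp only [B, mem_filter, mem_univ, true_and] at hx hy
      have hxy : x ≠ y := by rintro rfl; exact hx hy
      constructor
      · intro h
        exact hx (hy.trans (Adj.reachable (⟨hxy.symm, Or.inr h⟩ : Γ.Adj y x)))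
      · intro h
        exact hx (hy.trans (Adj.reachable (⟨hxy.symm, Or.inl h⟩ : Γ.Adj y x)))
    have hsum : ∑ i ∈ B, sz f i + ∑ i ∈ Bᶜ, sz f i = Fintype.card V := by
      rw [Finset.sum_add_sum_compl, ← card_pre f univ, pre_univ, Finset.card_univ]
    rcases Nat.le_total (2 * ∑ i ∈ B, sz f i) (Fintype.card V) with h | h
    · exact hclaim B ⟨f v0, by simp [B]⟩ h hcr
    · refine hclaim Bᶜ ⟨y0, by simpa [B] using hy0⟩ (by omega) ?_
      intro x hx y hy
      rw [mem_compl, not_not] at hx
      rw [mem_compl] at hy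
      have := hcr y hy x hx
      exact ⟨this.2, this.1⟩
  -- the final matrix
  obtain ⟨T, hT1, hT2, hT3⟩ := one_class Ot N hN1 (fun i => k * sz f i) (fun i => k * sz f i)
    hOr hOc
  have hTU : ∀ x y, T x y ≤ U x y := fun x y => (hT3 x y).2.trans (up_le hN1 (hOU x y))
  have hTQ : ∀ x y, Q x y → k ≤ T x y := by
    intro x y h
    refine le_trans ?_ (hT3 x y).1
    rw [Nat.le_div_iff_mul_le hN1, mul_comm]
    exact hOQ x y h
  obtain ⟨Tc, hc3, hc4, hc5, hc6⟩ := classes k (sz f) (sz f) T hT1 hT2
  have hSt : StL (sz f) a (fun c x y => Tc c x y + Tc c y x) := by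
    refine ⟨fun x => hM1.trans (hM x), fun c x y => add_comm _ _, fun c x => Even.add_self _,
      ?_, ?_, ?_, ?_⟩
    · intro x y _
      rw [Finset.sum_add_distrib, hc5, hc5]
      exact (Nat.add_le_add (hTU x y) (hTU y x)).trans ((hUa x y).trans (hc_off x y))
    · intro x
      rw [Finset.sum_add_distrib, hc5]
      exact (Nat.add_le_add (hTU x x) (hTU x x)).trans ((hUa x x).trans (hc_diag x))
    · intro c x
      rw [Finset.sum_add_distrib, hc3, hc4]
      ring
    · intro c
      apply hΓ.mono
      rintro x y ⟨hxy, hq⟩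
      have h1 : 0 < Tc c x y + Tc c y x := by
        rcases hq with h | h
        · have := hc6 x y (hTQ x y h) c
          omega
        · have := hc6 y x (hTQ y x h) c
          omega
      refine ⟨hxy, h1, ?_⟩
      change 0 < Tc c y x + Tc c x y
      omega
  refine of_StL G f a ha ha1 hGa (sz f) ?_ _ hSt
  intro x
  rw [Set.ncard_eq_toFinset_card']
  unfold sz
  congr 1
  ext w
  simp

end Pool.Agent.Helper37Ham
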