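import Pool.Agent.Helper37Ham.Rank

set_option autoImplicit false
set_option linter.unusedSectionVars false

/-!
Proper edge-colourings of graphs with few vertices of large degree.
-/

namespace Pool.Agent.Helper37Ham

open Finset SimpleGraph

variable {S : Type} [Fintype S] [DecidableEq S]

/-- edge-disjoint matchings inside `Γ` -/
structure PC (Γ : SimpleGraph S) (k : ℕ) (M : Fin k → SimpleGraph S) : Prop where
  le : ∀ i, M i ≤ Γ
  deg : ∀ i v, dg (M i) v ≤ 1
  dis : ∀ i j a b, (M i).Adj a b → (M j).Adj a b → i = j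

theorem dg_pos_iff (F : SimpleGraph S) (v : S) : 0 < dg F v ↔ ∃ w, F.Adj v w := by
  unfold dg
  constructor
  · intro h
    by_contra hcon
    push Not at hcon
    have : ∑ w, ad F v w = 0 := Finset.sum_eq_zero fun w _ => ad_eq_zero.2 (hcon w)
    omega
  · rintro ⟨w, hw⟩
    have h1 := Finset.single_le_sum (f := fun w => ad F v w) (fun _ _ => Nat.zero_le _)
      (Finset.mem_univ w)
    have h2 : 0 < ad F v w := ad_pos.2 hw
    exact lt_of_lt_of_le h2 h1

theorem dg_one_unique {F : SimpleGraph S} {v a b : S} (h : dg F v ≤ 1) (ha : F.Adj v a)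
    (hb : F.Adj v b) : a = b := by
  by_contra hab
  have h1 : ad F v a + ad F v b ≤ dg F v := by
    unfold dg
    rw [← Finset.sum_pair hab]
    exact Finset.sum_le_sum_of_subset (Finset.subset_univ _)
  have h2 : 0 < ad F v a := ad_pos.2 ha
  have h3 : 0 < ad F v b := ad_pos.2 hb
  omega

theorem dg_le_one_of_unique (F : SimpleGraph S) (v : S)
    (h : ∀ a b, F.Adj v a → F.Adj v b → a = b) : dg F v ≤ 1 := by
  classical
  by_contra hcon
  push Not at hcon
  unfold dg ad at hcon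
  rw [← Finset.card_filter, Finset.one_lt_card] at hcon
  obtain ⟨a, ha, b, hb, hab⟩ := hcon
  rw [Finset.mem_filter] at ha hb
  exact hab (h a b ha.2 hb.2)

/-- the colours present at a vertex -/
noncomputable def used {k : ℕ} (M : Fin k → SimpleGraph S) (v : S) : Finset (Fin k) :=
  univ.filter fun i => 0 < dg (M i) v

/-- the neighbours in `Γ` inside `P` -/
noncomputable def nbP (Γ : SimpleGraph S) (P : Finset S) (v : S) : Finset S :=
  P.filter fun w => 0 < ad Γ v w

theorem used_le {Γ : SimpleGraph S} {k : ℕ} {M : Fin k → SimpleGraph S} (h : PC Γ k M)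
    (P : Finset S) (v : S) (hv : ∀ i w, (M i).Adj v w → w ∈ P) :
    (used M v).card ≤ (nbP Γ P v).card := by
  classical
  have : Nonempty S := ⟨v⟩
  have hex : ∀ i ∈ used M v, ∃ w, (M i).Adj v w := by
    intro i hi
    rw [used, Finset.mem_filter, dg_pos_iff] at hi
    exact hi.2
  choose! f hf using hex
  apply Finset.card_le_card_of_injOn f
  · intro i hi
    rw [Finset.mem_coe] at hi ⊢
    rw [nbP, Finset.mem_filter]
    exact ⟨hv i _ (hf i hi), ad_pos.2 (h.le i (hf i hi))⟩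
  · intro i hi j hj hij
    rw [Finset.mem_coe] at hi hj
    have h1 := hf i hi
    have h2 := hf j hj
    rw [hij] at h1
    exact h.dis i j _ _ h1 h2

/-- adding matching edges at one vertex -/
theorem add_star {Γ : SimpleGraph S} {k : ℕ} {M : Fin k → SimpleGraph S} (h : PC Γ k M)
    (s : S) (N' : Finset S) (hN : ∀ w ∈ N', Γ.Adj s w) (hun : ∀ i, ∀ w ∈ N', ¬ (M i).Adj s w)
    (φ : S → Fin k) (hφ : ∀ w ∈ N', ∀ w' ∈ N', φ w = φ w' → w = w')
    (hfree : ∀ w ∈ N', dg (M (φ w)) s = 0 ∧ dg (M (φ w)) w = 0) :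
    ∃ M' : Fin k → SimpleGraph S, PC Γ k M' ∧
      ∀ a b, (∃ i, (M' i).Adj a b) ↔ (∃ i, (M i).Adj a b) ∨ (a = s ∧ b ∈ N') ∨
        (b = s ∧ a ∈ N') := by
  classical
  have hsN : s ∉ N' := fun hs => Γ.loopless.irrefl s (hN s hs)
  refine ⟨fun i =>
    { Adj := fun a b => (M i).Adj a b ∨ (a = s ∧ b ∈ N' ∧ φ b = i) ∨ (b = s ∧ a ∈ N' ∧ φ a = i)
      symm := ⟨fun a b hab => ?_⟩
      loopless := ⟨fun a ha => ?_⟩ }, ?_, ?_⟩
  · rcases hab with hab | hab | hab
    · exact Or.inl hab.symm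
    · exact Or.inr (Or.inr hab)
    · exact Or.inr (Or.inl hab)
  · rcases ha with ha | ⟨h1, h2, _⟩ | ⟨h1, h2, _⟩
    · exact (M i).loopless.irrefl a ha
    · exact hsN (h1 ▸ h2)
    · exact hsN (h1 ▸ h2)
  · refine ⟨?_, ?_, ?_⟩
    · intro i a b hab
      rcases hab with hab | ⟨h1, h2, _⟩ | ⟨h1, h2, _⟩
      · exact h.le i hab
      · rw [h1]; exact hN b h2
      · rw [h1]; exact (hN a h2).symm
    · intro i v
      -- at most one neighbour
      apply dg_le_one_of_unique
      intro a b ha hb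
      have huniq : ∀ a b, ((M i).Adj v a ∨ (v = s ∧ a ∈ N' ∧ φ a = i) ∨
          (a = s ∧ v ∈ N' ∧ φ v = i)) → ((M i).Adj v b ∨ (v = s ∧ b ∈ N' ∧ φ b = i) ∨
          (b = s ∧ v ∈ N' ∧ φ v = i)) → a = b := by
        have hzero : ∀ x y, dg (M i) x = 0 → (M i).Adj x y → False := by
          intro x y h1 h2
          have := (dg_pos_iff (M i) x).2 ⟨y, h2⟩
          omega
        intro a b ha hb
        rcases ha with ha | ⟨h1, h2, h3⟩ | ⟨h1, h2, h3⟩ <;>
          rcases hb with hb | ⟨k1, k2, k3⟩ | ⟨k1, k2, k3⟩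
        · exact dg_one_unique (h.deg i v) ha hb
        · exact (hzero v a (by rw [k1, ← k3]; exact (hfree b k2).1) ha).elim
        · exact (hzero v a (by rw [← k3]; exact (hfree v k2).2) ha).elim
        · exact (hzero v b (by rw [h1, ← h3]; exact (hfree a h2).1) hb).elim
        · exact hφ a h2 b k2 (h3.trans k3.symm)
        · exact (hsN (h1 ▸ k2)).elim
        · exact (hzero v b (by rw [← h3]; exact (hfree v h2).2) hb).elim
        · exact (hsN (k1 ▸ h2)).elim
        · rw [h1, k1]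
      exact huniq a b ha hb
    · intro i j a b hi hj
      have hcov : ∀ i, ∀ w ∈ N', ¬ (M i).Adj w s := fun i w hw h1 => hun i w hw h1.symm
      rcases hi with hi | ⟨h1, h2, h3⟩ | ⟨h1, h2, h3⟩ <;>
        rcases hj with hj | ⟨k1, k2, k3⟩ | ⟨k1, k2, k3⟩
      · exact h.dis i j a b hi hj
      · exact absurd (k1 ▸ hi) (hun i b k2)
      · exact absurd (k1 ▸ hi) (hcov i a k2)
      · exact absurd (h1 ▸ hj) (hun j b h2)
      · exact h3.symm.trans k3
      · exact (hsN (h1 ▸ k2)).elim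
      · exact absurd (h1 ▸ hj) (hcov j a h2)
      · exact (hsN (h1 ▸ k2)).elim
      · exact h3.symm.trans k3
  · intro a b
    constructor
    · rintro ⟨i, hi | ⟨h1, h2, _⟩ | ⟨h1, h2, _⟩⟩
      · exact Or.inl ⟨i, hi⟩
      · exact Or.inr (Or.inl ⟨h1, h2⟩)
      · exact Or.inr (Or.inr ⟨h1, h2⟩)
    · rintro (⟨i, hi⟩ | ⟨h1, h2⟩ | ⟨h1, h2⟩)
      · exact ⟨i, Or.inl hi⟩
      · exact ⟨φ b, Or.inr (Or.inl ⟨h1, h2, rfl⟩)⟩
      · exact ⟨φ a, Or.inr (Or.inr ⟨h1, h2, rfl⟩)⟩

end Pool.Agent.Helper37Ham
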