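import Pool.Agent.Helper37Ham.NB1

set_option autoImplicit false
set_option linter.unusedSectionVars false

/-!
The colouring theorem.
-/

namespace Pool.Agent.Helper37Ham

open Finset SimpleGraph

variable {S : Type} [Fintype S] [DecidableEq S]

/-- colouring all the edges that meet a small set -/
theorem stage_one (Γ : SimpleGraph S) (k : ℕ) (hΔ : ∀ v, dg Γ v ≤ k) (P : Finset S)
    (hP : 3 * P.card ≤ k) : ∃ M : Fin k → SimpleGraph S, PC Γ k M ∧
      ∀ a b, (∃ i, (M i).Adj a b) ↔ Γ.Adj a b ∧ (a ∈ P ∨ b ∈ P) := by
  classical
  induction P using Finset.induction_on with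
  | empty =>
    refine ⟨fun _ => ⊥, ⟨fun _ => bot_le, ?_, ?_⟩, ?_⟩
    · intro i v
      apply dg_le_one_of_unique
      intro a b ha
      exact absurd ha (by simp)
    · intro i j a b h
      exact absurd h (by simp)
    · intro a b
      simp
  | insert s P hs ih =>
    rw [Finset.card_insert_of_notMem hs] at hP
    obtain ⟨M, hM, hcov⟩ := ih (by omega)
    -- coloured edges at a vertex outside `P` lead to `P`
    have hout : ∀ v, v ∉ P → ∀ i w, (M i).Adj v w → w ∈ P := by
      intro v hv i w h
      rcases ((hcov v w).1 ⟨i, h⟩).2 with h1 | h1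
      · exact absurd h1 hv
      · exact h1
    set N' : Finset S := univ.filter fun w => Γ.Adj s w ∧ w ∉ P with hN'
    have hNmem : ∀ w, w ∈ N' → Γ.Adj s w ∧ w ∉ P := fun w hw => (Finset.mem_filter.1 hw).2
    have hk : 0 < k := by omega
    let t : {w // w ∈ N'} → Finset (Fin k) := fun w =>
      univ.filter fun i => dg (M i) s = 0 ∧ dg (M i) w.1 = 0
    -- free colours at `s`
    have hfs : ∀ v, v ∉ P → (used M v).card ≤ P.card := by
      intro v hv
      exact (used_le hM P v (hout v hv)).trans (Finset.card_filter_le _ _)
    have hall : ∀ A : Finset {w // w ∈ N'}, A.card ≤ (A.biUnion t).card := by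
      intro A
      rcases A.eq_empty_or_nonempty with hA | hA
      · rw [hA]; simp
      · obtain ⟨w0, hw0⟩ := hA
        by_cases hcase : A.card + 2 * P.card ≤ k
        · have h1 : t w0 ⊆ A.biUnion t := Finset.subset_biUnion_of_mem t hw0
          have h2 : (used M s ∪ used M w0.1)ᶜ ⊆ t w0 := by
            intro i hi
            rw [Finset.mem_compl, Finset.mem_union, used, used, Finset.mem_filter,
              Finset.mem_filter] at hi
            simp only [t, Finset.mem_filter, Finset.mem_univ, true_and] at hi ⊢
            omega
          have h3 : w0.1 ∉ P := (hNmem _ w0.2).2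
          have h4 := Finset.card_union_le (used M s) (used M w0.1)
          have h5 := hfs s hs
          have h6 := hfs w0.1 h3
          have h7 := (Finset.card_le_card h2).trans (Finset.card_le_card h1)
          rw [Finset.card_compl, Fintype.card_fin] at h7
          omega
        · -- every colour free at `s` is available
          have h1 : (used M s)ᶜ ⊆ A.biUnion t := by
            intro i hi
            rw [Finset.mem_compl, used, Finset.mem_filter] at hi
            have hi' : dg (M i) s = 0 := by
              by_contra h
              exact hi ⟨Finset.mem_univ _, Nat.pos_of_ne_zero h⟩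
            rw [Finset.mem_biUnion]
            by_contra hcon
            push Not at hcon
            have h2 : ∀ w ∈ A, ∃ p, (M i).Adj w.1 p := by
              intro w hw
              have h3 := hcon w hw
              simp only [t, Finset.mem_filter, Finset.mem_univ, true_and, not_and] at h3
              have h4 := h3 hi'
              exact (dg_pos_iff (M i) w.1).1 (Nat.pos_of_ne_zero h4)
            have : Nonempty S := ⟨s⟩
            choose! f hf using h2
            have h5 : A.card ≤ P.card := by
              apply Finset.card_le_card_of_injOn f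
              · intro w hw
                rw [Finset.mem_coe] at hw ⊢
                have h3 : w.1 ∉ P := (hNmem _ w.2).2
                exact hout w.1 h3 i _ (hf w hw)
              · intro w hw w' hw' hww
                rw [Finset.mem_coe] at hw hw'
                have k1 := (hf w hw).symm
                have k2 := (hf w' hw').symm
                rw [← hww] at k2
                exact Subtype.ext (dg_one_unique (hM.deg i _) k1 k2)
            omega
          have h2 := used_le hM P s (hout s hs)
          have h3 : A.card ≤ N'.card := by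
            have := Finset.card_le_univ A
            rwa [Fintype.card_coe] at this
          have h4 : N'.card + (nbP Γ P s).card ≤ dg Γ s := by
            unfold dg
            have e1 : ∑ w, ad Γ s w = (univ.filter fun w => 0 < ad Γ s w).card := by
              rw [Finset.card_filter]
              apply Finset.sum_congr rfl
              intro w _
              have := ad_le_one Γ s w
              split_ifs <;> omega
            rw [e1, ← Finset.card_union_of_disjoint]
            · apply Finset.card_le_card
              intro w hw
              rw [Finset.mem_filter]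
              refine ⟨Finset.mem_univ _, ?_⟩
              rcases Finset.mem_union.1 hw with h | h
              · rw [hN', Finset.mem_filter] at h
                exact ad_pos.2 h.2.1
              · rw [nbP, Finset.mem_filter] at h
                exact h.2
            · rw [Finset.disjoint_left]
              intro w h1 h2
              rw [hN', Finset.mem_filter] at h1
              rw [nbP, Finset.mem_filter] at h2
              exact h1.2.2 h2.1
          have h5 := Finset.card_le_card h1
          rw [Finset.card_compl, Fintype.card_fin] at h5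
          have h6 := hΔ s
          omega
    obtain ⟨f, hf1, hf2⟩ := (Finset.all_card_le_biUnion_card_iff_exists_injective t).1 hall
    let φ : S → Fin k := fun w => if h : w ∈ N' then f ⟨w, h⟩ else ⟨0, hk⟩
    have hφ : ∀ w (h : w ∈ N'), φ w = f ⟨w, h⟩ := fun w h => dif_pos h
    obtain ⟨M', hM', hcov'⟩ := add_star hM s N'
      (fun w hw => by
        rw [hN', Finset.mem_filter] at hw
        exact hw.2.1)
      (fun i w hw h => by
        rw [hN', Finset.mem_filter] at hw
        exact hw.2.2 (hout s hs i w h))
      φ
      (fun w hw w' hw' h => by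
        rw [hφ w hw, hφ w' hw'] at h
        exact congrArg Subtype.val (hf1 h))
      (fun w hw => by
        rw [hφ w hw]
        have := hf2 ⟨w, hw⟩
        simp only [t, Finset.mem_filter, Finset.mem_univ, true_and] at this
        exact this)
    refine ⟨M', hM', ?_⟩
    intro a b
    rw [hcov', hcov]
    simp only [hN', Finset.mem_filter, Finset.mem_univ, true_and, Finset.mem_insert]
    constructor
    · rintro (⟨h1, h2⟩ | ⟨h1, h2, h3⟩ | ⟨h1, h2, h3⟩)
      · exact ⟨h1, by tauto⟩
      · exact ⟨by rw [h1]; exact h2, Or.inl (Or.inl h1)⟩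
      · exact ⟨by rw [h1]; exact h2.symm, Or.inr (Or.inl h1)⟩
    · rintro ⟨h1, h2⟩
      by_cases h3 : a ∈ P ∨ b ∈ P
      · exact Or.inl ⟨h1, h3⟩
      · push Not at h3
        rcases h2 with (h2 | h2) | (h2 | h2)
        · exact Or.inr (Or.inl ⟨h2, by rw [← h2]; exact h1, h3.2⟩)
        · exact absurd h2 h3.1
        · exact Or.inr (Or.inr ⟨h2, by rw [← h2]; exact h1.symm, h3.1⟩)
        · exact absurd h2 h3.2

/-- number of colours present at a vertex -/
theorem used_card {Γ : SimpleGraph S} {k : ℕ} {M : Fin k → SimpleGraph S} (h : PC Γ k M) (v : S) :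
    (used M v).card = ∑ i, dg (M i) v := by
  unfold used
  rw [Finset.card_filter]
  apply Finset.sum_congr rfl
  intro i _
  have := h.deg i v
  split_ifs <;> omega

/-- **Colouring.** A graph of maximum degree at most `k`, in which at most `k / 3` vertices have
degree larger than `(k + 1) / 2`, has a proper edge-colouring with `k` colours. -/
theorem color_exists (Γ : SimpleGraph S) (k : ℕ) (hΔ : ∀ v, dg Γ v ≤ k)
    (hheavy : 3 * (univ.filter fun v => k + 1 < 2 * dg Γ v).card ≤ k) :
    ∃ M : Fin k → SimpleGraph S, PC Γ k M ∧ ∀ a b, Γ.Adj a b → ∃ i, (M i).Adj a b := by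
  classical
  set P := univ.filter fun v => k + 1 < 2 * dg Γ v with hP
  obtain ⟨M0, hM0, hcov0⟩ := stage_one Γ k hΔ P hheavy
  -- a maximal extension
  let 𝓜 : Set (Fin k → SimpleGraph S) := {M | PC Γ k M ∧
    ∀ a b, Γ.Adj a b → (a ∈ P ∨ b ∈ P) → ∃ i, (M i).Adj a b}
  have hne : 𝓜.Nonempty := ⟨M0, hM0, fun a b h1 h2 => (hcov0 a b).2 ⟨h1, h2⟩⟩
  obtain ⟨M, hM, hmax⟩ := Set.exists_max_image 𝓜 (fun M => ∑ i, ∑ v, dg (M i) v)
    (Set.toFinite _) hne
  refine ⟨M, hM.1, ?_⟩
  intro a b hab
  by_contra hcon
  push Not at hcon
  have ha : a ∉ P := fun h => (hM.2 a b hab (Or.inl h)).elim fun i hi => hcon i hi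
  have hb : b ∉ P := fun h => (hM.2 a b hab (Or.inr h)).elim fun i hi => hcon i hi
  have hlight : ∀ v, v ∉ P → 2 * dg Γ v ≤ k + 1 := by
    intro v hv
    rw [hP, Finset.mem_filter] at hv
    push Not at hv
    exact hv (Finset.mem_univ _)
  -- colours present at the ends
  have hu : ∀ x y, Γ.Adj x y → (∀ i, ¬ (M i).Adj x y) → (used M x).card + 1 ≤ dg Γ x := by
    intro x y hxy hxy2
    have h1 := used_le hM.1 (univ.erase y) x (by
      intro i w hw
      rw [Finset.mem_erase]
      refine ⟨?_, Finset.mem_univ _⟩
      intro h
      exact hxy2 i (h ▸ hw))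
    have h2 : (nbP Γ (univ.erase y) x).card + 1 ≤ dg Γ x := by
      unfold dg
      have e1 : ∑ w, ad Γ x w = (univ.filter fun w => 0 < ad Γ x w).card := by
        rw [Finset.card_filter]
        apply Finset.sum_congr rfl
        intro w _
        have := ad_le_one Γ x w
        split_ifs <;> omega
      rw [e1]
      have e2 : y ∉ nbP Γ (univ.erase y) x := by
        rw [nbP, Finset.mem_filter, Finset.mem_erase]
        tauto
      rw [← Finset.card_insert_of_notMem e2]
      apply Finset.card_le_card
      intro w hw
      rw [Finset.mem_filter]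
      refine ⟨Finset.mem_univ _, ?_⟩
      rcases Finset.mem_insert.1 hw with h | h
      · rw [h]; exact ad_pos.2 hxy
      · rw [nbP, Finset.mem_filter] at h
        exact h.2
    omega
  have h1 := hu a b hab hcon
  have h2 := hu b a hab.symm (fun i h => hcon i h.symm)
  have h3 := hlight a ha
  have h4 := hlight b hb
  obtain ⟨i, hi⟩ : ∃ i, i ∉ used M a ∪ used M b := by
    by_contra h
    push Not at h
    have h5 : (univ : Finset (Fin k)) ⊆ used M a ∪ used M b := fun i _ => h i
    have h6 := Finset.card_le_card h5
    rw [Finset.card_univ, Fintype.card_fin] at h6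
    have h7 := Finset.card_union_le (used M a) (used M b)
    omega
  rw [Finset.mem_union, used, used, Finset.mem_filter, Finset.mem_filter] at hi
  have hk : 0 < k := Fin.pos i
  obtain ⟨M', hM', hcov'⟩ := add_star hM.1 a {b}
    (fun w hw => by rw [Finset.mem_singleton] at hw; rw [hw]; exact hab)
    (fun i w hw => by rw [Finset.mem_singleton] at hw; rw [hw]; exact hcon i)
    (fun _ => i)
    (fun w hw w' hw' _ => by
      rw [Finset.mem_singleton] at hw hw'
      rw [hw, hw'])
    (fun w hw => by
      rw [Finset.mem_singleton] at hw
      rw [hw]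
      constructor
      · by_contra h
        exact hi (Or.inl ⟨Finset.mem_univ _, Nat.pos_of_ne_zero h⟩)
      · by_contra h
        exact hi (Or.inr ⟨Finset.mem_univ _, Nat.pos_of_ne_zero h⟩))
  have hM'in : M' ∈ 𝓜 := ⟨hM', fun x y h1 h2 => (hcov' x y).2 (Or.inl (hM.2 x y h1 h2))⟩
  have hle := hmax M' hM'in
  -- but `M'` covers more
  have hcount : ∀ (M : Fin k → SimpleGraph S), PC Γ k M →
      ∑ i, ∑ v, dg (M i) v = ∑ x, ∑ y, if ∃ i, (M i).Adj x y then 1 else 0 := by
    intro M hM
    rw [Finset.sum_comm]
    apply Finset.sum_congr rfl
    intro x _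
    unfold dg
    rw [Finset.sum_comm]
    apply Finset.sum_congr rfl
    intro y _
    by_cases h : ∃ i, (M i).Adj x y
    · rw [if_pos h]
      obtain ⟨i, hi⟩ := h
      rw [Finset.sum_eq_single i]
      · exact ad_eq_one.2 hi
      · intro j _ hj
        apply ad_eq_zero.2
        intro h
        exact hj (hM.dis j i x y h hi)
      · intro h
        exact absurd (Finset.mem_univ _) h
    · rw [if_neg h]
      push Not at h
      exact Finset.sum_eq_zero fun i _ => ad_eq_zero.2 (h i)
  have hle' : ∑ x, ∑ y, (if ∃ i, (M' i).Adj x y then 1 else 0) ≤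
      ∑ x, ∑ y, if ∃ i, (M i).Adj x y then 1 else 0 := by
    rw [← hcount M' hM', ← hcount M hM.1]
    exact hle
  have hlt : ∑ x, ∑ y, (if ∃ i, (M i).Adj x y then 1 else 0) <
      ∑ x, ∑ y, if ∃ i, (M' i).Adj x y then 1 else 0 := by
    apply Finset.sum_lt_sum
    · intro x _
      apply Finset.sum_le_sum
      intro y _
      by_cases h : ∃ i, (M i).Adj x y
      · rw [if_pos h, if_pos ((hcov' x y).2 (Or.inl h))]
      · rw [if_neg h]
        exact Nat.zero_le _
    · refine ⟨a, Finset.mem_univ _, ?_⟩
      apply Finset.sum_lt_sum
      · intro y _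
        by_cases h : ∃ i, (M i).Adj a y
        · rw [if_pos h, if_pos ((hcov' a y).2 (Or.inl h))]
        · rw [if_neg h]
          exact Nat.zero_le _
      · refine ⟨b, Finset.mem_univ _, ?_⟩
        rw [if_neg (by push Not; exact hcon), if_pos ((hcov' a b).2
          (Or.inr (Or.inl ⟨rfl, Finset.mem_singleton_self b⟩)))]
        exact Nat.zero_lt_one
  omega

end Pool.Agent.Helper37Ham
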