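import Pool.Agent.Helper37Ham.NB2
import Pool.Agent.X76.Det2

set_option autoImplicit false
set_option linter.unusedSectionVars false

/-!
Equalising the colour classes.
-/

namespace Pool.Agent.Helper37Ham

open Finset SimpleGraph

variable {S : Type} [Fintype S] [DecidableEq S]

theorem comp_bound (Q : SimpleGraph S) (c : Q.ConnectedComponent) (C : Finset S)
    (hC : ∀ v, v ∈ C ↔ v ∈ c.supp) : 2 * C.card ≤ ∑ v ∈ C, dg Q v + 2 := by
  classical
  have hconn : (Q.induce c.supp).Connected := c.connected_toSimpleGraph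
  have h1 := hconn.card_vert_le_card_edgeSet_add_one
  set K := Q.induce c.supp with hK
  have hfin : Fintype c.supp := Fintype.ofFinite _
  have h2 := K.sum_degrees_eq_twice_card_edges
  have hsub : ∀ f : S → ℕ, ∑ w ∈ C, f w = ∑ w : c.supp, f w.1 := fun f =>
    Finset.sum_subtype C hC f
  have e1 : Nat.card c.supp = C.card := by
    rw [Nat.card_eq_fintype_card, Finset.card_eq_sum_ones, hsub]
    simp
  have e2 : Nat.card K.edgeSet = K.edgeFinset.card := by
    rw [Nat.card_eq_fintype_card, ← SimpleGraph.edgeFinset_card]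
  have e3 : ∑ v, K.degree v = ∑ v ∈ C, dg Q v := by
    have h3 : ∀ v : c.supp, K.degree v = dg Q v.1 := by
      intro v
      rw [dg_eq_degree]
      unfold dg
      have h4 : ∀ w, Q.Adj v.1 w → w ∈ c.supp := by
        intro w hw
        have h5 : Q.connectedComponentMk v.1 = c := v.2
        change Q.connectedComponentMk w = c
        rw [← h5]
        exact SimpleGraph.ConnectedComponent.sound hw.symm.reachable
      have h5 : ∑ w, ad Q v.1 w = ∑ w ∈ C, ad Q v.1 w := by
        symm
        apply Finset.sum_subset (Finset.subset_univ _)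
        intro w _ hw
        apply ad_eq_zero.2
        intro h
        exact hw ((hC w).2 (h4 w h))
      rw [h5, hsub]
      rfl
    rw [Finset.sum_congr rfl fun v _ => h3 v, hsub]
  rw [← e3, h2, ← e1]
  omega

/-- **Kempe.** -/
theorem kempe (M N : SimpleGraph S) (hM : ∀ v, dg M v ≤ 1) (hN : ∀ v, dg N v ≤ 1)
    (hMN : ∀ a b, M.Adj a b → ¬ N.Adj a b) (hlt : ∑ v, dg N v < ∑ v, dg M v) :
    ∃ C : Finset S, (∀ a b, (M.Adj a b ∨ N.Adj a b) → (a ∈ C ↔ b ∈ C)) ∧
      ∑ v ∈ C, dg M v = ∑ v ∈ C, dg N v + 2 := by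
  classical
  set Q := M ⊔ N with hQ
  have hdgQ : ∀ v, dg Q v = dg M v + dg N v := by
    intro v
    unfold dg
    rw [← Finset.sum_add_distrib]
    apply Finset.sum_congr rfl
    intro w _
    by_cases h1 : M.Adj v w
    · have h2 : ¬ N.Adj v w := hMN v w h1
      rw [ad_eq_one.2 (show Q.Adj v w from Or.inl h1), ad_eq_one.2 h1, ad_eq_zero.2 h2]
    · by_cases h2 : N.Adj v w
      · rw [ad_eq_one.2 (show Q.Adj v w from Or.inr h2), ad_eq_zero.2 h1, ad_eq_one.2 h2]
      · have h3 : ¬ Q.Adj v w := fun h => h.elim h1 h2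
        rw [ad_eq_zero.2 h1, ad_eq_zero.2 h2, ad_eq_zero.2 h3]
  have hfin : Fintype Q.ConnectedComponent := Fintype.ofFinite _
  have hfM := Finset.sum_fiberwise (univ : Finset S) (fun v => Q.connectedComponentMk v)
    (fun v => dg M v)
  have hfN := Finset.sum_fiberwise (univ : Finset S) (fun v => Q.connectedComponentMk v)
    (fun v => dg N v)
  rw [← hfM, ← hfN] at hlt
  obtain ⟨c, _, hc⟩ := Finset.exists_lt_of_sum_lt hlt
  set C : Finset S := univ.filter fun v => Q.connectedComponentMk v = c with hC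
  have hclosed : ∀ a b, Q.Adj a b → (a ∈ C ↔ b ∈ C) := by
    intro a b hab
    rw [hC, Finset.mem_filter, Finset.mem_filter]
    have : Q.connectedComponentMk a = Q.connectedComponentMk b :=
      SimpleGraph.ConnectedComponent.sound hab.reachable
    rw [this]
    simp
  have heven : ∀ F : SimpleGraph S, F ≤ Q → Even (∑ v ∈ C, dg F v) := by
    intro F hF
    have h1 : ∑ v ∈ C, dg F v = ∑ v ∈ C, ∑ w ∈ C, ad F v w := by
      apply Finset.sum_congr rfl
      intro v hv
      unfold dg
      symm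
      apply Finset.sum_subset (Finset.subset_univ _)
      intro w _ hw
      apply ad_eq_zero.2
      intro h
      exact hw ((hclosed v w (hF h)).1 hv)
    rw [h1]
    exact Pool.Agent.X76.Det.even_sum_symm (ad F) (ad_symm F)
      (fun x => by rw [ad_self]; simp) C
  have hMQ : M ≤ Q := le_sup_left
  have hNQ : N ≤ Q := le_sup_right
  have p1 := heven M hMQ
  have p2 := heven N hNQ
  have hb := comp_bound Q c C (by
    intro v
    rw [hC, Finset.mem_filter]
    change _ ↔ Q.connectedComponentMk v = c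
    simp)
  rw [Finset.sum_congr rfl fun v _ => hdgQ v, Finset.sum_add_distrib] at hb
  have hle : ∑ v ∈ C, dg M v ≤ C.card := by
    rw [Finset.card_eq_sum_ones]
    exact Finset.sum_le_sum fun v _ => hM v
  refine ⟨C, fun a b h => hclosed a b (h.elim Or.inl Or.inr), ?_⟩
  obtain ⟨x, hx⟩ := p1
  obtain ⟨y, hy⟩ := p2
  omega

/-- **Equalisation.** -/
theorem equalize (Γ : SimpleGraph S) (k u : ℕ) (M : Fin k → SimpleGraph S) (hM : PC Γ k M)
    (hcov : ∀ a b, Γ.Adj a b → ∃ i, (M i).Adj a b) (htot : ∑ i, ∑ v, dg (M i) v = k * (2 * u)) :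
    ∃ M' : Fin k → SimpleGraph S, PC Γ k M' ∧ (∀ a b, Γ.Adj a b → ∃ i, (M' i).Adj a b) ∧
      ∀ i, ∑ v, dg (M' i) v = 2 * u := by
  classical
  let 𝓜 : Set (Fin k → SimpleGraph S) := {M | PC Γ k M ∧
    (∀ a b, Γ.Adj a b → ∃ i, (M i).Adj a b) ∧ ∑ i, ∑ v, dg (M i) v = k * (2 * u)}
  obtain ⟨M, hM, hmin⟩ := Set.exists_min_image 𝓜 (fun M => ∑ i, (∑ v, dg (M i) v) ^ 2)
    (Set.toFinite _) ⟨M, hM, hcov, htot⟩
  refine ⟨M, hM.1, hM.2.1, ?_⟩
  by_contra hcon
  push Not at hcon
  obtain ⟨i0, hi0⟩ := hcon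
  -- a large class and a small class
  obtain ⟨i, hi⟩ : ∃ i, 2 * u < ∑ v, dg (M i) v := by
    by_contra h
    push Not at h
    have h1 : ∑ i, ∑ v, dg (M i) v < ∑ _i : Fin k, 2 * u :=
      Finset.sum_lt_sum (fun i _ => h i) ⟨i0, Finset.mem_univ _, lt_of_le_of_ne (h i0) hi0⟩
    rw [hM.2.2, Finset.sum_const, Finset.card_univ, Fintype.card_fin, smul_eq_mul] at h1
    omega
  obtain ⟨j, hj⟩ : ∃ j, ∑ v, dg (M j) v < 2 * u := by
    by_contra h
    push Not at h
    have h1 : ∑ _i : Fin k, 2 * u < ∑ i, ∑ v, dg (M i) v :=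
      Finset.sum_lt_sum (fun i _ => h i) ⟨i0, Finset.mem_univ _,
        lt_of_le_of_ne (h i0) (Ne.symm hi0)⟩
    rw [hM.2.2, Finset.sum_const, Finset.card_univ, Fintype.card_fin, smul_eq_mul] at h1
    omega
  have heven : ∀ l, Even (∑ v, dg (M l) v) := fun l =>
    Pool.Agent.X76.Det.even_sum_symm (ad (M l)) (ad_symm (M l))
      (fun x => by rw [ad_self]; simp) univ
  have hij : i ≠ j := by
    rintro rfl
    omega
  obtain ⟨C, hC1, hC2⟩ := kempe (M i) (M j) (hM.1.deg i) (hM.1.deg j)
    (fun a b h1 h2 => hij (hM.1.dis i j a b h1 h2)) (by omega)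
  -- the swapped classes
  let M' : Fin k → SimpleGraph S := fun l =>
    { Adj := fun a b => if a ∈ C then (M (Equiv.swap i j l)).Adj a b else (M l).Adj a b
      symm := ⟨fun a b hab => by
        have hsw : ∀ l, (M (Equiv.swap i j l)).Adj a b → ¬ (a ∈ C ↔ b ∈ C) →
            Equiv.swap i j l = l := by
          intro l h1 h2
          by_contra h3
          rcases Equiv.swap_apply_ne_self_iff.1 h3 with ⟨_, h4 | h4⟩
          · rw [h4, Equiv.swap_apply_left] at h1
            exact h2 (hC1 a b (Or.inr h1))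
          · rw [h4, Equiv.swap_apply_right] at h1
            exact h2 (hC1 a b (Or.inl h1))
        have hsw2 : ∀ l, (M l).Adj a b → ¬ (a ∈ C ↔ b ∈ C) → Equiv.swap i j l = l := by
          intro l h1 h2
          by_contra h3
          rcases Equiv.swap_apply_ne_self_iff.1 h3 with ⟨_, h4 | h4⟩
          · rw [h4] at h1
            exact h2 (hC1 a b (Or.inl h1))
          · rw [h4] at h1
            exact h2 (hC1 a b (Or.inr h1))
        by_cases ha : a ∈ C <;> by_cases hb : b ∈ C
        · rw [if_pos ha] at hab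
          rw [if_pos hb]
          exact hab.symm
        · rw [if_pos ha] at hab
          rw [if_neg hb]
          have h1 := hsw l hab (by tauto)
          rw [h1] at hab
          exact hab.symm
        · rw [if_neg ha] at hab
          rw [if_pos hb]
          have h1 := hsw2 l hab (by tauto)
          rw [h1]
          exact hab.symm
        · rw [if_neg ha] at hab
          rw [if_neg hb]
          exact hab.symm⟩
      loopless := ⟨fun a ha => by
        split_ifs at ha
        · exact (M _).loopless.irrefl a ha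
        · exact (M _).loopless.irrefl a ha⟩ }
  have hdg : ∀ l v, dg (M' l) v = if v ∈ C then dg (M (Equiv.swap i j l)) v
      else dg (M l) v := by
    intro l v
    by_cases hv : v ∈ C
    · rw [if_pos hv]
      unfold dg
      apply Finset.sum_congr rfl
      intro w _
      have : (M' l).Adj v w ↔ (M (Equiv.swap i j l)).Adj v w := by
        change (if v ∈ C then _ else _) ↔ _
        rw [if_pos hv]
      unfold ad
      simp only [this]
    · rw [if_neg hv]
      unfold dg
      apply Finset.sum_congr rfl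
      intro w _
      have : (M' l).Adj v w ↔ (M l).Adj v w := by
        change (if v ∈ C then _ else _) ↔ _
        rw [if_neg hv]
      unfold ad
      simp only [this]
  have hPC : PC Γ k M' := by
    refine ⟨?_, ?_, ?_⟩
    · intro l a b hab
      change (if a ∈ C then _ else _) at hab
      split_ifs at hab
      · exact hM.1.le _ hab
      · exact hM.1.le _ hab
    · intro l v
      rw [hdg]
      split_ifs
      · exact hM.1.deg _ v
      · exact hM.1.deg _ v
    · intro l l' a b h1 h2
      change (if a ∈ C then _ else _) at h1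
      change (if a ∈ C then _ else _) at h2
      by_cases ha : a ∈ C
      · rw [if_pos ha] at h1 h2
        exact (Equiv.swap i j).injective (hM.1.dis _ _ a b h1 h2)
      · rw [if_neg ha] at h1 h2
        exact hM.1.dis _ _ a b h1 h2
  have hcov' : ∀ a b, Γ.Adj a b → ∃ l, (M' l).Adj a b := by
    intro a b hab
    obtain ⟨l, hl⟩ := hM.2.1 a b hab
    by_cases ha : a ∈ C
    · refine ⟨Equiv.swap i j l, ?_⟩
      change (if a ∈ C then _ else _)
      rw [if_pos ha, Equiv.swap_apply_self]
      exact hl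
    · refine ⟨l, ?_⟩
      change (if a ∈ C then _ else _)
      rw [if_neg ha]
      exact hl
  -- sizes of the classes
  have hsum : ∀ l, ∑ v, dg (M' l) v + ∑ v ∈ C, dg (M l) v =
      ∑ v, dg (M l) v + ∑ v ∈ C, dg (M (Equiv.swap i j l)) v := by
    intro l
    rw [Finset.sum_congr rfl fun v _ => hdg l v, Finset.sum_ite]
    have h1 : (univ.filter fun v => v ∈ C) = C := by ext v; simp
    have h2 : (univ.filter fun v => v ∉ C) = Cᶜ := by ext v; simp
    rw [h1, h2]
    have h3 := Finset.sum_add_sum_compl C (fun v => dg (M l) v)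
    omega
  have hi2 : ∑ v, dg (M' i) v + 2 = ∑ v, dg (M i) v := by
    have := hsum i
    rw [Equiv.swap_apply_left] at this
    omega
  have hj2 : ∑ v, dg (M' j) v = ∑ v, dg (M j) v + 2 := by
    have := hsum j
    rw [Equiv.swap_apply_right] at this
    omega
  have hl2 : ∀ l, l ≠ i → l ≠ j → ∑ v, dg (M' l) v = ∑ v, dg (M l) v := by
    intro l h1 h2
    have := hsum l
    rw [Equiv.swap_apply_of_ne_of_ne h1 h2] at this
    omega
  have hsplit : ∀ f : Fin k → ℕ, ∑ l, f l = f i + f j + ∑ l ∈ (univ.erase i).erase j, f l := by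
    intro f
    rw [← Finset.add_sum_erase univ f (Finset.mem_univ i),
      ← Finset.add_sum_erase (univ.erase i) f (Finset.mem_erase.2 ⟨hij.symm, Finset.mem_univ j⟩)]
    ring
  have hrest : ∀ g : ℕ → ℕ, ∑ l ∈ (univ.erase i).erase j, g (∑ v, dg (M' l) v) =
      ∑ l ∈ (univ.erase i).erase j, g (∑ v, dg (M l) v) := by
    intro g
    apply Finset.sum_congr rfl
    intro l hl
    rw [Finset.mem_erase, Finset.mem_erase] at hl
    rw [hl2 l hl.2.1 hl.1]
  have hin : M' ∈ 𝓜 := by
    refine ⟨hPC, hcov', ?_⟩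
    rw [← hM.2.2, hsplit, hsplit (fun l => ∑ v, dg (M l) v)]
    have := hrest id
    simp only [id] at this
    omega
  have hle := hmin M' hin
  change ∑ i, (∑ v, dg (M i) v) ^ 2 ≤ ∑ i, (∑ v, dg (M' i) v) ^ 2 at hle
  rw [hsplit, hsplit (fun l => (∑ v, dg (M' l) v) ^ 2)] at hle
  have h5 := hrest (fun x => x ^ 2)
  obtain ⟨x, hx⟩ := heven i
  obtain ⟨y, hy⟩ := heven j
  have h6 : (∑ v, dg (M i) v) ^ 2 + (∑ v, dg (M j) v) ^ 2 ≤
      (∑ v, dg (M' i) v) ^ 2 + (∑ v, dg (M' j) v) ^ 2 := by omega
  set A := ∑ v, dg (M i) v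
  set B := ∑ v, dg (M j) v
  set A' := ∑ v, dg (M' i) v
  rw [hj2, ← hi2] at h6
  have h7 : B + 2 ≤ A' := by omega
  nlinarith

end Pool.Agent.Helper37Ham
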