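import Pool.Agent.Helper37Ham.NB3

set_option autoImplicit false
set_option linter.unusedSectionVars false

/-!
Orderings, slots, and decompositions into linear forests.
-/

namespace Pool.Agent.Helper37Ham

open Finset SimpleGraph

variable {V : Type} [Fintype V] [DecidableEq V]

/-- a vertex of degree larger than `k` -/
def hub (F : SimpleGraph V) (k : ℕ) (v : V) : Prop := k < dg F v

open Classical in
theorem rank_hubs (F : SimpleGraph V) (k : ℕ) (hdeg : ∀ v, dg F v ≤ 2 * k)
    (hhub : (univ.filter fun v => hub F k v).card ≤ k) :
    ∃ rk : V → ℕ, (∀ v w, F.Adj v w → ¬ (hub F k v ∧ hub F k w) → rk v ≠ rk w) ∧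
      (∀ v, (univ.filter fun w => F.Adj v w ∧ ¬ (hub F k v ∧ hub F k w) ∧ rk w < rk v).card ≤ k) ∧
      (∀ v, (univ.filter fun w => F.Adj v w ∧ ((hub F k v ∧ hub F k w) ∨
        (¬ (hub F k v ∧ hub F k w) ∧ rk v < rk w))).card ≤ k) := by
  let e := Fintype.equivFin V
  let idx : V → ℕ := fun v => (e v : ℕ)
  have hidx : ∀ v w, idx v = idx w → v = w := by
    intro v w h
    exact e.injective (Fin.ext h)
  have hlt : ∀ v, idx v < Fintype.card V := fun v => (e v).2
  -- the number of earlier light neighbours
  let g : V → ℕ → ℕ := fun h t => (univ.filter fun w => F.Adj h w ∧ ¬ hub F k w ∧ idx w < t).card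
  have hg0 : ∀ h, g h 0 = 0 := by
    intro h
    simp only [g]
    rw [Finset.card_eq_zero]
    apply Finset.filter_false_of_mem
    rintro w _ ⟨_, _, h3⟩
    omega
  have hg1 : ∀ h t, g h (t + 1) ≤ g h t + 1 := by
    intro h t
    simp only [g]
    by_cases hex : ∃ w, idx w = t
    · obtain ⟨w, hw⟩ := hex
      have h1 : (univ.filter fun w => F.Adj h w ∧ ¬ hub F k w ∧ idx w < t + 1) ⊆
          insert w (univ.filter fun w => F.Adj h w ∧ ¬ hub F k w ∧ idx w < t) := by
        intro x hx
        rw [Finset.mem_filter] at hx
        rw [Finset.mem_insert, Finset.mem_filter]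
        by_cases h2 : idx x = t
        · exact Or.inl (hidx _ _ (h2.trans hw.symm))
        · exact Or.inr ⟨Finset.mem_univ _, hx.2.1, hx.2.2.1, by omega⟩
      exact (Finset.card_le_card h1).trans (Finset.card_insert_le _ _)
    · have h1 : (univ.filter fun w => F.Adj h w ∧ ¬ hub F k w ∧ idx w < t + 1) ⊆
          (univ.filter fun w => F.Adj h w ∧ ¬ hub F k w ∧ idx w < t) := by
        intro x hx
        rw [Finset.mem_filter] at hx ⊢
        refine ⟨Finset.mem_univ _, hx.2.1, hx.2.2.1, ?_⟩
        have h2 : idx x ≠ t := fun h2 => hex ⟨x, h2⟩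
        omega
      exact (Finset.card_le_card h1).trans (Nat.le_succ _)
  have hpos : ∀ h, ∃ t, g h t = min (g h (Fintype.card V)) k := fun h =>
    ivt (g h) (hg0 h) (hg1 h) (Fintype.card V) _ (min_le_left _ _)
  choose pos hpos using hpos
  let rk : V → ℕ := fun v => if hub F k v then 2 * pos v else 2 * idx v + 1
  have hrk1 : ∀ v, hub F k v → rk v = 2 * pos v := fun v h => if_pos h
  have hrk2 : ∀ v, ¬ hub F k v → rk v = 2 * idx v + 1 := fun v h => if_neg h
  -- the degree, split
  have hsplit : ∀ v, dg F v = (univ.filter fun w => F.Adj v w).card := by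
    intro v
    unfold dg ad
    rw [← Finset.card_filter]
  refine ⟨rk, ?_, ?_, ?_⟩
  · intro v w hvw h
    by_cases hv : hub F k v
    · by_cases hw : hub F k w
      · exact absurd ⟨hv, hw⟩ h
      · rw [hrk1 v hv, hrk2 w hw]
        omega
    · by_cases hw : hub F k w
      · rw [hrk2 v hv, hrk1 w hw]
        omega
      · rw [hrk2 v hv, hrk2 w hw]
        intro h2
        have : v = w := hidx _ _ (by omega)
        exact hvw.ne this
  · intro v
    by_cases hv : hub F k v
    · have h1 : (univ.filter fun w => F.Adj v w ∧ ¬ (hub F k v ∧ hub F k w) ∧ rk w < rk v) ⊆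
          (univ.filter fun w => F.Adj v w ∧ ¬ hub F k w ∧ idx w < pos v) := by
        intro w hw
        rw [Finset.mem_filter] at hw ⊢
        obtain ⟨_, h2, h3, h4⟩ := hw
        have h5 : ¬ hub F k w := fun h => h3 ⟨hv, h⟩
        rw [hrk1 v hv, hrk2 w h5] at h4
        exact ⟨Finset.mem_univ _, h2, h5, by omega⟩
      refine (Finset.card_le_card h1).trans ?_
      have : g v (pos v) ≤ k := by
        rw [hpos]
        exact min_le_right _ _
      exact this
    · have h1 : (univ.filter fun w => F.Adj v w ∧ ¬ (hub F k v ∧ hub F k w) ∧ rk w < rk v) ⊆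
          (univ.filter fun w => F.Adj v w) := by
        intro w hw
        rw [Finset.mem_filter] at hw ⊢
        exact ⟨hw.1, hw.2.1⟩
      have h2 := Finset.card_le_card h1
      rw [← hsplit v] at h2
      unfold hub at hv
      omega
  · intro v
    by_cases hv : hub F k v
    · -- hub neighbours and later light neighbours
      set A := univ.filter fun w => F.Adj v w ∧ hub F k w with hA
      set B := univ.filter fun w => F.Adj v w ∧ ¬ hub F k w ∧ ¬ idx w < pos v with hB
      have h1 : (univ.filter fun w => F.Adj v w ∧ ((hub F k v ∧ hub F k w) ∨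
          (¬ (hub F k v ∧ hub F k w) ∧ rk v < rk w))) ⊆ A ∪ B := by
        intro w hw
        rw [Finset.mem_filter] at hw
        rw [Finset.mem_union, hA, hB, Finset.mem_filter, Finset.mem_filter]
        obtain ⟨_, h2, h3⟩ := hw
        by_cases h4 : hub F k w
        · exact Or.inl ⟨Finset.mem_univ _, h2, h4⟩
        · right
          rcases h3 with h3 | h3
          · exact absurd h3.2 h4
          · have h5 := h3.2
            rw [hrk1 v hv, hrk2 w h4] at h5
            exact ⟨Finset.mem_univ _, h2, h4, by omega⟩
      have h2 := (Finset.card_le_card h1).trans (Finset.card_union_le A B)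
      have h3 : A.card ≤ k := by
        refine le_trans (Finset.card_le_card ?_) hhub
        intro w hw
        rw [hA, Finset.mem_filter] at hw
        rw [Finset.mem_filter]
        exact ⟨hw.1, hw.2.2⟩
      have h4 : A.card + (B.card + g v (pos v)) = dg F v := by
        rw [hsplit v]
        have e1 := Finset.card_filter_add_card_filter_not
          (s := univ.filter fun w => F.Adj v w) (fun w => hub F k w)
        rw [Finset.filter_filter, Finset.filter_filter] at e1
        have e2 := Finset.card_filter_add_card_filter_not
          (s := univ.filter fun w => F.Adj v w ∧ ¬ hub F k w) (fun w => idx w < pos v)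
        rw [Finset.filter_filter, Finset.filter_filter] at e2
        simp only [and_assoc] at e2
        simp only [g, hA, hB]
        omega
      have h5 : B.card + g v (pos v) = g v (Fintype.card V) := by
        have e2 := Finset.card_filter_add_card_filter_not
          (s := univ.filter fun w => F.Adj v w ∧ ¬ hub F k w) (fun w => idx w < pos v)
        rw [Finset.filter_filter, Finset.filter_filter] at e2
        simp only [and_assoc] at e2
        have e3 : (univ.filter fun w => F.Adj v w ∧ ¬ hub F k w ∧ idx w < Fintype.card V) =
            univ.filter fun w => F.Adj v w ∧ ¬ hub F k w := by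
          apply Finset.filter_congr
          intro w _
          constructor
          · rintro ⟨a, b, _⟩
            exact ⟨a, b⟩
          · rintro ⟨a, b⟩
            exact ⟨a, b, hlt w⟩
        simp only [g, hB]
        rw [e3]
        omega
      have h6 := hdeg v
      have h7 := hpos v
      rcases Nat.le_total (g v (Fintype.card V)) k with h8 | h8
      · rw [min_eq_left h8] at h7
        omega
      · rw [min_eq_right h8] at h7
        omega
    · have h1 : (univ.filter fun w => F.Adj v w ∧ ((hub F k v ∧ hub F k w) ∨
          (¬ (hub F k v ∧ hub F k w) ∧ rk v < rk w))) ⊆ (univ.filter fun w => F.Adj v w) := by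
        intro w hw
        rw [Finset.mem_filter] at hw ⊢
        exact ⟨hw.1, hw.2.1⟩
      have h2 := Finset.card_le_card h1
      rw [← hsplit v] at h2
      unfold hub at hv
      omega

end Pool.Agent.Helper37Ham
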