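import Pool.Agent.Helper37Ham.NB4

set_option autoImplicit false
set_option linter.unusedSectionVars false

/-!
Decomposition into linear forests of equal size.
-/

namespace Pool.Agent.Helper37Ham

open Finset SimpleGraph

variable {V : Type} [Fintype V] [DecidableEq V]

/-- the rule that assigns the edges to slots -/
def slt (F : SimpleGraph V) (k : ℕ) (rk : V → ℕ) (v w : V) (b c : Bool) : Prop :=
  ((hub F k v ∧ hub F k w) ∧ b = true ∧ c = true) ∨
  (¬ (hub F k v ∧ hub F k w) ∧ rk v < rk w ∧ b = true ∧ c = false) ∨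
  (¬ (hub F k v ∧ hub F k w) ∧ rk w < rk v ∧ b = false ∧ c = true)

theorem slt_symm (F : SimpleGraph V) (k : ℕ) (rk : V → ℕ) (v w : V) (b c : Bool)
    (h : slt F k rk v w b c) : slt F k rk w v c b := by
  unfold slt at h ⊢
  tauto

theorem slt_unique (F : SimpleGraph V) (k : ℕ) (rk : V → ℕ) (v w : V) (b c b' c' : Bool)
    (h : slt F k rk v w b c) (h' : slt F k rk v w b' c') : b = b' ∧ c = c' := by
  unfold slt at h h'
  rcases h with ⟨h1, h2, h3⟩ | ⟨h1, h2, h3, h4⟩ | ⟨h1, h2, h3, h4⟩ <;>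
    rcases h' with ⟨k1, k2, k3⟩ | ⟨k1, k2, k3, k4⟩ | ⟨k1, k2, k3, k4⟩
  · exact ⟨h2.trans k2.symm, h3.trans k3.symm⟩
  · exact absurd h1 k1
  · exact absurd h1 k1
  · exact absurd k1 h1
  · exact ⟨h3.trans k3.symm, h4.trans k4.symm⟩
  · omega
  · exact absurd k1 h1
  · omega
  · exact ⟨h3.trans k3.symm, h4.trans k4.symm⟩

/-- the slot graph -/
def sltG (F : SimpleGraph V) (k : ℕ) (rk : V → ℕ) : SimpleGraph (V × Bool) where
  Adj p q := F.Adj p.1 q.1 ∧ slt F k rk p.1 q.1 p.2 q.2
  symm := ⟨fun p q h => ⟨h.1.symm, slt_symm F k rk _ _ _ _ h.2⟩⟩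
  loopless := ⟨fun p h => F.loopless.irrefl p.1 h.1⟩

theorem sum_slots (f : V × Bool → ℕ) : ∑ s, f s = ∑ v, (f (v, true) + f (v, false)) := by
  rw [Fintype.sum_prod_type]
  exact Finset.sum_congr rfl fun v _ => Fintype.sum_bool _

open Classical in
theorem slot_true (F : SimpleGraph V) (k : ℕ) (rk : V → ℕ) (v : V) :
    dg (sltG F k rk) (v, true) = (univ.filter fun w => F.Adj v w ∧ ((hub F k v ∧ hub F k w) ∨
        (¬ (hub F k v ∧ hub F k w) ∧ rk v < rk w))).card := by
  unfold dg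
  rw [sum_slots, Finset.card_filter]
  apply Finset.sum_congr rfl
  intro w _
  unfold ad
  have e1 : (sltG F k rk).Adj (v, true) (w, true) ↔ F.Adj v w ∧ (hub F k v ∧ hub F k w) := by
    simp [sltG, slt]
  have e2 : (sltG F k rk).Adj (v, true) (w, false) ↔
      F.Adj v w ∧ (¬ (hub F k v ∧ hub F k w) ∧ rk v < rk w) := by
    simp [sltG, slt]
  simp only [e1, e2]
  by_cases h1 : F.Adj v w <;> by_cases h2 : (hub F k v ∧ hub F k w) <;>
    by_cases h3 : rk v < rk w <;> simp [h1, h2, h3]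

open Classical in
theorem slot_false (F : SimpleGraph V) (k : ℕ) (rk : V → ℕ) (v : V) :
    dg (sltG F k rk) (v, false) =
      (univ.filter fun w => F.Adj v w ∧ ¬ (hub F k v ∧ hub F k w) ∧ rk w < rk v).card := by
  unfold dg
  rw [sum_slots, Finset.card_filter]
  apply Finset.sum_congr rfl
  intro w _
  unfold ad
  have e1 : (sltG F k rk).Adj (v, false) (w, true) ↔
      F.Adj v w ∧ ¬ (hub F k v ∧ hub F k w) ∧ rk w < rk v := by
    simp [sltG, slt]
  have e2 : ¬ (sltG F k rk).Adj (v, false) (w, false) := by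
    simp [sltG, slt]
  simp only [e1, e2, if_false, add_zero]

/-- the projection of a graph on the slots -/
def prj (M : SimpleGraph (V × Bool)) (F : SimpleGraph V)
    (h : ∀ p q, M.Adj p q → F.Adj p.1 q.1) : SimpleGraph V where
  Adj v w := ∃ b c, M.Adj (v, b) (w, c)
  symm := ⟨fun _ _ ⟨b, c, h1⟩ => ⟨c, b, h1.symm⟩⟩
  loopless := ⟨fun v ⟨_, _, h1⟩ => F.loopless.irrefl v (h _ _ h1)⟩

theorem prj_dg (F : SimpleGraph V) (k : ℕ) (rk : V → ℕ) (M : SimpleGraph (V × Bool))
    (hM : M ≤ sltG F k rk) (h : ∀ p q, M.Adj p q → F.Adj p.1 q.1) (v : V) :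
    dg (prj M F h) v = dg M (v, true) + dg M (v, false) := by
  unfold dg
  rw [sum_slots, sum_slots, ← Finset.sum_add_distrib]
  apply Finset.sum_congr rfl
  intro w _
  by_cases hvw : (prj M F h).Adj v w
  · rw [ad_eq_one.2 hvw]
    obtain ⟨b, c, hbc⟩ := hvw
    have hothers : ∀ b' c', M.Adj (v, b') (w, c') → b' = b ∧ c' = c := fun b' c' h' =>
      slt_unique F k rk v w b' c' b c (hM h').2 (hM hbc).2
    cases b <;> cases c
    · rw [ad_eq_one.2 hbc, ad_eq_zero.2 (fun h' => absurd (hothers _ _ h').1 (by decide)),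
        ad_eq_zero.2 (fun h' => absurd (hothers _ _ h').1 (by decide)),
        ad_eq_zero.2 (fun h' => absurd (hothers _ _ h').2 (by decide))]
    · rw [ad_eq_one.2 hbc, ad_eq_zero.2 (fun h' => absurd (hothers _ _ h').1 (by decide)),
        ad_eq_zero.2 (fun h' => absurd (hothers _ _ h').1 (by decide)),
        ad_eq_zero.2 (fun h' => absurd (hothers _ _ h').2 (by decide))]
    · rw [ad_eq_one.2 hbc, ad_eq_zero.2 (fun h' => absurd (hothers _ _ h').2 (by decide)),
        ad_eq_zero.2 (fun h' => absurd (hothers _ _ h').1 (by decide)),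
        ad_eq_zero.2 (fun h' => absurd (hothers _ _ h').1 (by decide))]
    · rw [ad_eq_one.2 hbc, ad_eq_zero.2 (fun h' => absurd (hothers _ _ h').2 (by decide)),
        ad_eq_zero.2 (fun h' => absurd (hothers _ _ h').1 (by decide)),
        ad_eq_zero.2 (fun h' => absurd (hothers _ _ h').1 (by decide))]
  · rw [ad_eq_zero.2 hvw, ad_eq_zero.2 (fun h' => hvw ⟨_, _, h'⟩),
      ad_eq_zero.2 (fun h' => hvw ⟨_, _, h'⟩), ad_eq_zero.2 (fun h' => hvw ⟨_, _, h'⟩),
      ad_eq_zero.2 (fun h' => hvw ⟨_, _, h'⟩)]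

/-- the projection of a matching is a forest -/
theorem prj_acyclic (F : SimpleGraph V) (k : ℕ) (rk : V → ℕ) (M : SimpleGraph (V × Bool))
    (hM : M ≤ sltG F k rk) (hdeg : ∀ s, dg M s ≤ 1) (h : ∀ p q, M.Adj p q → F.Adj p.1 q.1) :
    (prj M F h).IsAcyclic := by
  intro a p hp
  -- a vertex of the cycle with smallest rank
  obtain ⟨v, hv, hmin⟩ := Finset.exists_min_image p.support.toFinset rk
    ⟨a, List.mem_toFinset.2 p.start_mem_support⟩
  rw [List.mem_toFinset] at hv
  have h2 := hp.ncard_neighborSet_toSubgraph_eq_two hv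
  obtain ⟨x, y, hxy, hset⟩ := Set.ncard_eq_two.1 h2
  have hx : p.toSubgraph.Adj v x := by
    have : x ∈ p.toSubgraph.neighborSet v := by rw [hset]; simp
    exact this
  have hy : p.toSubgraph.Adj v y := by
    have : y ∈ p.toSubgraph.neighborSet v := by rw [hset]; simp
    exact this
  have hx1 : x ∈ p.support := by
    rw [← SimpleGraph.Walk.mem_verts_toSubgraph]
    exact hx.snd_mem
  have hy1 : y ∈ p.support := by
    rw [← SimpleGraph.Walk.mem_verts_toSubgraph]
    exact hy.snd_mem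
  have hx2 : (prj M F h).Adj v x := hx.adj_sub
  have hy2 : (prj M F h).Adj v y := hy.adj_sub
  obtain ⟨b, c, hbc⟩ := hx2
  obtain ⟨b', c', hbc'⟩ := hy2
  -- an edge at the lower slot leads to a vertex of smaller rank
  have hlow : ∀ z c, M.Adj (v, false) (z, c) → rk z < rk v := by
    intro z c hz
    have h3 := (hM hz).2
    unfold slt at h3
    rcases h3 with ⟨_, h4, _⟩ | ⟨_, _, h4, _⟩ | ⟨_, h4, _, _⟩
    · exact absurd h4 Bool.false_ne_true
    · exact absurd h4 Bool.false_ne_true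
    · exact h4
  cases b with
  | false =>
    have h3 := hlow x c hbc
    have h4 := hmin x (List.mem_toFinset.2 hx1)
    omega
  | true =>
    cases b' with
    | false =>
      have h3 := hlow y c' hbc'
      have h4 := hmin y (List.mem_toFinset.2 hy1)
      omega
    | true =>
      have h3 : (x, c) = (y, c') := by
        apply dg_one_unique (hdeg (v, true)) hbc hbc'
      exact hxy (congrArg Prod.fst h3)

/-- **Linear forests.** -/
theorem forests (F : SimpleGraph V) (k u : ℕ) (hdeg : ∀ v, dg F v ≤ 2 * k)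
    (htot : ∑ v, dg F v = 2 * (k * u)) (hu : 12 * u ≤ k + 3) :
    ∃ L : Fin k → SimpleGraph V, (∀ i, L i ≤ F) ∧
      (∀ i j a b, (L i).Adj a b → (L j).Adj a b → i = j) ∧ (∀ i, (L i).IsAcyclic) ∧
      (∀ i v, dg (L i) v ≤ 2) ∧ (∀ i, ∑ v, dg (L i) v = 2 * u) ∧
      ∀ v, ∑ i, dg (L i) v = dg F v := by
  classical
  -- few vertices of large degree
  have hhub : (univ.filter fun v => hub F k v).card ≤ k := by
    have h1 : (univ.filter fun v => hub F k v).card * (k + 1) ≤ ∑ v, dg F v := by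
      rw [← smul_eq_mul, ← Finset.sum_const]
      refine le_trans (Finset.sum_le_sum fun v hv => ?_)
        (Finset.sum_le_sum_of_subset (Finset.subset_univ _))
      rw [Finset.mem_filter] at hv
      exact hv.2
    rw [htot] at h1
    by_contra hcon
    push Not at hcon
    have h2 : (k + 1) * (k + 1) ≤ (univ.filter fun v => hub F k v).card * (k + 1) :=
      Nat.mul_le_mul_right _ hcon
    nlinarith
  obtain ⟨rk, hr1, hr2, hr3⟩ := rank_hubs F k hdeg hhub
  set Γ := sltG F k rk with hΓ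
  have hΔ : ∀ s, dg Γ s ≤ k := by
    rintro ⟨v, b⟩
    cases b with
    | true => rw [hΓ, slot_true]; exact hr3 v
    | false => rw [hΓ, slot_false]; exact hr2 v
  have hproj : ∀ p q, Γ.Adj p q → F.Adj p.1 q.1 := fun p q h => h.1
  have hcovF : ∀ v w, F.Adj v w ↔ ∃ b c, Γ.Adj (v, b) (w, c) := by
    intro v w
    constructor
    · intro hvw
      by_cases hb : hub F k v ∧ hub F k w
      · exact ⟨true, true, hvw, Or.inl ⟨hb, rfl, rfl⟩⟩
      · rcases Nat.lt_or_gt_of_ne (hr1 v w hvw hb) with h | h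
        · exact ⟨true, false, hvw, Or.inr (Or.inl ⟨hb, h, rfl, rfl⟩)⟩
        · exact ⟨false, true, hvw, Or.inr (Or.inr ⟨hb, h, rfl, rfl⟩)⟩
    · rintro ⟨b, c, h⟩
      exact h.1
  have hFprj : prj Γ F hproj = F := by
    ext v w
    exact (hcovF v w).symm
  have hdgF : ∀ v, dg F v = dg Γ (v, true) + dg Γ (v, false) := by
    intro v
    have h1 := prj_dg F k rk Γ le_rfl hproj v
    rwa [hFprj] at h1
  have htotΓ : ∑ s, dg Γ s = 2 * (k * u) := by
    rw [sum_slots, ← htot]
    exact Finset.sum_congr rfl fun v _ => (hdgF v).symm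
  have hheavy : 3 * (univ.filter fun s => k + 1 < 2 * dg Γ s).card ≤ k := by
    have h1 : (univ.filter fun s => k + 1 < 2 * dg Γ s).card * (k + 2) ≤ 2 * ∑ s, dg Γ s := by
      rw [← smul_eq_mul, ← Finset.sum_const, Finset.mul_sum]
      refine le_trans (Finset.sum_le_sum fun v hv => ?_)
        (Finset.sum_le_sum_of_subset (Finset.subset_univ _))
      rw [Finset.mem_filter] at hv
      omega
    rw [htotΓ] at h1
    rcases Nat.eq_zero_or_pos u with hu0 | hu0
    · subst hu0
      have : (univ.filter fun s => k + 1 < 2 * dg Γ s).card = 0 := by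
        by_contra h
        have h2 : 1 ≤ (univ.filter fun s => k + 1 < 2 * dg Γ s).card := Nat.pos_of_ne_zero h
        have h3 := Nat.mul_le_mul_right (k + 2) h2
        omega
      rw [this]
      omega
    · by_contra hcon
      have h2 : 4 * u ≤ (univ.filter fun s => k + 1 < 2 * dg Γ s).card := by omega
      have h3 := Nat.mul_le_mul_right (k + 2) h2
      nlinarith
  obtain ⟨M0, hM0, hcov0⟩ := color_exists Γ k hΔ hheavy
  have hsumdg : ∀ (M : Fin k → SimpleGraph (V × Bool)), PC Γ k M →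
      (∀ a b, Γ.Adj a b → ∃ i, (M i).Adj a b) → ∀ s, ∑ i, dg (M i) s = dg Γ s := by
    intro M hM hcov s
    unfold dg
    rw [Finset.sum_comm]
    apply Finset.sum_congr rfl
    intro q _
    by_cases h : Γ.Adj s q
    · obtain ⟨i, hi⟩ := hcov s q h
      rw [ad_eq_one.2 h, Finset.sum_eq_single i]
      · exact ad_eq_one.2 hi
      · intro j _ hj
        apply ad_eq_zero.2
        intro h'
        exact hj (hM.dis j i s q h' hi)
      · intro h'
        exact absurd (Finset.mem_univ _) h'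
    · rw [ad_eq_zero.2 h]
      exact Finset.sum_eq_zero fun i _ => ad_eq_zero.2 fun h' => h (hM.le i h')
  have htotM : ∑ i, ∑ s, dg (M0 i) s = k * (2 * u) := by
    rw [Finset.sum_comm, Finset.sum_congr rfl fun s _ => hsumdg M0 hM0 hcov0 s, htotΓ]
    ring
  obtain ⟨M, hM, hcov, heq⟩ := equalize Γ k u M0 hM0 hcov0 htotM
  have hpM : ∀ i p q, (M i).Adj p q → F.Adj p.1 q.1 := fun i p q h => (hM.le i h).1
  refine ⟨fun i => prj (M i) F (hpM i), ?_, ?_, ?_, ?_, ?_, ?_⟩
  · rintro i v w ⟨b, c, h⟩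
    exact hpM i _ _ h
  · rintro i j v w ⟨b, c, h⟩ ⟨b', c', h'⟩
    obtain ⟨e1, e2⟩ := slt_unique F k rk v w b c b' c' (hM.le i h).2 (hM.le j h').2
    subst e1
    subst e2
    exact hM.dis i j _ _ h h'
  · intro i
    exact prj_acyclic F k rk (M i) (hM.le i) (hM.deg i) (hpM i)
  · intro i v
    rw [prj_dg F k rk (M i) (hM.le i) (hpM i)]
    have h1 := hM.deg i (v, true)
    have h2 := hM.deg i (v, false)
    omega
  · intro i
    rw [Finset.sum_congr rfl fun v _ => prj_dg F k rk (M i) (hM.le i) (hpM i) v, ← sum_slots]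
    exact heq i
  · intro v
    rw [Finset.sum_congr rfl fun i _ => prj_dg F k rk (M i) (hM.le i) (hpM i) v,
      Finset.sum_add_distrib, hsumdg M hM hcov, hsumdg M hM hcov, hdgF]

end Pool.Agent.Helper37Ham
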