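import Pool.Agent.Helper37Ham.NB5
import Pool.Agent.Helper37Ham.Ext2

set_option autoImplicit false
set_option linter.unusedSectionVars false

/-!
Hamilton cycles in nearly bipartite graphs.
-/

namespace Pool.Agent.Helper37Ham

open Finset SimpleGraph

variable {V : Type} [Fintype V] [DecidableEq V]

/-- twice the number of edges is the sum of the degrees -/
theorem handshake (L : SimpleGraph V) : ∑ v, dg L v = 2 * ecard L := by
  classical
  have h := L.sum_degrees_eq_twice_card_edges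
  unfold ecard
  rw [Set.ncard_eq_toFinset_card', ← SimpleGraph.edgeFinset, ← h]
  exact Finset.sum_congr rfl fun v _ => (dg_eq_degree L v).symm

/-- the edges outside `S` -/
def outS (H : SimpleGraph V) (S : Finset V) : SimpleGraph V where
  Adj v w := H.Adj v w ∧ v ∉ S ∧ w ∉ S
  symm := ⟨fun _ _ h => ⟨h.1.symm, h.2.2, h.2.1⟩⟩
  loopless := ⟨fun v h => H.loopless.irrefl v h.1⟩

theorem outS_dg (H : SimpleGraph V) (S : Finset V) (v : V) (hv : v ∉ S) :
    dg H v = ∑ w ∈ S, ad H v w + dg (outS H S) v := by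
  unfold dg
  rw [← Finset.sum_add_sum_compl S]
  congr 1
  rw [← Finset.sum_subset (Finset.subset_univ Sᶜ)]
  · apply Finset.sum_congr rfl
    intro w hw
    rw [Finset.mem_compl] at hw
    by_cases h : H.Adj v w
    · have h2 : (outS H S).Adj v w := ⟨h, hv, hw⟩
      rw [ad_eq_one.2 h, ad_eq_one.2 h2]
    · have h2 : ¬ (outS H S).Adj v w := fun h3 => h h3.1
      rw [ad_eq_zero.2 h, ad_eq_zero.2 h2]
  · intro w _ hw
    rw [Finset.mem_compl, not_not] at hw
    apply ad_eq_zero.2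
    intro h
    exact h.2.2 hw

theorem outS_zero (H : SimpleGraph V) (S : Finset V) (v : V) (hv : v ∈ S) :
    dg (outS H S) v = 0 := by
  unfold dg
  apply Finset.sum_eq_zero
  intro w _
  apply ad_eq_zero.2
  intro h
  exact h.2.1 hv

/-- the sizes: the edges outside an independent set -/
theorem outS_total (H : SimpleGraph V) (S : Finset V) (k : ℕ) (hreg : ∀ v, dg H v = 2 * k)
    (hind : ∀ v ∈ S, ∀ w ∈ S, ¬ H.Adj v w) :
    ∑ v, dg (outS H S) v + 2 * k * S.card = 2 * k * Sᶜ.card := by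
  have h1 : ∑ v, dg (outS H S) v = ∑ v ∈ Sᶜ, dg (outS H S) v := by
    rw [← Finset.sum_add_sum_compl S, Finset.sum_eq_zero fun v hv => outS_zero H S v hv, zero_add]
  have h2 : ∑ v ∈ Sᶜ, dg H v = ∑ v ∈ Sᶜ, ∑ w ∈ S, ad H v w + ∑ v ∈ Sᶜ, dg (outS H S) v := by
    rw [← Finset.sum_add_distrib]
    exact Finset.sum_congr rfl fun v hv => outS_dg H S v (Finset.mem_compl.1 hv)
  have h3 : ∑ v ∈ S, dg H v = ∑ v ∈ S, ∑ w ∈ Sᶜ, ad H v w := by
    apply Finset.sum_congr rfl
    intro v hv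
    unfold dg
    rw [← Finset.sum_add_sum_compl S, Finset.sum_eq_zero fun w hw => ad_eq_zero.2 (hind v hv w hw),
      zero_add]
  have h4 : ∑ v ∈ S, ∑ w ∈ Sᶜ, ad H v w = ∑ v ∈ Sᶜ, ∑ w ∈ S, ad H v w := by
    rw [Finset.sum_comm]
    exact Finset.sum_congr rfl fun v _ => Finset.sum_congr rfl fun w _ => ad_symm H w v
  have h5 : ∑ v ∈ S, dg H v = 2 * k * S.card := by
    rw [Finset.sum_congr rfl fun v _ => hreg v, Finset.sum_const, smul_eq_mul, mul_comm]
  have h6 : ∑ v ∈ Sᶜ, dg H v = 2 * k * Sᶜ.card := by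
    rw [Finset.sum_congr rfl fun v _ => hreg v, Finset.sum_const, smul_eq_mul, mul_comm]
  rw [h1]
  omega

theorem near_bip (G H : SimpleGraph V) (hHG : H ≤ G) (S : Finset V) (hS : S.Nonempty)
    (hmiss : ∀ w ∈ S, {v | v ∉ S ∧ ¬ G.Adj w v}.ncard ≤ 1) (k : ℕ)
    (hreg : ∀ v, dg H v = 2 * k) (hind : ∀ v ∈ S, ∀ w ∈ S, ¬ H.Adj v w) (hk : 1 ≤ k)
    (hu : 12 * Sᶜ.card ≤ 12 * S.card + k + 3) :
    ∃ C : Fin k → SimpleGraph V, (∀ i, C i ≤ G) ∧
      (∀ i j u v, (C i).Adj u v → (C j).Adj u v → i = j) ∧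
      (∀ i v, ((C i).neighborSet v).ncard = 2) ∧ ∀ i, (C i).Connected := by
  have htot := outS_total H S k hreg hind
  have hle : S.card ≤ Sᶜ.card := by
    by_contra h
    push Not at h
    have : 2 * k * Sᶜ.card < 2 * k * S.card := Nat.mul_lt_mul_of_pos_left h (by omega)
    omega
  obtain ⟨u, hu2⟩ : ∃ u, Sᶜ.card = S.card + u := ⟨Sᶜ.card - S.card, by omega⟩
  have hFH : outS H S ≤ H := fun v w h => h.1
  obtain ⟨L, l1, l2, l3, l4, l5, l6⟩ := forests (outS H S) k u
    (fun v => by rw [← hreg v]; exact dg_mono hFH v)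
    (by rw [hu2] at htot; nlinarith) (by omega)
  obtain ⟨C, c1, _, c3, c4, c5⟩ := extension G S hS hmiss L
    (fun i => (l1 i).trans (hFH.trans hHG)) l2 l3 l4
    (fun i w hw x h => (l1 i h).2.1 hw)
    (fun i => by
      have h1 := handshake (L i)
      rw [l5 i] at h1
      omega)
    (fun v hv => by
      rw [l6 v, ← hreg v, outS_dg H S v hv]
      apply Nat.add_le_add_right
      exact Finset.sum_le_sum fun w _ => ad_mono hHG v w)
  exact ⟨C, c1, c3, c4, c5⟩

end Pool.Agent.Helper37Ham
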