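import Pool.Agent.Helper37Ham.Rank

set_option autoImplicit false
set_option linter.unusedSectionVars false

/-!
Normalised edge counts between sets of vertices.
-/

namespace Pool.Agent.Helper37Ham

open Finset SimpleGraph

variable {V : Type} [Fintype V] [DecidableEq V]

/-- ordered pairs of adjacent vertices, the first in `X` and the second in `Y` -/
noncomputable def ee (F : SimpleGraph V) (X Y : Finset V) : ℕ := ∑ x ∈ X, ∑ y ∈ Y, ad F x y

/-- the same count divided by the square of the number of vertices -/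
noncomputable def den (F : SimpleGraph V) (X Y : Finset V) : ℝ :=
  (ee F X Y : ℝ) / (Fintype.card V : ℝ) ^ 2

/-- the proportion of the vertices that lie in `X` -/
noncomputable def mu (X : Finset V) : ℝ := (X.card : ℝ) / (Fintype.card V : ℝ)

theorem ee_symm (F : SimpleGraph V) (X Y : Finset V) : ee F X Y = ee F Y X := by
  unfold ee
  rw [Finset.sum_comm]
  exact Finset.sum_congr rfl fun y _ => Finset.sum_congr rfl fun x _ => ad_symm F x y

theorem ee_compl (F : SimpleGraph V) (X Y Z : Finset V) :
    ee F X Y = ee F X (Y ∩ Z) + ee F X (Y \ Z) := by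
  unfold ee
  rw [← Finset.sum_add_distrib]
  apply Finset.sum_congr rfl
  intro x _
  exact (Finset.sum_inter_add_sum_sdiff Y Z _).symm

theorem ee_mono (F : SimpleGraph V) {X X' Y Y' : Finset V} (hX : X ⊆ X') (hY : Y ⊆ Y') :
    ee F X Y ≤ ee F X' Y' := by
  unfold ee
  refine (Finset.sum_le_sum fun x _ => Finset.sum_le_sum_of_subset hY).trans ?_
  exact Finset.sum_le_sum_of_subset hX

theorem ee_le_mul (F : SimpleGraph V) (X Y : Finset V) : ee F X Y ≤ X.card * Y.card := by
  unfold ee
  calc ∑ x ∈ X, ∑ y ∈ Y, ad F x y ≤ ∑ x ∈ X, ∑ y ∈ Y, 1 :=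
        Finset.sum_le_sum fun x _ => Finset.sum_le_sum fun y _ => ad_le_one F x y
    _ = X.card * Y.card := by simp

theorem ee_univ (F : SimpleGraph V) (X : Finset V) : ee F X univ = ∑ x ∈ X, dg F x := rfl

theorem ad_sdiff (G H : SimpleGraph V) (h : H ≤ G) (u v : V) :
    ad G u v = ad H u v + ad (G \ H) u v := by
  classical
  unfold ad
  by_cases h1 : H.Adj u v
  · have h2 : G.Adj u v := h h1
    have h3 : ¬ (G \ H).Adj u v := by
      rw [SimpleGraph.sdiff_adj]
      tauto
    rw [if_pos h2, if_pos h1, if_neg h3]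
  · by_cases h2 : G.Adj u v
    · have h3 : (G \ H).Adj u v := by
        rw [SimpleGraph.sdiff_adj]
        tauto
      rw [if_pos h2, if_neg h1, if_pos h3]
    · have h3 : ¬ (G \ H).Adj u v := by
        rw [SimpleGraph.sdiff_adj]
        tauto
      rw [if_neg h2, if_neg h1, if_neg h3]

theorem ee_sdiff (G H : SimpleGraph V) (h : H ≤ G) (X Y : Finset V) :
    ee G X Y = ee H X Y + ee (G \ H) X Y := by
  unfold ee
  rw [← Finset.sum_add_distrib]
  apply Finset.sum_congr rfl
  intro x _
  rw [← Finset.sum_add_distrib]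
  exact Finset.sum_congr rfl fun y _ => ad_sdiff G H h x y

section
variable [Nonempty V]

theorem ncard_pos : (0 : ℝ) < (Fintype.card V : ℝ) := by
  exact_mod_cast Fintype.card_pos

theorem den_nonneg (F : SimpleGraph V) (X Y : Finset V) : 0 ≤ den F X Y := by
  unfold den
  positivity

theorem mu_nonneg (X : Finset V) : 0 ≤ mu X := by
  unfold mu
  positivity

theorem mu_mono {X Y : Finset V} (h : X ⊆ Y) : mu X ≤ mu Y := by
  unfold mu
  have := ncard_pos (V := V)
  apply div_le_div_of_nonneg_right _ this.le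
  exact_mod_cast Finset.card_le_card h

theorem mu_univ : mu (univ : Finset V) = 1 := by
  unfold mu
  rw [Finset.card_univ]
  exact div_self (ncard_pos (V := V)).ne'

theorem mu_le_one (X : Finset V) : mu X ≤ 1 := by
  rw [← mu_univ (V := V)]
  exact mu_mono (Finset.subset_univ X)

theorem mu_compl (X : Finset V) : mu Xᶜ = 1 - mu X := by
  have h := Finset.card_add_card_compl X
  have h' : (X.card : ℝ) + (Xᶜ.card : ℝ) = (Fintype.card V : ℝ) := by exact_mod_cast h
  have h0 := ncard_pos (V := V)
  unfold mu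
  field_simp
  linarith

theorem mu_split (X Y : Finset V) : mu X = mu (X ∩ Y) + mu (X \ Y) := by
  have h := Finset.card_inter_add_card_sdiff X Y
  have h' : ((X ∩ Y).card : ℝ) + ((X \ Y).card : ℝ) = (X.card : ℝ) := by exact_mod_cast h
  unfold mu
  rw [← h']
  ring

theorem mu_add_of_disjoint {X Y : Finset V} (h : Disjoint X Y) : mu (X ∪ Y) = mu X + mu Y := by
  unfold mu
  rw [Finset.card_union_of_disjoint h]
  push_cast
  ring

theorem den_symm (F : SimpleGraph V) (X Y : Finset V) : den F X Y = den F Y X := by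
  unfold den
  rw [ee_symm]

theorem den_split (F : SimpleGraph V) (X Y Z : Finset V) :
    den F X Y = den F X (Y ∩ Z) + den F X (Y \ Z) := by
  unfold den
  rw [ee_compl F X Y Z]
  push_cast
  ring

theorem den_compl (F : SimpleGraph V) (X Y : Finset V) :
    den F X univ = den F X Y + den F X Yᶜ := by
  rw [den_split F X univ Y, Finset.univ_inter, Finset.compl_eq_univ_sdiff]

theorem den_mono (F : SimpleGraph V) {X X' Y Y' : Finset V} (hX : X ⊆ X') (hY : Y ⊆ Y') :
    den F X Y ≤ den F X' Y' := by
  unfold den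
  apply div_le_div_of_nonneg_right _ (by positivity)
  exact_mod_cast ee_mono F hX hY

theorem den_le_mul (F : SimpleGraph V) (X Y : Finset V) : den F X Y ≤ mu X * mu Y := by
  unfold den mu
  have h0 := ncard_pos (V := V)
  rw [div_mul_div_comm, ← sq]
  apply div_le_div_of_nonneg_right _ (by positivity)
  exact_mod_cast ee_le_mul F X Y

theorem den_le_left (F : SimpleGraph V) (X Y : Finset V) : den F X Y ≤ mu X := by
  have h1 := den_le_mul F X Y
  have h2 := mu_nonneg X
  have h3 := mu_le_one Y
  nlinarith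

theorem den_le_right (F : SimpleGraph V) (X Y : Finset V) : den F X Y ≤ mu Y := by
  rw [den_symm]
  exact den_le_left F Y X

theorem den_sdiff (G H : SimpleGraph V) (h : H ≤ G) (X Y : Finset V) :
    den G X Y = den H X Y + den (G \ H) X Y := by
  unfold den
  rw [ee_sdiff G H h]
  push_cast
  ring

theorem den_le_of_le {F F' : SimpleGraph V} (h : F ≤ F') (X Y : Finset V) :
    den F X Y ≤ den F' X Y := by
  have h1 := den_sdiff F' F h X Y
  have h2 := den_nonneg (F' \ F) X Y
  linarith

theorem den_union_le (F : SimpleGraph V) (X Y Z : Finset V) :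
    den F X (Y ∪ Z) ≤ den F X Y + den F X Z := by
  rw [den_split F X (Y ∪ Z) Y]
  have h1 : (Y ∪ Z) ∩ Y = Y := by
    ext v
    simp only [Finset.mem_inter, Finset.mem_union]
    tauto
  have h2 : (Y ∪ Z) \ Y ⊆ Z := by
    intro v hv
    simp only [Finset.mem_sdiff, Finset.mem_union] at hv
    tauto
  rw [h1]
  have := den_mono F (Finset.Subset.refl X) h2
  linarith

theorem den_reg (H : SimpleGraph V) (r : ℕ) (hreg : ∀ v, dg H v = r) (X : Finset V) :
    den H X univ = ((r : ℝ) / (Fintype.card V : ℝ)) * mu X := by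
  have h0 := ncard_pos (V := V)
  unfold den mu
  rw [ee_univ, Finset.sum_congr rfl fun x _ => hreg x, Finset.sum_const, smul_eq_mul]
  push_cast
  field_simp

theorem den_min (G : SimpleGraph V) (hdir : ∀ v, Fintype.card V ≤ 2 * dg G v) (X : Finset V) :
    mu X / 2 ≤ den G X univ := by
  have h0 := ncard_pos (V := V)
  unfold den mu
  rw [ee_univ]
  have h1 : (X.card : ℝ) * (Fintype.card V : ℝ) ≤ 2 * ((∑ x ∈ X, dg G x : ℕ) : ℝ) := by
    have h2 : X.card * Fintype.card V ≤ 2 * ∑ x ∈ X, dg G x := by
      rw [Finset.mul_sum, ← smul_eq_mul, ← Finset.sum_const]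
      exact Finset.sum_le_sum fun x _ => hdir x
    exact_mod_cast h2
  rw [div_div, div_le_div_iff₀ (by positivity) (by positivity)]
  nlinarith

end

end Pool.Agent.Helper37Ham
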