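import Pool.Agent.Helper37Ham.RF9

set_option autoImplicit false
set_option linter.unusedSectionVars false

/-!
Counting switches.
-/

namespace Pool.Agent.Helper37Ham

open Finset SimpleGraph

variable {V : Type} [Fintype V] [DecidableEq V]

/-- few tuples have repeated entries -/
theorem desc_bound (n m : ℕ) (hn : m ≤ n) (hn0 : 0 < n) :
    (n : ℝ) ^ m - (m : ℝ) ^ 2 * (n : ℝ) ^ m / (n : ℝ) ≤ ((n.descFactorial m : ℕ) : ℝ) := by
  have h1 : (n + 1 - m) ^ m ≤ n.descFactorial m := Nat.pow_sub_le_descFactorial n m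
  have h2 : (((n + 1 - m) ^ m : ℕ) : ℝ) ≤ ((n.descFactorial m : ℕ) : ℝ) := by exact_mod_cast h1
  refine le_trans ?_ h2
  rw [Nat.cast_pow, Nat.cast_sub (by omega)]
  push_cast
  have hn' : (0 : ℝ) < n := by exact_mod_cast hn0
  have hmn : (m : ℝ) ≤ n := by exact_mod_cast hn
  have h3 : ((n : ℝ) + 1 - m) = n * (1 + (-(((m : ℝ) - 1) / n))) := by
    field_simp
    ring
  rw [h3, mul_pow]
  have h4 : -2 ≤ -(((m : ℝ) - 1) / n) := by
    have : ((m : ℝ) - 1) / n ≤ 1 := by
      rw [div_le_one hn']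
      linarith
    linarith
  have h5 := one_add_mul_le_pow h4 m
  have h6 : (n : ℝ) ^ m * (1 + (m : ℝ) * -(((m : ℝ) - 1) / n)) ≤
      (n : ℝ) ^ m * (1 + (-(((m : ℝ) - 1) / n))) ^ m :=
    mul_le_mul_of_nonneg_left h5 (by positivity)
  refine le_trans ?_ h6
  have h7 : (n : ℝ) ^ m * (1 + (m : ℝ) * -(((m : ℝ) - 1) / n)) =
      (n : ℝ) ^ m - ((m : ℝ) ^ 2 * (n : ℝ) ^ m / n) + (m : ℝ) * (n : ℝ) ^ m / n := by
    field_simp
    ring
  rw [h7]
  have h8 : 0 ≤ (m : ℝ) * (n : ℝ) ^ m / n := by positivity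
  linarith

open Classical in
theorem inj_count (k : ℕ) :
    (univ.filter fun g : Fin (k + 1) → V × V => Inj g).card =
      (Fintype.card V).descFactorial (2 * (k + 1)) := by
  have h1 : Fintype.card ((Fin (k + 1) ⊕ Fin (k + 1)) ↪ V) =
      (Fintype.card V).descFactorial (2 * (k + 1)) := by
    rw [Fintype.card_embedding_eq, Fintype.card_sum, Fintype.card_fin]
    congr 1
    ring
  rw [← h1, ← Fintype.card_subtype]
  symm
  apply Fintype.card_congr
  refine
    { toFun := fun e => ⟨fun i => (e (Sum.inl i), e (Sum.inr i)), ?_⟩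
      invFun := fun g => ⟨Sum.elim (fun i => (g.1 i).1) (fun i => (g.1 i).2), ?_⟩
      left_inv := ?_
      right_inv := ?_ }
  · refine ⟨?_, ?_, ?_⟩
    · intro i j h
      exact Sum.inl_injective (e.injective h)
    · intro i j h
      exact Sum.inr_injective (e.injective h)
    · intro i j h
      have := e.injective h
      cases this
  · exact Function.Injective.sumElim g.2.1 g.2.2.1 (fun i j => g.2.2.2 i j)
  · intro e
    ext i
    rcases i with i | i <;> rfl
  · intro g
    rfl

open Classical in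
/-- number of closed alternating tuples with distinct vertices -/
noncomputable def Nk (G H : SimpleGraph V) (χ : V → Bool) (σ : Bool) (k : ℕ) : ℕ :=
  (univ.filter fun g : Fin (k + 1) → V × V => Fwd G H χ σ k g ∧ Inj g).card

open Classical in
theorem Nk_ge (G H : SimpleGraph V) (χ : V → Bool) (σ : Bool) (k : ℕ)
    (hn : 2 * (k + 1) ≤ Fintype.card V) (hn0 : 0 < Fintype.card V) (c : ℝ)
    (hc : 2 * c * (Fintype.card V : ℝ) ^ (2 * (k + 1)) ≤
      ((univ.filter fun g : Fin (k + 1) → V × V => Fwd G H χ σ k g).card : ℝ))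
    (hbig : ((2 * (k + 1) : ℕ) : ℝ) ^ 2 ≤ c * (Fintype.card V : ℝ)) :
    c * (Fintype.card V : ℝ) ^ (2 * (k + 1)) ≤ (Nk G H χ σ k : ℝ) := by
  have h0 : (0 : ℝ) < (Fintype.card V : ℝ) := by exact_mod_cast hn0
  have h1 : (univ.filter fun g : Fin (k + 1) → V × V => Fwd G H χ σ k g).card ≤
      Nk G H χ σ k + (univ.filter fun g : Fin (k + 1) → V × V => ¬ Inj g).card := by
    unfold Nk
    rw [← Finset.filter_filter]
    have := Finset.card_filter_add_card_filter_not
      (s := univ.filter fun g : Fin (k + 1) → V × V => Fwd G H χ σ k g) (fun g => Inj g)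
    have h2 : ((univ.filter fun g : Fin (k + 1) → V × V => Fwd G H χ σ k g).filter
        fun g => ¬ Inj g).card ≤ (univ.filter fun g : Fin (k + 1) → V × V => ¬ Inj g).card :=
      Finset.card_le_card (Finset.filter_subset_filter _ (Finset.subset_univ _))
    rw [← this]
    apply Nat.add_le_add _ h2
    apply le_of_eq
    congr 1
  have h2 : (univ.filter fun g : Fin (k + 1) → V × V => Inj g).card +
      (univ.filter fun g : Fin (k + 1) → V × V => ¬ Inj g).card =
      Fintype.card V ^ (2 * (k + 1)) := by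
    rw [Finset.card_filter_add_card_filter_not, Finset.card_univ, Fintype.card_fun,
      Fintype.card_prod, Fintype.card_fin, pow_mul, sq]
  rw [inj_count] at h2
  have h3 := desc_bound (Fintype.card V) (2 * (k + 1)) hn hn0
  have h1' : ((univ.filter fun g : Fin (k + 1) → V × V => Fwd G H χ σ k g).card : ℝ) ≤
      (Nk G H χ σ k : ℝ) + ((univ.filter fun g : Fin (k + 1) → V × V => ¬ Inj g).card : ℝ) := by
    exact_mod_cast h1
  have h2' : (((Fintype.card V).descFactorial (2 * (k + 1)) : ℕ) : ℝ) +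
      ((univ.filter fun g : Fin (k + 1) → V × V => ¬ Inj g).card : ℝ) =
      (Fintype.card V : ℝ) ^ (2 * (k + 1)) := by exact_mod_cast h2
  have h4 : ((2 * (k + 1) : ℕ) : ℝ) ^ 2 * (Fintype.card V : ℝ) ^ (2 * (k + 1)) /
      (Fintype.card V : ℝ) ≤ c * (Fintype.card V : ℝ) ^ (2 * (k + 1)) := by
    rw [div_le_iff₀ h0]
    calc ((2 * (k + 1) : ℕ) : ℝ) ^ 2 * (Fintype.card V : ℝ) ^ (2 * (k + 1))
        ≤ c * (Fintype.card V : ℝ) * (Fintype.card V : ℝ) ^ (2 * (k + 1)) :=
          mul_le_mul_of_nonneg_right hbig (by positivity)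
      _ = c * (Fintype.card V : ℝ) ^ (2 * (k + 1)) * (Fintype.card V : ℝ) := by ring
  linarith

open Classical in
/-- the spanning `r`-regular subgraphs -/
noncomputable def facs (G : SimpleGraph V) (r : ℕ) : Finset (SimpleGraph V) :=
  (Set.toFinite {H : SimpleGraph V | H ≤ G ∧ ∀ v, dg H v = r}).toFinset

theorem mem_facs (G : SimpleGraph V) (r : ℕ) (H : SimpleGraph V) :
    H ∈ facs G r ↔ H ≤ G ∧ ∀ v, dg H v = r := by
  unfold facs
  rw [Set.Finite.mem_toFinset]
  rfl

open Classical in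
theorem switch_count (G : SimpleGraph V) (r : ℕ) (χ : V → Bool) (σ : Bool) (k q : ℕ) :
    ∑ H ∈ (facs G r).filter (fun H => SPn H χ σ = q), Nk G H χ σ k ≤
      (∑ H ∈ (facs G r).filter (fun H => q < SPn H χ σ ∧ SPn H χ σ ≤ q + 2 * (k + 1)),
        SPn H χ σ) * Fintype.card V ^ (2 * k) := by
  set F1 := (facs G r).filter (fun H => SPn H χ σ = q) with hF1
  set F2 := (facs G r).filter (fun H => q < SPn H χ σ ∧ SPn H χ σ ≤ q + 2 * (k + 1)) with hF2
  have h1 : ∑ H ∈ F1, Nk G H χ σ k = ∑ g : Fin (k + 1) → V × V,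
      (F1.filter fun H => Fwd G H χ σ k g ∧ Inj g).card := by
    unfold Nk
    simp only [Finset.card_filter]
    rw [Finset.sum_comm]
  have h2 : ∀ g : Fin (k + 1) → V × V, (F1.filter fun H => Fwd G H χ σ k g ∧ Inj g).card ≤
      (F2.filter fun H => xor (χ (g 0).1) (χ (g 0).2) ≠ σ ∧ H.Adj (g 0).1 (g 0).2).card := by
    intro g
    by_cases hg : Inj g
    · apply Finset.card_le_card_of_injOn (fun H => flp H g hg)
      · intro H hH
        rw [Finset.coe_filter, Set.mem_ofPred_eq] at hH ⊢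
        obtain ⟨hH1, hH2, _⟩ := hH
        rw [hF1, Finset.mem_filter, mem_facs] at hH1
        rw [hF2, Finset.mem_filter, mem_facs]
        have h3 := flp_SPn G H χ σ g hH2 hg
        refine ⟨⟨⟨flp_le G H χ σ g hH1.1.1 hH2 hg, fun v => ?_⟩, ?_, ?_⟩, hH2.2.2.2,
          flp_zero G H χ σ g hH2 hg⟩
        · rw [flp_dg G H χ σ g hH2 hg]
          exact hH1.1.2 v
        · rw [← hH1.2]
          exact h3.1
        · rw [← hH1.2]
          exact h3.2
      · intro H hH H' hH' heq
        rw [Finset.coe_filter, Set.mem_ofPred_eq] at hH hH'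
        change flp H g hg = flp H' g hg at heq
        ext u v
        have h3 := flp_ad G H χ σ g hH.2.1 hg u v
        have h4 := flp_ad G H' χ σ g hH'.2.1 hg u v
        rw [heq] at h3
        have h5 : ad H u v = ad H' u v := by omega
        rw [← ad_pos, ← ad_pos, h5]
    · have : (F1.filter fun H => Fwd G H χ σ k g ∧ Inj g) = ∅ := by
        apply Finset.filter_false_of_mem
        intro H _ h
        exact hg h.2
      rw [this]
      simp
  rw [h1]
  refine (Finset.sum_le_sum fun g _ => h2 g).trans (le_of_eq ?_)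
  simp only [Finset.card_filter]
  rw [Finset.sum_comm, Finset.sum_mul]
  apply Finset.sum_congr rfl
  intro H _
  rw [sum_cons, Fintype.sum_prod_type]
  unfold SPn
  rw [Finset.sum_mul]
  apply Finset.sum_congr rfl
  intro u _
  rw [Finset.sum_mul]
  apply Finset.sum_congr rfl
  intro v _
  simp only [Fin.cons_zero]
  rw [Finset.sum_const, Finset.card_univ, Fintype.card_fun, Fintype.card_prod, Fintype.card_fin,
    smul_eq_mul, pow_mul, sq, mul_comm]
  congr 1
  unfold ad
  by_cases h3 : xor (χ u) (χ v) ≠ σ <;> by_cases h4 : H.Adj u v <;> simp [h3, h4]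

end Pool.Agent.Helper37Ham
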