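import Pool.Agent.Helper37Ham.RF10

set_option autoImplicit false
set_option linter.unusedSectionVars false

/-!
Few regular factors have few special edges.
-/

namespace Pool.Agent.Helper37Ham

open Finset SimpleGraph

theorem decay (f : ℕ → ℝ) (M : ℝ) (hM : ∀ q, f q ≤ M) (m Q : ℕ) (hm : 0 < m)
    (hrec : ∀ q ≤ Q, f q ≤ 1 / (2 * (m : ℝ)) * ∑ j ∈ range m, f (q + 1 + j)) :
    ∀ t q, q + t * m ≤ Q → f q ≤ M / 2 ^ t := by
  intro t
  induction t with
  | zero =>
    intro q _
    simpa using hM q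
  | succ t ih =>
    intro q hq
    have h1 : q ≤ Q := by omega
    refine (hrec q h1).trans ?_
    have h2 : ∑ j ∈ range m, f (q + 1 + j) ≤ ∑ _j ∈ range m, M / 2 ^ t := by
      apply Finset.sum_le_sum
      intro j hj
      rw [Finset.mem_range] at hj
      apply ih
      have : (t + 1) * m = t * m + m := by ring
      omega
    rw [Finset.sum_const, Finset.card_range, nsmul_eq_mul] at h2
    have hm' : (0 : ℝ) < m := by exact_mod_cast hm
    calc 1 / (2 * (m : ℝ)) * ∑ j ∈ range m, f (q + 1 + j)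
        ≤ 1 / (2 * (m : ℝ)) * ((m : ℝ) * (M / 2 ^ t)) :=
          mul_le_mul_of_nonneg_left h2 (by positivity)
      _ = M / 2 ^ (t + 1) := by
          rw [pow_succ]
          field_simp

variable {V : Type} [Fintype V] [DecidableEq V]

open Classical in
theorem few_bad (G : SimpleGraph V) (r : ℕ) (χ : V → Bool) (σ : Bool) (hn : 0 < Fintype.card V)
    (L Q Q' t : ℕ) (c : ℝ) (hc : 0 < c)
    (hstar : ∀ H ∈ facs G r, SPn H χ σ ≤ Q →
      ∃ k ≤ L, c * (Fintype.card V : ℝ) ^ (2 * (k + 1)) ≤ (Nk G H χ σ k : ℝ))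
    (hQ : 4 * ((L : ℝ) + 1) ^ 2 * ((Q : ℝ) + 2 * ((L : ℝ) + 1)) ≤
      c * (Fintype.card V : ℝ) ^ 2)
    (hQ' : Q' + t * (2 * (L + 1)) ≤ Q) :
    (((facs G r).filter fun H => SPn H χ σ ≤ Q').card : ℝ) ≤
      ((Q' : ℝ) + 1) * ((facs G r).card : ℝ) / 2 ^ t := by
  have h0 : (0 : ℝ) < (Fintype.card V : ℝ) := by exact_mod_cast hn
  set n : ℝ := (Fintype.card V : ℝ) with hnn
  set f : ℕ → ℝ := fun q => (((facs G r).filter fun H => SPn H χ σ = q).card : ℝ) with hf
  have hf0 : ∀ q, 0 ≤ f q := fun q => Nat.cast_nonneg _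
  have hM : ∀ q, f q ≤ ((facs G r).card : ℝ) := by
    intro q
    simp only [hf]
    exact_mod_cast Finset.card_filter_le _ _
  have hrec : ∀ q ≤ Q, f q ≤ 1 / (2 * ((2 * (L + 1) : ℕ) : ℝ)) *
      ∑ j ∈ range (2 * (L + 1)), f (q + 1 + j) := by
    intro q hq
    set Fq := (facs G r).filter fun H => SPn H χ σ = q with hFq
    set FL := (facs G r).filter fun H => q < SPn H χ σ ∧ SPn H χ σ ≤ q + 2 * (L + 1) with hFL
    -- each factor contributes
    have a1 : c * f q ≤ ∑ H ∈ Fq, ∑ k ∈ range (L + 1),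
        (Nk G H χ σ k : ℝ) / n ^ (2 * (k + 1)) := by
      have : c * f q = ∑ _H ∈ Fq, c := by
        rw [Finset.sum_const, nsmul_eq_mul]
        simp only [hf]
        ring
      rw [this]
      apply Finset.sum_le_sum
      intro H hH
      rw [hFq, Finset.mem_filter] at hH
      obtain ⟨k, hk, hk2⟩ := hstar H hH.1 (by omega)
      have h2 : c ≤ (Nk G H χ σ k : ℝ) / n ^ (2 * (k + 1)) := by
        rw [le_div_iff₀ (by positivity)]
        exact hk2
      refine h2.trans ?_
      exact Finset.single_le_sum (f := fun k => (Nk G H χ σ k : ℝ) / n ^ (2 * (k + 1)))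
        (fun k _ => by positivity) (Finset.mem_range.2 (by omega))
    rw [Finset.sum_comm] at a1
    have a2 : ∀ k ∈ range (L + 1), ∑ H ∈ Fq, (Nk G H χ σ k : ℝ) / n ^ (2 * (k + 1)) ≤
        ((Q : ℝ) + 2 * ((L : ℝ) + 1)) / n ^ 2 * (FL.card : ℝ) := by
      intro k hk
      rw [Finset.mem_range] at hk
      rw [← Finset.sum_div]
      have h3 := switch_count G r χ σ k q
      have h4 : ∑ H ∈ (facs G r).filter (fun H => q < SPn H χ σ ∧ SPn H χ σ ≤ q + 2 * (k + 1)),
          SPn H χ σ ≤ (Q + 2 * (L + 1)) * FL.card := by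
        calc ∑ H ∈ (facs G r).filter (fun H => q < SPn H χ σ ∧ SPn H χ σ ≤ q + 2 * (k + 1)),
            SPn H χ σ ≤ ∑ _H ∈ (facs G r).filter
              (fun H => q < SPn H χ σ ∧ SPn H χ σ ≤ q + 2 * (k + 1)), (Q + 2 * (L + 1)) := by
              apply Finset.sum_le_sum
              intro H hH
              rw [Finset.mem_filter] at hH
              omega
          _ = ((facs G r).filter
              (fun H => q < SPn H χ σ ∧ SPn H χ σ ≤ q + 2 * (k + 1))).card *
              (Q + 2 * (L + 1)) := by rw [Finset.sum_const, smul_eq_mul]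
          _ ≤ FL.card * (Q + 2 * (L + 1)) := by
              apply Nat.mul_le_mul_right
              apply Finset.card_le_card
              intro H hH
              rw [Finset.mem_filter] at hH
              rw [hFL, Finset.mem_filter]
              exact ⟨hH.1, hH.2.1, by omega⟩
          _ = (Q + 2 * (L + 1)) * FL.card := by ring
      have h5 : ((∑ H ∈ Fq, Nk G H χ σ k : ℕ) : ℝ) ≤
          ((Q : ℝ) + 2 * ((L : ℝ) + 1)) * (FL.card : ℝ) * n ^ (2 * k) := by
        have h6 := h3.trans (Nat.mul_le_mul_right _ h4)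
        have h7 : ((∑ H ∈ Fq, Nk G H χ σ k : ℕ) : ℝ) ≤
          (((Q + 2 * (L + 1)) * FL.card * Fintype.card V ^ (2 * k) : ℕ) : ℝ) := by
          exact_mod_cast h6
        refine h7.trans (le_of_eq ?_)
        push_cast
        rfl
      push_cast at h5
      rw [div_le_iff₀ (by positivity)]
      refine h5.trans (le_of_eq ?_)
      have : n ^ (2 * (k + 1)) = n ^ 2 * n ^ (2 * k) := by ring
      rw [this]
      field_simp
    have a3 : c * f q ≤ ((L : ℝ) + 1) *
        (((Q : ℝ) + 2 * ((L : ℝ) + 1)) / n ^ 2 * (FL.card : ℝ)) := by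
      refine a1.trans ((Finset.sum_le_sum a2).trans (le_of_eq ?_))
      rw [Finset.sum_const, Finset.card_range, nsmul_eq_mul]
      push_cast
      ring
    have a4 : (FL.card : ℝ) ≤ ∑ j ∈ range (2 * (L + 1)), f (q + 1 + j) := by
      have h3 : FL ⊆ (range (2 * (L + 1))).biUnion fun j =>
          (facs G r).filter fun H => SPn H χ σ = q + 1 + j := by
        intro H hH
        rw [hFL, Finset.mem_filter] at hH
        rw [Finset.mem_biUnion]
        refine ⟨SPn H χ σ - (q + 1), ?_, ?_⟩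
        · rw [Finset.mem_range]
          omega
        · rw [Finset.mem_filter]
          exact ⟨hH.1, by omega⟩
      have h4 := (Finset.card_le_card h3).trans Finset.card_biUnion_le
      simp only [hf]
      exact_mod_cast h4
    have hS0 : 0 ≤ ∑ j ∈ range (2 * (L + 1)), f (q + 1 + j) :=
      Finset.sum_nonneg fun j _ => hf0 _
    have a5 : c * f q ≤ ((L : ℝ) + 1) * (((Q : ℝ) + 2 * ((L : ℝ) + 1)) / n ^ 2) *
        ∑ j ∈ range (2 * (L + 1)), f (q + 1 + j) := by
      refine a3.trans ?_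
      rw [← mul_assoc]
      exact mul_le_mul_of_nonneg_left a4 (by positivity)
    have a6 : ((L : ℝ) + 1) * (((Q : ℝ) + 2 * ((L : ℝ) + 1)) / n ^ 2) ≤
        c * (1 / (2 * (2 * ((L : ℝ) + 1)))) := by
      have hL : (0 : ℝ) < (L : ℝ) + 1 := by positivity
      rw [mul_div_assoc', div_le_iff₀ (by positivity), mul_one_div, div_mul_eq_mul_div,
        le_div_iff₀ (by positivity)]
      nlinarith
    have a7 : c * f q ≤ c * (1 / (2 * (2 * ((L : ℝ) + 1)))) *
        ∑ j ∈ range (2 * (L + 1)), f (q + 1 + j) :=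
      a5.trans (mul_le_mul_of_nonneg_right a6 hS0)
    push_cast
    rw [mul_assoc] at a7
    exact le_of_mul_le_mul_left a7 hc
  have hdec := decay f ((facs G r).card : ℝ) hM (2 * (L + 1)) Q (by omega) hrec t
  have h3 : ((facs G r).filter fun H => SPn H χ σ ≤ Q') ⊆ (range (Q' + 1)).biUnion fun q =>
      (facs G r).filter fun H => SPn H χ σ = q := by
    intro H hH
    rw [Finset.mem_filter] at hH
    rw [Finset.mem_biUnion]
    refine ⟨SPn H χ σ, ?_, ?_⟩
    · rw [Finset.mem_range]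
      omega
    · rw [Finset.mem_filter]
      exact ⟨hH.1, rfl⟩
  have h4 := (Finset.card_le_card h3).trans Finset.card_biUnion_le
  have h5 : (((facs G r).filter fun H => SPn H χ σ ≤ Q').card : ℝ) ≤
      ∑ q ∈ range (Q' + 1), f q := by
    simp only [hf]
    exact_mod_cast h4
  refine h5.trans ?_
  have h6 : ∑ q ∈ range (Q' + 1), f q ≤ ∑ _q ∈ range (Q' + 1), ((facs G r).card : ℝ) / 2 ^ t := by
    apply Finset.sum_le_sum
    intro q hq
    rw [Finset.mem_range] at hq
    exact hdec q (by omega)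
  refine h6.trans (le_of_eq ?_)
  rw [Finset.sum_const, Finset.card_range, nsmul_eq_mul]
  push_cast
  ring

open Classical in
/-- union bound over all pairs `(χ, σ)` -/
theorem few_bad_all (G : SimpleGraph V) (r : ℕ) (hn : 0 < Fintype.card V)
    (P : (V → Bool) → Bool → Prop)
    (L Q Q' t : ℕ) (c : ℝ) (hc : 0 < c)
    (hstar : ∀ χ σ, P χ σ → ∀ H ∈ facs G r, SPn H χ σ ≤ Q →
      ∃ k ≤ L, c * (Fintype.card V : ℝ) ^ (2 * (k + 1)) ≤ (Nk G H χ σ k : ℝ))
    (hQ : 4 * ((L : ℝ) + 1) ^ 2 * ((Q : ℝ) + 2 * ((L : ℝ) + 1)) ≤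
      c * (Fintype.card V : ℝ) ^ 2)
    (hQ' : Q' + t * (2 * (L + 1)) ≤ Q) :
    (((facs G r).filter fun H => ∃ χ σ, P χ σ ∧ SPn H χ σ ≤ Q').card : ℝ) ≤
      2 ^ (Fintype.card V + 1) * (((Q' : ℝ) + 1) * ((facs G r).card : ℝ) / 2 ^ t) := by
  have h1 : ((facs G r).filter fun H => ∃ χ σ, P χ σ ∧ SPn H χ σ ≤ Q') ⊆
      ((univ : Finset ((V → Bool) × Bool)).filter fun p => P p.1 p.2).biUnion fun p =>
        (facs G r).filter fun H => SPn H p.1 p.2 ≤ Q' := by
    intro H hH
    rw [Finset.mem_filter] at hH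
    obtain ⟨h2, χ, σ, h3, h4⟩ := hH
    rw [Finset.mem_biUnion]
    refine ⟨(χ, σ), ?_, ?_⟩
    · rw [Finset.mem_filter]
      exact ⟨Finset.mem_univ _, h3⟩
    · rw [Finset.mem_filter]
      exact ⟨h2, h4⟩
  have h2 := (Finset.card_le_card h1).trans Finset.card_biUnion_le
  have h3 : (((facs G r).filter fun H => ∃ χ σ, P χ σ ∧ SPn H χ σ ≤ Q').card : ℝ) ≤
      ∑ p ∈ (univ : Finset ((V → Bool) × Bool)).filter (fun p => P p.1 p.2),
        (((facs G r).filter fun H => SPn H p.1 p.2 ≤ Q').card : ℝ) := by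
    exact_mod_cast h2
  refine h3.trans ?_
  have h4 : ∑ p ∈ (univ : Finset ((V → Bool) × Bool)).filter (fun p => P p.1 p.2),
      (((facs G r).filter fun H => SPn H p.1 p.2 ≤ Q').card : ℝ) ≤
      ∑ _p ∈ (univ : Finset ((V → Bool) × Bool)).filter (fun p => P p.1 p.2),
        ((Q' : ℝ) + 1) * ((facs G r).card : ℝ) / 2 ^ t := by
    apply Finset.sum_le_sum
    intro p hp
    rw [Finset.mem_filter] at hp
    exact few_bad G r p.1 p.2 hn L Q Q' t c hc (hstar p.1 p.2 hp.2) hQ hQ'
  refine h4.trans ?_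
  rw [Finset.sum_const, nsmul_eq_mul]
  apply mul_le_mul_of_nonneg_right _ (by positivity)
  have h5 : ((univ : Finset ((V → Bool) × Bool)).filter fun p => P p.1 p.2).card ≤
      2 ^ (Fintype.card V + 1) := by
    refine (Finset.card_filter_le _ _).trans ?_
    rw [Finset.card_univ, Fintype.card_prod, Fintype.card_fun, Fintype.card_bool, pow_succ]
  exact_mod_cast h5

end Pool.Agent.Helper37Ham
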