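import Pool.Agent.Helper37Ham.RF6

set_option autoImplicit false
set_option linter.unusedSectionVars false

/-!
A nearly closed core contains many special arcs, and few of its vertices have few successors.
-/

namespace Pool.Agent.Helper37Ham

open Finset SimpleGraph

variable {V : Type} [Fintype V] [DecidableEq V] [Nonempty V]

theorem den_le_of_ee (F : SimpleGraph V) (X Y : Finset V) (c : ℝ)
    (h : (ee F X Y : ℝ) ≤ c * (Fintype.card V : ℝ) ^ 2) : den F X Y ≤ c := by
  have h0 := ncard_pos (V := V)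
  unfold den
  rw [div_le_iff₀ (by positivity)]
  exact h

theorem spec_large (G H : SimpleGraph V) (hHG : H ≤ G) (r : ℕ) (hreg : ∀ v, dg H v = r)
    (hdir : ∀ v, Fintype.card V ≤ 2 * dg G v) (χ : V → Bool) (σ : Bool)
    (α ξ φ γ ρ ν η κ : ℝ)
    (hρ : ρ = (r : ℝ) / (Fintype.card V : ℝ)) (hα : 0 < α) (hαρ : α ≤ ρ) (hξ : 0 < ξ)
    (hρξ : ρ ≤ 1 / 2 - ξ) (hφ : 0 < φ) (hφγ : 10 * φ ≤ γ * α) (hγ : γ ≤ 1)
    (hne : ∀ C : Finset V, |mu C - 1 / 2| ≤ γ → γ < den G C Cᶜ ∧ γ < den G C C)
    (K : Finset (V × Bool)) (hK : α / 2 * (Fintype.card V : ℝ) ≤ (K.card : ℝ))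
    (hSP : (SPn H χ σ : ℝ) ≤ ν * (Fintype.card V : ℝ) ^ 2)
    (hout : (oute (DD G H χ σ) K : ℝ) ≤ η * (Fintype.card V : ℝ) ^ 2)
    (hsmall : ν + η + 3 * κ ≤ φ * α * ξ / 6)
    (hκ : 0 < κ) (hη : 0 ≤ η) (hν : 0 ≤ ν)
    (hW : σ = false → ∀ l : Bool, α / 2 ≤ mu (univ.filter fun v => χ v = l)) :
    3 * κ * (Fintype.card V : ℝ) ^ 2 ≤
      ((∑ z ∈ K, ∑ w ∈ K, sg G H χ σ w z : ℕ) : ℝ) := by
  have h0 := ncard_pos (V := V)
  by_contra hcon
  push Not at hcon
  -- a large class of states with the same label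
  have h1 : ∃ l : Bool, α / 4 ≤ mu (PBs χ K l) + mu (PRs χ σ K l) := by
    by_contra h
    push Not at h
    have h2 := h true
    have h3 := h false
    have h4 := card_states χ σ K
    have h5 : (K.card : ℝ) ≤ ((PBs χ K true).card : ℝ) + ((PRs χ σ K true).card : ℝ) +
      (((PBs χ K false).card : ℝ) + ((PRs χ σ K false).card : ℝ)) := by exact_mod_cast h4
    unfold mu at h2 h3
    rw [← add_div, div_lt_iff₀ h0] at h2 h3
    nlinarith
  obtain ⟨l, hl⟩ := h1
  have hc : 0 ≤ (Fintype.card V : ℝ) ^ 2 := by positivity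
  have a1 : den H (PRs χ σ K l) (PBs χ K l)ᶜ ≤ φ * α * ξ / 6 := by
    apply den_le_of_ee
    have e := ee_red G H χ σ K l
    have e' : (ee H (PRs χ σ K l) (PBs χ K l)ᶜ : ℝ) ≤
      (SPn H χ σ : ℝ) + (oute (DD G H χ σ) K : ℝ) := by exact_mod_cast e
    have e2 : (ν + η + 3 * κ) * (Fintype.card V : ℝ) ^ 2 ≤
      φ * α * ξ / 6 * (Fintype.card V : ℝ) ^ 2 := mul_le_mul_of_nonneg_right hsmall hc
    have e3 : 0 ≤ κ * (Fintype.card V : ℝ) ^ 2 := by positivity
    nlinarith
  have a2 : den (G \ H) (PBs χ K l) (PRs χ σ K l)ᶜ ≤ φ * α * ξ / 6 := by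
    apply den_le_of_ee
    have e := ee_blue G H χ σ K l
    have e' : (ee (G \ H) (PBs χ K l) (PRs χ σ K l)ᶜ : ℝ) ≤
      ((∑ z ∈ K, ∑ w ∈ K, sg G H χ σ w z : ℕ) : ℝ) + (oute (DD G H χ σ) K : ℝ) := by
      exact_mod_cast e
    have e2 : (ν + η + 3 * κ) * (Fintype.card V : ℝ) ^ 2 ≤
      φ * α * ξ / 6 * (Fintype.card V : ℝ) ^ 2 := mul_le_mul_of_nonneg_right hsmall hc
    have e3 : 0 ≤ ν * (Fintype.card V : ℝ) ^ 2 := by positivity
    nlinarith
  have a3 : den G (PBs χ K l) (Zs χ σ l) ≤ φ * α * ξ / 6 := by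
    apply den_le_of_ee
    have e := ee_spec G H χ σ K l hHG
    have e' : (ee G (PBs χ K l) (Zs χ σ l) : ℝ) ≤ (SPn H χ σ : ℝ) +
      ((∑ z ∈ K, ∑ w ∈ K, sg G H χ σ w z : ℕ) : ℝ) + (oute (DD G H χ σ) K : ℝ) := by
      exact_mod_cast e
    have e2 : (ν + η + 3 * κ) * (Fintype.card V : ℝ) ^ 2 ≤
      φ * α * ξ / 6 * (Fintype.card V : ℝ) ^ 2 := mul_le_mul_of_nonneg_right hsmall hc
    nlinarith
  cases σ with
  | false =>
    have b1 : PBs χ K l ⊆ (Zs χ false l)ᶜ := by
      intro v hv
      simp only [PBs, Zs, Finset.mem_filter, Finset.mem_univ, true_and, Finset.mem_compl] at hv ⊢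
      rw [hv.2]
      cases l <;> simp
    have b2 : PRs χ false K l ⊆ (Zs χ false l)ᶜ := by
      intro v hv
      simp only [PRs, Zs, Finset.mem_filter, Finset.mem_univ, true_and, Finset.mem_compl] at hv ⊢
      rw [← hv.2]
      cases χ v <;> simp
    have b3 : α / 2 ≤ mu (Zs χ false l) := by
      have := hW rfl (!l)
      have e : (univ.filter fun v => χ v = !l) = Zs χ false l := by
        unfold Zs
        apply Finset.filter_congr
        intro v _
        cases l <;> cases χ v <;> simp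
      rw [← e]
      exact this
    obtain ⟨C, hC1, hC2⟩ := closed_cut G H hHG r hreg hdir _ _ _ α ξ φ γ ρ hρ hα hαρ hξ hρξ hφ
      hφγ hγ a1 a2 hl a3 b1 b2 b3
    have := (hne C hC1).1
    linarith
  | true =>
    have b1 : PBs χ K l ⊆ Zs χ true l := by
      intro v hv
      simp only [PBs, Zs, Finset.mem_filter, Finset.mem_univ, true_and] at hv ⊢
      rw [hv.2]
      cases l <;> simp
    obtain ⟨hC1, hC2⟩ := closed_bip G H hHG r hreg hdir _ _ _ α ξ φ γ ρ hρ hα hαρ hξ hρξ hφ
      hφγ hγ a1 a2 hl a3 b1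
    have := (hne _ hC1).2
    linarith

theorem bad_few (G H : SimpleGraph V) (r : ℕ) (hreg : ∀ v, dg H v = r)
    (χ : V → Bool) (σ : Bool) (α ν η κ : ℝ) (hα : 0 < α)
    (hr : α * (Fintype.card V : ℝ) ≤ r)
    (K : Finset (V × Bool))
    (hSP : (SPn H χ σ : ℝ) ≤ ν * (Fintype.card V : ℝ) ^ 2)
    (hout : (oute (DD G H χ σ) K : ℝ) ≤ η * (Fintype.card V : ℝ) ^ 2)
    (hsmall : 2 * (ν + η) ≤ κ * α) :
    (((K ∩ univ.filter fun z : V × Bool => z.2 = false).filter fun z =>
      ((K.filter fun b => 1 ≤ DD G H χ σ z b).card : ℝ) <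
        α / 2 * (Fintype.card V : ℝ)).card : ℝ) ≤ κ * (Fintype.card V : ℝ) := by
  have h0 := ncard_pos (V := V)
  set bad := (K ∩ univ.filter fun z : V × Bool => z.2 = false).filter fun z =>
      ((K.filter fun b => 1 ≤ DD G H χ σ z b).card : ℝ) < α / 2 * (Fintype.card V : ℝ) with hbad
  set B : Finset V := univ.filter fun u => (u, false) ∈ bad with hB
  have hcard : bad.card = B.card := by
    refine Finset.card_bij' (fun z _ => z.1) (fun u _ => (u, false)) ?_ ?_ ?_ ?_
    · intro z hz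
      rw [hB, Finset.mem_filter]
      refine ⟨Finset.mem_univ _, ?_⟩
      have h1 : z.2 = false := by
        rw [hbad, Finset.mem_filter, Finset.mem_inter, Finset.mem_filter] at hz
        exact hz.1.2.2
      have : z = (z.1, false) := by
        rw [← h1]
      rw [← this]
      exact hz
    · intro u hu
      rw [hB, Finset.mem_filter] at hu
      exact hu.2
    · intro z hz
      have h1 : z.2 = false := by
        rw [hbad, Finset.mem_filter, Finset.mem_inter, Finset.mem_filter] at hz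
        exact hz.1.2.2
      rw [← h1]
    · intro u hu
      rfl
  -- the degree of a bad vertex
  have h1 : ∀ u : V, r ≤ (K.filter fun b => 1 ≤ DD G H χ σ (u, false) b).card +
      (∑ v, if xor (χ u) (χ v) ≠ σ then ad H u v else 0) +
      ∑ v, (if (v, true) ∉ K ∧ xor (χ u) (χ v) = σ then ad H u v else 0) := by
    intro u
    rw [← hreg u]
    have h2 : ∑ v, (if (v, true) ∈ K ∧ xor (χ u) (χ v) = σ then ad H u v else 0) ≤
        (K.filter fun b => 1 ≤ DD G H χ σ (u, false) b).card := by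
      have h3 : ∑ v, (if (v, true) ∈ K ∧ xor (χ u) (χ v) = σ then ad H u v else 0) ≤
          (univ.filter fun v : V => (v, true) ∈ K ∧ 1 ≤ DD G H χ σ (u, false) (v, true)).card := by
        rw [Finset.card_filter]
        apply Finset.sum_le_sum
        intro v _
        by_cases h4 : (v, true) ∈ K ∧ xor (χ u) (χ v) = σ
        · rw [if_pos h4]
          have h5 : DD G H χ σ (u, false) (v, true) = ad H u v := by
            unfold DD
            simp [h4.2]
          rw [h5]
          have := ad_le_one H u v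
          by_cases h6 : 1 ≤ ad H u v
          · rw [if_pos ⟨h4.1, h6⟩]
            exact this
          · omega
        · rw [if_neg h4]
          exact Nat.zero_le _
      refine h3.trans ?_
      apply Finset.card_le_card_of_injOn (fun v => (v, true))
      · intro v hv
        simp only [Finset.coe_filter, Set.mem_ofPred_eq, Finset.mem_univ, true_and] at hv ⊢
        exact hv
      · intro v _ w _ h
        exact (Prod.mk.inj h).1
    unfold dg
    have h3 : ∑ v, ad H u v =
        ∑ v, (if (v, true) ∈ K ∧ xor (χ u) (χ v) = σ then ad H u v else 0) +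
        (∑ v, if xor (χ u) (χ v) ≠ σ then ad H u v else 0) +
        ∑ v, (if (v, true) ∉ K ∧ xor (χ u) (χ v) = σ then ad H u v else 0) := by
      rw [← Finset.sum_add_distrib, ← Finset.sum_add_distrib]
      apply Finset.sum_congr rfl
      intro v _
      by_cases h4 : (v, true) ∈ K <;> by_cases h5 : xor (χ u) (χ v) = σ <;> simp [h4, h5]
    rw [h3]
    omega
  have h2 : B.card * r ≤ ∑ u ∈ B, (K.filter fun b => 1 ≤ DD G H χ σ (u, false) b).card +
      SPn H χ σ + oute (DD G H χ σ) K := by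
    calc B.card * r = ∑ u ∈ B, r := by rw [Finset.sum_const, smul_eq_mul]
      _ ≤ ∑ u ∈ B, ((K.filter fun b => 1 ≤ DD G H χ σ (u, false) b).card +
          (∑ v, if xor (χ u) (χ v) ≠ σ then ad H u v else 0) +
          ∑ v, (if (v, true) ∉ K ∧ xor (χ u) (χ v) = σ then ad H u v else 0)) :=
          Finset.sum_le_sum fun u _ => h1 u
      _ = ∑ u ∈ B, (K.filter fun b => 1 ≤ DD G H χ σ (u, false) b).card +
          ∑ u ∈ B, (∑ v, if xor (χ u) (χ v) ≠ σ then ad H u v else 0) +
          ∑ u ∈ B, ∑ v, (if (v, true) ∉ K ∧ xor (χ u) (χ v) = σ then ad H u v else 0) := by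
          rw [Finset.sum_add_distrib, Finset.sum_add_distrib]
      _ ≤ _ := by
          apply Nat.add_le_add
          · apply Nat.add_le_add_left
            unfold SPn
            exact Finset.sum_le_sum_of_subset (Finset.subset_univ _)
          · rw [oute_eq]
            calc ∑ u ∈ B, ∑ v, (if (v, true) ∉ K ∧ xor (χ u) (χ v) = σ then ad H u v else 0)
                ≤ ∑ u ∈ B, ∑ v,
                  ((if (u, true) ∈ K ∧ (v, false) ∉ K then ad (G \ H) u v else 0) +
                  (if (u, false) ∈ K ∧ (v, true) ∉ K ∧ xor (χ u) (χ v) = σ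
                    then ad H u v else 0)) := by
                  apply Finset.sum_le_sum
                  intro u hu
                  apply Finset.sum_le_sum
                  intro v _
                  have h3 : (u, false) ∈ K := by
                    rw [hB, Finset.mem_filter, hbad, Finset.mem_filter, Finset.mem_inter] at hu
                    exact hu.2.1.1
                  simp only [h3, true_and]
                  omega
              _ ≤ _ := Finset.sum_le_sum_of_subset (Finset.subset_univ _)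
  have h3 : ((∑ u ∈ B, (K.filter fun b => 1 ≤ DD G H χ σ (u, false) b).card : ℕ) : ℝ) ≤
      (B.card : ℝ) * (α / 2 * (Fintype.card V : ℝ)) := by
    push_cast
    rw [← nsmul_eq_mul, ← Finset.sum_const]
    apply Finset.sum_le_sum
    intro u hu
    rw [hB, Finset.mem_filter, hbad, Finset.mem_filter] at hu
    exact hu.2.2.le
  have h4 : (B.card : ℝ) * (r : ℝ) ≤
      ((∑ u ∈ B, (K.filter fun b => 1 ≤ DD G H χ σ (u, false) b).card : ℕ) : ℝ) +
      (SPn H χ σ : ℝ) + (oute (DD G H χ σ) K : ℝ) := by exact_mod_cast h2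
  have h5 : (B.card : ℝ) * (α * (Fintype.card V : ℝ)) ≤ (B.card : ℝ) * (r : ℝ) :=
    mul_le_mul_of_nonneg_left hr (Nat.cast_nonneg _)
  rw [hcard]
  have h6 : (B.card : ℝ) * (α * (Fintype.card V : ℝ)) ≤
      2 * (ν + η) * (Fintype.card V : ℝ) ^ 2 := by nlinarith
  have h7 : (B.card : ℝ) * (α * (Fintype.card V : ℝ)) ≤
      κ * α * (Fintype.card V : ℝ) ^ 2 := by nlinarith [sq_nonneg (Fintype.card V : ℝ)]
  by_contra h
  push Not at h
  have h8 : κ * (Fintype.card V : ℝ) * (α * (Fintype.card V : ℝ)) <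
      (B.card : ℝ) * (α * (Fintype.card V : ℝ)) := mul_lt_mul_of_pos_right h (by positivity)
  nlinarith

end Pool.Agent.Helper37Ham
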