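import Pool.Agent.Helper37Ham.RF10
import Pool.Agent.Helper37Ham.RF7

set_option autoImplicit false
set_option linter.unusedSectionVars false

/-!
Alternating cycles with four edges, when `r` is close to `n / 2`.
-/

namespace Pool.Agent.Helper37Ham

open Finset SimpleGraph

variable {V : Type} [Fintype V] [DecidableEq V]

/-- special edges of `G \ H` starting in the class `l` -/
noncomputable def Bs (G H : SimpleGraph V) (χ : V → Bool) (σ l : Bool) : ℕ :=
  ∑ u, ∑ v, if χ u = l ∧ xor (χ u) (χ v) ≠ σ then ad (G \ H) u v else 0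

/-- non-special pairs that are not edges of `H` -/
noncomputable def Ms (H : SimpleGraph V) (χ : V → Bool) (σ : Bool) : ℕ :=
  ∑ u, ∑ v, if xor (χ u) (χ v) = σ then 1 - ad H u v else 0

theorem bool_aux : ∀ a b c d s : Bool, a = true → xor a b ≠ s → c = false → xor c d ≠ s →
    xor b c = s ∧ xor d a = s := by decide

open Classical in
theorem four_count (G H : SimpleGraph V) (χ : V → Bool) (σ : Bool) :
    Bs G H χ σ true * Bs G H χ σ false ≤
      (univ.filter fun g : Fin (1 + 1) → V × V => Fwd G H χ σ 1 g).card +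
        2 * (Ms H χ σ * Fintype.card V ^ 2) := by
  have e0 : (univ.filter fun g : Fin (1 + 1) → V × V => Fwd G H χ σ 1 g).card =
      ∑ x0, ∑ y0, ∑ x1, ∑ y1, if Fwd G H χ σ 1
        (Fin.cons (x0, y0) (Fin.cons (x1, y1) (fun i => i.elim0))) then 1 else 0 := by
    rw [Finset.card_filter, sum_cons, Fintype.sum_prod_type]
    apply Finset.sum_congr rfl
    intro x0 _
    apply Finset.sum_congr rfl
    intro y0 _
    rw [sum_cons, Fintype.sum_prod_type]
    apply Finset.sum_congr rfl
    intro x1 _
    apply Finset.sum_congr rfl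
    intro y1 _
    rw [Fintype.sum_unique]
    have : (default : Fin 0 → V × V) = fun i => i.elim0 := by
      funext i
      exact i.elim0
    rw [this]
  have e1 : Ms H χ σ * Fintype.card V ^ 2 = ∑ _x0 : V, ∑ y0, ∑ x1, ∑ _y1 : V,
      (if xor (χ y0) (χ x1) = σ then 1 - ad H y0 x1 else 0) := by
    simp only [Finset.sum_const, Finset.card_univ, smul_eq_mul, ← Finset.mul_sum]
    unfold Ms
    ring
  have e2 : Ms H χ σ * Fintype.card V ^ 2 = ∑ x0 : V, ∑ _y0 : V, ∑ _x1 : V, ∑ y1 : V,
      (if xor (χ y1) (χ x0) = σ then 1 - ad H y1 x0 else 0) := by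
    simp only [Finset.sum_const, Finset.card_univ, smul_eq_mul, ← Finset.mul_sum]
    rw [Finset.sum_comm]
    unfold Ms
    ring
  have e3 : Bs G H χ σ true * Bs G H χ σ false = ∑ x0, ∑ y0, ∑ x1, ∑ y1,
      (if χ x0 = true ∧ xor (χ x0) (χ y0) ≠ σ then ad (G \ H) x0 y0 else 0) *
      (if χ x1 = false ∧ xor (χ x1) (χ y1) ≠ σ then ad (G \ H) x1 y1 else 0) := by
    unfold Bs
    rw [Finset.sum_mul]
    apply Finset.sum_congr rfl
    intro x0 _
    rw [Finset.sum_mul]
    apply Finset.sum_congr rfl
    intro y0 _
    rw [Finset.mul_sum]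
    apply Finset.sum_congr rfl
    intro x1 _
    rw [Finset.mul_sum]
  have e4 : 2 * (Ms H χ σ * Fintype.card V ^ 2) = Ms H χ σ * Fintype.card V ^ 2 +
      Ms H χ σ * Fintype.card V ^ 2 := by ring
  rw [e4]
  nth_rewrite 1 [e1]
  rw [e2, e3, e0]
  simp only [← Finset.sum_add_distrib]
  apply Finset.sum_le_sum
  intro x0 _
  apply Finset.sum_le_sum
  intro y0 _
  apply Finset.sum_le_sum
  intro x1 _
  apply Finset.sum_le_sum
  intro y1 _
  by_cases h1 : χ x0 = true ∧ xor (χ x0) (χ y0) ≠ σ
  · by_cases h2 : χ x1 = false ∧ xor (χ x1) (χ y1) ≠ σ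
    · rw [if_pos h1, if_pos h2]
      obtain ⟨k1, k2⟩ := bool_aux (χ x0) (χ y0) (χ x1) (χ y1) σ h1.1 h1.2 h2.1 h2.2
      rw [if_pos k1, if_pos k2]
      by_cases h3 : (G \ H).Adj x0 y0
      · by_cases h4 : (G \ H).Adj x1 y1
        · by_cases h5 : H.Adj y0 x1
          · by_cases h6 : H.Adj y1 x0
            · have hF : Fwd G H χ σ 1
                  (Fin.cons (x0, y0) (Fin.cons (x1, y1) (fun i => i.elim0))) := by
                refine ⟨?_, ?_, ?_, ?_⟩
                · intro i
                  fin_cases i
                  · exact h3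
                  · exact h4
                · intro i
                  fin_cases i
                  · exact h6
                  · exact h5
                · intro i
                  fin_cases i
                  · exact k2
                  · exact k1
                · exact h1.2
              rw [if_pos hF]
              have := ad_le_one (G \ H) x0 y0
              have := ad_le_one (G \ H) x1 y1
              have : ad (G \ H) x0 y0 * ad (G \ H) x1 y1 ≤ 1 * 1 := Nat.mul_le_mul ‹_› ‹_›
              omega
            · rw [ad_eq_zero.2 h6]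
              have := ad_le_one (G \ H) x0 y0
              have := ad_le_one (G \ H) x1 y1
              have : ad (G \ H) x0 y0 * ad (G \ H) x1 y1 ≤ 1 * 1 := Nat.mul_le_mul ‹_› ‹_›
              omega
          · rw [ad_eq_zero.2 h5]
            have := ad_le_one (G \ H) x0 y0
            have := ad_le_one (G \ H) x1 y1
            have : ad (G \ H) x0 y0 * ad (G \ H) x1 y1 ≤ 1 * 1 := Nat.mul_le_mul ‹_› ‹_›
            omega
        · rw [ad_eq_zero.2 h4]
          omega
      · rw [ad_eq_zero.2 h3]
        omega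
    · rw [if_neg h2]
      omega
  · rw [if_neg h1]
    omega

/-- the degree sum, split by type of pair -/
theorem Ms_eq (H : SimpleGraph V) (r : ℕ) (hreg : ∀ v, dg H v = r) (χ : V → Bool) (σ : Bool) :
    Ms H χ σ + Fintype.card V * r =
      (∑ u : V, ∑ v : V, if xor (χ u) (χ v) = σ then 1 else 0) + SPn H χ σ := by
  have h1 : Fintype.card V * r = ∑ u, ∑ v, ad H u v := by
    have : ∑ u, ∑ v, ad H u v = ∑ u, dg H u := rfl
    rw [this, Finset.sum_congr rfl fun u _ => hreg u, Finset.sum_const, smul_eq_mul,
      Finset.card_univ]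
  rw [h1]
  unfold Ms SPn
  rw [← Finset.sum_add_distrib, ← Finset.sum_add_distrib]
  apply Finset.sum_congr rfl
  intro u _
  rw [← Finset.sum_add_distrib, ← Finset.sum_add_distrib]
  apply Finset.sum_congr rfl
  intro v _
  have := ad_le_one H u v
  by_cases h : xor (χ u) (χ v) = σ
  · rw [if_pos h, if_pos h, if_neg (not_not.2 h)]
    omega
  · rw [if_neg h, if_neg h, if_pos h]

/-- the class `χ = l` -/
def cls (χ : V → Bool) (l : Bool) : Finset V := univ.filter fun v => χ v = l

theorem cls_compl (χ : V → Bool) (l : Bool) : (cls χ l)ᶜ = cls χ (!l) := by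
  ext v
  simp only [cls, Finset.mem_compl, Finset.mem_filter, Finset.mem_univ, true_and]
  cases χ v <;> cases l <;> simp

theorem SPn_cut (F : SimpleGraph V) (χ : V → Bool) :
    SPn F χ false = ee F (cls χ true) (cls χ false) + ee F (cls χ false) (cls χ true) := by
  rw [ee_ite, ee_ite]
  unfold SPn
  rw [← Finset.sum_add_distrib]
  apply Finset.sum_congr rfl
  intro u _
  rw [← Finset.sum_add_distrib]
  apply Finset.sum_congr rfl
  intro v _
  simp only [cls, Finset.mem_filter, Finset.mem_univ, true_and]
  cases χ u <;> cases χ v <;> simp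

theorem SPn_bip (F : SimpleGraph V) (χ : V → Bool) :
    SPn F χ true = ee F (cls χ true) (cls χ true) + ee F (cls χ false) (cls χ false) := by
  rw [ee_ite, ee_ite]
  unfold SPn
  rw [← Finset.sum_add_distrib]
  apply Finset.sum_congr rfl
  intro u _
  rw [← Finset.sum_add_distrib]
  apply Finset.sum_congr rfl
  intro v _
  simp only [cls, Finset.mem_filter, Finset.mem_univ, true_and]
  cases χ u <;> cases χ v <;> simp

theorem Bs_cut (G H : SimpleGraph V) (χ : V → Bool) (l : Bool) :
    Bs G H χ false l = ee (G \ H) (cls χ l) (cls χ (!l)) := by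
  rw [ee_ite]
  unfold Bs
  apply Finset.sum_congr rfl
  intro u _
  apply Finset.sum_congr rfl
  intro v _
  simp only [cls, Finset.mem_filter, Finset.mem_univ, true_and]
  cases χ u <;> cases χ v <;> cases l <;> simp

theorem Bs_bip (G H : SimpleGraph V) (χ : V → Bool) (l : Bool) :
    Bs G H χ true l = ee (G \ H) (cls χ l) (cls χ l) := by
  rw [ee_ite]
  unfold Bs
  apply Finset.sum_congr rfl
  intro u _
  apply Finset.sum_congr rfl
  intro v _
  simp only [cls, Finset.mem_filter, Finset.mem_univ, true_and]
  cases χ u <;> cases χ v <;> cases l <;> simp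

theorem Ns_cut (χ : V → Bool) :
    (∑ u : V, ∑ v : V, if xor (χ u) (χ v) = false then 1 else 0) =
      (cls χ true).card ^ 2 + (cls χ false).card ^ 2 := by
  have h1 : ∀ l, (cls χ l).card ^ 2 = ∑ u : V, ∑ v : V, if χ u = l ∧ χ v = l then 1 else 0 := by
    intro l
    rw [sq]
    unfold cls
    rw [Finset.card_filter, Finset.sum_mul_sum]
    apply Finset.sum_congr rfl
    intro u _
    apply Finset.sum_congr rfl
    intro v _
    by_cases h2 : χ u = l <;> by_cases h3 : χ v = l <;> simp [h2, h3]
  rw [h1, h1, ← Finset.sum_add_distrib]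
  apply Finset.sum_congr rfl
  intro u _
  rw [← Finset.sum_add_distrib]
  apply Finset.sum_congr rfl
  intro v _
  cases χ u <;> cases χ v <;> simp

theorem Ns_bip (χ : V → Bool) :
    (∑ u : V, ∑ v : V, if xor (χ u) (χ v) = true then 1 else 0) =
      2 * ((cls χ true).card * (cls χ false).card) := by
  have h1 : ∀ l l', (cls χ l).card * (cls χ l').card =
      ∑ u : V, ∑ v : V, if χ u = l ∧ χ v = l' then 1 else 0 := by
    intro l l'
    unfold cls
    rw [Finset.card_filter, Finset.card_filter, Finset.sum_mul_sum]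
    apply Finset.sum_congr rfl
    intro u _
    apply Finset.sum_congr rfl
    intro v _
    by_cases h2 : χ u = l <;> by_cases h3 : χ v = l' <;> simp [h2, h3]
  rw [two_mul]
  nth_rewrite 2 [mul_comm]
  rw [h1, h1, ← Finset.sum_add_distrib]
  apply Finset.sum_congr rfl
  intro u _
  rw [← Finset.sum_add_distrib]
  apply Finset.sum_congr rfl
  intro v _
  cases χ u <;> cases χ v <;> simp

end Pool.Agent.Helper37Ham
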