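import Pool.Agent.Helper37Ham.RF12

set_option autoImplicit false
set_option linter.unusedSectionVars false

/-!
Many alternating cycles with four edges when `r` is close to `n / 2` or larger.
-/

namespace Pool.Agent.Helper37Ham

open Finset SimpleGraph

variable {V : Type} [Fintype V] [DecidableEq V] [Nonempty V]

theorem mu_cls (χ : V → Bool) : mu (cls χ true) + mu (cls χ false) = 1 := by
  have h1 := mu_compl (cls χ true)
  rw [cls_compl] at h1
  simp only [Bool.not_true] at h1
  linarith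

/-- the classes have about the same size -/
theorem near_half (H : SimpleGraph V) (r : ℕ) (hreg : ∀ v, dg H v = r)
    (χ : V → Bool) (σ : Bool) (α γ ρ : ℝ) (hα : 0 < α) (hα1 : α ≤ 1) (hγ : 0 < γ) (hγ1 : γ ≤ 1)
    (hρ : ρ = (r : ℝ) / (Fintype.card V : ℝ)) (hρ2 : 1 / 2 - γ ^ 2 / 32 ≤ ρ)
    (hSP : (SPn H χ σ : ℝ) / (Fintype.card V : ℝ) ^ 2 ≤ α * γ ^ 2 / 64)
    (hadm : σ = false → ∀ l, α / 2 ≤ mu (cls χ l)) (l : Bool) :
    1 / 2 - γ ^ 2 / 16 ≤ mu (cls χ l) := by
  have h0 := ncard_pos (V := V)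
  have hden : ∀ Y : Finset V, den H Y univ = ρ * mu Y := by rw [hρ]; exact den_reg H r hreg
  have hw := mu_cls χ
  cases σ with
  | false =>
    have h1 : (SPn H χ false : ℝ) / (Fintype.card V : ℝ) ^ 2 =
        den H (cls χ true) (cls χ false) + den H (cls χ false) (cls χ true) := by
      rw [SPn_cut]
      unfold den
      push_cast
      ring
    have h2 : den H (cls χ l) (cls χ l)ᶜ ≤ α * γ ^ 2 / 64 := by
      rw [cls_compl]
      have a1 := den_nonneg H (cls χ true) (cls χ false)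
      have a2 := den_nonneg H (cls χ false) (cls χ true)
      cases l
      · simp only [Bool.not_false]
        linarith
      · simp only [Bool.not_true]
        linarith
    have h3 := den_compl H (cls χ l) (cls χ l)
    have h4 := den_le_mul H (cls χ l) (cls χ l)
    have h5 := hden (cls χ l)
    have h6 := hadm rfl l
    by_contra hcon
    push Not at hcon
    have h7 : mu (cls χ l) * (ρ - mu (cls χ l)) ≤ α * γ ^ 2 / 64 := by nlinarith
    have h8 : γ ^ 2 / 32 < ρ - mu (cls χ l) := by linarith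
    have h9 : α / 2 * (ρ - mu (cls χ l)) ≤ mu (cls χ l) * (ρ - mu (cls χ l)) := by
      apply mul_le_mul_of_nonneg_right h6
      nlinarith [sq_nonneg γ]
    have h10 : α / 2 * (γ ^ 2 / 32) < α / 2 * (ρ - mu (cls χ l)) :=
      mul_lt_mul_of_pos_left h8 (by linarith)
    nlinarith
  | true =>
    have h1 : (SPn H χ true : ℝ) / (Fintype.card V : ℝ) ^ 2 =
        den H (cls χ true) (cls χ true) + den H (cls χ false) (cls χ false) := by
      rw [SPn_bip]
      unfold den
      push_cast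
      ring
    have hw2 : mu (cls χ l) + mu (cls χ (!l)) = 1 := by
      cases l
      · simp only [Bool.not_false]; linarith
      · simp only [Bool.not_true]; linarith
    have h2 : den H (cls χ (!l)) (cls χ (!l)) ≤ α * γ ^ 2 / 64 := by
      have a1 := den_nonneg H (cls χ true) (cls χ true)
      have a2 := den_nonneg H (cls χ false) (cls χ false)
      cases l
      · simp only [Bool.not_false]
        linarith
      · simp only [Bool.not_true]
        linarith
    have h3 := den_compl H (cls χ (!l)) (cls χ (!l))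
    rw [cls_compl, Bool.not_not] at h3
    have h4 := den_le_mul H (cls χ (!l)) (cls χ l)
    have h5 := hden (cls χ (!l))
    by_contra hcon
    push Not at hcon
    have h6 : 1 / 2 ≤ mu (cls χ (!l)) := by
      have : 0 ≤ γ ^ 2 := sq_nonneg γ
      linarith
    have h7 : mu (cls χ (!l)) * (ρ - mu (cls χ l)) ≤ α * γ ^ 2 / 64 := by nlinarith
    have h8 : γ ^ 2 / 32 < ρ - mu (cls χ l) := by linarith
    have h9 : 1 / 2 * (γ ^ 2 / 32) < mu (cls χ (!l)) * (ρ - mu (cls χ l)) := by
      have : 0 < γ ^ 2 / 32 := by positivity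
      nlinarith
    have h10 : α * γ ^ 2 ≤ 1 * γ ^ 2 := mul_le_mul_of_nonneg_right hα1 (sq_nonneg γ)
    linarith

open Classical in
theorem star2 (G H : SimpleGraph V) (hHG : H ≤ G) (r : ℕ) (hreg : ∀ v, dg H v = r)
    (χ : V → Bool) (σ : Bool) (α γ ρ : ℝ) (hα : 0 < α) (hα1 : α ≤ 1) (hγ : 0 < γ) (hγ1 : γ ≤ 1)
    (hρ : ρ = (r : ℝ) / (Fintype.card V : ℝ)) (hρ2 : 1 / 2 - γ ^ 2 / 32 ≤ ρ)
    (hne : ∀ C : Finset V, |mu C - 1 / 2| ≤ γ → γ < den G C Cᶜ ∧ γ < den G C C)
    (hSP : (SPn H χ σ : ℝ) ≤ α * γ ^ 2 / 64 * (Fintype.card V : ℝ) ^ 2)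
    (hadm : σ = false → ∀ l, α / 2 ≤ mu (cls χ l)) :
    γ ^ 2 / 2 * (Fintype.card V : ℝ) ^ (2 * (1 + 1)) ≤
      ((univ.filter fun g : Fin (1 + 1) → V × V => Fwd G H χ σ 1 g).card : ℝ) := by
  have h0 := ncard_pos (V := V)
  have hSP' : (SPn H χ σ : ℝ) / (Fintype.card V : ℝ) ^ 2 ≤ α * γ ^ 2 / 64 := by
    rw [div_le_iff₀ (by positivity)]
    exact hSP
  have hnh := near_half H r hreg χ σ α γ ρ hα hα1 hγ hγ1 hρ hρ2 hSP' hadm
  have hw := mu_cls χ
  have ht := hnh true
  have hf := hnh false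
  have hαγ : α * γ ^ 2 ≤ γ ^ 2 := by nlinarith [sq_nonneg γ]
  have hγ2 : γ ^ 2 ≤ γ := by nlinarith
  have habs : ∀ l, |mu (cls χ l) - 1 / 2| ≤ γ := by
    intro l
    rw [abs_le]
    cases l <;> constructor <;> linarith
  -- special edges of `G \ H`
  have hB : ∀ l, γ - γ ^ 2 / 64 ≤ (Bs G H χ σ l : ℝ) / (Fintype.card V : ℝ) ^ 2 := by
    intro l
    have hl := hne (cls χ l) (habs l)
    cases σ with
    | false =>
      have e1 : (Bs G H χ false l : ℝ) / (Fintype.card V : ℝ) ^ 2 =
          den (G \ H) (cls χ l) (cls χ (!l)) := by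
        rw [Bs_cut]
        rfl
      rw [e1]
      have h1 : (SPn H χ false : ℝ) / (Fintype.card V : ℝ) ^ 2 =
          den H (cls χ true) (cls χ false) + den H (cls χ false) (cls χ true) := by
        rw [SPn_cut]
        unfold den
        push_cast
        ring
      have a1 := den_nonneg H (cls χ true) (cls χ false)
      have a2 := den_nonneg H (cls χ false) (cls χ true)
      have h2 := den_sdiff G H hHG (cls χ l) (cls χ (!l))
      have h3 := hl.1
      rw [cls_compl] at h3
      have h4 : den H (cls χ l) (cls χ (!l)) ≤ α * γ ^ 2 / 64 := by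
        cases l
        · simp only [Bool.not_false]
          linarith
        · simp only [Bool.not_true]
          linarith
      linarith
    | true =>
      have e1 : (Bs G H χ true l : ℝ) / (Fintype.card V : ℝ) ^ 2 =
          den (G \ H) (cls χ l) (cls χ l) := by
        rw [Bs_bip]
        rfl
      rw [e1]
      have h1 : (SPn H χ true : ℝ) / (Fintype.card V : ℝ) ^ 2 =
          den H (cls χ true) (cls χ true) + den H (cls χ false) (cls χ false) := by
        rw [SPn_bip]
        unfold den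
        push_cast
        ring
      have a1 := den_nonneg H (cls χ true) (cls χ true)
      have a2 := den_nonneg H (cls χ false) (cls χ false)
      have h2 := den_sdiff G H hHG (cls χ l) (cls χ l)
      have h3 := hl.2
      have h4 : den H (cls χ l) (cls χ l) ≤ α * γ ^ 2 / 64 := by
        cases l <;> linarith
      linarith
  -- the missing pairs
  have hM : (Ms H χ σ : ℝ) / (Fintype.card V : ℝ) ^ 2 ≤ 7 * γ ^ 2 / 128 := by
    have h1 := Ms_eq H r hreg χ σ
    have h2 : (Ms H χ σ : ℝ) + (Fintype.card V : ℝ) * (r : ℝ) =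
        ((∑ u : V, ∑ v : V, if xor (χ u) (χ v) = σ then 1 else 0 : ℕ) : ℝ) +
        (SPn H χ σ : ℝ) := by exact_mod_cast h1
    have h3 : (Fintype.card V : ℝ) * (r : ℝ) = ρ * (Fintype.card V : ℝ) ^ 2 := by
      rw [hρ]
      field_simp
    have h4 : ((∑ u : V, ∑ v : V, if xor (χ u) (χ v) = σ then 1 else 0 : ℕ) : ℝ) ≤
        (1 / 2 + 2 * (γ ^ 2 / 16) ^ 2) * (Fintype.card V : ℝ) ^ 2 := by
      have e1 : ((cls χ true).card : ℝ) = mu (cls χ true) * (Fintype.card V : ℝ) := by
        unfold mu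
        field_simp
      have e2 : ((cls χ false).card : ℝ) = mu (cls χ false) * (Fintype.card V : ℝ) := by
        unfold mu
        field_simp
      have e3 : mu (cls χ false) = 1 - mu (cls χ true) := by linarith
      have hc : 0 ≤ (Fintype.card V : ℝ) ^ 2 := by positivity
      cases σ with
      | false =>
        rw [Ns_cut]
        push_cast
        rw [e1, e2, e3]
        have e4 : (mu (cls χ true) * (Fintype.card V : ℝ)) ^ 2 +
            ((1 - mu (cls χ true)) * (Fintype.card V : ℝ)) ^ 2 =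
            (1 / 2 + 2 * (mu (cls χ true) - 1 / 2) ^ 2) * (Fintype.card V : ℝ) ^ 2 := by ring
        rw [e4]
        apply mul_le_mul_of_nonneg_right _ hc
        have e5 : (mu (cls χ true) - 1 / 2) ^ 2 ≤ (γ ^ 2 / 16) ^ 2 := by
          apply sq_le_sq'
          · linarith
          · linarith
        linarith
      | true =>
        rw [Ns_bip]
        push_cast
        rw [e1, e2, e3]
        have e4 : 2 * (mu (cls χ true) * (Fintype.card V : ℝ) *
            ((1 - mu (cls χ true)) * (Fintype.card V : ℝ))) =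
            (1 / 2 - 2 * (mu (cls χ true) - 1 / 2) ^ 2) * (Fintype.card V : ℝ) ^ 2 := by ring
        rw [e4]
        apply mul_le_mul_of_nonneg_right _ hc
        have := sq_nonneg (mu (cls χ true) - 1 / 2)
        have := sq_nonneg (γ ^ 2 / 16)
        linarith
    rw [div_le_iff₀ (by positivity)]
    have h5 : (γ ^ 2 / 16) ^ 2 ≤ γ ^ 2 / 256 := by
      have : γ ^ 2 * γ ^ 2 ≤ γ ^ 2 * 1 := mul_le_mul_of_nonneg_left (by linarith) (sq_nonneg γ)
      nlinarith
    have hc : 0 ≤ (Fintype.card V : ℝ) ^ 2 := by positivity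
    have h6 : (Ms H χ σ : ℝ) ≤ ((1 / 2 + 2 * (γ ^ 2 / 16) ^ 2) - ρ + α * γ ^ 2 / 64) *
        (Fintype.card V : ℝ) ^ 2 := by nlinarith
    refine h6.trans ?_
    apply mul_le_mul_of_nonneg_right _ hc
    linarith
  -- the count
  have h1 := four_count G H χ σ
  have h2 : (Bs G H χ σ true : ℝ) * (Bs G H χ σ false : ℝ) ≤
      ((univ.filter fun g : Fin (1 + 1) → V × V => Fwd G H χ σ 1 g).card : ℝ) +
        2 * ((Ms H χ σ : ℝ) * (Fintype.card V : ℝ) ^ 2) := by exact_mod_cast h1
  have h3 : (γ - γ ^ 2 / 64) * (Fintype.card V : ℝ) ^ 2 ≤ (Bs G H χ σ true : ℝ) := by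
    have := hB true
    rwa [le_div_iff₀ (by positivity)] at this
  have h4 : (γ - γ ^ 2 / 64) * (Fintype.card V : ℝ) ^ 2 ≤ (Bs G H χ σ false : ℝ) := by
    have := hB false
    rwa [le_div_iff₀ (by positivity)] at this
  have h5 : (Ms H χ σ : ℝ) ≤ 7 * γ ^ 2 / 128 * (Fintype.card V : ℝ) ^ 2 := by
    rwa [div_le_iff₀ (by positivity)] at hM
  have hc : 0 ≤ (Fintype.card V : ℝ) ^ 2 := by positivity
  have h6 : 0 ≤ γ - γ ^ 2 / 64 := by linarith
  have h7 : (γ - γ ^ 2 / 64) * (Fintype.card V : ℝ) ^ 2 *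
      ((γ - γ ^ 2 / 64) * (Fintype.card V : ℝ) ^ 2) ≤
      (Bs G H χ σ true : ℝ) * (Bs G H χ σ false : ℝ) :=
    mul_le_mul h3 h4 (by positivity) (Nat.cast_nonneg _)
  have h8 : (Ms H χ σ : ℝ) * (Fintype.card V : ℝ) ^ 2 ≤
      7 * γ ^ 2 / 128 * (Fintype.card V : ℝ) ^ 2 * (Fintype.card V : ℝ) ^ 2 :=
    mul_le_mul_of_nonneg_right h5 hc
  have h9 : (Fintype.card V : ℝ) ^ (2 * (1 + 1)) =
      (Fintype.card V : ℝ) ^ 2 * (Fintype.card V : ℝ) ^ 2 := by ring
  rw [h9]
  have h10 : γ ^ 2 / 2 ≤ (γ - γ ^ 2 / 64) ^ 2 - 2 * (7 * γ ^ 2 / 128) := by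
    have k1 : (63 / 64 * γ) ^ 2 ≤ (γ - γ ^ 2 / 64) ^ 2 := by
      apply pow_le_pow_left₀ (by positivity)
      linarith
    nlinarith [sq_nonneg γ]
  have h11 := mul_le_mul_of_nonneg_right h10 (mul_nonneg hc hc)
  nlinarith

end Pool.Agent.Helper37Ham
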