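import Pool.Agent.Helper37Ham.RF13

set_option autoImplicit false
set_option linter.unusedSectionVars false

/-!
Many alternating cycles when `r` is smaller than `n / 2`.
-/

namespace Pool.Agent.Helper37Ham

open Finset SimpleGraph

theorem card_states_side {V : Type} [Fintype V] [DecidableEq V] (b : Bool) :
    (univ.filter fun z : V × Bool => z.2 = b).card = Fintype.card V := by
  rw [← Fintype.card_subtype]
  apply Fintype.card_congr
  exact
    { toFun := fun z => z.1.1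
      invFun := fun v => ⟨(v, b), rfl⟩
      left_inv := by
        rintro ⟨⟨v, b'⟩, h⟩
        have h' : b' = b := h
        subst h'
        rfl
      right_inv := fun v => rfl }

theorem star3 (α ξ γ : ℝ) (hα : 0 < α) (hα1 : α ≤ 1) (hξ : 0 < ξ) (hξ1 : ξ ≤ 1) (hγ : 0 < γ)
    (hγ1 : γ ≤ 1) :
    ∃ c : ℝ, 0 < c ∧ ∃ ν : ℝ, 0 < ν ∧ ∃ L n₀ : ℕ,
      ∀ (V : Type) [Fintype V] [DecidableEq V] [Nonempty V], n₀ ≤ Fintype.card V →
      ∀ (G H : SimpleGraph V), H ≤ G → ∀ r : ℕ, (∀ v, dg H v = r) →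
      (∀ v, Fintype.card V ≤ 2 * dg G v) →
      α * (Fintype.card V : ℝ) ≤ r → (r : ℝ) ≤ (1 / 2 - ξ) * (Fintype.card V : ℝ) →
      (∀ C : Finset V, |mu C - 1 / 2| ≤ γ → γ < den G C Cᶜ ∧ γ < den G C C) →
      ∀ (χ : V → Bool) (σ : Bool),
      (SPn H χ σ : ℝ) ≤ ν * (Fintype.card V : ℝ) ^ 2 →
      (σ = false → ∀ l, α / 2 ≤ mu (cls χ l)) →
      ∃ k ≤ L, c * (Fintype.card V : ℝ) ^ (2 * (k + 1)) ≤ (Nk G H χ σ k : ℝ) := by
  set φ : ℝ := γ * α / 10 with hφ
  have hφ0 : 0 < φ := by positivity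
  set θ : ℝ := φ * α * ξ / 6 with hθ
  have hθ0 : 0 < θ := by positivity
  set κ : ℝ := θ / 9 with hκ
  have hκ0 : 0 < κ := by positivity
  set ν : ℝ := κ * α / 4 with hν
  have hν0 : 0 < ν := by positivity
  have hθ1 : θ ≤ 1 := by
    have h1 : γ * α ≤ 1 * 1 := mul_le_mul hγ1 hα1 hα.le (by norm_num)
    have h2 : α * ξ ≤ 1 * 1 := mul_le_mul hα1 hξ1 hξ.le (by norm_num)
    have h3 : (γ * α) * (α * ξ) ≤ 1 * 1 := by
      apply mul_le_mul (by linarith) (by linarith) (by positivity) (by norm_num)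
    rw [hθ, hφ]
    nlinarith
  have hνθ : ν ≤ θ / 3 := by
    rw [hν, hκ]
    have : θ * α ≤ θ * 1 := mul_le_mul_of_nonneg_left hα1 hθ0.le
    nlinarith
  obtain ⟨T, hT⟩ := exists_nat_gt (2 / κ)
  have hT' : 2 < ((T : ℝ) + 1) * κ := by
    rw [div_lt_iff₀ hκ0] at hT
    nlinarith
  set η₀ : ℝ := ν / 2 ^ T with hη₀
  have hη₀0 : 0 < η₀ := by positivity
  have hη₀ν : η₀ ≤ ν := by
    rw [hη₀]
    apply div_le_self hν0.le
    exact one_le_pow₀ (by norm_num)
  set ζ : ℝ := η₀ / 4 with hζ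
  have hζ0 : 0 < ζ := by positivity
  have hζ1 : ζ ≤ 1 := by linarith
  obtain ⟨i, hi⟩ := exists_nat_gt (8 / η₀)
  have hi' : 2 < (i : ℝ) * (η₀ / 4) := by
    rw [div_lt_iff₀ hη₀0] at hi
    linarith
  set c : ℝ := κ * ζ ^ i / ((i : ℝ) + 1) / 2 with hc
  have hc0 : 0 < c := by positivity
  obtain ⟨n₁, hn₁⟩ := exists_nat_gt (((2 * (i + 1) : ℕ) : ℝ) ^ 2 / c)
  refine ⟨c, hc0, ν, hν0, i, max n₁ (2 * (i + 1)), ?_⟩
  intro V _ _ _ hn G H hHG r hreg hdir hr1 hr2 hne χ σ hSP hadm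
  have h0 := ncard_pos (V := V)
  set N : ℝ := (Fintype.card V : ℝ) with hN
  have hnat : 2 * (i + 1) ≤ Fintype.card V := (le_max_right _ _).trans hn
  have hn1 : (n₁ : ℝ) ≤ N := by
    have : n₁ ≤ Fintype.card V := (le_max_left _ _).trans hn
    rw [hN]
    exact_mod_cast this
  have hS : (Fintype.card (V × Bool) : ℝ) ≤ 2 * N := by
    rw [Fintype.card_prod, Fintype.card_bool]
    push_cast
    linarith
  have hS2 : (Fintype.card (V × Bool) : ℝ) = 2 * N := by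
    rw [Fintype.card_prod, Fintype.card_bool]
    push_cast
    ring
  obtain ⟨t, ht, K, hK1, hK2, hK3⟩ := exists_core (DD G H χ σ) N h0 hS κ (α / 2) η₀
    (by positivity) T hT' hη₀0 (by rw [hS2]; nlinarith)
  set η : ℝ := 2 ^ t * η₀ with hη
  have hη0 : 0 < η := by positivity
  have hη1 : η₀ ≤ η := by
    rw [hη]
    have : (1 : ℝ) ≤ 2 ^ t := one_le_pow₀ (by norm_num)
    nlinarith
  have hη2 : η ≤ ν := by
    rw [hη, hη₀]
    have h1 : (2 : ℝ) ^ t ≤ 2 ^ T := pow_le_pow_right₀ (by norm_num) ht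
    calc (2 : ℝ) ^ t * (ν / 2 ^ T) ≤ 2 ^ T * (ν / 2 ^ T) :=
          mul_le_mul_of_nonneg_right h1 (by positivity)
      _ = ν := by field_simp
  have hexp : ∀ K' ⊆ K, α / 2 * N ≤ (K'.card : ℝ) → (K'.card : ℝ) ≤ (K.card : ℝ) - κ * N →
      2 * η * N ^ 2 < (oute (DD G H χ σ) K' : ℝ) := by
    intro K' h1 h2 h3
    have := hK3 K' h1 h2 h3
    rw [pow_succ] at this
    rw [hη]
    linarith
  have hρα : α ≤ (r : ℝ) / N := by
    rw [le_div_iff₀ h0]
    exact hr1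
  have hρξ : (r : ℝ) / N ≤ 1 / 2 - ξ := by
    rw [div_le_iff₀ h0]
    exact hr2
  have hspec := spec_large G H hHG r hreg hdir χ σ α ξ φ γ ((r : ℝ) / N) ν η κ rfl hα hρα hξ hρξ
    hφ0 (by rw [hφ]; linarith) hγ1 hne K hK1 hSP hK2 (by linarith) hκ0 hη0.le hν0.le hadm
  have hbad := bad_few G H r hreg χ σ α ν η κ hα hr1 K hSP hK2 (by linarith)
  have hsW : ∀ a b, sg G H χ σ a b ≠ 0 → a ∈ (univ.filter fun z : V × Bool => z.2 = true) ∧
      b ∈ (univ.filter fun z : V × Bool => z.2 = false) := by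
    intro a b h
    unfold sg at h
    split_ifs at h with h1
    · rw [Finset.mem_filter, Finset.mem_filter]
      exact ⟨⟨Finset.mem_univ _, h1.1⟩, ⟨Finset.mem_univ _, h1.2.1⟩⟩
    · exact absurd rfl h
  have hw := closed_weight (DD G H χ σ) (DD_le G H χ σ) (sg G H χ σ) (sg_le G H χ σ)
    (univ.filter fun z : V × Bool => z.2 = true) (univ.filter fun z : V × Bool => z.2 = false)
    hsW N h0 (by rw [card_states_side]) (by rw [card_states_side]) hS K κ (α / 2) η ζ hκ0 hζ0 hζ1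
    (by rw [hζ]; linarith) hK2 hexp hη0 i
    (by
      have : (i : ℝ) * (η₀ / 4) ≤ (i : ℝ) * (η / 4) :=
        mul_le_mul_of_nonneg_left (by linarith) (Nat.cast_nonneg _)
      linarith) hbad hspec
  obtain ⟨l, hl, hl2⟩ := closed_length (DD G H χ σ) (sg G H χ σ) N h0 κ ζ i hw
  rcases Nat.even_or_odd' l with ⟨k, hk | hk⟩
  · refine ⟨k, by omega, ?_⟩
    classical
    apply Nk_ge G H χ σ k (by omega) (by omega) c
    · rw [hk] at hl2
      have h1 := count_walks G H χ σ k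
      have h2 : ((∑ z, ∑ w, sg G H χ σ w z * wk (DD G H χ σ) z (2 * k) w : ℕ) : ℝ) ≤
        ((univ.filter fun g : Fin (k + 1) → V × V => Fwd G H χ σ k g).card : ℝ) := by
        exact_mod_cast h1
      refine le_trans (le_of_eq ?_) (hl2.trans h2)
      rw [hc]
      have : 2 * (k + 1) = 2 * k + 2 := by ring
      rw [this]
      ring
    · have h1 : ((2 * (k + 1) : ℕ) : ℝ) ^ 2 ≤ ((2 * (i + 1) : ℕ) : ℝ) ^ 2 := by
        apply pow_le_pow_left₀ (Nat.cast_nonneg _)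
        exact_mod_cast (by omega : 2 * (k + 1) ≤ 2 * (i + 1))
      rw [div_lt_iff₀ hc0] at hn₁
      nlinarith
  · exfalso
    rw [hk, count_odd] at hl2
    have : 0 < κ * ζ ^ i / ((i : ℝ) + 1) * N ^ (2 * k + 1 + 2) := by positivity
    push_cast at hl2
    linarith

end Pool.Agent.Helper37Ham
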