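import Pool.Agent.Helper37Ham.RF1

set_option autoImplicit false
set_option linter.unusedSectionVars false

/-!
Regular graphs without sparse cuts and far from bipartite are robust expanders.
-/

namespace Pool.Agent.Helper37Ham

open Finset SimpleGraph

variable {V : Type} [Fintype V] [DecidableEq V]

/-- the vertices with at least `ν n` neighbours in `X` -/
noncomputable def rn (H : SimpleGraph V) (ν : ℝ) (X : Finset V) : Finset V :=
  univ.filter fun v => ν * (Fintype.card V : ℝ) ≤ ((∑ x ∈ X, ad H v x : ℕ) : ℝ)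

theorem expander_of [Nonempty V] (H : SimpleGraph V) (r : ℕ) (hreg : ∀ v, dg H v = r)
    (α ν₁ τ ν : ℝ) (hα : 0 < α) (hr : α * (Fintype.card V : ℝ) ≤ r)
    (hC1 : ∀ W : Finset V, α / 2 ≤ mu W → mu W ≤ 1 - α / 2 → ν₁ ≤ den H W Wᶜ)
    (hC2 : ∀ A : Finset V, ν₁ ≤ den H A A + den H Aᶜ Aᶜ)
    (hν : 0 < ν) (hν1 : 6 * ν < τ * α) (hν2 : (12 + 3 * α) * ν < ν₁ * α)
    (X : Finset V) (h1 : τ ≤ mu X) (h2 : mu X ≤ 1 - τ) :
    mu X + ν ≤ mu (rn H ν X) := by
  by_contra hcon
  push Not at hcon
  have h0 := ncard_pos (V := V)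
  set N' := rn H ν X with hN'
  set ρ : ℝ := (r : ℝ) / (Fintype.card V : ℝ) with hρ
  have hρα : α ≤ ρ := by
    rw [hρ, le_div_iff₀ h0]
    exact hr
  have hden : ∀ Y : Finset V, den H Y univ = ρ * mu Y := den_reg H r hreg
  have hρ1 : ρ ≤ 1 := by
    have h3 := hden univ
    have h4 := den_le_mul H (univ : Finset V) univ
    rw [mu_univ] at h3 h4
    linarith
  -- few edges between `X` and the complement of `N'`
  have a1 : den H X N'ᶜ ≤ ν := by
    rw [den_symm]
    unfold den ee
    rw [div_le_iff₀ (by positivity)]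
    have h3 : ((∑ v ∈ N'ᶜ, ∑ x ∈ X, ad H v x : ℕ) : ℝ) ≤
        ∑ v ∈ N'ᶜ, ν * (Fintype.card V : ℝ) := by
      push_cast
      apply Finset.sum_le_sum
      intro v hv
      rw [Finset.mem_compl, hN', rn, Finset.mem_filter] at hv
      push Not at hv
      have := hv (Finset.mem_univ v)
      push_cast at this
      exact this.le
    refine h3.trans ?_
    rw [Finset.sum_const, nsmul_eq_mul]
    have h4 : ((N'ᶜ).card : ℝ) ≤ (Fintype.card V : ℝ) := by
      exact_mod_cast Finset.card_le_univ _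
    have h5 : 0 ≤ ν * (Fintype.card V : ℝ) := by positivity
    nlinarith
  have a2 : ρ * mu X - ν ≤ den H X N' := by
    have h3 := den_compl H X N'
    have h4 := hden X
    linarith
  have a3 : den H N' Xᶜ ≤ 2 * ν := by
    have h3 := den_compl H N' X
    have h4 := hden N'
    have h5 := den_symm H N' X
    have h6 : ρ * mu N' ≤ ρ * (mu X + ν) :=
      mul_le_mul_of_nonneg_left hcon.le (by linarith)
    nlinarith
  -- sets with few edges leaving
  have small1 : ∀ Y : Finset V, mu Y < α / 2 → den H Y Yᶜ ≤ 3 * ν → α * mu Y ≤ 6 * ν := by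
    intro Y hY hY2
    have h3 := den_compl H Y Y
    have h4 := hden Y
    have h5 := den_le_mul H Y Y
    have h6 := mu_nonneg Y
    nlinarith
  have small : ∀ Y : Finset V, den H Y Yᶜ ≤ 3 * ν → α * mu Y ≤ 6 * ν ∨ α * mu Yᶜ ≤ 6 * ν := by
    intro Y hY
    by_cases h3 : mu Y < α / 2
    · exact Or.inl (small1 Y h3 hY)
    · by_cases h4 : mu Yᶜ < α / 2
      · right
        apply small1 Yᶜ h4
        rw [compl_compl, den_symm]
        exact hY
      · exfalso
        have h5 := mu_compl Y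
        have h6 := hC1 Y (by linarith) (by linarith)
        nlinarith
  -- the intersection
  have hYs : den H (X ∩ N') (X ∩ N')ᶜ ≤ 3 * ν := by
    have h3 : (X ∩ N')ᶜ = Xᶜ ∪ N'ᶜ := Finset.compl_inter X N'
    rw [h3]
    have h4 := den_union_le H (X ∩ N') Xᶜ N'ᶜ
    have h5 := den_mono H (Finset.inter_subset_right : X ∩ N' ⊆ N') (Finset.Subset.refl Xᶜ)
    have h6 := den_mono H (Finset.inter_subset_left : X ∩ N' ⊆ X) (Finset.Subset.refl N'ᶜ)
    linarith
  have hZs : den H (X ∪ N') (X ∪ N')ᶜ ≤ 3 * ν := by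
    rw [den_symm]
    have h4 := den_union_le H (X ∪ N')ᶜ X N'
    have h7 : (X ∪ N')ᶜ ⊆ N'ᶜ := by
      intro v hv
      simp only [Finset.mem_compl, Finset.mem_union] at hv ⊢
      tauto
    have h8 : (X ∪ N')ᶜ ⊆ Xᶜ := by
      intro v hv
      simp only [Finset.mem_compl, Finset.mem_union] at hv ⊢
      tauto
    have h5 := den_mono H h7 (Finset.Subset.refl X)
    have h6 := den_mono H h8 (Finset.Subset.refl N')
    rw [den_symm H N'ᶜ X] at h5
    rw [den_symm H Xᶜ N'] at h6
    linarith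
  have hY : α * mu (X ∩ N') ≤ 6 * ν := by
    rcases small _ hYs with h | h
    · exact h
    · exfalso
      have h3 : Xᶜ ⊆ (X ∩ N')ᶜ := by
        intro v hv
        simp only [Finset.mem_compl, Finset.mem_inter] at hv ⊢
        tauto
      have h4 := mu_mono h3
      have h5 := mu_compl X
      nlinarith
  have hZ : α * mu (X ∪ N')ᶜ ≤ 6 * ν := by
    rcases small _ hZs with h | h
    · exfalso
      have h4 := mu_mono (Finset.subset_union_left : X ⊆ X ∪ N')
      nlinarith
    · exact h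
  have hXX : den H X X ≤ mu (X ∩ N') + ν := by
    rw [den_split H X X N']
    have h3 := den_le_right H X (X ∩ N')
    have h5 : X \ N' ⊆ N'ᶜ := by
      intro v hv
      simp only [Finset.mem_compl, Finset.mem_sdiff] at hv ⊢
      tauto
    have h4 := den_mono H (Finset.Subset.refl X) h5
    linarith
  have hXc : den H Xᶜ Xᶜ ≤ 2 * ν + mu (X ∪ N')ᶜ := by
    rw [den_split H Xᶜ Xᶜ N']
    have h3 := den_mono H (Finset.Subset.refl Xᶜ) (Finset.inter_subset_right : Xᶜ ∩ N' ⊆ N')
    rw [den_symm H Xᶜ N'] at h3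
    have h5 : Xᶜ \ N' = (X ∪ N')ᶜ := by
      ext v
      simp only [Finset.mem_compl, Finset.mem_sdiff, Finset.mem_union]
      tauto
    have h4 := den_le_right H Xᶜ (Xᶜ \ N')
    rw [h5] at h4 ⊢
    linarith
  have h3 := hC2 X
  nlinarith

end Pool.Agent.Helper37Ham
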