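import Pool.Agent.Helper37Ham.RF14
import Pool.Agent.Helper37Ham.RF11
import Pool.Agent.Helper37Ham.RF2

set_option autoImplicit false
set_option linter.unusedSectionVars false

/-!
Most regular factors of a non-extremal Dirac graph are robust expanders.
-/

namespace Pool.Agent.Helper37Ham

open Finset SimpleGraph

/-- non-extremality for sets of exactly half size gives it for sets of nearly half size -/
theorem nonext {V : Type} [Fintype V] [DecidableEq V] [Nonempty V] (G : SimpleGraph V)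
    (γ γ₀ : ℝ) (hγ : 0 < γ) (hγ₀ : γ₀ ≤ γ / 8) (hn : 8 ≤ γ * (Fintype.card V : ℝ))
    (h : ∀ A : Finset V, A.card = Fintype.card V / 2 → γ ≤ den G A Aᶜ ∧ γ ≤ den G A A)
    (C : Finset V) (hC : |mu C - 1 / 2| ≤ γ₀) : γ₀ < den G C Cᶜ ∧ γ₀ < den G C C := by
  have h0 := ncard_pos (V := V)
  rw [abs_le] at hC
  have hmu : mu C * (Fintype.card V : ℝ) = (C.card : ℝ) := by
    unfold mu
    field_simp
  have hh1 : ((Fintype.card V / 2 : ℕ) : ℝ) ≤ (Fintype.card V : ℝ) / 2 := Nat.cast_div_le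
  have hh2 : (Fintype.card V : ℝ) / 2 - 1 ≤ ((Fintype.card V / 2 : ℕ) : ℝ) := by
    have : Fintype.card V ≤ 2 * (Fintype.card V / 2) + 1 := by omega
    have h2 : (Fintype.card V : ℝ) ≤ 2 * ((Fintype.card V / 2 : ℕ) : ℝ) + 1 := by
      exact_mod_cast this
    linarith
  have hone : 1 / (Fintype.card V : ℝ) ≤ γ / 8 := by
    rw [div_le_iff₀ h0]
    linarith
  by_cases hcase : C.card ≤ Fintype.card V / 2
  · obtain ⟨A, hCA, hA⟩ := Finset.exists_superset_card_eq hcase (by omega)
    obtain ⟨h1, h2⟩ := h A hA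
    -- the difference is small
    have hd : mu (A \ C) ≤ γ / 4 := by
      have e1 := Finset.card_sdiff_add_card_eq_card hCA
      have e2 : ((A \ C).card : ℝ) + (C.card : ℝ) = ((Fintype.card V / 2 : ℕ) : ℝ) := by
        rw [← hA]
        exact_mod_cast e1
      have e3 : ((A \ C).card : ℝ) ≤ γ₀ * (Fintype.card V : ℝ) + 1 := by nlinarith
      unfold mu
      rw [div_le_iff₀ h0]
      have e4 : γ₀ * (Fintype.card V : ℝ) ≤ γ / 8 * (Fintype.card V : ℝ) :=
        mul_le_mul_of_nonneg_right hγ₀ h0.le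
      linarith
    have hAu : A = C ∪ (A \ C) := by
      rw [Finset.union_sdiff_of_subset hCA]
    constructor
    · have k1 : den G A Aᶜ ≤ den G C Cᶜ + mu (A \ C) := by
        rw [den_symm]
        have k2 := den_union_le G Aᶜ C (A \ C)
        rw [← hAu] at k2
        have k3 := den_mono G (X := Aᶜ) (X' := Cᶜ) (Y := C) (Y' := C)
          (Finset.compl_subset_compl.2 hCA) (Finset.Subset.refl C)
        rw [den_symm G Cᶜ C] at k3
        have k4 := den_le_right G Aᶜ (A \ C)
        linarith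
      linarith
    · have k1 : den G A A ≤ den G C C + 2 * mu (A \ C) := by
        have k2 := den_union_le G A C (A \ C)
        rw [← hAu] at k2
        have k3 := den_le_right G A (A \ C)
        have k4 := den_union_le G C C (A \ C)
        rw [← hAu, den_symm G C A] at k4
        have k5 := den_le_right G C (A \ C)
        linarith
      linarith
  · obtain ⟨A, hCA, hA⟩ := Finset.exists_subset_card_eq (n := Fintype.card V / 2) (s := C)
      (by omega)
    obtain ⟨h1, h2⟩ := h A hA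
    have hd : mu (C \ A) ≤ γ / 4 := by
      have e1 := Finset.card_sdiff_add_card_eq_card hCA
      have e2 : ((C \ A).card : ℝ) + ((Fintype.card V / 2 : ℕ) : ℝ) = (C.card : ℝ) := by
        rw [← hA]
        exact_mod_cast e1
      have e3 : ((C \ A).card : ℝ) ≤ γ₀ * (Fintype.card V : ℝ) + 1 := by nlinarith
      unfold mu
      rw [div_le_iff₀ h0]
      have e4 : γ₀ * (Fintype.card V : ℝ) ≤ γ / 8 * (Fintype.card V : ℝ) :=
        mul_le_mul_of_nonneg_right hγ₀ h0.le
      linarith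
    constructor
    · have k1 : den G A Aᶜ ≤ den G C Cᶜ + mu (C \ A) := by
        have k0 : Aᶜ ⊆ Cᶜ ∪ (C \ A) := by
          intro v hv
          simp only [Finset.mem_compl, Finset.mem_union, Finset.mem_sdiff] at hv ⊢
          tauto
        have k1 := den_mono G hCA k0
        have k2 := den_union_le G C Cᶜ (C \ A)
        have k4 := den_le_right G C (C \ A)
        linarith
      linarith
    · have k1 := den_mono G hCA hCA
      linarith

/-- every alternating structure occurs often -/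
theorem star (α γ : ℝ) (hα : 0 < α) (hα1 : α ≤ 1) (hγ : 0 < γ) (hγ1 : γ ≤ 1) :
    ∃ c : ℝ, 0 < c ∧ ∃ ν : ℝ, 0 < ν ∧ ν ≤ 1 ∧ ∃ L n₀ : ℕ,
      ∀ (V : Type) [Fintype V] [DecidableEq V] [Nonempty V], n₀ ≤ Fintype.card V →
      ∀ (G H : SimpleGraph V), H ≤ G → ∀ r : ℕ, (∀ v, dg H v = r) →
      (∀ v, Fintype.card V ≤ 2 * dg G v) →
      α * (Fintype.card V : ℝ) ≤ r →
      (∀ C : Finset V, |mu C - 1 / 2| ≤ γ → γ < den G C Cᶜ ∧ γ < den G C C) →
      ∀ (χ : V → Bool) (σ : Bool),
      (SPn H χ σ : ℝ) ≤ ν * (Fintype.card V : ℝ) ^ 2 →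
      (σ = false → ∀ l, α / 2 ≤ mu (cls χ l)) →
      ∃ k ≤ L, c * (Fintype.card V : ℝ) ^ (2 * (k + 1)) ≤ (Nk G H χ σ k : ℝ) := by
  have hξ0 : 0 < γ ^ 2 / 32 := by positivity
  have hγ2 : γ ^ 2 ≤ 1 := by nlinarith
  obtain ⟨c₃, hc₃, ν₃, hν₃, L₃, n₃, h3⟩ := star3 α (γ ^ 2 / 32) γ hα hα1 hξ0 (by linarith) hγ hγ1
  obtain ⟨n₂, hn₂⟩ := exists_nat_gt (16 / (γ ^ 2 / 4))
  refine ⟨min (γ ^ 2 / 4) c₃, by positivity, min (α * γ ^ 2 / 64) ν₃, by positivity, ?_,
    max 1 L₃, max n₃ (max n₂ 4), ?_⟩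
  · refine (min_le_left _ _).trans ?_
    nlinarith [sq_nonneg γ]
  intro V _ _ _ hn G H hHG r hreg hdir hr hne χ σ hSP hadm
  have h0 := ncard_pos (V := V)
  have hc : 0 ≤ (Fintype.card V : ℝ) ^ 2 := by positivity
  by_cases hcase : (r : ℝ) ≤ (1 / 2 - γ ^ 2 / 32) * (Fintype.card V : ℝ)
  · obtain ⟨k, hk, hk2⟩ := h3 V ((le_max_left _ _).trans hn) G H hHG r hreg hdir hr hcase hne χ σ
      (hSP.trans (mul_le_mul_of_nonneg_right (min_le_right _ _) hc)) hadm
    refine ⟨k, hk.trans (le_max_right _ _), le_trans ?_ hk2⟩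
    exact mul_le_mul_of_nonneg_right (min_le_right _ _) (by positivity)
  · push Not at hcase
    have hρ2 : 1 / 2 - γ ^ 2 / 32 ≤ (r : ℝ) / (Fintype.card V : ℝ) := by
      rw [le_div_iff₀ h0]
      exact hcase.le
    have h2 := star2 G H hHG r hreg χ σ α γ _ hα hα1 hγ hγ1 rfl hρ2 hne
      (hSP.trans (mul_le_mul_of_nonneg_right (min_le_left _ _) hc)) hadm
    have hn4 : 4 ≤ Fintype.card V := (le_max_right _ _).trans ((le_max_right _ _).trans hn)
    have hn2 : (n₂ : ℝ) ≤ (Fintype.card V : ℝ) := by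
      have : n₂ ≤ Fintype.card V := (le_max_left _ _).trans ((le_max_right _ _).trans hn)
      exact_mod_cast this
    refine ⟨1, le_max_left _ _, ?_⟩
    refine le_trans (mul_le_mul_of_nonneg_right (min_le_left _ _) (by positivity)) ?_
    classical
    apply Nk_ge G H χ σ 1 (by omega) (by omega)
    · refine le_trans (le_of_eq ?_) h2
      ring
    · rw [div_lt_iff₀ (by positivity)] at hn₂
      push_cast
      nlinarith

end Pool.Agent.Helper37Ham
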