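import Pool.Agent.Helper37Ham.RF15

set_option autoImplicit false
set_option linter.unusedSectionVars false

/-!
Almost every regular factor of a non-extremal Dirac graph is a robust expander.
-/

namespace Pool.Agent.Helper37Ham

open Finset SimpleGraph

/-- a graph all of whose special edge counts are large is a robust expander -/
theorem expander_of_SPn {V : Type} [Fintype V] [DecidableEq V] [Nonempty V] (H : SimpleGraph V)
    (r : ℕ) (hreg : ∀ v, dg H v = r) (α ν₁ τ ν : ℝ) (hα : 0 < α)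
    (hr : α * (Fintype.card V : ℝ) ≤ r)
    (hC : ∀ (χ : V → Bool) (σ : Bool), (σ = false → ∀ l, α / 2 ≤ mu (cls χ l)) →
      2 * ν₁ * (Fintype.card V : ℝ) ^ 2 ≤ (SPn H χ σ : ℝ))
    (hν₁ : 0 < ν₁)
    (hν : 0 < ν) (hν1 : 6 * ν < τ * α) (hν2 : (12 + 3 * α) * ν < ν₁ * α)
    (X : Finset V) (h1 : τ ≤ mu X) (h2 : mu X ≤ 1 - τ) :
    mu X + ν ≤ mu (rn H ν X) := by
  classical
  have h0 := ncard_pos (V := V)
  have hcls : ∀ W : Finset V, cls (fun v => decide (v ∈ W)) true = W ∧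
      cls (fun v => decide (v ∈ W)) false = Wᶜ := by
    intro W
    constructor
    · ext v
      simp [cls]
    · ext v
      simp [cls]
  apply expander_of H r hreg α ν₁ τ ν hα hr _ _ hν hν1 hν2 X h1 h2
  · intro W hW1 hW2
    have h3 := hC (fun v => decide (v ∈ W)) false (by
      intro _ l
      cases l
      · rw [(hcls W).2, mu_compl]
        linarith
      · rw [(hcls W).1]
        exact hW1)
    rw [SPn_cut, (hcls W).1, (hcls W).2, ee_symm H Wᶜ W] at h3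
    unfold den
    rw [le_div_iff₀ (by positivity)]
    push_cast at h3
    linarith
  · intro A
    have h3 := hC (fun v => decide (v ∈ A)) true (by
      intro h
      exact absurd h (by decide))
    rw [SPn_bip, (hcls A).1, (hcls A).2] at h3
    unfold den
    rw [← add_div, le_div_iff₀ (by positivity)]
    push_cast at h3
    have : 0 ≤ ν₁ * (Fintype.card V : ℝ) ^ 2 := by positivity
    linarith

open Classical in
theorem robust_most (γ α τ : ℝ) (hγ : 0 < γ) (hα : 0 < α) (hτ : 0 < τ) :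
    ∃ ν : ℝ, 0 < ν ∧ ν ≤ τ ∧ ∃ n₀ : ℕ, ∀ (V : Type) [Fintype V] [DecidableEq V] [Nonempty V],
      n₀ ≤ Fintype.card V → ∀ G : SimpleGraph V, (∀ v, Fintype.card V ≤ 2 * dg G v) →
      (∀ A : Finset V, A.card = Fintype.card V / 2 → γ ≤ den G A Aᶜ ∧ γ ≤ den G A A) →
      ∀ r : ℕ, α * (Fintype.card V : ℝ) ≤ r →
      ((facs G r).filter fun H => ¬ ∀ X : Finset V, τ ≤ mu X → mu X ≤ 1 - τ →
        mu X + ν ≤ mu (rn H ν X)).card * 2 ^ Fintype.card V ≤ (facs G r).card := by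
  set α₁ : ℝ := min α 1 with hα₁
  have hα₁0 : 0 < α₁ := by positivity
  have hα₁1 : α₁ ≤ 1 := min_le_right _ _
  set γ₀ : ℝ := min (γ / 8) 1 with hγ₀
  have hγ₀0 : 0 < γ₀ := by positivity
  have hγ₀1 : γ₀ ≤ 1 := min_le_right _ _
  obtain ⟨c, hc, ν', hν', hν'1, L, n₁, hstar⟩ := star α₁ γ₀ hα₁0 hα₁1 hγ₀0 hγ₀1
  set ν₀ : ℝ := min ν' (c / (8 * ((L : ℝ) + 1) ^ 2)) with hν₀
  have hν₀0 : 0 < ν₀ := by positivity
  have hν₀1 : ν₀ ≤ 1 := (min_le_left _ _).trans hν'1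
  set ν₁ : ℝ := ν₀ / 4 with hν₁
  have hν₁0 : 0 < ν₁ := by positivity
  set ν : ℝ := min (τ * α₁ / 12) (ν₁ * α₁ / (2 * (12 + 3 * α₁))) with hν
  have hν0 : 0 < ν := by positivity
  have hνa : 6 * ν < τ * α₁ := by
    have : ν ≤ τ * α₁ / 12 := min_le_left _ _
    have : 0 < τ * α₁ := by positivity
    linarith
  have hνb : (12 + 3 * α₁) * ν < ν₁ * α₁ := by
    have h1 : ν ≤ ν₁ * α₁ / (2 * (12 + 3 * α₁)) := min_le_right _ _
    have h2 : (12 + 3 * α₁) * ν ≤ (12 + 3 * α₁) * (ν₁ * α₁ / (2 * (12 + 3 * α₁))) :=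
      mul_le_mul_of_nonneg_left h1 (by positivity)
    have h3 : (12 + 3 * α₁) * (ν₁ * α₁ / (2 * (12 + 3 * α₁))) = ν₁ * α₁ / 2 := by
      field_simp
    have : 0 < ν₁ * α₁ := by positivity
    linarith
  obtain ⟨n₂, hn₂⟩ := exists_nat_gt (8 / γ)
  obtain ⟨n₃, hn₃⟩ := exists_nat_gt (16 * ((L : ℝ) + 1) ^ 3 / c)
  obtain ⟨n₄, hn₄⟩ := exists_nat_gt ((20 * ((L : ℝ) + 1) + 2) / ν₀)
  have hντ : ν ≤ τ := by
    have h1 : ν ≤ τ * α₁ / 12 := min_le_left _ _
    have h2 : τ * α₁ ≤ τ * 1 := mul_le_mul_of_nonneg_left hα₁1 hτ.le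
    linarith
  refine ⟨ν, hν0, hντ, max n₁ (max n₂ (max n₃ n₄)), ?_⟩
  intro V _ _ _ hn G hdir hext r hr
  have h0 := ncard_pos (V := V)
  have hnn : 0 < Fintype.card V := Fintype.card_pos
  set N : ℝ := (Fintype.card V : ℝ) with hN
  have hN1 : 1 ≤ N := by
    rw [hN]
    exact_mod_cast hnn
  have b1 : n₁ ≤ Fintype.card V := (le_max_left _ _).trans hn
  have b2 : (n₂ : ℝ) ≤ N := by
    have : n₂ ≤ Fintype.card V := (le_max_left _ _).trans ((le_max_right _ _).trans hn)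
    rw [hN]
    exact_mod_cast this
  have b3 : (n₃ : ℝ) ≤ N := by
    have : n₃ ≤ Fintype.card V :=
      (le_max_left _ _).trans ((le_max_right _ _).trans ((le_max_right _ _).trans hn))
    rw [hN]
    exact_mod_cast this
  have b4 : (n₄ : ℝ) ≤ N := by
    have : n₄ ≤ Fintype.card V :=
      (le_max_right _ _).trans ((le_max_right _ _).trans ((le_max_right _ _).trans hn))
    rw [hN]
    exact_mod_cast this
  have hne : ∀ C : Finset V, |mu C - 1 / 2| ≤ γ₀ → γ₀ < den G C Cᶜ ∧ γ₀ < den G C C := by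
    apply nonext G γ γ₀ hγ (min_le_left _ _) _ hext
    rw [div_lt_iff₀ hγ] at hn₂
    nlinarith
  have hr₁ : α₁ * N ≤ r := by
    refine le_trans ?_ hr
    exact mul_le_mul_of_nonneg_right (min_le_left _ _) h0.le
  -- the thresholds
  set Q : ℕ := ⌊ν₀ * N ^ 2⌋₊ with hQ
  set Q' : ℕ := ⌊ν₀ * N ^ 2 / 2⌋₊ with hQ'
  have hQ1 : (Q : ℝ) ≤ ν₀ * N ^ 2 := Nat.floor_le (by positivity)
  have hQ2 : ν₀ * N ^ 2 < (Q : ℝ) + 1 := Nat.lt_floor_add_one _
  have hQ'1 : (Q' : ℝ) ≤ ν₀ * N ^ 2 / 2 := Nat.floor_le (by positivity)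
  have hQ'2 : ν₀ * N ^ 2 / 2 < (Q' : ℝ) + 1 := Nat.lt_floor_add_one _
  have hcond1 : 4 * ((L : ℝ) + 1) ^ 2 * ((Q : ℝ) + 2 * ((L : ℝ) + 1)) ≤ c * N ^ 2 := by
    have k1 : ν₀ ≤ c / (8 * ((L : ℝ) + 1) ^ 2) := min_le_right _ _
    have k2 : 4 * ((L : ℝ) + 1) ^ 2 * (Q : ℝ) ≤ c * N ^ 2 / 2 := by
      have k3 : 4 * ((L : ℝ) + 1) ^ 2 * (Q : ℝ) ≤
          4 * ((L : ℝ) + 1) ^ 2 * (c / (8 * ((L : ℝ) + 1) ^ 2) * N ^ 2) := by
        apply mul_le_mul_of_nonneg_left _ (by positivity)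
        exact hQ1.trans (mul_le_mul_of_nonneg_right k1 (by positivity))
      refine k3.trans (le_of_eq ?_)
      field_simp
      ring
    have k4 : 16 * ((L : ℝ) + 1) ^ 3 ≤ c * N := by
      rw [div_lt_iff₀ hc] at hn₃
      nlinarith
    have k5 : c * N ≤ c * N ^ 2 := by
      apply mul_le_mul_of_nonneg_left _ hc.le
      nlinarith
    nlinarith
  have hcond2 : Q' + (5 * Fintype.card V) * (2 * (L + 1)) ≤ Q := by
    have k1 : (20 * ((L : ℝ) + 1) + 2) ≤ ν₀ * N := by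
      rw [div_lt_iff₀ hν₀0] at hn₄
      nlinarith
    have k2 : (20 * ((L : ℝ) + 1) + 2) * N ≤ ν₀ * N ^ 2 := by nlinarith
    have k3 : (Q' : ℝ) + (5 * N) * (2 * ((L : ℝ) + 1)) < (Q : ℝ) + 1 := by nlinarith
    have k4 : ((Q' + (5 * Fintype.card V) * (2 * (L + 1)) : ℕ) : ℝ) < ((Q + 1 : ℕ) : ℝ) := by
      push_cast
      exact k3
    have := Nat.cast_lt.1 k4
    omega
  have hfew := few_bad_all G r hnn
    (fun χ σ => σ = false → ∀ l, α₁ / 2 ≤ mu (cls χ l)) L Q Q' (5 * Fintype.card V) c hc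
    (by
      intro χ σ hadm H hH hHQ
      rw [mem_facs] at hH
      apply hstar V b1 G H hH.1 r hH.2 hdir hr₁ hne χ σ _ hadm
      have k1 : (SPn H χ σ : ℝ) ≤ (Q : ℝ) := by exact_mod_cast hHQ
      refine k1.trans (hQ1.trans ?_)
      exact mul_le_mul_of_nonneg_right (min_le_left _ _) (by positivity))
    hcond1 hcond2
  -- the bad factors are among those
  have hsub : ((facs G r).filter fun H => ¬ ∀ X : Finset V, τ ≤ mu X → mu X ≤ 1 - τ →
        mu X + ν ≤ mu (rn H ν X)) ⊆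
      (facs G r).filter fun H => ∃ χ σ, (σ = false → ∀ l, α₁ / 2 ≤ mu (cls χ l)) ∧
        SPn H χ σ ≤ Q' := by
    intro H hH
    rw [Finset.mem_filter] at hH ⊢
    refine ⟨hH.1, ?_⟩
    by_contra hcon
    push Not at hcon
    apply hH.2
    have hH1 := (mem_facs G r H).1 hH.1
    intro X hX1 hX2
    apply expander_of_SPn H r hH1.2 α₁ ν₁ τ ν hα₁0 hr₁ _ hν₁0 hν0 hνa hνb X hX1 hX2
    intro χ σ hadm
    have k1 := hcon χ σ hadm
    have k2 : (Q' : ℝ) + 1 ≤ (SPn H χ σ : ℝ) := by exact_mod_cast k1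
    rw [hν₁]
    linarith
  have hcard := Finset.card_le_card hsub
  have hcard' : ((((facs G r).filter fun H => ¬ ∀ X : Finset V, τ ≤ mu X → mu X ≤ 1 - τ →
        mu X + ν ≤ mu (rn H ν X)).card : ℕ) : ℝ) ≤
      2 ^ (Fintype.card V + 1) * (((Q' : ℝ) + 1) * ((facs G r).card : ℝ) /
        2 ^ (5 * Fintype.card V)) := by
    refine le_trans ?_ hfew
    exact_mod_cast hcard
  have hQ4 : (Q' : ℝ) + 1 ≤ 4 ^ Fintype.card V := by
    have k1 : (Fintype.card V : ℝ) + 1 ≤ 2 ^ Fintype.card V := by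
      have : Fintype.card V + 1 ≤ 2 ^ Fintype.card V := Nat.lt_two_pow_self
      exact_mod_cast this
    have k2 : ((Fintype.card V : ℝ) + 1) ^ 2 ≤ (2 ^ Fintype.card V) ^ 2 :=
      pow_le_pow_left₀ (by positivity) k1 2
    have k3 : ((2 : ℝ) ^ Fintype.card V) ^ 2 = 4 ^ Fintype.card V := by
      rw [← pow_mul, mul_comm, pow_mul]
      norm_num
    rw [k3] at k2
    have k4 : ν₀ * N ^ 2 ≤ 1 * N ^ 2 := mul_le_mul_of_nonneg_right hν₀1 (by positivity)
    nlinarith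
  have hfin : (((facs G r).filter fun H => ¬ ∀ X : Finset V, τ ≤ mu X → mu X ≤ 1 - τ →
        mu X + ν ≤ mu (rn H ν X)).card : ℝ) * 2 ^ Fintype.card V ≤ ((facs G r).card : ℝ) := by
    have k1 : (2 : ℝ) ^ (Fintype.card V + 1) * (((Q' : ℝ) + 1) * ((facs G r).card : ℝ) /
        2 ^ (5 * Fintype.card V)) ≤ 2 ^ (Fintype.card V + 1) *
        ((4 : ℝ) ^ Fintype.card V * ((facs G r).card : ℝ) / 2 ^ (5 * Fintype.card V)) := by
      apply mul_le_mul_of_nonneg_left _ (by positivity)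
      apply div_le_div_of_nonneg_right _ (by positivity)
      exact mul_le_mul_of_nonneg_right hQ4 (Nat.cast_nonneg _)
    have k2 : (2 : ℝ) ^ (Fintype.card V + 1) *
        ((4 : ℝ) ^ Fintype.card V * ((facs G r).card : ℝ) / 2 ^ (5 * Fintype.card V)) *
        2 ^ Fintype.card V ≤ ((facs G r).card : ℝ) := by
      have e1 : (4 : ℝ) ^ Fintype.card V = 2 ^ (2 * Fintype.card V) := by
        rw [pow_mul]
        norm_num
      rw [e1, ← mul_div_assoc, div_mul_eq_mul_div, div_le_iff₀ (by positivity)]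
      have e2 : (2 : ℝ) ^ (Fintype.card V + 1) * (2 ^ (2 * Fintype.card V) *
          ((facs G r).card : ℝ)) * 2 ^ Fintype.card V =
          ((facs G r).card : ℝ) * 2 ^ (4 * Fintype.card V + 1) := by
        have : 4 * Fintype.card V + 1 = (Fintype.card V + 1) + 2 * Fintype.card V +
          Fintype.card V := by ring
        rw [this, pow_add, pow_add]
        ring
      rw [e2]
      apply mul_le_mul_of_nonneg_left _ (Nat.cast_nonneg _)
      exact pow_le_pow_right₀ (by norm_num) (by omega)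
    exact (mul_le_mul_of_nonneg_right (hcard'.trans k1) (by positivity)).trans k2
  exact_mod_cast hfin

end Pool.Agent.Helper37Ham
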