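import Pool.Agent.Helper37Ham.RF1

set_option autoImplicit false
set_option linter.unusedSectionVars false

/-!
Nearly closed pairs of sets of vertices.
-/

namespace Pool.Agent.Helper37Ham

open Finset SimpleGraph

variable {V : Type} [Fintype V] [DecidableEq V] [Nonempty V]

/-- the basic inequalities for a nearly closed pair -/
theorem closed_basic (G H : SimpleGraph V) (hHG : H ≤ G) (r : ℕ) (hreg : ∀ v, dg H v = r)
    (hdir : ∀ v, Fintype.card V ≤ 2 * dg G v) (PB PR : Finset V) (θ ρ : ℝ)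
    (hρ : ρ = (r : ℝ) / (Fintype.card V : ℝ))
    (h1 : den H PR PBᶜ ≤ θ) (h2 : den (G \ H) PB PRᶜ ≤ θ) :
    ρ * mu PR ≤ den H PB PR + θ ∧ ρ * mu PR ≤ ρ * mu PB + θ ∧
      ρ * mu PR + (1 / 2 - ρ) * mu PB - 2 * θ ≤ mu PB * mu PR := by
  have hden : ∀ Y : Finset V, den H Y univ = ρ * mu Y := by rw [hρ]; exact den_reg H r hreg
  have a1 := den_compl H PR PB
  have a2 := den_compl H PB PR
  have a3 := hden PR
  have a4 := hden PB
  have a5 := den_symm H PR PB
  have a6 := den_nonneg H PB PRᶜ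
  have a7 := den_min G hdir PB
  have a8 := den_sdiff G H hHG PB univ
  have a9 := den_compl (G \ H) PB PR
  have a10 := den_sdiff G H hHG PB PR
  have a11 := den_le_mul G PB PR
  refine ⟨by linarith, by linarith, ?_⟩
  have : (1 / 2 - ρ) * mu PB = mu PB / 2 - ρ * mu PB := by ring
  rw [this]
  linarith

/-- a nearly closed pair that is not tiny has a large first member -/
theorem closed_large (G H : SimpleGraph V) (hHG : H ≤ G) (r : ℕ) (hreg : ∀ v, dg H v = r)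
    (hdir : ∀ v, Fintype.card V ≤ 2 * dg G v) (PB PR : Finset V) (α ξ φ ρ : ℝ)
    (hρ : ρ = (r : ℝ) / (Fintype.card V : ℝ)) (hα : 0 < α) (hαρ : α ≤ ρ) (hξ : 0 < ξ)
    (hρξ : ρ ≤ 1 / 2 - ξ) (hφ : 0 < φ) (hφα : 10 * φ ≤ α)
    (h1 : den H PR PBᶜ ≤ φ * α * ξ / 6) (h2 : den (G \ H) PB PRᶜ ≤ φ * α * ξ / 6)
    (h3 : α / 4 ≤ mu PB + mu PR) :
    ρ < mu PB ∧ 1 / 2 - φ * ξ / 3 ≤ mu PB := by
  obtain ⟨_, i1, i2⟩ := closed_basic G H hHG r hreg hdir PB PR _ ρ hρ h1 h2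
  set b := mu PB with hb
  set p := mu PR with hp
  set θ : ℝ := φ * α * ξ / 6 with hθ
  have hb0 : 0 ≤ b := mu_nonneg PB
  have hp0 : 0 ≤ p := mu_nonneg PR
  have hρ0 : 0 < ρ := by linarith
  have hθ0 : 0 < θ := by positivity
  have hbρ : ρ < b := by
    by_contra hcon
    push Not at hcon
    have j1 : p * (b - ρ) ≤ 0 := mul_nonpos_of_nonneg_of_nonpos hp0 (by linarith)
    have j2 : (1 / 2 - ρ) * b ≤ 2 * θ := by nlinarith
    have j3 : ξ * b ≤ 2 * θ := by
      have : ξ * b ≤ (1 / 2 - ρ) * b := mul_le_mul_of_nonneg_right (by linarith) hb0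
      linarith
    have j4 : b ≤ φ * α / 3 := by
      by_contra h
      push Not at h
      have := mul_lt_mul_of_pos_left h hξ
      rw [hθ] at j3
      nlinarith
    have j5 : p ≤ b + φ * ξ / 6 := by
      by_contra h
      push Not at h
      have k1 : ρ * (b + φ * ξ / 6) < ρ * p := mul_lt_mul_of_pos_left h hρ0
      have k2 : α * (φ * ξ / 6) ≤ ρ * (φ * ξ / 6) :=
        mul_le_mul_of_nonneg_right hαρ (by positivity)
      rw [hθ] at i1
      nlinarith
    have hα1 : α ≤ 1 / 2 := by linarith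
    have hξ1 : ξ ≤ 1 / 2 := by linarith
    have j6 : φ * α ≤ φ * (1 / 2) := mul_le_mul_of_nonneg_left hα1 hφ.le
    have j7 : φ * ξ ≤ φ * (1 / 2) := mul_le_mul_of_nonneg_left hξ1 hφ.le
    linarith
  refine ⟨hbρ, ?_⟩
  have k1 : ρ * (p * (b - ρ)) ≤ (ρ * b + θ) * (b - ρ) := by
    have : ρ * p * (b - ρ) ≤ (ρ * b + θ) * (b - ρ) :=
      mul_le_mul_of_nonneg_right i1 (by linarith)
    nlinarith
  have k2 : ρ * ((1 / 2 - ρ) * b - 2 * θ) ≤ ρ * (p * (b - ρ)) := by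
    apply mul_le_mul_of_nonneg_left _ hρ0.le
    nlinarith
  have k3 : 0 ≤ b * (ρ * (b - 1 / 2) + 2 * θ) := by
    have : θ * ρ ≤ θ * b := mul_le_mul_of_nonneg_left hbρ.le hθ0.le
    nlinarith
  have hb1 : 0 < b := by linarith
  have k4 : 0 ≤ ρ * (b - 1 / 2) + 2 * θ := by
    by_contra h
    push Not at h
    have := mul_neg_of_pos_of_neg hb1 h
    linarith
  by_contra h
  push Not at h
  have k5 : ρ * b < ρ * (1 / 2 - φ * ξ / 3) := mul_lt_mul_of_pos_left h hρ0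
  have k6 : α * (φ * ξ / 3) ≤ ρ * (φ * ξ / 3) := mul_le_mul_of_nonneg_right hαρ (by positivity)
  rw [hθ] at k4
  nlinarith

/-- a nearly closed pair on one side of a partition, with few edges to the other side, yields a
sparse cut of `G` into nearly equal parts -/
theorem closed_cut (G H : SimpleGraph V) (hHG : H ≤ G) (r : ℕ) (hreg : ∀ v, dg H v = r)
    (hdir : ∀ v, Fintype.card V ≤ 2 * dg G v) (PB PR W : Finset V) (α ξ φ γ ρ : ℝ)
    (hρ : ρ = (r : ℝ) / (Fintype.card V : ℝ)) (hα : 0 < α) (hαρ : α ≤ ρ) (hξ : 0 < ξ)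
    (hρξ : ρ ≤ 1 / 2 - ξ) (hφ : 0 < φ) (hφγ : 10 * φ ≤ γ * α) (hγ : γ ≤ 1)
    (h1 : den H PR PBᶜ ≤ φ * α * ξ / 6) (h2 : den (G \ H) PB PRᶜ ≤ φ * α * ξ / 6)
    (h3 : α / 4 ≤ mu PB + mu PR) (h4 : den G PB W ≤ φ * α * ξ / 6)
    (h5 : PB ⊆ Wᶜ) (h6 : PR ⊆ Wᶜ) (h7 : α / 2 ≤ mu W) :
    ∃ C : Finset V, |mu C - 1 / 2| ≤ γ ∧ den G C Cᶜ ≤ γ := by
  have hφα : 10 * φ ≤ α := by nlinarith
  obtain ⟨i0, i1, i2⟩ := closed_basic G H hHG r hreg hdir PB PR _ ρ hρ h1 h2
  obtain ⟨i3, i4⟩ := closed_large G H hHG r hreg hdir PB PR α ξ φ ρ hρ hα hαρ hξ hρξ hφ hφα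
    h1 h2 h3
  have hα1 : α ≤ 1 / 2 := by linarith
  have hξ1 : ξ ≤ 1 / 2 := by linarith
  have hρ0 : 0 < ρ := by linarith
  set θ : ℝ := φ * α * ξ / 6 with hθ
  have hθ0 : 0 < θ := by positivity
  set b := mu PB with hb
  set p := mu PR with hp
  have hb0 : 0 ≤ b := mu_nonneg PB
  have hp0 : 0 ≤ p := mu_nonneg PR
  have hb1 : b ≤ 1 := mu_le_one PB
  have hp1 : p ≤ 1 := mu_le_one PR
  have f1 : φ * ξ ≤ φ * (1 / 2) := mul_le_mul_of_nonneg_left hξ1 hφ.le
  have f2 : 0 < φ * ξ := by positivity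
  -- upper bound for `b`
  have i5 : b ≤ 1 / 2 + φ * ξ / 3 := by
    have j1 := den_min G hdir W
    have j2 := den_compl G W PB
    have j3 := den_symm G W PB
    have j4 := den_le_mul G W PBᶜ
    rw [mu_compl] at j4
    have j5 : mu W * (b - 1 / 2) ≤ θ := by nlinarith
    by_contra h
    push Not at h
    have j6 : α / 2 * (b - 1 / 2) ≤ mu W * (b - 1 / 2) :=
      mul_le_mul_of_nonneg_right h7 (by linarith)
    have j7 : α / 2 * (φ * ξ / 3) < α / 2 * (b - 1 / 2) :=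
      mul_lt_mul_of_pos_left (by linarith) (by linarith)
    rw [hθ] at j5
    nlinarith
  have i6 : p ≤ b + φ * ξ / 6 := by
    by_contra h
    push Not at h
    have k1 : ρ * (b + φ * ξ / 6) < ρ * p := mul_lt_mul_of_pos_left h hρ0
    have k2 : α * (φ * ξ / 6) ≤ ρ * (φ * ξ / 6) :=
      mul_le_mul_of_nonneg_right hαρ (by positivity)
    rw [hθ] at i1
    nlinarith
  have i7 : b - 2 * φ / 3 ≤ p := by
    have j1 : p * (b - ρ) ≤ p * (1 / 2 - ρ + φ * ξ / 3) :=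
      mul_le_mul_of_nonneg_left (by linarith) hp0
    have j2 : p * (φ * ξ / 3) ≤ 1 * (φ * ξ / 3) := mul_le_mul_of_nonneg_right hp1 (by positivity)
    have j3 : (1 / 2 - ρ) * (b - p) ≤ φ * ξ / 3 + 2 * θ := by nlinarith
    by_contra h
    push Not at h
    have j4 : ξ * (b - p) ≤ (1 / 2 - ρ) * (b - p) :=
      mul_le_mul_of_nonneg_right (by linarith) (by linarith)
    have j5 : ξ * (2 * φ / 3) < ξ * (b - p) := mul_lt_mul_of_pos_left (by linarith) hξ
    have j6 : φ * ξ * α ≤ φ * ξ * (1 / 2) := mul_le_mul_of_nonneg_left hα1 f2.le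
    rw [hθ] at j3
    nlinarith
  have hθφ : θ ≤ φ / 24 := by
    have j6 : φ * ξ * α ≤ φ * ξ * (1 / 2) := mul_le_mul_of_nonneg_left hα1 f2.le
    rw [hθ]
    nlinarith
  -- the edges of `PB` go to `PR`
  have i8 : den G PB PRᶜ ≤ φ := by
    have j1 := den_sdiff G H hHG PB PRᶜ
    have j2 := den_compl H PB PR
    have j3 : den H PB univ = ρ * b := by rw [hρ]; exact den_reg H r hreg PB
    have j4 : ρ * b - ρ * p ≤ φ / 3 := by
      have k1 : ρ * (b - p) ≤ ρ * (2 * φ / 3) := mul_le_mul_of_nonneg_left (by linarith) hρ0.le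
      have k2 : ρ * (2 * φ / 3) ≤ 1 / 2 * (2 * φ / 3) :=
        mul_le_mul_of_nonneg_right (by linarith) (by positivity)
      nlinarith
    linarith
  -- the part of `PB` outside `PR` is small
  have hT0 := mu_nonneg (PB \ PR)
  have hRB : mu (PR \ PB) ≤ 1 / 2 - α / 4 := by
    have j1 : (PR \ PB) ⊆ (W ∪ PB)ᶜ := by
      intro v hv
      have k1 := Finset.mem_sdiff.1 hv
      have k2 := h6 k1.1
      rw [Finset.mem_compl] at k2 ⊢
      rw [Finset.mem_union]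
      tauto
    have j2 := mu_mono j1
    rw [mu_compl, mu_add_of_disjoint] at j2
    · nlinarith
    · rw [Finset.disjoint_left]
      intro v hv hv2
      exact (Finset.mem_compl.1 (h5 hv2)) hv
  have i9 : α * mu (PB \ PR) ≤ 8 * φ := by
    have j1 := den_min G hdir (PB \ PR)
    have j2 := den_compl G (PB \ PR) PR
    have j3 := den_mono G (Finset.sdiff_subset : PB \ PR ⊆ PB) (Finset.Subset.refl PRᶜ)
    have j4 := den_split G (PB \ PR) PR PB
    have j5 := den_le_mul G (PB \ PR) (PR \ PB)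
    have j6 : PB \ PR ⊆ PRᶜ := by
      intro v hv
      rw [Finset.mem_compl]
      exact (Finset.mem_sdiff.1 hv).2
    have j7 := den_mono G (Finset.inter_subset_right : PR ∩ PB ⊆ PB) j6
    rw [den_symm G (PR ∩ PB)] at j7
    have j8 : mu (PB \ PR) * mu (PR \ PB) ≤ mu (PB \ PR) * (1 / 2 - α / 4) :=
      mul_le_mul_of_nonneg_left hRB hT0
    nlinarith
  have i10 : mu (PB \ PR) ≤ 8 / 10 * γ := by
    by_contra h
    push Not at h
    have := mul_lt_mul_of_pos_left h hα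
    nlinarith
  have hγφ : φ ≤ γ / 20 := by nlinarith
  refine ⟨PB ∩ PR, ?_, ?_⟩
  · have j1 := mu_split PB PR
    rw [abs_le]
    constructor <;> linarith
  · have j1 := mu_split PB PR
    have j2 := mu_split PR PB
    rw [Finset.inter_comm PR PB] at j2
    have j3 : (PB ∩ PR)ᶜ ⊆ PRᶜ ∪ (PR \ PB) := by
      intro v hv
      simp only [Finset.mem_compl, Finset.mem_inter, Finset.mem_union, Finset.mem_sdiff] at hv ⊢
      tauto
    have j4 := den_mono G (Finset.inter_subset_left : PB ∩ PR ⊆ PB) j3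
    have j5 := den_union_le G PB PRᶜ (PR \ PB)
    have j6 := den_le_right G PB (PR \ PB)
    linarith

/-- a nearly closed pair across a partition, with few edges inside the first side, shows that the
first side is nearly independent and contains about half of the vertices -/
theorem closed_bip (G H : SimpleGraph V) (hHG : H ≤ G) (r : ℕ) (hreg : ∀ v, dg H v = r)
    (hdir : ∀ v, Fintype.card V ≤ 2 * dg G v) (PB PR A : Finset V) (α ξ φ γ ρ : ℝ)
    (hρ : ρ = (r : ℝ) / (Fintype.card V : ℝ)) (hα : 0 < α) (hαρ : α ≤ ρ) (hξ : 0 < ξ)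
    (hρξ : ρ ≤ 1 / 2 - ξ) (hφ : 0 < φ) (hφγ : 10 * φ ≤ γ * α) (hγ : γ ≤ 1)
    (h1 : den H PR PBᶜ ≤ φ * α * ξ / 6) (h2 : den (G \ H) PB PRᶜ ≤ φ * α * ξ / 6)
    (h3 : α / 4 ≤ mu PB + mu PR) (h4 : den G PB A ≤ φ * α * ξ / 6)
    (h5 : PB ⊆ A) :
    |mu A - 1 / 2| ≤ γ ∧ den G A A ≤ γ := by
  have hφα : 10 * φ ≤ α := by nlinarith
  obtain ⟨i3, i4⟩ := closed_large G H hHG r hreg hdir PB PR α ξ φ ρ hρ hα hαρ hξ hρξ hφ hφα
    h1 h2 h3
  have hα1 : α ≤ 1 / 2 := by linarith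
  have hξ1 : ξ ≤ 1 / 2 := by linarith
  have f1 : φ * ξ ≤ φ * (1 / 2) := mul_le_mul_of_nonneg_left hξ1 hφ.le
  have f2 : 0 < φ * ξ := by positivity
  have hγφ : φ ≤ γ / 20 := by nlinarith
  have hθφ : φ * α * ξ / 6 ≤ φ / 24 := by
    have j6 : φ * ξ * α ≤ φ * ξ * (1 / 2) := mul_le_mul_of_nonneg_left hα1 f2.le
    nlinarith
  have j1 := den_min G hdir PB
  have j2 := den_compl G PB A
  have j3 := den_le_mul G PB Aᶜ
  have j4 := mu_mono h5
  rw [mu_compl] at j3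
  have j5 : mu PB * (mu A - 1 / 2) ≤ φ / 24 := by nlinarith
  have hb : 1 / 4 ≤ mu PB := by linarith
  have j6 : mu A ≤ 1 / 2 + φ / 6 := by
    by_contra h
    push Not at h
    have k1 : mu PB * (φ / 6) < mu PB * (mu A - 1 / 2) :=
      mul_lt_mul_of_pos_left (by linarith) (by linarith)
    have k2 : 1 / 4 * (φ / 6) ≤ mu PB * (φ / 6) := mul_le_mul_of_nonneg_right hb (by positivity)
    linarith
  refine ⟨?_, ?_⟩
  · rw [abs_le]
    constructor <;> linarith
  · have k1 := den_split G A A PB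
    have k2 : A ∩ PB = PB := Finset.inter_eq_right.2 h5
    have k3 := mu_split A PB
    rw [k2] at k1 k3
    have k4 := den_le_right G A (A \ PB)
    rw [den_symm G A PB] at k1
    linarith

end Pool.Agent.Helper37Ham
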