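import Mathlib

set_option autoImplicit false
set_option linter.unusedSectionVars false

/-!
Dense digraphs: nearly closed cores and counting walks inside them.
-/

namespace Pool.Agent.Helper37Ham

open Finset

variable {S : Type} [Fintype S] [DecidableEq S]

/-- number of arcs leaving `K` -/
def oute (D : S → S → ℕ) (K : Finset S) : ℕ := ∑ a ∈ K, ∑ b ∈ Kᶜ, D a b

theorem exists_core (D : S → S → ℕ) (N : ℝ) (hN : 0 < N) (hS : (Fintype.card S : ℝ) ≤ 2 * N)
    (κ γ η : ℝ) (hγ : 0 < γ) (T : ℕ) (hT : 2 < ((T : ℝ) + 1) * κ)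
    (hη : 0 < η) (hbig : γ * N ≤ (Fintype.card S : ℝ)) :
    ∃ t ≤ T, ∃ K : Finset S, γ * N ≤ (K.card : ℝ) ∧ (oute D K : ℝ) ≤ 2 ^ t * η * N ^ 2 ∧
      ∀ K' ⊆ K, γ * N ≤ (K'.card : ℝ) → (K'.card : ℝ) ≤ (K.card : ℝ) - κ * N →
        2 ^ (t + 1) * η * N ^ 2 < (oute D K' : ℝ) := by
  by_contra hcon
  push Not at hcon
  have key : ∀ t : ℕ, t ≤ T + 1 → ∃ K : Finset S, γ * N ≤ (K.card : ℝ) ∧
      (K.card : ℝ) ≤ 2 * N - (t : ℝ) * κ * N ∧ (oute D K : ℝ) ≤ 2 ^ t * η * N ^ 2 := by
    intro t
    induction t with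
    | zero =>
      intro _
      refine ⟨univ, ?_, ?_, ?_⟩
      · rw [Finset.card_univ]; exact hbig
      · rw [Finset.card_univ]; push_cast; linarith
      · have : oute D univ = 0 := by
          unfold oute
          rw [Finset.compl_univ]
          simp
        rw [this]
        push_cast
        positivity
    | succ t ih =>
      intro ht
      obtain ⟨K, h1, h2, h3⟩ := ih (by omega)
      obtain ⟨K', h4, h5, h6, h7⟩ := hcon t (by omega) K h1 h3
      refine ⟨K', h5, ?_, h7⟩
      push_cast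
      nlinarith
  obtain ⟨K, h1, h2, _⟩ := key (T + 1) le_rfl
  have h3 : 0 < γ * N := by positivity
  push_cast at h2
  nlinarith

/-- the sets reached in a robust way -/
noncomputable def rob (D : S → S → ℕ) (K : Finset S) (c : ℝ) (R0 : Finset S) : ℕ → Finset S
  | 0 => R0
  | i + 1 => K.filter fun b => b ∈ rob D K c R0 i ∨
      c ≤ ((∑ a ∈ rob D K c R0 i, D a b : ℕ) : ℝ)

theorem rob_subset (D : S → S → ℕ) (K : Finset S) (c : ℝ) (R0 : Finset S) (h : R0 ⊆ K) (i : ℕ) :
    rob D K c R0 i ⊆ K := by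
  cases i with
  | zero => exact h
  | succ i => exact Finset.filter_subset _ _

theorem rob_succ (D : S → S → ℕ) (K : Finset S) (c : ℝ) (R0 : Finset S) (h : R0 ⊆ K) (i : ℕ) :
    rob D K c R0 i ⊆ rob D K c R0 (i + 1) := by
  intro b hb
  rw [rob, Finset.mem_filter]
  exact ⟨rob_subset D K c R0 h i hb, Or.inl hb⟩

theorem rob_grow (D : S → S → ℕ) (hD : ∀ a b, D a b ≤ 1) (N : ℝ) (hN : 0 < N)
    (hS : (Fintype.card S : ℝ) ≤ 2 * N) (K : Finset S) (κ γ η ζ : ℝ)
    (hζ : ζ ≤ η / 4) (hout : (oute D K : ℝ) ≤ η * N ^ 2)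
    (hexp : ∀ K' ⊆ K, γ * N ≤ (K'.card : ℝ) → (K'.card : ℝ) ≤ (K.card : ℝ) - κ * N →
        2 * η * N ^ 2 < (oute D K' : ℝ))
    (hη : 0 < η) (R0 : Finset S) (hR0 : R0 ⊆ K) (hR0c : γ * N ≤ (R0.card : ℝ)) (i : ℕ) :
    (K.card : ℝ) - κ * N < ((rob D K (ζ * N) R0 i).card : ℝ) ∨
      ((i : ℝ) * (η / 4) * N ≤ ((rob D K (ζ * N) R0 i).card : ℝ) ∧
        γ * N ≤ ((rob D K (ζ * N) R0 i).card : ℝ)) := by
  induction i with
  | zero =>
    right
    refine ⟨?_, hR0c⟩
    push_cast
    rw [zero_mul, zero_mul]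
    exact Nat.cast_nonneg _
  | succ i ih =>
    set R := rob D K (ζ * N) R0 i with hR
    set R' := rob D K (ζ * N) R0 (i + 1) with hR'
    have hRR' : R ⊆ R' := rob_succ D K (ζ * N) R0 hR0 i
    have hRK : R ⊆ K := rob_subset D K (ζ * N) R0 hR0 i
    have hcard : (R.card : ℝ) ≤ (R'.card : ℝ) := by exact_mod_cast Finset.card_le_card hRR'
    by_cases hbig : (K.card : ℝ) - κ * N < (R.card : ℝ)
    · left
      linarith
    · rcases ih with ih | ⟨ih1, ih2⟩
      · exact absurd ih hbig
      · push Not at hbig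
        have h1 := hexp R hRK ih2 hbig
        -- arcs from `R` into `K \ R`
        have h2 : oute D R ≤ (∑ b ∈ K \ R, ∑ a ∈ R, D a b) + oute D K := by
          unfold oute
          have e1 : ∑ a ∈ R, ∑ b ∈ Rᶜ, D a b =
              ∑ a ∈ R, ∑ b ∈ Rᶜ ∩ K, D a b + ∑ a ∈ R, ∑ b ∈ Rᶜ \ K, D a b := by
            rw [← Finset.sum_add_distrib]
            exact Finset.sum_congr rfl fun a _ => (Finset.sum_inter_add_sum_sdiff Rᶜ K _).symm
          rw [e1, Finset.sum_comm]
          apply Nat.add_le_add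
          · apply le_of_eq
            apply Finset.sum_congr _ fun _ _ => rfl
            ext b
            simp only [Finset.mem_inter, Finset.mem_compl, Finset.mem_sdiff]
            tauto
          · refine (Finset.sum_le_sum_of_subset hRK).trans ?_
            apply Finset.sum_le_sum
            intro a _
            apply Finset.sum_le_sum_of_subset
            intro b hb
            rw [Finset.mem_compl]
            exact (Finset.mem_sdiff.1 hb).2
        have h3 : (∑ b ∈ K \ R, ∑ a ∈ R, D a b : ℕ) =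
            ∑ b ∈ (K \ R) ∩ R', ∑ a ∈ R, D a b + ∑ b ∈ (K \ R) \ R', ∑ a ∈ R, D a b :=
          (Finset.sum_inter_add_sum_sdiff (K \ R) R' _).symm
        have hR2 : (R.card : ℝ) ≤ 2 * N := by
          have : (R.card : ℝ) ≤ (Fintype.card S : ℝ) := by exact_mod_cast Finset.card_le_univ R
          linarith
        have h4 : ((∑ b ∈ (K \ R) ∩ R', ∑ a ∈ R, D a b : ℕ) : ℝ) ≤
            (((K \ R) ∩ R').card : ℝ) * (2 * N) := by
          push_cast
          rw [← nsmul_eq_mul, ← Finset.sum_const]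
          apply Finset.sum_le_sum
          intro b _
          refine le_trans ?_ hR2
          have : (∑ a ∈ R, D a b : ℕ) ≤ R.card := by
            rw [Finset.card_eq_sum_ones]
            exact Finset.sum_le_sum fun a _ => hD a b
          exact_mod_cast this
        have hc : (((K \ R) \ R').card : ℝ) ≤ 2 * N := by
          have : (((K \ R) \ R').card : ℝ) ≤ (Fintype.card S : ℝ) := by
            exact_mod_cast Finset.card_le_univ _
          linarith
        have h5 : ((∑ b ∈ (K \ R) \ R', ∑ a ∈ R, D a b : ℕ) : ℝ) ≤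
            (((K \ R) \ R').card : ℝ) * (η / 4 * N) := by
          push_cast
          rw [← nsmul_eq_mul, ← Finset.sum_const]
          apply Finset.sum_le_sum
          intro b hb
          rw [Finset.mem_sdiff, Finset.mem_sdiff] at hb
          have hb2 : b ∉ R' := hb.2
          rw [hR', rob, Finset.mem_filter] at hb2
          push Not at hb2
          have h6 := (hb2 hb.1.1).2
          have h7 : ζ * N ≤ η / 4 * N := mul_le_mul_of_nonneg_right hζ hN.le
          push_cast at h6
          linarith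
        have h6 : (((K \ R) \ R').card : ℝ) * (η / 4 * N) ≤ 2 * N * (η / 4 * N) :=
          mul_le_mul_of_nonneg_right hc (by positivity)
        have h7 : (oute D R : ℝ) ≤ ((∑ b ∈ K \ R, ∑ a ∈ R, D a b : ℕ) : ℝ) + (oute D K : ℝ) := by
          exact_mod_cast h2
        rw [h3] at h7
        rw [Nat.cast_add] at h7
        have h8 : η / 4 * N < (((K \ R) ∩ R').card : ℝ) := by
          by_contra h
          push Not at h
          have : (((K \ R) ∩ R').card : ℝ) * (2 * N) ≤ η / 4 * N * (2 * N) :=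
            mul_le_mul_of_nonneg_right h (by positivity)
          nlinarith
        have h9 : (R.card : ℝ) + (((K \ R) ∩ R').card : ℝ) ≤ (R'.card : ℝ) := by
          have : R.card + ((K \ R) ∩ R').card ≤ R'.card := by
            rw [← Finset.card_union_of_disjoint]
            · apply Finset.card_le_card
              intro b hb
              rcases Finset.mem_union.1 hb with h | h
              · exact hRR' h
              · exact (Finset.mem_inter.1 h).2
            · rw [Finset.disjoint_left]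
              intro b hb hb2
              exact (Finset.mem_sdiff.1 (Finset.mem_inter.1 hb2).1).2 hb
          exact_mod_cast this
        right
        refine ⟨?_, by linarith⟩
        push_cast
        nlinarith

theorem rob_full (D : S → S → ℕ) (hD : ∀ a b, D a b ≤ 1) (N : ℝ) (hN : 0 < N)
    (hS : (Fintype.card S : ℝ) ≤ 2 * N) (K : Finset S) (κ γ η ζ : ℝ)
    (hζ : ζ ≤ η / 4) (hout : (oute D K : ℝ) ≤ η * N ^ 2)
    (hexp : ∀ K' ⊆ K, γ * N ≤ (K'.card : ℝ) → (K'.card : ℝ) ≤ (K.card : ℝ) - κ * N →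
        2 * η * N ^ 2 < (oute D K' : ℝ))
    (hη : 0 < η) (R0 : Finset S) (hR0 : R0 ⊆ K) (hR0c : γ * N ≤ (R0.card : ℝ)) (i : ℕ)
    (hi : 2 < (i : ℝ) * (η / 4)) :
    (K.card : ℝ) - κ * N < ((rob D K (ζ * N) R0 i).card : ℝ) := by
  rcases rob_grow D hD N hN hS K κ γ η ζ hζ hout hexp hη R0 hR0 hR0c i with h | ⟨h, _⟩
  · exact h
  · exfalso
    have h1 : ((rob D K (ζ * N) R0 i).card : ℝ) ≤ (Fintype.card S : ℝ) := by
      exact_mod_cast Finset.card_le_univ _
    have h2 : 2 * N < (i : ℝ) * (η / 4) * N := mul_lt_mul_of_pos_right hi hN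
    linarith

/-- number of walks with `i + 1` arcs -/
def wk (D : S → S → ℕ) (z : S) : ℕ → S → ℕ
  | 0, b => D z b
  | i + 1, b => ∑ a, wk D z i a * D a b

/-- weighted number of walks -/
noncomputable def ws (D : S → S → ℕ) (N : ℝ) (z : S) (i : ℕ) (b : S) : ℝ :=
  ∑ l ∈ range (i + 1), (wk D z l b : ℝ) / N ^ l

theorem ws_mono (D : S → S → ℕ) (N : ℝ) (hN : 0 < N) (z : S) (i : ℕ) (b : S) :
    ws D N z i b ≤ ws D N z (i + 1) b := by
  unfold ws
  rw [Finset.sum_range_succ _ (i + 1)]
  have : 0 ≤ (wk D z (i + 1) b : ℝ) / N ^ (i + 1) := by positivity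
  linarith

theorem ws_succ (D : S → S → ℕ) (N : ℝ) (hN : 0 < N) (z : S) (i : ℕ) (b : S) :
    ws D N z (i + 1) b = (D z b : ℝ) + (∑ a, ws D N z i a * (D a b : ℝ)) / N := by
  unfold ws
  rw [Finset.sum_range_succ' _ (i + 1)]
  simp only [pow_zero, div_one, wk]
  rw [add_comm]
  congr 1
  simp only [Finset.sum_mul, Finset.sum_div]
  rw [Finset.sum_comm]
  apply Finset.sum_congr rfl
  intro l _
  push_cast
  rw [Finset.sum_div]
  apply Finset.sum_congr rfl
  intro a _
  rw [pow_succ]
  field_simp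

theorem ws_lower (D : S → S → ℕ) (N : ℝ) (hN : 0 < N) (K : Finset S) (ζ : ℝ)
    (hζ0 : 0 < ζ) (hζ1 : ζ ≤ 1) (z : S) (R0 : Finset S) (hR0 : ∀ b ∈ R0, 1 ≤ D z b) (i : ℕ) :
    ∀ b ∈ rob D K (ζ * N) R0 i, ζ ^ i ≤ ws D N z i b := by
  induction i with
  | zero =>
    intro b hb
    unfold ws
    simp only [zero_add, Finset.sum_range_one, pow_zero, div_one, wk]
    exact_mod_cast hR0 b hb
  | succ i ih =>
    intro b hb
    rw [rob, Finset.mem_filter] at hb
    rcases hb.2 with h | h
    · refine le_trans ?_ ((ih b h).trans (ws_mono D N hN z i b))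
      rw [pow_succ]
      exact mul_le_of_le_one_right (by positivity) hζ1
    · rw [ws_succ D N hN]
      have h1 : ζ ^ i * ((∑ a ∈ rob D K (ζ * N) R0 i, D a b : ℕ) : ℝ) ≤
          ∑ a, ws D N z i a * (D a b : ℝ) := by
        push_cast
        rw [Finset.mul_sum]
        refine (Finset.sum_le_sum fun a ha =>
          mul_le_mul_of_nonneg_right (ih a ha) (Nat.cast_nonneg (D a b))).trans ?_
        apply Finset.sum_le_sum_of_subset_of_nonneg (Finset.subset_univ _)
        intro a _ _
        have : 0 ≤ ws D N z i a := by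
          unfold ws
          positivity
        positivity
      have h2 : ζ ^ i * (ζ * N) ≤ ζ ^ i * ((∑ a ∈ rob D K (ζ * N) R0 i, D a b : ℕ) : ℝ) :=
        mul_le_mul_of_nonneg_left h (by positivity)
      have h3 : ζ ^ (i + 1) ≤ (∑ a, ws D N z i a * (D a b : ℝ)) / N := by
        rw [le_div_iff₀ hN, pow_succ]
        calc ζ ^ i * ζ * N = ζ ^ i * (ζ * N) := by ring
          _ ≤ _ := h2.trans h1
      have h4 : (0 : ℝ) ≤ (D z b : ℝ) := Nat.cast_nonneg _
      linarith

end Pool.Agent.Helper37Ham
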