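import Pool.Agent.Helper37Ham.RF4

set_option autoImplicit false
set_option linter.unusedSectionVars false

/-!
Many closed walks through special arcs.
-/

namespace Pool.Agent.Helper37Ham

open Finset

variable {S : Type} [Fintype S] [DecidableEq S]

theorem closed_weight (D : S → S → ℕ) (hD : ∀ a b, D a b ≤ 1) (s : S → S → ℕ)
    (hs : ∀ a b, s a b ≤ 1) (W0 Z0 : Finset S) (hsW : ∀ a b, s a b ≠ 0 → a ∈ W0 ∧ b ∈ Z0)
    (N : ℝ) (hN : 0 < N)
    (hW0 : (W0.card : ℝ) ≤ N) (hZ0 : (Z0.card : ℝ) ≤ N)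
    (hS : (Fintype.card S : ℝ) ≤ 2 * N) (K : Finset S) (κ γ η ζ : ℝ) (hκ : 0 < κ)
    (hζ0 : 0 < ζ) (hζ1 : ζ ≤ 1)
    (hζ : ζ ≤ η / 4) (hout : (oute D K : ℝ) ≤ η * N ^ 2)
    (hexp : ∀ K' ⊆ K, γ * N ≤ (K'.card : ℝ) → (K'.card : ℝ) ≤ (K.card : ℝ) - κ * N →
        2 * η * N ^ 2 < (oute D K' : ℝ))
    (hη : 0 < η) (i : ℕ) (hi : 2 < (i : ℝ) * (η / 4))
    (hbad : (((K ∩ Z0).filter fun z =>
      ((K.filter fun b => 1 ≤ D z b).card : ℝ) < γ * N).card : ℝ) ≤ κ * N)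
    (hspec : 3 * κ * N ^ 2 ≤ ((∑ z ∈ K, ∑ w ∈ K, s w z : ℕ) : ℝ)) :
    κ * N ^ 2 * ζ ^ i ≤ ∑ z, ∑ w, (s w z : ℝ) * ws D N z i w := by
  have hws0 : ∀ z w, 0 ≤ ws D N z i w := by
    intro z w
    unfold ws
    positivity
  set bad := (K ∩ Z0).filter fun z =>
      ((K.filter fun b => 1 ≤ D z b).card : ℝ) < γ * N with hbadd
  set good := (K ∩ Z0) \ bad with hgood
  -- lower bound for the weight at a good vertex
  have h1 : ∀ z ∈ good, ζ ^ i * (((∑ w ∈ K, s w z : ℕ) : ℝ) - κ * N) ≤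
      ∑ w, (s w z : ℝ) * ws D N z i w := by
    intro z hz
    rw [hgood, Finset.mem_sdiff] at hz
    have hz2 : γ * N ≤ ((K.filter fun b => 1 ≤ D z b).card : ℝ) := by
      by_contra h
      push Not at h
      exact hz.2 (by rw [hbadd, Finset.mem_filter]; exact ⟨hz.1, h⟩)
    set R0 := K.filter fun b => 1 ≤ D z b with hR0
    have hR0K : R0 ⊆ K := Finset.filter_subset _ _
    have h2 := rob_full D hD N hN hS K κ γ η ζ hζ hout hexp hη R0 hR0K hz2 i hi
    set R := rob D K (ζ * N) R0 i with hR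
    have hRK : R ⊆ K := rob_subset D K (ζ * N) R0 hR0K i
    have h3 : ∀ b ∈ R, ζ ^ i ≤ ws D N z i b :=
      ws_lower D N hN K ζ hζ0 hζ1 z R0 (fun b hb => (Finset.mem_filter.1 hb).2) i
    have h4 : (∑ w ∈ K, s w z : ℕ) ≤ ∑ w ∈ R, s w z + (K \ R).card := by
      rw [← Finset.sum_sdiff hRK, add_comm]
      apply Nat.add_le_add_left
      rw [Finset.card_eq_sum_ones]
      exact Finset.sum_le_sum fun w _ => hs w z
    have h5 : ((K \ R).card : ℝ) ≤ κ * N := by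
      have : (K \ R).card + R.card = K.card := Finset.card_sdiff_add_card_eq_card hRK
      have h6 : ((K \ R).card : ℝ) + (R.card : ℝ) = (K.card : ℝ) := by exact_mod_cast this
      linarith
    have h6 : ((∑ w ∈ K, s w z : ℕ) : ℝ) - κ * N ≤ ((∑ w ∈ R, s w z : ℕ) : ℝ) := by
      have : ((∑ w ∈ K, s w z : ℕ) : ℝ) ≤
          ((∑ w ∈ R, s w z : ℕ) : ℝ) + ((K \ R).card : ℝ) := by exact_mod_cast h4
      linarith
    calc ζ ^ i * (((∑ w ∈ K, s w z : ℕ) : ℝ) - κ * N)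
        ≤ ζ ^ i * ((∑ w ∈ R, s w z : ℕ) : ℝ) := mul_le_mul_of_nonneg_left h6 (by positivity)
      _ = ∑ w ∈ R, (s w z : ℝ) * ζ ^ i := by
          push_cast
          rw [Finset.mul_sum]
          exact Finset.sum_congr rfl fun w _ => mul_comm _ _
      _ ≤ ∑ w ∈ R, (s w z : ℝ) * ws D N z i w :=
          Finset.sum_le_sum fun w hw => mul_le_mul_of_nonneg_left (h3 w hw) (Nat.cast_nonneg _)
      _ ≤ ∑ w, (s w z : ℝ) * ws D N z i w := by
          apply Finset.sum_le_sum_of_subset_of_nonneg (Finset.subset_univ _)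
          intro w _ _
          exact mul_nonneg (Nat.cast_nonneg _) (hws0 z w)
  -- the bad vertices carry little
  have h2 : ∀ z, (∑ w ∈ K, s w z : ℕ) ≤ W0.card := by
    intro z
    calc (∑ w ∈ K, s w z : ℕ) ≤ ∑ w, s w z := Finset.sum_le_sum_of_subset (Finset.subset_univ _)
      _ = ∑ w ∈ W0, s w z := by
          symm
          apply Finset.sum_subset (Finset.subset_univ _)
          intro w _ hw
          by_contra h
          exact hw (hsW w z h).1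
      _ ≤ ∑ w ∈ W0, 1 := Finset.sum_le_sum fun w _ => hs w z
      _ = W0.card := by simp
  have h3 : (∑ z ∈ K, ∑ w ∈ K, s w z : ℕ) =
      ∑ z ∈ good, ∑ w ∈ K, s w z + ∑ z ∈ bad, ∑ w ∈ K, s w z := by
    have e1 : bad ⊆ K ∩ Z0 := Finset.filter_subset _ _
    rw [hgood, Finset.sum_sdiff e1]
    symm
    apply Finset.sum_subset Finset.inter_subset_left
    intro z hz hz2
    apply Finset.sum_eq_zero
    intro w _
    by_contra h
    exact hz2 (Finset.mem_inter.2 ⟨hz, (hsW w z h).2⟩)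
  have h4 : ((∑ z ∈ bad, ∑ w ∈ K, s w z : ℕ) : ℝ) ≤ κ * N * N := by
    have e1 : (∑ z ∈ bad, ∑ w ∈ K, s w z : ℕ) ≤ bad.card * W0.card := by
      rw [← smul_eq_mul, ← Finset.sum_const]
      exact Finset.sum_le_sum fun z _ => h2 z
    have e2 : ((∑ z ∈ bad, ∑ w ∈ K, s w z : ℕ) : ℝ) ≤ (bad.card : ℝ) * (W0.card : ℝ) := by
      exact_mod_cast e1
    refine e2.trans ?_
    have e3 : (0 : ℝ) ≤ (W0.card : ℝ) := Nat.cast_nonneg _
    have e4 : 0 ≤ κ * N := by positivity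
    calc (bad.card : ℝ) * (W0.card : ℝ) ≤ κ * N * (W0.card : ℝ) :=
          mul_le_mul_of_nonneg_right hbad e3
      _ ≤ κ * N * N := mul_le_mul_of_nonneg_left hW0 e4
  have hgc : (good.card : ℝ) ≤ N := by
    have : good.card ≤ Z0.card := by
      apply Finset.card_le_card
      intro z hz
      rw [hgood, Finset.mem_sdiff, Finset.mem_inter] at hz
      exact hz.1.2
    have : (good.card : ℝ) ≤ (Z0.card : ℝ) := by exact_mod_cast this
    linarith
  have h5 : κ * N ^ 2 ≤ ∑ z ∈ good, (((∑ w ∈ K, s w z : ℕ) : ℝ) - κ * N) := by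
    rw [Finset.sum_sub_distrib, Finset.sum_const, nsmul_eq_mul]
    have e1 : ((∑ z ∈ K, ∑ w ∈ K, s w z : ℕ) : ℝ) =
        ∑ z ∈ good, ((∑ w ∈ K, s w z : ℕ) : ℝ) + ((∑ z ∈ bad, ∑ w ∈ K, s w z : ℕ) : ℝ) := by
      rw [h3]
      push_cast
      rfl
    have e2 : (good.card : ℝ) * (κ * N) ≤ N * (κ * N) :=
      mul_le_mul_of_nonneg_right hgc (by positivity)
    nlinarith
  calc κ * N ^ 2 * ζ ^ i = ζ ^ i * (κ * N ^ 2) := by ring
    _ ≤ ζ ^ i * ∑ z ∈ good, (((∑ w ∈ K, s w z : ℕ) : ℝ) - κ * N) :=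
        mul_le_mul_of_nonneg_left h5 (by positivity)
    _ = ∑ z ∈ good, ζ ^ i * (((∑ w ∈ K, s w z : ℕ) : ℝ) - κ * N) := by rw [Finset.mul_sum]
    _ ≤ ∑ z ∈ good, ∑ w, (s w z : ℝ) * ws D N z i w := Finset.sum_le_sum h1
    _ ≤ ∑ z, ∑ w, (s w z : ℝ) * ws D N z i w := by
        apply Finset.sum_le_sum_of_subset_of_nonneg (Finset.subset_univ _)
        intro z _ _
        apply Finset.sum_nonneg
        intro w _
        exact mul_nonneg (Nat.cast_nonneg _) (hws0 z w)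

/-- some length carries a fair share -/
theorem closed_length (D : S → S → ℕ) (s : S → S → ℕ) (N : ℝ) (hN : 0 < N) (κ ζ : ℝ) (i : ℕ)
    (h : κ * N ^ 2 * ζ ^ i ≤ ∑ z, ∑ w, (s w z : ℝ) * ws D N z i w) :
    ∃ l ≤ i, κ * ζ ^ i / ((i : ℝ) + 1) * N ^ (l + 2) ≤
      ((∑ z, ∑ w, s w z * wk D z l w : ℕ) : ℝ) := by
  by_contra hcon
  push Not at hcon
  have h1 : ∑ z, ∑ w, (s w z : ℝ) * ws D N z i w =
      ∑ l ∈ range (i + 1), ((∑ z, ∑ w, s w z * wk D z l w : ℕ) : ℝ) / N ^ l := by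
    unfold ws
    push_cast
    simp only [Finset.mul_sum, Finset.sum_div]
    rw [Finset.sum_congr rfl fun z _ => Finset.sum_comm, Finset.sum_comm]
    apply Finset.sum_congr rfl
    intro l _
    apply Finset.sum_congr rfl
    intro z _
    apply Finset.sum_congr rfl
    intro w _
    ring
  rw [h1] at h
  have h2 : ∑ l ∈ range (i + 1), ((∑ z, ∑ w, s w z * wk D z l w : ℕ) : ℝ) / N ^ l <
      ∑ l ∈ range (i + 1), κ * ζ ^ i / ((i : ℝ) + 1) * N ^ 2 := by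
    apply Finset.sum_lt_sum_of_nonempty ⟨0, by simp⟩
    intro l hl
    have := hcon l (by rw [Finset.mem_range] at hl; omega)
    rw [div_lt_iff₀ (by positivity)]
    refine this.trans_le (le_of_eq ?_)
    rw [pow_add]
    ring
  rw [Finset.sum_const, Finset.card_range, nsmul_eq_mul, Nat.cast_add, Nat.cast_one] at h2
  have h3 : ((i : ℝ) + 1) * (κ * ζ ^ i / ((i : ℝ) + 1) * N ^ 2) = κ * N ^ 2 * ζ ^ i := by
    have : ((i : ℝ) + 1) ≠ 0 := by positivity
    field_simp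
  rw [h3] at h2
  linarith

end Pool.Agent.Helper37Ham
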