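import Pool.Agent.Helper37Ham.RF3
import Pool.Agent.Helper37Ham.RF5

set_option autoImplicit false
set_option linter.unusedSectionVars false

/-!
The digraph of alternating steps.
-/

namespace Pool.Agent.Helper37Ham

open Finset SimpleGraph

variable {V : Type} [Fintype V] [DecidableEq V]

/-- number of ordered special pairs that are adjacent -/
noncomputable def SPn (F : SimpleGraph V) (χ : V → Bool) (σ : Bool) : ℕ :=
  ∑ u, ∑ v, if xor (χ u) (χ v) ≠ σ then ad F u v else 0

/-- the digraph of alternating steps: from a vertex waiting for an edge of `G \ H` to a vertex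
waiting for an edge of `H`, and back along non-special edges of `H` -/
noncomputable def DD (G H : SimpleGraph V) (χ : V → Bool) (σ : Bool) (a b : V × Bool) : ℕ :=
  if a.2 = true ∧ b.2 = false then ad (G \ H) a.1 b.1
  else if a.2 = false ∧ b.2 = true ∧ xor (χ a.1) (χ b.1) = σ then ad H a.1 b.1 else 0

/-- the special arcs -/
noncomputable def sg (G H : SimpleGraph V) (χ : V → Bool) (σ : Bool) (a b : V × Bool) : ℕ :=
  if a.2 = true ∧ b.2 = false ∧ xor (χ a.1) (χ b.1) ≠ σ then ad (G \ H) a.1 b.1 else 0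

theorem DD_le (G H : SimpleGraph V) (χ : V → Bool) (σ : Bool) (a b : V × Bool) :
    DD G H χ σ a b ≤ 1 := by
  unfold DD
  split_ifs
  · exact ad_le_one _ _ _
  · exact ad_le_one _ _ _
  · omega

theorem sg_le (G H : SimpleGraph V) (χ : V → Bool) (σ : Bool) (a b : V × Bool) :
    sg G H χ σ a b ≤ 1 := by
  unfold sg
  split_ifs
  · exact ad_le_one _ _ _
  · omega

theorem oute_eq (G H : SimpleGraph V) (χ : V → Bool) (σ : Bool) (K : Finset (V × Bool)) :
    oute (DD G H χ σ) K = ∑ u, ∑ v,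
      ((if (u, true) ∈ K ∧ (v, false) ∉ K then ad (G \ H) u v else 0) +
        (if (u, false) ∈ K ∧ (v, true) ∉ K ∧ xor (χ u) (χ v) = σ then ad H u v else 0)) := by
  unfold oute
  have e1 : ∀ f : V × Bool → ℕ, ∑ a ∈ K, f a = ∑ a, if a ∈ K then f a else 0 := by
    intro f
    rw [Finset.sum_ite_mem, Finset.univ_inter]
  have e2 : ∀ f : V × Bool → ℕ, ∑ a ∈ Kᶜ, f a = ∑ a, if a ∉ K then f a else 0 := by
    intro f
    rw [← Finset.sum_filter]
    apply Finset.sum_congr _ fun _ _ => rfl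
    ext a
    simp
  rw [e1]
  simp only [e2, Fintype.sum_prod_type, Fintype.sum_bool, DD]
  apply Finset.sum_congr rfl
  intro u _
  by_cases h1 : (u, true) ∈ K <;> by_cases h2 : (u, false) ∈ K <;>
    simp [h1, h2, Finset.sum_add_distrib, ite_and]

theorem spec_eq (G H : SimpleGraph V) (χ : V → Bool) (σ : Bool) (K : Finset (V × Bool)) :
    ∑ z ∈ K, ∑ w ∈ K, sg G H χ σ w z = ∑ u, ∑ v,
      (if (u, true) ∈ K ∧ (v, false) ∈ K ∧ xor (χ u) (χ v) ≠ σ then ad (G \ H) u v else 0) := by
  have e1 : ∀ f : V × Bool → ℕ, ∑ a ∈ K, f a = ∑ a, if a ∈ K then f a else 0 := by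
    intro f
    rw [Finset.sum_ite_mem, Finset.univ_inter]
  rw [Finset.sum_comm, e1]
  simp only [e1, Fintype.sum_prod_type, Fintype.sum_bool, sg]
  apply Finset.sum_congr rfl
  intro u _
  by_cases h1 : (u, true) ∈ K <;> simp [h1, ite_and]

theorem ee_ite (F : SimpleGraph V) (X Y : Finset V) :
    ee F X Y = ∑ u, ∑ v, if u ∈ X ∧ v ∈ Y then ad F u v else 0 := by
  unfold ee
  rw [← Finset.univ_inter X, ← Finset.sum_ite_mem]
  apply Finset.sum_congr rfl
  intro u _
  by_cases h : u ∈ X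
  · rw [if_pos (by simpa using h)]
    simp only [Finset.univ_inter, h, true_and]
    rw [Finset.sum_ite_mem, Finset.univ_inter]
  · rw [if_neg (by simpa using h)]
    simp [h]

section
variable (G H : SimpleGraph V) (χ : V → Bool) (σ : Bool) (K : Finset (V × Bool)) (l : Bool)

/-- the vertices waiting for an edge of `G \ H`, with label `l` -/
def PBs : Finset V := univ.filter fun v => (v, true) ∈ K ∧ χ v = l

/-- the vertices waiting for an edge of `H`, with label `l` -/
def PRs : Finset V := univ.filter fun u => (u, false) ∈ K ∧ xor (χ u) σ = l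

/-- the vertices forming special pairs with the vertices of label `l` -/
def Zs : Finset V := univ.filter fun u => xor l (χ u) ≠ σ

theorem ee_red : ee H (PRs χ σ K l) (PBs χ K l)ᶜ ≤ SPn H χ σ + oute (DD G H χ σ) K := by
  rw [ee_ite, oute_eq]
  unfold SPn
  rw [← Finset.sum_add_distrib]
  apply Finset.sum_le_sum
  intro u _
  rw [← Finset.sum_add_distrib]
  apply Finset.sum_le_sum
  intro v _
  by_cases h : u ∈ PRs χ σ K l ∧ v ∈ (PBs χ K l)ᶜ
  · rw [if_pos h]
    obtain ⟨h1, h2⟩ := h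
    simp only [PRs, PBs, Finset.mem_filter, Finset.mem_univ, true_and, Finset.mem_compl] at h1 h2
    by_cases h3 : xor (χ u) (χ v) = σ
    · have h4 : (v, true) ∉ K := by
        intro h5
        apply h2
        refine ⟨h5, ?_⟩
        rw [← h1.2, ← h3]
        cases χ u <;> cases χ v <;> rfl
      rw [if_neg (not_not.2 h3), if_pos (⟨h1.1, h4, h3⟩ : (u, false) ∈ K ∧ (v, true) ∉ K ∧
        xor (χ u) (χ v) = σ)]
      omega
    · rw [if_pos h3]
      omega
  · rw [if_neg h]
    omega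

theorem ee_blue : ee (G \ H) (PBs χ K l) (PRs χ σ K l)ᶜ ≤
    (∑ z ∈ K, ∑ w ∈ K, sg G H χ σ w z) + oute (DD G H χ σ) K := by
  rw [ee_ite, oute_eq, spec_eq]
  rw [← Finset.sum_add_distrib]
  apply Finset.sum_le_sum
  intro u _
  rw [← Finset.sum_add_distrib]
  apply Finset.sum_le_sum
  intro v _
  by_cases h : u ∈ PBs χ K l ∧ v ∈ (PRs χ σ K l)ᶜ
  · rw [if_pos h]
    obtain ⟨h1, h2⟩ := h
    simp only [PRs, PBs, Finset.mem_filter, Finset.mem_univ, true_and, Finset.mem_compl] at h1 h2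
    by_cases h3 : (v, false) ∈ K
    · have h4 : xor (χ u) (χ v) ≠ σ := by
        intro h5
        apply h2
        refine ⟨h3, ?_⟩
        rw [← h1.2, ← h5]
        cases χ u <;> cases χ v <;> rfl
      rw [if_pos (⟨h1.1, h3, h4⟩ : (u, true) ∈ K ∧ (v, false) ∈ K ∧ xor (χ u) (χ v) ≠ σ)]
      omega
    · rw [if_pos (⟨h1.1, h3⟩ : (u, true) ∈ K ∧ (v, false) ∉ K)]
      omega
  · rw [if_neg h]
    omega

theorem ee_spec (hHG : H ≤ G) : ee G (PBs χ K l) (Zs χ σ l) ≤
    SPn H χ σ + (∑ z ∈ K, ∑ w ∈ K, sg G H χ σ w z) + oute (DD G H χ σ) K := by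
  rw [ee_ite, oute_eq, spec_eq]
  unfold SPn
  rw [← Finset.sum_add_distrib, ← Finset.sum_add_distrib]
  apply Finset.sum_le_sum
  intro u _
  rw [← Finset.sum_add_distrib, ← Finset.sum_add_distrib]
  apply Finset.sum_le_sum
  intro v _
  by_cases h : u ∈ PBs χ K l ∧ v ∈ Zs χ σ l
  · rw [if_pos h]
    obtain ⟨h1, h2⟩ := h
    simp only [PBs, Zs, Finset.mem_filter, Finset.mem_univ, true_and] at h1 h2
    rw [← h1.2] at h2
    rw [if_pos h2, ad_sdiff G H hHG]
    by_cases h3 : (v, false) ∈ K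
    · rw [if_pos (⟨h1.1, h3, h2⟩ : (u, true) ∈ K ∧ (v, false) ∈ K ∧ xor (χ u) (χ v) ≠ σ)]
      omega
    · rw [if_pos (⟨h1.1, h3⟩ : (u, true) ∈ K ∧ (v, false) ∉ K)]
      omega
  · rw [if_neg h]
    omega

theorem card_states : K.card ≤ (PBs χ K true).card + (PRs χ σ K true).card +
    ((PBs χ K false).card + (PRs χ σ K false).card) := by
  have e1 : K.card = ∑ v : V, ((if (v, true) ∈ K then 1 else 0) +
      (if (v, false) ∈ K then 1 else 0)) := by
    rw [Finset.card_eq_sum_ones, ← Finset.univ_inter K, ← Finset.sum_ite_mem,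
      Fintype.sum_prod_type]
    simp only [Finset.univ_inter, Fintype.sum_bool]
  rw [e1]
  simp only [PBs, PRs, Finset.card_filter]
  rw [← Finset.sum_add_distrib, ← Finset.sum_add_distrib, ← Finset.sum_add_distrib]
  apply Finset.sum_le_sum
  intro v _
  by_cases h1 : (v, true) ∈ K <;> by_cases h2 : (v, false) ∈ K <;> cases χ v <;> cases σ <;>
    simp [h1, h2]

end

end Pool.Agent.Helper37Ham
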