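import Pool.Agent.Helper37Ham.RF6

set_option autoImplicit false
set_option linter.unusedSectionVars false

/-!
Closed alternating tuples and their number.
-/

namespace Pool.Agent.Helper37Ham

open Finset SimpleGraph

variable {V : Type} [Fintype V] [DecidableEq V]

theorem sum_cons {α : Type} [Fintype α] (k : ℕ) (F : (Fin (k + 1) → α) → ℕ) :
    ∑ g, F g = ∑ a, ∑ f : Fin k → α, F (Fin.cons a f) := by
  rw [← Fintype.sum_prod_type (fun x : α × (Fin k → α) => F (Fin.cons x.1 x.2))]
  exact (Fintype.sum_equiv (Fin.consEquiv (fun _ => α)) _ _ (fun _ => rfl)).symm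

/-- the non-special edges of `H` -/
noncomputable def RR (H : SimpleGraph V) (χ : V → Bool) (σ : Bool) (u v : V) : ℕ :=
  if xor (χ u) (χ v) = σ then ad H u v else 0

theorem RR_le (H : SimpleGraph V) (χ : V → Bool) (σ : Bool) (u v : V) : RR H χ σ u v ≤ 1 := by
  unfold RR
  split_ifs
  · exact ad_le_one _ _ _
  · omega

/-- weight of the alternating walks from `z` to `w` with `k` steps in `G \ H` -/
noncomputable def Aw (G H : SimpleGraph V) (χ : V → Bool) (σ : Bool) (k : ℕ) (z w : V) : ℕ :=
  ∑ f : Fin k → V × V,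
    (∏ i : Fin (k + 1), RR H χ σ
      ((Fin.snoc (fun j => (f j).2) z : Fin (k + 1) → V) i)
      ((Fin.cons w (fun j => (f j).1) : Fin (k + 1) → V) i)) *
    ∏ i, ad (G \ H) (f i).1 (f i).2

theorem Aw_zero (G H : SimpleGraph V) (χ : V → Bool) (σ : Bool) (z w : V) :
    Aw G H χ σ 0 z w = RR H χ σ z w := by
  unfold Aw
  rw [Fintype.sum_unique]
  rw [Fin.prod_univ_succ]
  simp only [Finset.univ_eq_empty, Finset.prod_empty, mul_one]
  rw [Fin.snoc_zero, Fin.cons_zero]

theorem Aw_succ (G H : SimpleGraph V) (χ : V → Bool) (σ : Bool) (k : ℕ) (z w : V) :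
    Aw G H χ σ (k + 1) z w =
      ∑ v, (∑ u, Aw G H χ σ k z u * ad (G \ H) u v) * RR H χ σ v w := by
  have h1 : Aw G H χ σ (k + 1) z w =
      ∑ u, ∑ v, Aw G H χ σ k z u * ad (G \ H) u v * RR H χ σ v w := by
    conv_lhs => unfold Aw
    rw [sum_cons, Fintype.sum_prod_type]
    apply Finset.sum_congr rfl
    intro u _
    apply Finset.sum_congr rfl
    intro v _
    unfold Aw
    rw [Finset.sum_mul, Finset.sum_mul]
    apply Finset.sum_congr rfl
    intro f _
    have e1 : (fun j => ((Fin.cons (u, v) f : Fin (k + 1) → V × V) j).2) =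
        (Fin.cons v (fun j => (f j).2) : Fin (k + 1) → V) := by
      funext j
      refine Fin.cases ?_ (fun i => ?_) j <;> simp
    have e2 : (fun j => ((Fin.cons (u, v) f : Fin (k + 1) → V × V) j).1) =
        (Fin.cons u (fun j => (f j).1) : Fin (k + 1) → V) := by
      funext j
      refine Fin.cases ?_ (fun i => ?_) j <;> simp
    have p1 : (∏ i : Fin (k + 1 + 1), RR H χ σ
        ((Fin.snoc (fun j => ((Fin.cons (u, v) f : Fin (k + 1) → V × V) j).2) z :
          Fin (k + 1 + 1) → V) i)
        ((Fin.cons w (fun j => ((Fin.cons (u, v) f : Fin (k + 1) → V × V) j).1) :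
          Fin (k + 1 + 1) → V) i)) = RR H χ σ v w * ∏ i : Fin (k + 1), RR H χ σ
        ((Fin.snoc (fun j => (f j).2) z : Fin (k + 1) → V) i)
        ((Fin.cons u (fun j => (f j).1) : Fin (k + 1) → V) i) := by
      rw [e1, e2, ← Fin.cons_snoc_eq_snoc_cons, Fin.prod_univ_succ]
      simp only [Fin.cons_zero, Fin.cons_succ]
    have p2 : (∏ i : Fin (k + 1), ad (G \ H) ((Fin.cons (u, v) f : Fin (k + 1) → V × V) i).1
        ((Fin.cons (u, v) f : Fin (k + 1) → V × V) i).2) =
        ad (G \ H) u v * ∏ i, ad (G \ H) (f i).1 (f i).2 := by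
      rw [Fin.prod_univ_succ]
      simp only [Fin.cons_zero, Fin.cons_succ]
    rw [p1, p2]
    ring
  rw [h1, Finset.sum_comm]
  apply Finset.sum_congr rfl
  intro v _
  rw [Finset.sum_mul]

theorem wk_even (G H : SimpleGraph V) (χ : V → Bool) (σ : Bool) (z : V) (k : ℕ) :
    (∀ w, wk (DD G H χ σ) (z, false) (2 * k) (w, true) = Aw G H χ σ k z w) ∧
    (∀ w, wk (DD G H χ σ) (z, false) (2 * k) (w, false) = 0) := by
  induction k with
  | zero =>
    refine ⟨fun w => ?_, fun w => ?_⟩
    · rw [Aw_zero]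
      simp [wk, DD, RR]
    · simp [wk, DD]
  | succ k ih =>
    obtain ⟨ih1, ih2⟩ := ih
    have h1 : ∀ v, wk (DD G H χ σ) (z, false) (2 * k + 1) (v, false) =
        ∑ u, Aw G H χ σ k z u * ad (G \ H) u v := by
      intro v
      rw [wk, Fintype.sum_prod_type]
      apply Finset.sum_congr rfl
      intro u _
      rw [Fintype.sum_bool, ih1, ih2]
      simp [DD]
    have h2 : ∀ v, wk (DD G H χ σ) (z, false) (2 * k + 1) (v, true) = 0 := by
      intro v
      rw [wk, Fintype.sum_prod_type]
      apply Finset.sum_eq_zero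
      intro u _
      rw [Fintype.sum_bool, ih1, ih2]
      simp [DD]
    refine ⟨fun w => ?_, fun w => ?_⟩
    · rw [Aw_succ, show 2 * (k + 1) = 2 * k + 1 + 1 by ring, wk, Fintype.sum_prod_type]
      apply Finset.sum_congr rfl
      intro v _
      rw [Fintype.sum_bool, h1, h2]
      simp [DD, RR]
    · rw [show 2 * (k + 1) = 2 * k + 1 + 1 by ring, wk, Fintype.sum_prod_type]
      apply Finset.sum_eq_zero
      intro v _
      rw [Fintype.sum_bool, h1, h2]
      simp [DD]

theorem wk_odd (G H : SimpleGraph V) (χ : V → Bool) (σ : Bool) (z w : V) (k : ℕ) :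
    wk (DD G H χ σ) (z, false) (2 * k + 1) (w, true) = 0 := by
  obtain ⟨ih1, ih2⟩ := wk_even G H χ σ z k
  rw [wk, Fintype.sum_prod_type]
  apply Finset.sum_eq_zero
  intro u _
  rw [Fintype.sum_bool, ih1, ih2]
  simp [DD]

/-- closed alternating tuples beginning with a special edge of `G \ H` -/
def Fwd (G H : SimpleGraph V) (χ : V → Bool) (σ : Bool) (k : ℕ) (g : Fin (k + 1) → V × V) :
    Prop :=
  (∀ i, (G \ H).Adj (g i).1 (g i).2) ∧
  (∀ i, H.Adj (g (finRotate (k + 1) i)).2 (g i).1) ∧
  (∀ i, xor (χ (g (finRotate (k + 1) i)).2) (χ (g i).1) = σ) ∧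
  xor (χ (g 0).1) (χ (g 0).2) ≠ σ

open Classical in
/-- the number of closed walks is the number of closed alternating tuples -/
theorem count_walks (G H : SimpleGraph V) (χ : V → Bool) (σ : Bool) (k : ℕ) :
    (∑ z, ∑ w, sg G H χ σ w z * wk (DD G H χ σ) z (2 * k) w) ≤
      (univ.filter fun g : Fin (k + 1) → V × V => Fwd G H χ σ k g).card := by
  have h1 : (∑ z, ∑ w, sg G H χ σ w z * wk (DD G H χ σ) z (2 * k) w) =
      ∑ w : V, ∑ z : V, (if xor (χ w) (χ z) ≠ σ then ad (G \ H) w z else 0) *
        Aw G H χ σ k z w := by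
    rw [Finset.sum_comm (γ := V)]
    rw [Fintype.sum_prod_type]
    apply Finset.sum_congr rfl
    intro z _
    rw [Fintype.sum_bool]
    have e1 : ∑ w : V × Bool, sg G H χ σ w (z, true) *
        wk (DD G H χ σ) (z, true) (2 * k) w = 0 := by
      apply Finset.sum_eq_zero
      intro w _
      simp [sg]
    rw [e1, zero_add, Fintype.sum_prod_type]
    apply Finset.sum_congr rfl
    intro w _
    rw [Fintype.sum_bool, (wk_even G H χ σ z k).1]
    simp [sg]
  rw [h1]
  have h2 : (univ.filter fun g : Fin (k + 1) → V × V => Fwd G H χ σ k g).card =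
      ∑ g : Fin (k + 1) → V × V, if Fwd G H χ σ k g then 1 else 0 := by
    rw [Finset.card_filter]
  rw [h2, sum_cons, Fintype.sum_prod_type]
  apply Finset.sum_le_sum
  intro w _
  apply Finset.sum_le_sum
  intro z _
  unfold Aw
  rw [Finset.mul_sum]
  apply Finset.sum_le_sum
  intro f _
  -- a nonzero product forces the tuple to be closed alternating
  by_cases hF : Fwd G H χ σ k (Fin.cons (w, z) f)
  · rw [if_pos hF]
    have b1 : (if xor (χ w) (χ z) ≠ σ then ad (G \ H) w z else 0) ≤ 1 := by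
      split_ifs
      · exact ad_le_one _ _ _
      · omega
    have b2 : ∏ i : Fin (k + 1), RR H χ σ
      ((Fin.snoc (fun j => (f j).2) z : Fin (k + 1) → V) i)
      ((Fin.cons w (fun j => (f j).1) : Fin (k + 1) → V) i) ≤ 1 :=
      Finset.prod_le_one' fun i _ => RR_le _ _ _ _ _
    have b3 : ∏ i, ad (G \ H) (f i).1 (f i).2 ≤ 1 :=
      Finset.prod_le_one' fun i _ => ad_le_one _ _ _
    calc _ ≤ 1 * (1 * 1) := Nat.mul_le_mul b1 (Nat.mul_le_mul b2 b3)
      _ = 1 := by norm_num
  · rw [if_neg hF]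
    apply le_of_eq
    by_contra hne
    apply hF
    have c1 := left_ne_zero_of_mul hne
    have c2 := right_ne_zero_of_mul hne
    have c3 := Finset.prod_ne_zero_iff.1 (left_ne_zero_of_mul c2)
    have c4 := Finset.prod_ne_zero_iff.1 (right_ne_zero_of_mul c2)
    have d1 : xor (χ w) (χ z) ≠ σ := by
      intro h
      apply c1
      rw [if_neg (not_not.2 h)]
    rw [if_pos d1] at c1
    have e1 : ∀ i, (Fin.snoc (fun j => (f j).2) z : Fin (k + 1) → V) i =
        ((Fin.cons (w, z) f : Fin (k + 1) → V × V) (finRotate (k + 1) i)).2 := by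
      intro i
      rw [Fin.snoc_eq_cons_rotate]
      beta_reduce
      generalize finRotate (k + 1) i = m
      refine Fin.cases ?_ (fun j => ?_) m <;> simp
    have e2 : ∀ i, (Fin.cons w (fun j => (f j).1) : Fin (k + 1) → V) i =
        ((Fin.cons (w, z) f : Fin (k + 1) → V × V) i).1 := by
      intro i
      refine Fin.cases ?_ (fun j => ?_) i <;> simp
    refine ⟨?_, ?_, ?_, ?_⟩
    · intro i
      refine Fin.cases ?_ (fun j => ?_) i
      · simp only [Fin.cons_zero]
        exact ad_pos.1 (Nat.pos_of_ne_zero c1)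
      · simp only [Fin.cons_succ]
        exact ad_pos.1 (Nat.pos_of_ne_zero (c4 j (Finset.mem_univ _)))
    · intro i
      have := c3 i (Finset.mem_univ _)
      rw [e1, e2] at this
      unfold RR at this
      by_contra h
      rw [ad_eq_zero.2 h] at this
      simp at this
    · intro i
      have := c3 i (Finset.mem_univ _)
      rw [e1, e2] at this
      unfold RR at this
      by_contra h
      rw [if_neg h] at this
      exact this rfl
    · simpa using d1

theorem count_odd (G H : SimpleGraph V) (χ : V → Bool) (σ : Bool) (k : ℕ) :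
    (∑ z, ∑ w, sg G H χ σ w z * wk (DD G H χ σ) z (2 * k + 1) w) = 0 := by
  rw [Fintype.sum_prod_type]
  apply Finset.sum_eq_zero
  intro z _
  rw [Fintype.sum_bool]
  have e1 : ∑ w : V × Bool, sg G H χ σ w (z, true) *
      wk (DD G H χ σ) (z, true) (2 * k + 1) w = 0 := by
    apply Finset.sum_eq_zero
    intro w _
    simp [sg]
  rw [e1, zero_add, Fintype.sum_prod_type]
  apply Finset.sum_eq_zero
  intro w _
  rw [Fintype.sum_bool, wk_odd]
  simp [sg]

end Pool.Agent.Helper37Ham
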