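import Pool.Agent.Helper37Ham.RF8

set_option autoImplicit false
set_option linter.unusedSectionVars false

/-!
Switching along closed alternating tuples.
-/

namespace Pool.Agent.Helper37Ham

open Finset SimpleGraph

variable {V : Type} [Fintype V] [DecidableEq V]

/-- multiplicity of the pair `u v` (in either order) in a family of pairs -/
def cc {ι : Type} [Fintype ι] (e : ι → V × V) (u v : V) : ℕ :=
  ∑ i, ((if (u, v) = e i then 1 else 0) + (if (v, u) = e i then 1 else 0))

theorem cc_symm {ι : Type} [Fintype ι] (e : ι → V × V) (u v : V) : cc e u v = cc e v u := by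
  unfold cc
  exact Finset.sum_congr rfl fun i _ => add_comm _ _

theorem cc_le {ι : Type} [Fintype ι] (e : ι → V × V)
    (h1 : Function.Injective fun i => (e i).1) (h2 : ∀ i j, (e i).1 ≠ (e j).2) (u v : V) :
    cc e u v ≤ 1 := by
  classical
  unfold cc
  by_cases h : ∃ i, (u, v) = e i ∨ (v, u) = e i
  · obtain ⟨i, hi⟩ := h
    rw [Finset.sum_eq_single i]
    · rcases hi with hi | hi
      · have n1 : ¬ (v, u) = e i := by
          intro h3
          have a : u = (e i).1 := congrArg Prod.fst hi
          have b : u = (e i).2 := congrArg Prod.snd h3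
          exact h2 i i (a.symm.trans b)
        rw [if_pos hi, if_neg n1]
      · have n1 : ¬ (u, v) = e i := by
          intro h3
          have a : u = (e i).1 := congrArg Prod.fst h3
          have b : u = (e i).2 := congrArg Prod.snd hi
          exact h2 i i (a.symm.trans b)
        rw [if_neg n1, if_pos hi]
    · intro j _ hj
      have n1 : ¬ (u, v) = e j := by
        intro h3
        have a : u = (e j).1 := congrArg Prod.fst h3
        rcases hi with hi | hi
        · have b : u = (e i).1 := congrArg Prod.fst hi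
          exact hj (h1 (a.symm.trans b))
        · have b : u = (e i).2 := congrArg Prod.snd hi
          exact h2 j i (a.symm.trans b)
      have n2 : ¬ (v, u) = e j := by
        intro h3
        have a : v = (e j).1 := congrArg Prod.fst h3
        rcases hi with hi | hi
        · have b : v = (e i).2 := congrArg Prod.snd hi
          exact h2 j i (a.symm.trans b)
        · have b : v = (e i).1 := congrArg Prod.fst hi
          exact hj (h1 (a.symm.trans b))
      rw [if_neg n1, if_neg n2, add_zero]
    · intro h3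
      exact absurd (Finset.mem_univ i) h3
  · rw [Finset.sum_eq_zero]
    · omega
    · intro i _
      rw [if_neg fun h3 => h ⟨i, Or.inl h3⟩, if_neg fun h3 => h ⟨i, Or.inr h3⟩, add_zero]

theorem cc_pos {ι : Type} [Fintype ι] (e : ι → V × V) (u v : V) (h : 0 < cc e u v) :
    ∃ i, (u, v) = e i ∨ (v, u) = e i := by
  by_contra hcon
  push Not at hcon
  have : cc e u v = 0 := by
    unfold cc
    apply Finset.sum_eq_zero
    intro i _
    rw [if_neg (hcon i).1, if_neg (hcon i).2, add_zero]
  omega

theorem cc_ge {ι : Type} [Fintype ι] (e : ι → V × V) (i : ι) : 1 ≤ cc e (e i).1 (e i).2 := by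
  unfold cc
  have := Finset.single_le_sum (f := fun j => (if ((e i).1, (e i).2) = e j then 1 else 0) +
    (if ((e i).2, (e i).1) = e j then 1 else 0)) (fun _ _ => Nat.zero_le _) (Finset.mem_univ i)
  refine le_trans ?_ this
  simp

theorem sum_cc {ι : Type} [Fintype ι] (e : ι → V × V) (u : V) :
    ∑ v, cc e u v = ∑ i, ((if u = (e i).1 then 1 else 0) + (if u = (e i).2 then 1 else 0)) := by
  unfold cc
  rw [Finset.sum_comm]
  apply Finset.sum_congr rfl
  intro i _
  rw [Finset.sum_add_distrib]
  have h1 : ∑ v, (if (u, v) = e i then 1 else 0) = if u = (e i).1 then 1 else 0 := by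
    by_cases h : u = (e i).1
    · rw [if_pos h, Finset.sum_eq_single (e i).2]
      · rw [if_pos]
        rw [h]
      · intro v _ hv
        rw [if_neg]
        intro h3
        exact hv (by rw [← h3])
      · intro h3
        exact absurd (Finset.mem_univ _) h3
    · rw [if_neg h]
      apply Finset.sum_eq_zero
      intro v _
      rw [if_neg]
      intro h3
      exact h (by rw [← h3])
  have h2 : ∑ v, (if (v, u) = e i then 1 else 0) = if u = (e i).2 then 1 else 0 := by
    by_cases h : u = (e i).2
    · rw [if_pos h, Finset.sum_eq_single (e i).1]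
      · rw [if_pos]
        rw [h]
      · intro v _ hv
        rw [if_neg]
        intro h3
        exact hv (by rw [← h3])
      · intro h3
        exact absurd (Finset.mem_univ _) h3
    · rw [if_neg h]
      apply Finset.sum_eq_zero
      intro v _
      rw [if_neg]
      intro h3
      exact h (by rw [← h3])
  rw [h1, h2]

theorem sum_cc_sp {ι : Type} [Fintype ι] (e : ι → V × V) (χ : V → Bool) (σ : Bool) :
    ∑ u, ∑ v, (if xor (χ u) (χ v) ≠ σ then cc e u v else 0) =
      ∑ i, (if xor (χ (e i).1) (χ (e i).2) ≠ σ then 2 else 0) := by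
  have h0 : ∑ u, ∑ v, (if xor (χ u) (χ v) ≠ σ then cc e u v else 0) =
      ∑ i, ∑ p : V × V, (if xor (χ p.1) (χ p.2) ≠ σ then
        ((if (p.1, p.2) = e i then 1 else 0) + (if (p.2, p.1) = e i then 1 else 0)) else 0) := by
    conv_rhs => rw [Finset.sum_comm, Fintype.sum_prod_type]
    apply Finset.sum_congr rfl
    intro u _
    apply Finset.sum_congr rfl
    intro v _
    unfold cc
    split_ifs
    · rfl
    · simp
  rw [h0]
  apply Finset.sum_congr rfl
  intro i _
  have h1 : ∀ p : V × V, (if xor (χ p.1) (χ p.2) ≠ σ then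
        ((if (p.1, p.2) = e i then 1 else 0) + (if (p.2, p.1) = e i then 1 else 0)) else 0) =
      (if p = e i then (if xor (χ (e i).1) (χ (e i).2) ≠ σ then 1 else 0) else 0) +
      (if p = (e i).swap then (if xor (χ (e i).1) (χ (e i).2) ≠ σ then 1 else 0) else 0) := by
    intro p
    have e1 : (p.1, p.2) = e i ↔ p = e i := Iff.rfl
    have e2 : (p.2, p.1) = e i ↔ p = (e i).swap := by
      constructor
      · intro h
        rw [← h]
        rfl
      · intro h
        rw [h]
        rfl
    by_cases h3 : p = e i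
    · by_cases h4 : p = (e i).swap
      · rw [if_pos (e1.2 h3), if_pos (e2.2 h4), if_pos h3, if_pos h4, h3]
        split_ifs <;> rfl
      · rw [if_pos (e1.2 h3), if_neg (fun h => h4 (e2.1 h)), if_pos h3, if_neg h4, h3]
        split_ifs <;> rfl
    · by_cases h4 : p = (e i).swap
      · rw [if_neg (fun h => h3 (e1.1 h)), if_pos (e2.2 h4), if_neg h3, if_pos h4, h4]
        have : xor (χ (e i).swap.1) (χ (e i).swap.2) = xor (χ (e i).1) (χ (e i).2) := by
          rw [Prod.fst_swap, Prod.snd_swap, Bool.xor_comm]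
        rw [this]
        split_ifs <;> rfl
      · rw [if_neg (fun h => h3 (e1.1 h)), if_neg (fun h => h4 (e2.1 h)), if_neg h3, if_neg h4]
        split_ifs <;> rfl
  rw [Finset.sum_congr rfl fun p _ => h1 p, Finset.sum_add_distrib, Finset.sum_ite_eq',
    Finset.sum_ite_eq', if_pos (Finset.mem_univ _), if_pos (Finset.mem_univ _)]
  split_ifs <;> rfl

/-- the pairs leaving the graph in a switch -/
def rotp {k : ℕ} (g : Fin (k + 1) → V × V) (i : Fin (k + 1)) : V × V :=
  ((g (finRotate (k + 1) i)).2, (g i).1)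

/-- all the vertices of the tuple are distinct -/
def Inj {k : ℕ} (g : Fin (k + 1) → V × V) : Prop :=
  (Function.Injective fun i => (g i).1) ∧ (Function.Injective fun i => (g i).2) ∧
    ∀ i j, (g i).1 ≠ (g j).2

/-- the switched graph -/
def flp {k : ℕ} (H : SimpleGraph V) (g : Fin (k + 1) → V × V) (hg : Inj g) : SimpleGraph V where
  Adj u v := cc (rotp g) u v < ad H u v + cc g u v
  symm := ⟨fun u v h => by rw [cc_symm, ad_symm H v u, cc_symm g v u]; exact h⟩
  loopless := ⟨fun u h => by
    rw [ad_self, zero_add] at h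
    obtain ⟨i, hi⟩ := cc_pos g u u (by omega)
    have h2 : (u, u) = g i := by rcases hi with hi | hi <;> exact hi
    apply hg.2.2 i i
    rw [← h2]⟩

variable {k : ℕ} (G H : SimpleGraph V) (χ : V → Bool) (σ : Bool) (g : Fin (k + 1) → V × V)

theorem flp_ad (hF : Fwd G H χ σ k g) (hg : Inj g) (u v : V) :
    ad (flp H g hg) u v + cc (rotp g) u v = ad H u v + cc g u v := by
  have h1 : cc g u v ≤ 1 := cc_le g hg.1 hg.2.2 u v
  have h2 : cc (rotp g) u v ≤ 1 := by
    apply cc_le
    · intro i j h
      change (g (finRotate (k + 1) i)).2 = (g (finRotate (k + 1) j)).2 at h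
      exact (finRotate (k + 1)).injective (hg.2.1 h)
    · intro i j h
      exact hg.2.2 j (finRotate (k + 1) i) h.symm
  have h3 := ad_le_one H u v
  -- an entering pair is not in `H`
  have h4 : 0 < cc g u v → ad H u v = 0 := by
    intro h
    obtain ⟨i, hi⟩ := cc_pos g u v h
    have h5 := hF.1 i
    rw [SimpleGraph.sdiff_adj] at h5
    apply ad_eq_zero.2
    rcases hi with hi | hi
    · rw [← hi] at h5
      exact h5.2
    · rw [← hi] at h5
      exact fun h6 => h5.2 h6.symm
  -- a leaving pair is in `H`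
  have h5 : 0 < cc (rotp g) u v → ad H u v = 1 := by
    intro h
    obtain ⟨i, hi⟩ := cc_pos (rotp g) u v h
    have h5 := hF.2.1 i
    apply ad_eq_one.2
    rcases hi with hi | hi
    · have e1 : u = (g (finRotate (k + 1) i)).2 := congrArg Prod.fst hi
      have e2 : v = (g i).1 := congrArg Prod.snd hi
      rw [e1, e2]
      exact h5
    · have e1 : v = (g (finRotate (k + 1) i)).2 := congrArg Prod.fst hi
      have e2 : u = (g i).1 := congrArg Prod.snd hi
      rw [e1, e2]
      exact h5.symm
  by_cases h6 : cc (rotp g) u v < ad H u v + cc g u v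
  · have h7 : ad (flp H g hg) u v = 1 := ad_eq_one.2 h6
    rw [h7]
    omega
  · have h7 : ad (flp H g hg) u v = 0 := ad_eq_zero.2 h6
    rw [h7]
    omega

theorem flp_dg (hF : Fwd G H χ σ k g) (hg : Inj g) (u : V) : dg (flp H g hg) u = dg H u := by
  have h1 : dg (flp H g hg) u + ∑ v, cc (rotp g) u v = dg H u + ∑ v, cc g u v := by
    unfold dg
    rw [← Finset.sum_add_distrib, ← Finset.sum_add_distrib]
    exact Finset.sum_congr rfl fun v _ => flp_ad G H χ σ g hF hg u v
  have h2 : ∑ v, cc (rotp g) u v = ∑ v, cc g u v := by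
    rw [sum_cc, sum_cc, Finset.sum_add_distrib, Finset.sum_add_distrib, add_comm]
    congr 1
    exact Equiv.sum_comp (finRotate (k + 1)) (fun i => if u = (g i).2 then 1 else 0)
  omega

theorem flp_SPn (hF : Fwd G H χ σ k g) (hg : Inj g) :
    SPn H χ σ < SPn (flp H g hg) χ σ ∧ SPn (flp H g hg) χ σ ≤ SPn H χ σ + 2 * (k + 1) := by
  have h1 : SPn (flp H g hg) χ σ +
      ∑ u, ∑ v, (if xor (χ u) (χ v) ≠ σ then cc (rotp g) u v else 0) =
      SPn H χ σ + ∑ u, ∑ v, (if xor (χ u) (χ v) ≠ σ then cc g u v else 0) := by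
    unfold SPn
    rw [← Finset.sum_add_distrib, ← Finset.sum_add_distrib]
    apply Finset.sum_congr rfl
    intro u _
    rw [← Finset.sum_add_distrib, ← Finset.sum_add_distrib]
    apply Finset.sum_congr rfl
    intro v _
    split_ifs
    · exact flp_ad G H χ σ g hF hg u v
    · rfl
  rw [sum_cc_sp, sum_cc_sp] at h1
  have h2 : ∑ i, (if xor (χ (rotp g i).1) (χ (rotp g i).2) ≠ σ then 2 else 0) = 0 := by
    apply Finset.sum_eq_zero
    intro i _
    rw [if_neg]
    rw [not_not]
    exact hF.2.2.1 i
  have h3 : ∑ i, (if xor (χ (g i).1) (χ (g i).2) ≠ σ then 2 else 0) ≤ 2 * (k + 1) := by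
    calc ∑ i, (if xor (χ (g i).1) (χ (g i).2) ≠ σ then 2 else 0) ≤ ∑ _i : Fin (k + 1), 2 := by
          apply Finset.sum_le_sum
          intro i _
          split_ifs <;> omega
      _ = 2 * (k + 1) := by simp; ring
  have h4 : 2 ≤ ∑ i, (if xor (χ (g i).1) (χ (g i).2) ≠ σ then 2 else 0) := by
    have := Finset.single_le_sum (f := fun i =>
      if xor (χ (g i).1) (χ (g i).2) ≠ σ then 2 else 0) (fun _ _ => Nat.zero_le _)
      (Finset.mem_univ (0 : Fin (k + 1)))
    refine le_trans ?_ this
    rw [if_pos hF.2.2.2]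
  rw [h2] at h1
  omega

theorem flp_le (hHG : H ≤ G) (hF : Fwd G H χ σ k g) (hg : Inj g) : flp H g hg ≤ G := by
  intro u v h
  change cc (rotp g) u v < ad H u v + cc g u v at h
  rcases Nat.eq_zero_or_pos (cc g u v) with h1 | h1
  · have h2 : 0 < ad H u v := by omega
    exact hHG (ad_pos.1 h2)
  · obtain ⟨i, hi⟩ := cc_pos g u v h1
    have h5 := hF.1 i
    rw [SimpleGraph.sdiff_adj] at h5
    rcases hi with hi | hi
    · rw [← hi] at h5
      exact h5.1
    · rw [← hi] at h5
      exact h5.1.symm

theorem flp_zero (hF : Fwd G H χ σ k g) (hg : Inj g) :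
    (flp H g hg).Adj (g 0).1 (g 0).2 := by
  change cc (rotp g) (g 0).1 (g 0).2 < ad H (g 0).1 (g 0).2 + cc g (g 0).1 (g 0).2
  have h1 := cc_ge g 0
  have h2 := flp_ad G H χ σ g hF hg (g 0).1 (g 0).2
  have h3 : ad H (g 0).1 (g 0).2 = 0 := by
    have h5 := hF.1 0
    rw [SimpleGraph.sdiff_adj] at h5
    exact ad_eq_zero.2 h5.2
  by_contra hcon
  have h4 : cc (rotp g) (g 0).1 (g 0).2 = 1 := by
    have h6 : cc (rotp g) (g 0).1 (g 0).2 ≤ 1 := by
      apply cc_le
      · intro i j h
        change (g (finRotate (k + 1) i)).2 = (g (finRotate (k + 1) j)).2 at h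
        exact (finRotate (k + 1)).injective (hg.2.1 h)
      · intro i j h
        exact hg.2.2 j (finRotate (k + 1) i) h.symm
    omega
  obtain ⟨i, hi⟩ := cc_pos (rotp g) (g 0).1 (g 0).2 (by omega)
  have h5 := hF.2.1 i
  have h6 := ad_eq_zero.1 h3
  rcases hi with hi | hi
  · have e1 : (g 0).1 = (g (finRotate (k + 1) i)).2 := congrArg Prod.fst hi
    exact hg.2.2 _ _ e1
  · have e1 : (g 0).2 = (g (finRotate (k + 1) i)).2 := congrArg Prod.fst hi
    have e2 : (g 0).1 = (g i).1 := congrArg Prod.snd hi
    rw [← e1, ← e2] at h5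
    exact h6 h5.symm

end Pool.Agent.Helper37Ham
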