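import Mathlib

set_option autoImplicit false

/-!
Selection of ends of paths, from Hall's theorem.
-/

namespace Pool.Agent.Helper37Ham

open Finset

variable {V : Type} [Fintype V] [DecidableEq V]

/-- the number of ends at `v` of the paths of all classes -/
def ends {k g : ℕ} (e : Fin k → Fin g → Bool → V) (v : V) : ℕ :=
  (univ.filter fun q : Fin k × Fin g × Bool => e q.1 q.2.1 q.2.2 = v).card

theorem sum_ends {k g : ℕ} (e : Fin k → Fin g → Bool → V) (Y : Finset V) :
    ∑ v ∈ Y, ends e v =
      (univ.filter fun q : Fin k × Fin g × Bool => e q.1 q.2.1 q.2.2 ∈ Y).card := by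
  unfold ends
  rw [Finset.card_eq_sum_card_fiberwise (f := fun q : Fin k × Fin g × Bool => e q.1 q.2.1 q.2.2)
    (t := Y)]
  · apply Finset.sum_congr rfl
    intro v hv
    congr 1
    ext q
    simp only [mem_filter, mem_univ, true_and]
    constructor
    · intro h; exact ⟨by rw [h]; exact hv, h⟩
    · exact fun h => h.2
  · intro q hq
    simpa using hq

/-- the relation for Hall's theorem -/
def rel {k g : ℕ} (e : Fin k → Fin g → Bool → V) (a : V → ℕ) (N : Finset V) (m : ℕ) :
    ({v // v ∈ N} ⊕ (Fin k × Fin (g - 2))) → ((Fin k × Fin g) ⊕ Fin m) → Prop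
  | Sum.inl v, Sum.inl p => ∃ b, e p.1 p.2 b = v.1
  | Sum.inl v, Sum.inr _ => ends e v.1 ≠ a v.1
  | Sum.inr q, Sum.inl p => p.1 = q.1
  | Sum.inr _, Sum.inr _ => False

theorem sel {k g : ℕ} (hg : 2 ≤ g) (e : Fin k → Fin g → Bool → V) (a : V → ℕ) (N : Finset V)
    (h1 : ∀ v, ends e v ≤ a v) (h2 : ∀ v, a v ≤ g) (h3 : ∑ v ∈ Nᶜ, ends e v ≤ g - 1)
    (h4 : ∑ v ∈ N, (g - a v) ≤ g - 1) :
    ∃ x : Fin k → Bool → Fin g × Bool, (∀ i, (x i false).1 ≠ (x i true).1) ∧
      (∀ i c i' c', e i (x i c).1 (x i c).2 = e i' (x i' c').1 (x i' c').2 → i = i' ∧ c = c') ∧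
      (∀ i c, e i (x i c).1 (x i c).2 ∈ N) ∧
      ∀ v ∈ N, ends e v = a v → ∃ i c, e i (x i c).1 (x i c).2 = v := by
  classical
  -- the number of allowed vertices
  have htot : ∑ v, ends e v = 2 * g * k := by
    rw [sum_ends]
    simp only [mem_univ, Finset.filter_true]
    rw [Finset.card_univ]
    simp only [Fintype.card_prod, Fintype.card_fin, Fintype.card_bool]
    ring
  have hN : 2 * k ≤ N.card := by
    have h5 : ∑ v, ends e v = ∑ v ∈ N, ends e v + ∑ v ∈ Nᶜ, ends e v := by
      rw [Finset.sum_add_sum_compl]
    have h6 : ∑ v ∈ N, ends e v ≤ N.card * g := by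
      rw [← smul_eq_mul]
      exact Finset.sum_le_card_nsmul _ _ _ fun v _ => (h1 v).trans (h2 v)
    by_contra hno
    push Not at hno
    have h7 : N.card + 1 ≤ 2 * k := hno
    have h8 : (N.card + 1) * g ≤ 2 * k * g := Nat.mul_le_mul_right g h7
    have h9 : (N.card + 1) * g = N.card * g + g := by ring
    have h10 : 2 * k * g = 2 * g * k := by ring
    omega
  obtain ⟨m, hm⟩ : ∃ m, N.card = 2 * k + m := ⟨N.card - 2 * k, by omega⟩
  obtain ⟨g2, rfl⟩ : ∃ g2, g = g2 + 2 := ⟨g - 2, by omega⟩
  let t : ({v // v ∈ N} ⊕ (Fin k × Fin (g2 + 2 - 2))) → Finset ((Fin k × Fin (g2 + 2)) ⊕ Fin m) :=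
    fun y => univ.filter fun z => rel e a N m y z
  have ht : ∀ y z, z ∈ t y ↔ rel e a N m y z := by
    intro y z
    simp only [t, mem_filter, mem_univ, true_and]
  have hall : ∀ X : Finset ({v // v ∈ N} ⊕ (Fin k × Fin (g2 + 2 - 2))),
      X.card ≤ (X.biUnion t).card := by
    intro X
    let XN : Finset V := N.filter fun v => ∃ h : v ∈ N, Sum.inl ⟨v, h⟩ ∈ X
    let XD : Finset (Fin k × Fin (g2 + 2 - 2)) := univ.filter fun q => Sum.inr q ∈ X
    let I0 : Finset (Fin k) := univ.filter fun i => ∃ l, Sum.inr (i, l) ∈ X
    let Ps : Finset (Fin k × Fin (g2 + 2)) := univ.filter fun p =>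
      p.1 ∈ I0 ∨ ∃ b, e p.1 p.2 b ∈ XN
    have hX : X.card = XN.card + XD.card := by
      have hX1 : X = (XN.subtype (fun v => v ∈ N)).map ⟨Sum.inl, Sum.inl_injective⟩ ∪
          XD.map ⟨Sum.inr, Sum.inr_injective⟩ := by
        ext y
        rcases y with ⟨v, hv⟩ | q
        · simp only [mem_union, mem_map, mem_subtype, Function.Embedding.coeFn_mk, Sum.inl.injEq,
            exists_eq_right, reduceCtorEq, and_false, exists_false, or_false, XN, mem_filter]
          constructor
          · intro h; exact ⟨hv, hv, h⟩
          · rintro ⟨_, _, h⟩; exact h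
        · simp [XD]
      conv_lhs => rw [hX1]
      rw [Finset.card_union_of_disjoint, Finset.card_map, Finset.card_map, Finset.card_subtype]
      · congr 2
        ext v
        simp only [mem_filter, XN]
        constructor
        · rintro ⟨⟨h1, h2⟩, h3⟩; exact ⟨h1, h2⟩
        · rintro ⟨h1, h2⟩; exact ⟨⟨h1, h2⟩, h1⟩
      · rw [Finset.disjoint_left]
        intro y hy hy'
        simp only [mem_map, Function.Embedding.coeFn_mk] at hy hy'
        obtain ⟨z, _, rfl⟩ := hy
        obtain ⟨z', _, h⟩ := hy'
        cases h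
    have hXD : XD.card ≤ g2 * I0.card := by
      have h5 : XD ⊆ I0 ×ˢ (univ : Finset (Fin (g2 + 2 - 2))) := by
        rintro ⟨i, l⟩ h
        simp only [XD, I0, mem_filter, mem_univ, true_and, mem_product, and_true] at h ⊢
        exact ⟨l, h⟩
      have h6 := Finset.card_le_card h5
      rw [Finset.card_product, Finset.card_univ, Fintype.card_fin] at h6
      rw [mul_comm]
      simpa using h6
    have hPs : ∀ p ∈ Ps, Sum.inl p ∈ X.biUnion t := by
      intro p hp
      simp only [Ps, mem_filter, mem_univ, true_and] at hp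
      rw [mem_biUnion]
      rcases hp with hp | ⟨b, hb⟩
      · simp only [I0, mem_filter, mem_univ, true_and] at hp
        obtain ⟨l, hl⟩ := hp
        exact ⟨_, hl, (ht _ _).2 rfl⟩
      · simp only [XN, mem_filter] at hb
        obtain ⟨hb1, hb2, hb3⟩ := hb
        exact ⟨_, hb3, (ht _ _).2 ⟨b, rfl⟩⟩
    -- the slots of the groups in `I0`
    by_cases hA : ∀ v ∈ XN, ends e v = a v
    · -- case A
      let P : Finset (Fin k × Fin (g2 + 2)) := univ.filter fun p =>
        p.1 ∉ I0 ∧ ∃ b, e p.1 p.2 b ∈ XN
      have hcard : Ps.card = I0.card * (g2 + 2) + P.card := by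
        have h5 : Ps = (I0 ×ˢ (univ : Finset (Fin (g2 + 2)))) ∪ P := by
          ext p
          simp only [Ps, P, mem_filter, mem_univ, true_and, mem_union, mem_product, and_true]
          tauto
        rw [h5, Finset.card_union_of_disjoint, Finset.card_product, Finset.card_univ,
          Fintype.card_fin]
        rw [Finset.disjoint_left]
        intro p hp hp'
        simp only [P, mem_filter, mem_univ, true_and, mem_product, and_true] at hp hp'
        exact hp'.1 hp
      have hslots : ∑ v ∈ XN, ends e v ≤ 2 * (I0.card * (g2 + 2)) + 2 * P.card := by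
        rw [sum_ends]
        have h5 : (univ.filter fun q : Fin k × Fin (g2 + 2) × Bool => e q.1 q.2.1 q.2.2 ∈ XN) ⊆
            ((I0 ×ˢ (univ : Finset (Fin (g2 + 2)))) ∪ P).biUnion
              (fun p => ({(p.1, p.2, false), (p.1, p.2, true)} :
                Finset (Fin k × Fin (g2 + 2) × Bool))) := by
          rintro ⟨i, j, b⟩ hq
          simp only [mem_filter, mem_univ, true_and] at hq
          rw [mem_biUnion]
          refine ⟨(i, j), ?_, ?_⟩
          · simp only [P, mem_filter, mem_univ, true_and, mem_union, mem_product, and_true]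
            by_cases hi : i ∈ I0
            · exact Or.inl hi
            · exact Or.inr ⟨hi, b, hq⟩
          · cases b <;> simp
        refine (Finset.card_le_card h5).trans ?_
        refine (Finset.card_biUnion_le).trans ?_
        refine (Finset.sum_le_card_nsmul _ _ 2 fun p _ => Finset.card_le_two).trans ?_
        rw [smul_eq_mul]
        have h6 := Finset.card_union_le (I0 ×ˢ (univ : Finset (Fin (g2 + 2)))) P
        rw [Finset.card_product, Finset.card_univ, Fintype.card_fin] at h6
        omega
      have hlow : XN.card * (g2 + 2) ≤ ∑ v ∈ XN, ends e v + (g2 + 1) := by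
        have h5 : ∑ v ∈ XN, (g2 + 2 - a v) ≤ g2 + 2 - 1 :=
          (Finset.sum_le_sum_of_subset (Finset.filter_subset _ _)).trans h4
        have h6 : ∑ v ∈ XN, ends e v + ∑ v ∈ XN, (g2 + 2 - a v) = XN.card * (g2 + 2) := by
          rw [← Finset.sum_add_distrib, ← smul_eq_mul, ← Finset.sum_const]
          apply Finset.sum_congr rfl
          intro v hv
          rw [hA v hv]
          have := h2 v
          omega
        omega
      have hz : XN.card ≤ 2 * I0.card + P.card := by
        by_contra hno
        push Not at hno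
        have h5 : (2 * I0.card + P.card + 1) * (g2 + 2) ≤ XN.card * (g2 + 2) :=
          Nat.mul_le_mul_right _ hno
        have h6 : (2 * I0.card + P.card + 1) * (g2 + 2) =
            2 * (I0.card * (g2 + 2)) + P.card * g2 + 2 * P.card + g2 + 2 := by ring
        omega
      have hfin : Ps.card ≤ (X.biUnion t).card := by
        rw [← Finset.card_map ⟨(Sum.inl : Fin k × Fin (g2 + 2) → (Fin k × Fin (g2 + 2)) ⊕ Fin m),
          Sum.inl_injective⟩]
        apply Finset.card_le_card
        intro y hy
        rw [mem_map] at hy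
        obtain ⟨p, hp, rfl⟩ := hy
        exact hPs p hp
      rw [hX]
      have h7 : I0.card * (g2 + 2) = g2 * I0.card + 2 * I0.card := by ring
      omega
    · -- case B
      push Not at hA
      obtain ⟨v0, hv0, hv0'⟩ := hA
      have hfin : Ps.card + m ≤ (X.biUnion t).card := by
        have h5 : Ps.map ⟨(Sum.inl : Fin k × Fin (g2 + 2) → (Fin k × Fin (g2 + 2)) ⊕ Fin m),
            Sum.inl_injective⟩ ∪ (univ : Finset (Fin m)).map ⟨Sum.inr, Sum.inr_injective⟩ ⊆
            X.biUnion t := by
          intro y hy
          rw [mem_union, mem_map, mem_map] at hy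
          rcases hy with ⟨p, hp, rfl⟩ | ⟨l, _, rfl⟩
          · exact hPs p hp
          · simp only [XN, mem_filter] at hv0
            obtain ⟨hb1, hb2, hb3⟩ := hv0
            rw [mem_biUnion]
            exact ⟨_, hb3, (ht _ _).2 hv0'⟩
        have h6 := Finset.card_le_card h5
        rw [Finset.card_union_of_disjoint, Finset.card_map, Finset.card_map, Finset.card_univ,
          Fintype.card_fin] at h6
        · exact h6
        · rw [Finset.disjoint_left]
          intro y hy hy'
          simp only [mem_map, Function.Embedding.coeFn_mk] at hy hy'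
          obtain ⟨z, _, rfl⟩ := hy
          obtain ⟨z', _, h⟩ := hy'
          cases h
      have hQ1 : Psᶜ.card ≤ (k - I0.card) * (g2 + 2) := by
        have h5 : Psᶜ ⊆ I0ᶜ ×ˢ (univ : Finset (Fin (g2 + 2))) := by
          intro p hp
          simp only [Ps, mem_compl, mem_filter, mem_univ, true_and, not_or] at hp
          simp only [mem_product, mem_univ, and_true, mem_compl]
          exact hp.1
        have h6 := Finset.card_le_card h5
        rw [Finset.card_product, Finset.card_compl I0, Fintype.card_fin, Finset.card_univ,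
          Fintype.card_fin] at h6
        exact h6
      have hQ2 : 2 * Psᶜ.card ≤ ∑ v ∈ XNᶜ, ends e v := by
        rw [sum_ends]
        have h5 : Psᶜ ×ˢ (univ : Finset Bool) =
            (Psᶜ ×ˢ (univ : Finset Bool)) := rfl
        have h6 : ((Psᶜ ×ˢ (univ : Finset Bool)).map
            (Equiv.prodAssoc (Fin k) (Fin (g2 + 2)) Bool).toEmbedding) ⊆
            (univ.filter fun q : Fin k × Fin (g2 + 2) × Bool => e q.1 q.2.1 q.2.2 ∈ XNᶜ) := by
          intro q hq
          rw [mem_map] at hq
          obtain ⟨⟨⟨i, j⟩, b⟩, hp, rfl⟩ := hq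
          simp only [mem_product, mem_univ, and_true, Ps, mem_compl, mem_filter, true_and,
            not_or, not_exists] at hp
          simp only [Equiv.coe_toEmbedding, Equiv.prodAssoc_apply, mem_filter, mem_univ, true_and,
            mem_compl]
          exact hp.2 b
        have h7 := Finset.card_le_card h6
        rw [Finset.card_map, Finset.card_product, Finset.card_univ, Fintype.card_bool] at h7
        omega
      have hQ3 : ∑ v ∈ XNᶜ, ends e v ≤ (N.card - XN.card) * (g2 + 2) + (g2 + 1) := by
        have h5 : XNᶜ = (N \ XN) ∪ Nᶜ := by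
          ext v
          simp only [mem_compl, mem_union, mem_sdiff]
          constructor
          · intro h
            by_cases hv : v ∈ N
            · exact Or.inl ⟨hv, h⟩
            · exact Or.inr hv
          · rintro (h | h)
            · exact h.2
            · intro h'
              exact h (Finset.filter_subset _ _ h')
        rw [h5, Finset.sum_union]
        · have h6 : ∑ v ∈ N \ XN, ends e v ≤ (N \ XN).card * (g2 + 2) := by
            rw [← smul_eq_mul]
            exact Finset.sum_le_card_nsmul _ _ _ fun v _ => (h1 v).trans (h2 v)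
          rw [Finset.card_sdiff_of_subset (Finset.filter_subset _ _)] at h6
          exact Nat.add_le_add h6 h3
        · rw [Finset.disjoint_left]
          intro v hv hv'
          exact (mem_compl.1 hv') (mem_sdiff.1 hv).1
      have hXN : XN.card ≤ N.card := Finset.card_le_card (Finset.filter_subset _ _)
      have hI0 : I0.card ≤ k := by
        have := Finset.card_le_univ I0
        rwa [Fintype.card_fin] at this
      have hPc : Ps.card + Psᶜ.card = k * (g2 + 2) := by
        rw [Finset.card_add_card_compl, Fintype.card_prod, Fintype.card_fin, Fintype.card_fin]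
      obtain ⟨A, hAA⟩ : ∃ A, N.card = XN.card + A := ⟨N.card - XN.card, by omega⟩
      obtain ⟨k', hk'⟩ : ∃ k', k = I0.card + k' := ⟨k - I0.card, by omega⟩
      have e1 : N.card - XN.card = A := by omega
      have e2 : k - I0.card = k' := by omega
      rw [e1] at hQ3
      rw [e2] at hQ1
      have hQ4 : Psᶜ.card ≤ A + g2 * k' := by
        by_contra hno
        push Not at hno
        generalize hq : Psᶜ.card = q at *
        have h6 : g2 * q ≤ g2 * (k' * (g2 + 2)) := Nat.mul_le_mul_left _ hQ1
        have h7 : (A + g2 * k' + 1) * (g2 + 2) ≤ q * (g2 + 2) := Nat.mul_le_mul_right _ hno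
        have h8 : (A + g2 * k' + 1) * (g2 + 2) =
            A * (g2 + 2) + g2 * (k' * (g2 + 2)) + (g2 + 2) := by ring
        have h9 : q * (g2 + 2) = g2 * q + 2 * q := by ring
        omega
      rw [hX]
      have h10 : k * (g2 + 2) = g2 * k + 2 * k := by ring
      have h11 : g2 * k = g2 * I0.card + g2 * k' := by
        rw [← Nat.mul_add, ← hk']
      omega
  obtain ⟨f, hf, hft⟩ := (Finset.all_card_le_biUnion_card_iff_exists_injective t).1 hall
  have hfr : ∀ x, rel e a N m x (f x) := by
    intro x
    have := hft x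
    simp only [t, mem_filter, mem_univ, true_and] at this
    exact this
  have hbij : Function.Bijective f := by
    rw [Fintype.bijective_iff_injective_and_card]
    refine ⟨hf, ?_⟩
    simp only [Fintype.card_sum, Fintype.card_prod, Fintype.card_fin, Fintype.card_coe, hm]
    rw [Nat.add_sub_cancel]
    ring
  have hψ : ∀ (i : Fin k) (l : Fin (g2 + 2 - 2)), ∃ j, f (Sum.inr (i, l)) = Sum.inl (i, j) := by
    intro i l
    have h6 := hfr (Sum.inr (i, l))
    rcases hz : f (Sum.inr (i, l)) with ⟨i', j'⟩ | l'
    · rw [hz] at h6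
      have h7 : i' = i := h6
      exact ⟨j', by rw [h7]⟩
    · rw [hz] at h6
      exact h6.elim
  choose ψ hψ using hψ
  -- two paths of every class
  have hdef : ∀ i : Fin k, ∃ j1 j2 : Fin (g2 + 2), j1 ≠ j2 ∧
      (∃ v : {v // v ∈ N}, f (Sum.inl v) = Sum.inl (i, j1)) ∧
      (∃ v : {v // v ∈ N}, f (Sum.inl v) = Sum.inl (i, j2)) := by
    intro i
    let Q : Finset (Fin (g2 + 2)) := univ.filter fun j =>
      ∃ v : {v // v ∈ N}, f (Sum.inl v) = Sum.inl (i, j)
    have hQc : Qᶜ.card ≤ g2 := by
      have h5 : Qᶜ ⊆ univ.image (ψ i) := by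
        intro j hj
        simp only [Q, mem_compl, mem_filter, mem_univ, true_and, not_exists] at hj
        obtain ⟨x, hx⟩ := hbij.2 (Sum.inl (i, j))
        rcases x with v | ⟨i', l⟩
        · exact absurd hx (hj v)
        · have h6 := hψ i' l
          rw [hx] at h6
          simp only [Sum.inl.injEq, Prod.mk.injEq] at h6
          obtain ⟨h7, h8⟩ := h6
          subst h7
          rw [h8]
          exact mem_image_of_mem _ (mem_univ l)
      have h7 := (Finset.card_le_card h5).trans Finset.card_image_le
      rw [Finset.card_univ, Fintype.card_fin] at h7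
      simpa using h7
    have hQ2 : 1 < Q.card := by
      have h5 := Finset.card_add_card_compl Q
      rw [Fintype.card_fin] at h5
      omega
    obtain ⟨j1, hj1, j2, hj2, h12⟩ := Finset.one_lt_card.1 hQ2
    simp only [Q, mem_filter, mem_univ, true_and] at hj1 hj2
    exact ⟨j1, j2, h12, hj1, hj2⟩
  choose j1 j2 h12 hv1 hv2 using hdef
  choose v1 hv1 using hv1
  choose v2 hv2 using hv2
  have hb1 : ∀ i, ∃ b, e i (j1 i) b = (v1 i).1 := by
    intro i
    have h5 := hfr (Sum.inl (v1 i))
    rw [hv1 i] at h5
    exact h5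
  have hb2 : ∀ i, ∃ b, e i (j2 i) b = (v2 i).1 := by
    intro i
    have h5 := hfr (Sum.inl (v2 i))
    rw [hv2 i] at h5
    exact h5
  choose b1 hb1 using hb1
  choose b2 hb2 using hb2
  -- exactly two for each class
  have huniq : ∀ i j, (∃ v : {v // v ∈ N}, f (Sum.inl v) = Sum.inl (i, j)) → j = j1 i ∨ j = j2 i := by
    intro i j hj
    by_contra hno
    push Not at hno
    let Q : Finset (Fin (g2 + 2)) := univ.filter fun j =>
      ∃ v : {v // v ∈ N}, f (Sum.inl v) = Sum.inl (i, j)
    have hQ3 : 3 ≤ Q.card := by
      have h5 : ({j, j1 i, j2 i} : Finset (Fin (g2 + 2))) ⊆ Q := by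
        intro z hz
        simp only [mem_insert, mem_singleton] at hz
        simp only [Q, mem_filter, mem_univ, true_and]
        rcases hz with rfl | rfl | rfl
        · exact hj
        · exact ⟨_, hv1 i⟩
        · exact ⟨_, hv2 i⟩
      have h6 := Finset.card_le_card h5
      rw [Finset.card_eq_three.2 ⟨j, j1 i, j2 i, hno.1, hno.2, h12 i, rfl⟩] at h6
      exact h6
    have hQc : g2 ≤ Qᶜ.card := by
      have h7 : (univ : Finset (Fin (g2 + 2 - 2))).card ≤ Qᶜ.card := by
        apply Finset.card_le_card_of_injOn (ψ i)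
        · intro l _
          simp only [Q, coe_compl, Set.mem_compl_iff, mem_coe, mem_filter, mem_univ, true_and,
            not_exists]
          intro v hv
          have h8 := hψ i l
          rw [← hv] at h8
          have h9 := hf h8
          cases h9
        · intro l _ l' _ h
          have h8 := hψ i l
          have h9 := hψ i l'
          rw [h, ← h9] at h8
          have h10 := hf h8
          simpa using h10
      rw [Finset.card_univ, Fintype.card_fin] at h7
      simpa using h7
    have h5 := Finset.card_add_card_compl Q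
    rw [Fintype.card_fin] at h5
    omega
  let w : Fin k → Bool → {v // v ∈ N} := fun i c => if c then v2 i else v1 i
  let J : Fin k → Bool → Fin (g2 + 2) := fun i c => if c then j2 i else j1 i
  have hJw : ∀ i c, f (Sum.inl (w i c)) = Sum.inl (i, J i c) := by
    intro i c
    cases c
    · exact hv1 i
    · exact hv2 i
  refine ⟨fun i c => if c then (j2 i, b2 i) else (j1 i, b1 i), ?_, ?_, ?_, ?_⟩
  · intro i
    simpa using h12 i
  · intro i c i' c' h
    have hw : ∀ i c, e i ((if c then (j2 i, b2 i) else (j1 i, b1 i)) : Fin (g2 + 2) × Bool).1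
        ((if c then (j2 i, b2 i) else (j1 i, b1 i)) : Fin (g2 + 2) × Bool).2 = (w i c).1 := by
      intro i c
      cases c
      · simpa [w] using hb1 i
      · simpa [w] using hb2 i
    rw [hw, hw] at h
    have h5 : w i c = w i' c' := Subtype.ext h
    have h6 := hJw i c
    rw [h5, hJw i' c'] at h6
    simp only [Sum.inl.injEq, Prod.mk.injEq] at h6
    obtain ⟨h7, h8⟩ := h6
    subst h7
    refine ⟨rfl, ?_⟩
    cases c <;> cases c'
    · rfl
    · exact absurd h8.symm (h12 i')
    · exact absurd h8 (h12 i')
    · rfl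
  · intro i c
    cases c
    · simpa [hb1 i] using (v1 i).2
    · simpa [hb2 i] using (v2 i).2
  · intro v hv hva
    have h5 := hfr (Sum.inl ⟨v, hv⟩)
    rcases hz : f (Sum.inl ⟨v, hv⟩) with ⟨i, j⟩ | l
    · rcases huniq i j ⟨⟨v, hv⟩, hz⟩ with h6 | h6
      · refine ⟨i, false, ?_⟩
        have h7 : f (Sum.inl ⟨v, hv⟩) = f (Sum.inl (v1 i)) := by rw [hz, hv1 i, h6]
        have h8 := hf h7
        simp only [Sum.inl.injEq] at h8
        simp only [Bool.false_eq_true, if_false]
        rw [hb1 i, ← h8]
      · refine ⟨i, true, ?_⟩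
        have h7 : f (Sum.inl ⟨v, hv⟩) = f (Sum.inl (v2 i)) := by rw [hz, hv2 i, h6]
        have h8 := hf h7
        simp only [Sum.inl.injEq] at h8
        simp only [if_true]
        rw [hb2 i, ← h8]
    · rw [hz] at h5
      exact absurd hva h5

end Pool.Agent.Helper37Ham
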