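import Pool.Agent.Helper37Ham.Dt3
import Pool.Agent.Helper37Ham.Kon
import Pool.Agent.Helper37Ham.Rank

set_option autoImplicit false

/-!
Edge-disjoint Hamilton cycles in graphs with many universal vertices.
-/

namespace Pool.Agent.Helper37Ham

open Finset SimpleGraph Pool.Agent.X76.Det

variable {V : Type} [Fintype V] [DecidableEq V]

theorem dg_delete (F : SimpleGraph V) (v w x : V) :
    dg F x ≤ dg (F.deleteEdges {s(v, w)}) x + (if x = v ∨ x = w then 1 else 0) := by
  have h1 : ∀ y, ad F x y ≤ ad (F.deleteEdges {s(v, w)}) x y +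
      (if (x = v ∧ y = w) ∨ (x = w ∧ y = v) then 1 else 0) := by
    intro y
    by_cases h2 : (x = v ∧ y = w) ∨ (x = w ∧ y = v)
    · rw [if_pos h2]
      have := ad_le_one F x y
      omega
    · rw [if_neg h2, add_zero]
      by_cases h3 : F.Adj x y
      · have h4 : (F.deleteEdges {s(v, w)}).Adj x y := by
          rw [SimpleGraph.deleteEdges_adj]
          refine ⟨h3, ?_⟩
          rw [Set.mem_singleton_iff, Sym2.eq_iff]
          exact h2
        rw [ad_eq_one.2 h3, ad_eq_one.2 h4]
      · rw [ad_eq_zero.2 h3]
        exact Nat.zero_le _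
  unfold dg
  refine (Finset.sum_le_sum fun y _ => h1 y).trans ?_
  rw [Finset.sum_add_distrib]
  apply Nat.add_le_add_left
  by_cases hv : x = v
  · by_cases hw : x = w
    · rw [if_pos (Or.inl hv)]
      have h5 : ∀ y, (if (x = v ∧ y = w) ∨ (x = w ∧ y = v) then 1 else 0) =
          (if y = x then 1 else 0) := by
        intro y
        congr 1
        rw [← hv, ← hw]
        simp
      rw [Finset.sum_congr rfl fun y _ => h5 y]
      simp
    · rw [if_pos (Or.inl hv)]
      have h5 : ∀ y, (if (x = v ∧ y = w) ∨ (x = w ∧ y = v) then 1 else 0) =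
          (if y = w then 1 else 0) := by
        intro y
        congr 1
        simp [hv]
        intro h6 
        exact absurd (hv.trans h6) hw
      rw [Finset.sum_congr rfl fun y _ => h5 y]
      simp
  · by_cases hw : x = w
    · rw [if_pos (Or.inr hw)]
      have h5 : ∀ y, (if (x = v ∧ y = w) ∨ (x = w ∧ y = v) then 1 else 0) =
          (if y = v then 1 else 0) := by
        intro y
        congr 1
        have hwv : w ≠ v := fun h => hv (hw.trans h)
        simp [hw, hwv]
      rw [Finset.sum_congr rfl fun y _ => h5 y]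
      simp
    · have h5 : ∀ y, (if (x = v ∧ y = w) ∨ (x = w ∧ y = v) then 1 else 0) = 0 := by
        intro y
        rw [if_neg]
        simp [hv, hw]
      rw [Finset.sum_congr rfl fun y _ => h5 y]
      simp

theorem sum_Q (U : Finset V) (φ : V → ℕ) (h : ∀ v ∈ U, φ v = 0) :
    ∑ x : {v // v ∉ U}, φ x.1 = ∑ v, φ v := by
  rw [← Finset.sum_subtype (univ.filter fun v => v ∉ U) (by simp) φ]
  apply Finset.sum_subset (Finset.subset_univ _)
  intro v _ hv
  rw [mem_filter, not_and, not_not] at hv
  exact h v (hv (mem_univ v))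

theorem card_Q (U : Finset V) : Fintype.card {v // v ∉ U} + U.card = Fintype.card V := by
  have h1 := Fintype.card_subtype_compl (fun v => v ∈ U)
  have h2 : Fintype.card {v // v ∈ U} = U.card := Fintype.card_coe U
  have h3 : U.card ≤ Fintype.card V := Finset.card_le_univ U
  rw [h2] at h1
  omega

/-- the multigraph obtained by the identification of the vertices of `U` -/
def um (U : Finset V) (d : ℕ) (T : V → V → ℕ) :
    Option {v // v ∉ U} → Option {v // v ∉ U} → ℕ
  | none, none => 2 * (d + ∑ v, ∑ w, T v w)
  | none, some v => 2 - (∑ w, T v.1 w + ∑ w, T w v.1)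
  | some v, none => 2 - (∑ w, T v.1 w + ∑ w, T w v.1)
  | some v, some w => T v.1 w.1 + T w.1 v.1

theorem uni_core (G H : SimpleGraph V) (hHG : H ≤ G) (U : Finset V)
    (hU : Fintype.card V ≤ 2 * U.card) (huniv : ∀ u ∈ U, ∀ v, v ≠ u → G.Adj u v)
    (k : ℕ) (hreg : ∀ v, dg H v = 2 * k) (hne : U.Nonempty) :
    ∃ C : Fin k → SimpleGraph V, (∀ i, C i ≤ G) ∧
      (∀ i j u v, (C i).Adj u v → (C j).Adj u v → i = j) ∧
      (∀ i v, ((C i).neighborSet v).ncard = 2) ∧ ∀ i, (C i).Connected := by
  classical
  rcases Nat.eq_zero_or_pos k with hk0 | hk0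
  · subst hk0
    exact ⟨fun i => i.elim0, fun i => i.elim0, fun i => i.elim0, fun i => i.elim0,
      fun i => i.elim0⟩
  have hkU : k ≤ U.card := by
    obtain ⟨u, hu⟩ := hne
    have h1 := hreg u
    have h2 : dg H u ≤ Fintype.card V := by
      unfold dg
      refine (Finset.sum_le_sum fun w _ => ad_le_one H u w).trans ?_
      simp
    omega
  -- a minimal graph outside `U`
  let P : Set (SimpleGraph V) := {F | F ≤ H ∧ (∀ v w, F.Adj v w → v ∉ U ∧ w ∉ U) ∧
    ∀ v, v ∉ U → 2 * k ≤ U.card + dg F v}
  let F0 : SimpleGraph V :=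
    { Adj := fun v w => H.Adj v w ∧ v ∉ U ∧ w ∉ U
      symm := ⟨fun _ _ h => ⟨h.1.symm, h.2.2, h.2.1⟩⟩
      loopless := ⟨fun v h => H.loopless.irrefl v h.1⟩ }
  have hF0ad : ∀ v w, v ∉ U → ad F0 v w = if w ∈ U then 0 else ad H v w := by
    intro v w hv
    by_cases hw : w ∈ U
    · rw [if_pos hw, ad_eq_zero]
      exact fun h => h.2.2 hw
    · rw [if_neg hw]
      by_cases h1 : H.Adj v w
      · rw [ad_eq_one.2 h1, ad_eq_one]
        exact ⟨h1, hv, hw⟩
      · rw [ad_eq_zero.2 h1, ad_eq_zero]
        exact fun h => h1 h.1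
  have hsplit : ∀ v, v ∉ U → dg H v = ∑ w ∈ U, ad H v w + dg F0 v := by
    intro v hv
    unfold dg
    rw [Finset.sum_congr rfl fun w _ => hF0ad v w hv]
    have h1 : ∑ w ∈ U, ad H v w = ∑ w, if w ∈ U then ad H v w else 0 := by
      rw [Finset.sum_ite_mem, Finset.univ_inter]
    rw [h1, ← Finset.sum_add_distrib]
    apply Finset.sum_congr rfl
    intro w _
    split_ifs <;> omega
  have hF0P : F0 ∈ P := by
    refine ⟨fun v w h => h.1, fun v w h => h.2, ?_⟩
    intro v hv
    rw [← hreg v, hsplit v hv]
    apply Nat.add_le_add_right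
    refine (Finset.sum_le_sum fun w _ => ad_le_one H v w).trans ?_
    simp
  obtain ⟨F, ⟨hFH, hFU, hFd⟩, hmin⟩ :=
    WellFounded.has_min (wellFounded_lt (α := SimpleGraph V)) P ⟨F0, hF0P⟩
  have hdegF : ∀ v, dg F v ≤ 2 * k := fun v => (dg_mono hFH v).trans (hreg v).le
  have hind : ∀ v w, F.Adj v w → dg F v ≤ k ∨ dg F w ≤ k := by
    intro v w hvw
    by_contra hno
    push Not at hno
    apply hmin (F.deleteEdges {s(v, w)})
    · refine ⟨(SimpleGraph.deleteEdges_le _).trans hFH, ?_, ?_⟩
      · intro x y h
        exact hFU x y (SimpleGraph.deleteEdges_le _ h)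
      · intro x hx
        have h1 := dg_delete F v w x
        have h2 := hFd x hx
        by_cases h3 : x = v ∨ x = w
        · rw [if_pos h3] at h1
          rcases h3 with rfl | rfl
          · have := hno.1; omega
          · have := hno.2; omega
        · rw [if_neg h3] at h1
          omega
    · refine lt_of_le_of_ne (SimpleGraph.deleteEdges_le _) ?_
      intro h1
      have h2 : (F.deleteEdges {s(v, w)}).Adj v w := by rw [h1]; exact hvw
      rw [SimpleGraph.deleteEdges_adj] at h2
      exact h2.2 (Set.mem_singleton _)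
  obtain ⟨ρ, hρ1, hρ2, hρ3⟩ := rank_of F k hdegF hind
  let o : V → V → ℕ := fun v w => if ρ v < ρ w then ad F v w else 0
  have hosum : ∀ v w, o v w + o w v = ad F v w := by
    intro v w
    simp only [o]
    rw [ad_symm F w v]
    by_cases hvw : F.Adj v w
    · have := hρ1 v w hvw
      split_ifs <;> omega
    · rw [ad_eq_zero.2 hvw]
      split_ifs <;> rfl
  have hrow : ∀ v, ∑ w, o v w ≤ k := hρ2
  have hcol : ∀ w, ∑ v, o v w ≤ k := by
    intro w
    have h1 : ∀ v, o v w = if ρ v < ρ w then ad F w v else 0 := by
      intro v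
      simp only [o]
      rw [ad_symm F v w]
    rw [Finset.sum_congr rfl fun v _ => h1 v]
    exact hρ3 w
  obtain ⟨T, hT1, hT2, hT3, hT4, hT5⟩ := eq_classes (fun _ : V => 0) (fun _ => 1)
    (fun _ : V => 0) (fun _ => 1) (fun _ _ => 0) (fun _ _ => 1) 0 (∑ x, ∑ y, o x y) k o
    (by
      intro x
      rw [Nat.mul_zero, Nat.mul_one]
      exact ⟨Nat.zero_le _, hrow x⟩)
    (by
      intro y
      rw [Nat.mul_zero, Nat.mul_one]
      exact ⟨Nat.zero_le _, hcol y⟩)
    (by
      intro x y
      rw [Nat.mul_zero, Nat.mul_one]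
      refine ⟨Nat.zero_le _, ?_⟩
      have h1 := hosum x y
      have h2 := ad_le_one F x y
      omega)
    (by
      rw [Nat.mul_zero]
      exact ⟨Nat.zero_le _, Nat.le_mul_of_pos_left _ hk0⟩)
  have hTo : ∀ c x y, T c x y ≤ o x y := by
    intro c x y
    rw [← hT5]
    exact Finset.single_le_sum (f := fun c => T c x y) (fun i _ => Nat.zero_le _) (mem_univ c)
  have hTpos : ∀ c x y, 0 < T c x y → F.Adj x y ∧ ρ x < ρ y := by
    intro c x y h1
    have h2 := hTo c x y
    simp only [o] at h2
    split_ifs at h2 with h3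
    · exact ⟨ad_pos.1 (by omega), h3⟩
    · omega
  have hTU1 : ∀ c x y, x ∈ U → T c x y = 0 := by
    intro c x y hx
    by_contra h1
    exact (hFU x y (hTpos c x y (Nat.pos_of_ne_zero h1)).1).1 hx
  have hTU2 : ∀ c x y, y ∈ U → T c x y = 0 := by
    intro c x y hy
    by_contra h1
    exact (hFU x y (hTpos c x y (Nat.pos_of_ne_zero h1)).1).2 hy
  -- sizes
  have hq := card_Q U
  have hqU : Fintype.card {v // v ∉ U} ≤ U.card := by omega
  obtain ⟨d, hd⟩ : ∃ d, U.card = Fintype.card {v // v ∉ U} + d :=
    ⟨U.card - Fintype.card {v // v ∉ U}, by omega⟩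
  have hRS : ∀ v, ∑ c, (∑ w, T c v w + ∑ w, T c w v) = dg F v := by
    intro v
    rw [Finset.sum_add_distrib, Finset.sum_comm, Finset.sum_comm (f := fun c w => T c w v),
      ← Finset.sum_add_distrib]
    unfold dg
    apply Finset.sum_congr rfl
    intro w _
    rw [hT5, hT5, hosum]
  have hR1 : ∀ c v, ∑ w, T c v w + ∑ w, T c w v ≤ 2 := by
    intro c v
    have h1 := (hT1 c v).2
    have h2 := (hT2 c v).2
    omega
  -- the counting
  have hcount : 2 * k * d + ∑ v, dg F v ≤ U.card * (U.card - 1) := by
    have h1 : ∑ v, dg F v ≤ ∑ v ∈ Uᶜ, dg F0 v := by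
      have h2 : ∑ v, dg F v = ∑ v ∈ Uᶜ, dg F v := by
        symm
        apply Finset.sum_subset (Finset.subset_univ _)
        intro v _ hv
        rw [mem_compl, not_not] at hv
        unfold dg
        apply Finset.sum_eq_zero
        intro w _
        rw [ad_eq_zero]
        exact fun h => (hFU v w h).1 hv
      rw [h2]
      apply Finset.sum_le_sum
      intro v _
      apply dg_mono
      intro x y h
      exact ⟨hFH h, hFU x y h⟩
    have h2 : ∑ v ∈ U, dg H v = 2 * k * U.card := by
      rw [Finset.sum_congr rfl fun v _ => hreg v, Finset.sum_const, smul_eq_mul]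
      ring
    have h3 : ∑ v ∈ Uᶜ, dg H v = 2 * k * Fintype.card {v // v ∉ U} := by
      rw [Finset.sum_congr rfl fun v _ => hreg v, Finset.sum_const, smul_eq_mul,
        Finset.card_compl]
      rw [show Fintype.card V - U.card = Fintype.card {v // v ∉ U} by omega]
      ring
    have h4 : ∑ v ∈ Uᶜ, dg H v = ∑ v ∈ Uᶜ, ∑ w ∈ U, ad H v w + ∑ v ∈ Uᶜ, dg F0 v := by
      rw [← Finset.sum_add_distrib]
      apply Finset.sum_congr rfl
      intro v hv
      rw [mem_compl] at hv
      exact hsplit v hv
    have h5 : ∑ v ∈ U, dg H v = ∑ v ∈ U, ∑ w ∈ Uᶜ, ad H v w + ∑ v ∈ U, ∑ w ∈ U, ad H v w := by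
      rw [← Finset.sum_add_distrib]
      apply Finset.sum_congr rfl
      intro v _
      unfold dg
      rw [add_comm, Finset.sum_add_sum_compl]
    have h6 : ∑ v ∈ Uᶜ, ∑ w ∈ U, ad H v w = ∑ v ∈ U, ∑ w ∈ Uᶜ, ad H v w := by
      rw [Finset.sum_comm]
      apply Finset.sum_congr rfl
      intro v _
      apply Finset.sum_congr rfl
      intro w _
      exact ad_symm H w v
    have h7 : ∑ v ∈ U, ∑ w ∈ U, ad H v w ≤ U.card * (U.card - 1) := by
      rw [← smul_eq_mul]
      apply Finset.sum_le_card_nsmul
      intro v hv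
      rw [← Finset.add_sum_erase _ _ hv, ad_self, zero_add]
      refine (Finset.sum_le_card_nsmul _ _ 1 fun w _ => ad_le_one H v w).trans ?_
      rw [Finset.card_erase_of_mem hv, smul_eq_mul, Nat.mul_one]
    have h8 : 2 * k * U.card = 2 * k * Fintype.card {v // v ∉ U} + 2 * k * d := by
      rw [hd]; ring
    omega
  -- the weights and the multigraph
  let g : Option {v // v ∉ U} → ℕ := fun x => match x with
    | none => U.card
    | some _ => 1
  let a : Option {v // v ∉ U} → Option {v // v ∉ U} → ℕ := fun x y => match x, y with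
    | some v, some w => ad G v.1 w.1
    | _, _ => 1
  have ha : ∀ x y, a x y = a y x := by
    rintro (_ | v) (_ | w)
    · rfl
    · rfl
    · rfl
    · exact ad_symm G v.1 w.1
  have ha1 : ∀ x y, a x y ≤ 1 := by
    rintro (_ | v) (_ | w)
    · exact le_rfl
    · exact le_rfl
    · exact le_rfl
    · exact ad_le_one G v.1 w.1
  let f : V → Option {v // v ∉ U} := fun v => if h : v ∉ U then some ⟨v, h⟩ else none
  have hfU : ∀ v, v ∈ U → f v = none := by
    intro v hv
    simp only [f]
    rw [dif_neg (not_not.2 hv)]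
  have hfQ : ∀ v (hv : v ∉ U), f v = some ⟨v, hv⟩ := by
    intro v hv
    simp only [f]
    rw [dif_pos hv]
  have hG : ∀ u v, u ≠ v → 0 < a (f u) (f v) → G.Adj u v := by
    intro u v huv h
    by_cases hu : u ∈ U
    · exact huniv u hu v huv.symm
    · by_cases hv : v ∈ U
      · exact (huniv v hv u huv).symm
      · rw [hfQ u hu, hfQ v hv] at h
        exact ad_pos.1 h
  have hg : ∀ x, {w | f w = x}.ncard = g x := by
    rintro (_ | v)
    · have h1 : {w | f w = none} = (U : Set V) := by
        ext w
        simp only [Set.mem_ofPred_eq, Finset.mem_coe]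
        constructor
        · intro h2
          by_contra h3
          rw [hfQ w h3] at h2
          cases h2
        · exact hfU w
      rw [h1, Set.ncard_coe_finset]
    · have h1 : {w | f w = some v} = {v.1} := by
        ext w
        simp only [Set.mem_ofPred_eq, Set.mem_singleton_iff]
        constructor
        · intro h2
          by_cases h3 : w ∈ U
          · rw [hfU w h3] at h2
            cases h2
          · rw [hfQ w h3] at h2
            have h4 := Option.some.inj h2
            rw [← h4]
        · rintro rfl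
          exact hfQ v.1 v.2
      rw [h1, Set.ncard_singleton]
  have hRQ : ∀ c, ∑ v : {v // v ∉ U}, (∑ w, T c v.1 w + ∑ w, T c w v.1) =
      2 * ∑ v, ∑ w, T c v w := by
    intro c
    rw [sum_Q U (fun v => ∑ w, T c v w + ∑ w, T c w v), Finset.sum_add_distrib,
      Finset.sum_comm (f := fun v w => T c w v)]
    · ring
    · intro v hv
      rw [Finset.sum_eq_zero fun w _ => hTU1 c v w hv,
        Finset.sum_eq_zero fun w _ => hTU2 c w v hv]
      rfl
  have hSt : StL g a (fun c => um U d (T c)) := by
    refine ⟨?_, ?_, ?_, ?_, ?_, ?_, ?_⟩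
    · rintro (_ | v)
      · exact Finset.card_pos.2 hne
      · exact le_rfl
    · rintro c (_ | v) (_ | w)
      · rfl
      · rfl
      · rfl
      · exact add_comm _ _
    · rintro c (_ | v)
      · exact even_two_mul _
      · exact Even.add_self _
    · rintro (_ | v) (_ | w) hxy
      · exact absurd rfl hxy
      · simp only [um, g, a]
        have h1 : ∑ c, (2 - (∑ x, T c w.1 x + ∑ x, T c x w.1)) + dg F w.1 = 2 * k := by
          rw [← hRS, ← Finset.sum_add_distrib]
          have h2 : ∀ c, 2 - (∑ x, T c w.1 x + ∑ x, T c x w.1) +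
              (∑ x, T c w.1 x + ∑ x, T c x w.1) = 2 := fun c => Nat.sub_add_cancel (hR1 c w.1)
          rw [Finset.sum_congr rfl fun c _ => h2 c]
          simp [mul_comm]
        have h3 := hFd w.1 w.2
        omega
      · simp only [um, g, a]
        have h1 : ∑ c, (2 - (∑ x, T c v.1 x + ∑ x, T c x v.1)) + dg F v.1 = 2 * k := by
          rw [← hRS, ← Finset.sum_add_distrib]
          have h2 : ∀ c, 2 - (∑ x, T c v.1 x + ∑ x, T c x v.1) +
              (∑ x, T c v.1 x + ∑ x, T c x v.1) = 2 := fun c => Nat.sub_add_cancel (hR1 c v.1)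
          rw [Finset.sum_congr rfl fun c _ => h2 c]
          simp [mul_comm]
        have h3 := hFd v.1 v.2
        omega
      · simp only [um, g, a]
        rw [Finset.sum_add_distrib, hT5, hT5, hosum, one_mul, one_mul]
        exact ad_mono (hFH.trans hHG) _ _
    · rintro (_ | v)
      · simp only [um, g, a]
        have h1 : ∑ c, 2 * (d + ∑ v, ∑ w, T c v w) = 2 * k * d + ∑ v, dg F v := by
          have h2 : ∀ c, 2 * (d + ∑ v, ∑ w, T c v w) =
              2 * d + ∑ v, (∑ w, T c v w + ∑ w, T c w v) := by
            intro c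
            rw [Finset.sum_add_distrib, Finset.sum_comm (f := fun v w => T c w v)]
            ring
          rw [Finset.sum_congr rfl fun c _ => h2 c, Finset.sum_add_distrib,
            Finset.sum_comm (f := fun c v => (∑ w, T c v w + ∑ w, T c w v)),
            Finset.sum_congr rfl fun v _ => hRS v]
          simp
          ring
        rw [h1, Nat.mul_one]
        exact hcount
      · simp only [um, g, a]
        rw [Finset.sum_add_distrib, hT5]
        simp [o]
    · rintro c (_ | v)
      · rw [Fintype.sum_option]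
        simp only [um, g]
        have h1 : ∑ v : {v // v ∉ U}, (2 - (∑ w, T c v.1 w + ∑ w, T c w v.1)) +
            ∑ v : {v // v ∉ U}, (∑ w, T c v.1 w + ∑ w, T c w v.1) =
            2 * Fintype.card {v // v ∉ U} := by
          rw [← Finset.sum_add_distrib]
          rw [Finset.sum_congr rfl fun v _ => Nat.sub_add_cancel (hR1 c v.1)]
          rw [Finset.sum_const, Finset.card_univ, smul_eq_mul, mul_comm]
        rw [hRQ] at h1
        omega
      · rw [Fintype.sum_option]
        simp only [um, g]
        have h1 : ∑ w : {v // v ∉ U}, (T c v.1 w.1 + T c w.1 v.1) =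
            ∑ w, T c v.1 w + ∑ w, T c w v.1 := by
          rw [sum_Q U (fun w => T c v.1 w + T c w v.1), Finset.sum_add_distrib]
          intro w hw
          rw [hTU2 c v.1 w hw, hTU1 c w v.1 hw]
        rw [h1]
        exact Nat.sub_add_cancel (hR1 c v.1)
    · intro c
      have key : ∀ n : ℕ, ∀ v (hv : v ∉ U), ∑ x, ρ x - ρ v ≤ n →
          (supp (um U d (T c))).Reachable (some ⟨v, hv⟩) none := by
        intro n
        induction n with
        | zero =>
          intro v hv hn
          have h1 : ∑ w, T c v w = 0 := by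
            apply Finset.sum_eq_zero
            intro w _
            by_contra h2
            have h3 := (hTpos c v w (Nat.pos_of_ne_zero h2)).2
            have h4 := Finset.single_le_sum (f := ρ) (fun i _ => Nat.zero_le _) (mem_univ w)
            omega
          have h2 := (hT2 c v).2
          apply Adj.reachable
          refine ⟨by simp, ?_, ?_⟩
          · simp only [um]; omega
          · simp only [um]; omega
        | succ n ih =>
          intro v hv hn
          by_cases h1 : ∑ w, T c v w = 0
          · have h2 := (hT2 c v).2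
            apply Adj.reachable
            refine ⟨by simp, ?_, ?_⟩
            · simp only [um]; omega
            · simp only [um]; omega
          · obtain ⟨w, hw⟩ : ∃ w, 0 < T c v w := by
              by_contra hno
              push Not at hno
              exact h1 (Finset.sum_eq_zero fun w _ => by have := hno w; omega)
            have h3 := hTpos c v w hw
            have hwU := (hFU v w h3.1).2
            have h4 := Finset.single_le_sum (f := ρ) (fun i _ => Nat.zero_le _) (mem_univ w)
            refine Reachable.trans (Adj.reachable (?_ : (supp (um U d (T c))).Adj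
              (some ⟨v, hv⟩) (some ⟨w, hwU⟩))) (ih w hwU (by omega))
            refine ⟨?_, ?_, ?_⟩
            · intro h5
              have h6 := Option.some.inj h5
              exact h3.1.ne (congrArg Subtype.val h6)
            · simp only [um]; omega
            · simp only [um]; omega
      refine (connected_iff _).2 ⟨?_, ⟨none⟩⟩
      have hall : ∀ x, (supp (um U d (T c))).Reachable x none := by
        rintro (_ | ⟨v, hv⟩)
        · exact Reachable.refl _
        · exact key _ v hv le_rfl
      exact fun x y => (hall x).trans (hall y).symm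
  exact of_StL G f a ha ha1 hG g hg _ hSt

end Pool.Agent.Helper37Ham
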